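import Pool.Agent.SYZ71.Defs

/-!
# SYZ71/LA : algebra homomorphisms of a power series ring

All statements are elementary.
* A `k`-algebra endomorphism `φ` of `PS k d` is local: if `constantCoeff f = 0` and
  `constantCoeff (φ f) = c ≠ 0` then `f - C c` is a unit while `φ (f - C c)` is not.
* A series of order `≥ q` is a finite sum `∑_{|a| = q} X^a f_a` (any monomial of degree `≥ q` is
  divisible by one of degree exactly `q`), so `φ` does not decrease the order.  More generally, if
  `weightedOrder η (φ (X i)) ≥ η i` for all `i` then `φ` does not decrease the weighted order: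
  for a polynomial this is clear (weighted order of products and sums); for `f` with
  weighted order `≥ q` write `f = p + h`, `p` the truncation to the monomials of degree `< q`
  (a polynomial all whose monomials have `η`-weight `≥ q`), `order h ≥ q`; `φ h` has order `≥ q`,
  and `order ≥ q` implies `η`-weight `≥ q` as all `η i ≥ 1`.
* `algHom_ext`: `φ - ψ` vanishes on polynomials, and `f - trunc f` has large order.
* `sub_id`: on a monomial, `∏ (X_i + h_i) - ∏ X_i` is a sum of products each with at least one
  factor `h_i` of weight `≥ η i + 1`; then as above.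
-/

set_option autoImplicit false

open MvPowerSeries

namespace Pool.Agent.SYZ71

variable {k : Type*} [Field k] {d : ℕ}

private theorem w_single (η : Fin d → ℕ) (i : Fin d) :
    Finsupp.weight η (Finsupp.single i 1) = η i := by
  rw [Finsupp.weight_apply]
  simp

private def PP (i : Fin d) (a : Fin d →₀ ℕ) : Prop :=
  ∃ h : a ≠ 0, i = Classical.choose (Finsupp.ne_iff.1 h)

private theorem PP_pos {i : Fin d} {a : Fin d →₀ ℕ} (h : PP i a) : a i ≠ 0 := by
  obtain ⟨h1, h2⟩ := h
  have := Classical.choose_spec (Finsupp.ne_iff.1 h1)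
  rw [h2]
  simpa using this

open Classical in
/-- decomposition of a series without constant term -/
private theorem exists_decomp (f : PS k d) (hf : constantCoeff f = 0) :
    ∃ F : Fin d → PS k d, f = ∑ i, X i * F i ∧
      ∀ (η : Fin d → ℕ) (Q : ℕ), (Q : ℕ∞) ≤ f.weightedOrder η →
        ∀ i, ((Q - η i : ℕ) : ℕ∞) ≤ (F i).weightedOrder η := by
  let F : Fin d → PS k d := fun i =>
    (fun b : Fin d →₀ ℕ => if PP i (b + Finsupp.single i 1) then
      coeff (b + Finsupp.single i 1) f else 0 : (Fin d →₀ ℕ) → k)
  have hF : ∀ i b, coeff b (F i) = if PP i (b + Finsupp.single i 1) then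
      coeff (b + Finsupp.single i 1) f else 0 := fun i b => rfl
  refine ⟨F, ?_, ?_⟩
  · ext a
    rw [map_sum]
    have h1 : ∀ i, coeff a (X i * F i) = if PP i a then coeff a f else 0 := by
      intro i
      rw [X, coeff_monomial_mul]
      split_ifs with h2 h3 h3
      · have h4 : a - Finsupp.single i 1 + Finsupp.single i 1 = a := tsub_add_cancel_of_le h2
        rw [hF, h4, if_pos h3, one_mul]
      · have h4 : a - Finsupp.single i 1 + Finsupp.single i 1 = a := tsub_add_cancel_of_le h2
        rw [hF, h4, if_neg h3, mul_zero]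
      · exfalso
        apply h2
        rw [Finsupp.single_le_iff]
        exact Nat.one_le_iff_ne_zero.2 (PP_pos h3)
      · rfl
    rw [Finset.sum_congr rfl (fun i _ => h1 i)]
    by_cases ha : a = 0
    · subst ha
      rw [Finset.sum_eq_zero]
      · simpa using hf
      · intro i _
        rw [if_neg]
        rintro ⟨h, -⟩
        exact h rfl
    · rw [Finset.sum_eq_single (Classical.choose (Finsupp.ne_iff.1 ha))]
      · rw [if_pos ⟨ha, rfl⟩]
      · intro i _ hi
        rw [if_neg]
        rintro ⟨h, h'⟩
        exact hi h'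
      · intro h
        exact absurd (Finset.mem_univ _) h
  · intro η Q hQ i
    apply nat_le_weightedOrder
    intro b hb
    rw [hF]
    split_ifs with h
    · apply coeff_eq_zero_of_lt_weightedOrder η
      refine lt_of_lt_of_le ?_ hQ
      rw [map_add, w_single]
      exact_mod_cast (by omega : Finsupp.weight η b + η i < Q)
    · rfl

theorem constantCoeff_algHom (φ : PS k d →ₐ[k] PS k d) (f : PS k d)
    (hf : constantCoeff f = 0) : constantCoeff (φ f) = 0 := by
  by_contra hc
  set c := constantCoeff (φ f) with hcdef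
  have h1 : IsUnit (f - algebraMap k (PS k d) c) := by
    rw [isUnit_iff_constantCoeff, map_sub, hf, MvPowerSeries.algebraMap_apply]
    simpa using hc
  have h2 := h1.map φ
  rw [isUnit_iff_constantCoeff, map_sub, AlgHom.commutes, map_sub, MvPowerSeries.algebraMap_apply] at h2
  simp [← hcdef] at h2

private theorem le_wo_sum (η : Fin d → ℕ) (Q : ℕ∞) (s : Finset (Fin d)) (F : Fin d → PS k d)
    (h : ∀ i ∈ s, Q ≤ (F i).weightedOrder η) : Q ≤ (∑ i ∈ s, F i).weightedOrder η := by
  classical
  induction s using Finset.induction_on with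
  | empty => simp
  | insert a s ha ih =>
    rw [Finset.sum_insert ha]
    refine le_trans (le_min (h a (Finset.mem_insert_self _ _)) (ih fun i hi =>
      h i (Finset.mem_insert_of_mem hi))) (min_weightedOrder_le_add η)

private theorem le_wo_add (η : Fin d → ℕ) {Q : ℕ∞} {f g : PS k d}
    (hf : Q ≤ f.weightedOrder η) (hg : Q ≤ g.weightedOrder η) : Q ≤ (f + g).weightedOrder η :=
  le_trans (le_min hf hg) (min_weightedOrder_le_add η)

private theorem le_wo_mul (η : Fin d → ℕ) {P Q R : ℕ} {f g : PS k d}
    (hf : (P : ℕ∞) ≤ f.weightedOrder η) (hg : (Q : ℕ∞) ≤ g.weightedOrder η) (h : R ≤ P + Q) :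
    (R : ℕ∞) ≤ (f * g).weightedOrder η := by
  refine le_trans ?_ (le_weightedOrder_mul η)
  refine le_trans ?_ (add_le_add hf hg)
  exact_mod_cast h

private theorem cc_of_wo (η : Fin d → ℕ) {f : PS k d} {Q : ℕ} (hQ : 1 ≤ Q)
    (h : (Q : ℕ∞) ≤ f.weightedOrder η) : constantCoeff f = 0 := by
  rw [← coeff_zero_eq_constantCoeff_apply]
  apply coeff_eq_zero_of_lt_weightedOrder η
  refine lt_of_lt_of_le ?_ h
  rw [map_zero]
  exact_mod_cast hQ

private theorem wo_X (η : Fin d → ℕ) (i : Fin d) :
    ((η i : ℕ) : ℕ∞) ≤ (X i : PS k d).weightedOrder η := by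
  rw [X, weightedOrder_monomial_of_ne_zero η one_ne_zero, w_single]

private theorem wo_algHom (η : Fin d → ℕ) (hη : ∀ i, 1 ≤ η i) (φ : PS k d →ₐ[k] PS k d)
    (h : ∀ i, (η i : ℕ∞) ≤ (φ (X i)).weightedOrder η) (Q : ℕ) : ∀ f : PS k d,
    (Q : ℕ∞) ≤ f.weightedOrder η → (Q : ℕ∞) ≤ (φ f).weightedOrder η := by
  induction Q using Nat.strong_induction_on with
  | _ Q ih =>
    intro f hf
    rcases Nat.eq_zero_or_pos Q with h0 | h0
    · subst h0
      simp
    · obtain ⟨F, hF, hF2⟩ := exists_decomp f (cc_of_wo η h0 hf)
      rw [hF, map_sum]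
      apply le_wo_sum
      intro i _
      rw [map_mul]
      refine le_wo_mul η (h i) (ih (Q - η i) ?_ (F i) (hF2 η Q hf i)) ?_
      · have := hη i
        omega
      · omega

private theorem exists_nat_of_ne_top {x : ℕ∞} (h : x ≠ ⊤) : ∃ n : ℕ, x = n := by
  obtain ⟨n, hn⟩ := ENat.ne_top_iff_exists.mp h
  exact ⟨n, hn.symm⟩

/-- weighted version of `order_algHom_ge` -/
theorem weightedOrder_algHom_ge (η : Fin d → ℕ) (hη : ∀ i, 1 ≤ η i) (φ : PS k d →ₐ[k] PS k d)
    (h : ∀ i, (η i : ℕ∞) ≤ (φ (X i)).weightedOrder η) (f : PS k d) :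
    f.weightedOrder η ≤ (φ f).weightedOrder η := by
  by_cases hf : f.weightedOrder η = ⊤
  · rw [weightedOrder_eq_top_iff] at hf
    rw [hf, map_zero]
  · obtain ⟨n, hn⟩ := exists_nat_of_ne_top hf
    rw [hn]
    exact wo_algHom η hη φ h n f hn.symm.le

/-- an algebra endomorphism does not decrease the order -/
theorem order_algHom_ge (φ : PS k d →ₐ[k] PS k d) (f : PS k d) : f.order ≤ (φ f).order := by
  refine weightedOrder_algHom_ge (fun _ => 1) (fun _ => le_rfl) φ ?_ f
  intro i
  have h : constantCoeff (φ (X i)) = 0 := constantCoeff_algHom φ _ (constantCoeff_X i)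
  exact (one_le_order_iff_constCoeff_eq_zero).2 h

/-- an algebra automorphism preserves the order -/
theorem order_algEquiv (g : PS k d ≃ₐ[k] PS k d) (f : PS k d) : (g f).order = f.order := by
  apply le_antisymm
  · have := order_algHom_ge (g.symm : PS k d →ₐ[k] PS k d) (g f)
    simpa using this
  · exact order_algHom_ge (g : PS k d →ₐ[k] PS k d) f

theorem algHom_ext (φ ψ : PS k d →ₐ[k] PS k d) (h : ∀ i, φ (X i) = ψ (X i)) : φ = ψ := by
  have key : ∀ Q : ℕ, ∀ f : PS k d, (Q : ℕ∞) ≤ (φ f - ψ f).order := by
    intro Q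
    induction Q with
    | zero =>
      intro f
      simp
    | succ Q ih =>
      intro f
      have h1 : constantCoeff (f - algebraMap k (PS k d) (constantCoeff f)) = 0 := by
        rw [map_sub, MvPowerSeries.algebraMap_apply]
        simp
      obtain ⟨F, hF, -⟩ := exists_decomp _ h1
      have h2 : φ f - ψ f = ∑ i, φ (X i) * (φ (F i) - ψ (F i)) := by
        have h3 : f = algebraMap k (PS k d) (constantCoeff f) + ∑ i, X i * F i := by
          rw [← hF]
          ring
        calc φ f - ψ f = φ (algebraMap k (PS k d) (constantCoeff f) + ∑ i, X i * F i) -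
            ψ (algebraMap k (PS k d) (constantCoeff f) + ∑ i, X i * F i) := by rw [← h3]
          _ = ∑ i, φ (X i) * (φ (F i) - ψ (F i)) := by
            rw [map_add, map_add, AlgHom.commutes, AlgHom.commutes, map_sum, map_sum,
              add_sub_add_left_eq_sub, ← Finset.sum_sub_distrib]
            refine Finset.sum_congr rfl fun i _ => ?_
            rw [map_mul, map_mul, ← h i]
            ring
      rw [h2]
      apply le_wo_sum (fun _ => 1)
      intro i _
      refine le_wo_mul (fun _ => 1) (P := 1) (Q := Q) ?_ (ih (F i)) (by omega)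
      have h : constantCoeff (φ (X i)) = 0 := constantCoeff_algHom φ _ (constantCoeff_X i)
      exact_mod_cast (one_le_order_iff_constCoeff_eq_zero).2 h
  apply AlgHom.ext
  intro f
  rw [← sub_eq_zero, ← order_eq_top_iff]
  by_contra hne
  obtain ⟨n, hn⟩ := exists_nat_of_ne_top hne
  have := key (n + 1) f
  rw [hn] at this
  have h2 : n + 1 ≤ n := by exact_mod_cast this
  omega

theorem algEquiv_ext (g g' : PS k d ≃ₐ[k] PS k d) (h : ∀ i, g (X i) = g' (X i)) : g = g' := by
  have := algHom_ext (g : PS k d →ₐ[k] PS k d) (g' : PS k d →ₐ[k] PS k d) h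
  exact AlgEquiv.ext fun x => DFunLike.congr_fun this x

/-- substitution of series without constant term -/
theorem exists_algHom (a : Fin d → PS k d) (ha : ∀ i, constantCoeff (a i) = 0) :
    ∃ φ : PS k d →ₐ[k] PS k d, ∀ i, φ (X i) = a i :=
  ⟨substAlgHom (hasSubst_of_constantCoeff_zero ha), fun i => substAlgHom_X _ i⟩

/-- an endomorphism which is the identity up to higher weight raises the weight after
subtracting the identity -/
theorem weightedOrder_sub_id (η : Fin d → ℕ) (hη : ∀ i, 1 ≤ η i) (φ : PS k d →ₐ[k] PS k d)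
    (h : ∀ i, ((η i + 1 : ℕ) : ℕ∞) ≤ (φ (X i) - X i).weightedOrder η) (f : PS k d) :
    f.weightedOrder η + 1 ≤ (φ f - f).weightedOrder η := by
  have hφ : ∀ i, (η i : ℕ∞) ≤ (φ (X i)).weightedOrder η := by
    intro i
    have h1 : φ (X i) = (φ (X i) - X i) + X i := by ring
    rw [h1]
    refine le_wo_add η (le_trans ?_ (h i)) (wo_X η i)
    exact_mod_cast Nat.le_succ _
  have key : ∀ Q : ℕ, ∀ f : PS k d, (Q : ℕ∞) ≤ f.weightedOrder η →
      ((Q + 1 : ℕ) : ℕ∞) ≤ (φ f - f).weightedOrder η := by
    intro Q
    induction Q using Nat.strong_induction_on with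
    | _ Q ih =>
      intro f hf
      have main : ∀ Q' : ℕ, ∀ f : PS k d, constantCoeff f = 0 → (Q' : ℕ∞) ≤ f.weightedOrder η →
          (∀ m < Q', ∀ f : PS k d, (m : ℕ∞) ≤ f.weightedOrder η →
            ((m + 1 : ℕ) : ℕ∞) ≤ (φ f - f).weightedOrder η) → 
          ((Q' + 1 : ℕ) : ℕ∞) ≤ (φ f - f).weightedOrder η ∨ Q' = 0 := by
        intro Q' f hc hf' ih'
        rcases Nat.eq_zero_or_pos Q' with h0 | h0
        · right; exact h0
        · left
          obtain ⟨F, hF, hF2⟩ := exists_decomp f hc
          have h2 : φ f - f = ∑ i, ((φ (X i) - X i) * φ (F i) + X i * (φ (F i) - F i)) := by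
            calc φ f - f = φ (∑ i, X i * F i) - ∑ i, X i * F i := by rw [← hF]
              _ = ∑ i, ((φ (X i) - X i) * φ (F i) + X i * (φ (F i) - F i)) := by
                rw [map_sum, ← Finset.sum_sub_distrib]
                refine Finset.sum_congr rfl fun i _ => ?_
                rw [map_mul]
                ring
          rw [h2]
          apply le_wo_sum
          intro i _
          have h3 := hF2 η Q' hf' i
          have h4 := hη i
          apply le_wo_add
          · exact le_wo_mul η (h i) (wo_algHom η hη φ hφ _ _ h3) (by omega)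
          · exact le_wo_mul η (wo_X η i) (ih' (Q' - η i) (by omega) (F i) h3) (by omega)
      rcases Nat.eq_zero_or_pos Q with h0 | h0
      · subst h0
        have h1 : constantCoeff (f - algebraMap k (PS k d) (constantCoeff f)) = 0 := by
          rw [map_sub, MvPowerSeries.algebraMap_apply]
          simp
        have h2 : φ f - f = φ (f - algebraMap k (PS k d) (constantCoeff f)) -
            (f - algebraMap k (PS k d) (constantCoeff f)) := by
          rw [map_sub, AlgHom.commutes]
          ring
        have h3 : constantCoeff (φ f - f) = 0 := by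
          rw [h2, map_sub, h1, constantCoeff_algHom φ _ h1, sub_zero]
        apply nat_le_weightedOrder
        intro a ha
        have h4 : a = 0 := by
          by_contra hne
          obtain ⟨i, hi⟩ := Finsupp.ne_iff.1 hne
          have h5 : a i * η i ≤ Finsupp.weight η a := by
            rw [Finsupp.weight_apply, Finsupp.sum_fintype _ _ (by simp)]
            have := Finset.single_le_sum (f := fun j => a j • η j) (s := Finset.univ)
              (fun j _ => Nat.zero_le _) (Finset.mem_univ i)
            simpa using this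
          have h6 := hη i
          have h7 : 1 ≤ a i := Nat.one_le_iff_ne_zero.2 (by simpa using hi)
          have h8 : 1 * 1 ≤ a i * η i := Nat.mul_le_mul h7 h6
          omega
        rw [h4, coeff_zero_eq_constantCoeff_apply]
        exact h3
      · rcases main Q f (cc_of_wo η h0 hf) hf ih with h1 | h1
        · exact h1
        · omega
  by_cases hf : f.weightedOrder η = ⊤
  · rw [weightedOrder_eq_top_iff] at hf
    rw [hf, map_zero, sub_zero]
    simp
  · obtain ⟨n, hn⟩ := exists_nat_of_ne_top hf
    rw [hn]
    have := key n f hn.symm.le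
    exact_mod_cast this

/-- comparison of weighted order and order, `η i < 2 d` for all `i`: if the weighted order is at
least `2 d q` then the order is at least `q` -/
theorem order_ge_of_weightedOrder (hd : 1 ≤ d) (η : Fin d → ℕ) (hη : ∀ i, η i < 2 * d)
    (f : PS k d) (q : ℕ)
    (h : ((2 * d * q : ℕ) : ℕ∞) ≤ f.weightedOrder η) : (q : ℕ∞) ≤ f.order := by
  apply nat_le_order
  intro a ha
  apply coeff_eq_zero_of_lt_weightedOrder η
  refine lt_of_lt_of_le ?_ h
  have h1 : Finsupp.weight η a ≤ 2 * d * Finsupp.degree a := by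
    rw [Finsupp.weight_apply, Finsupp.sum_fintype _ _ (by simp), Finsupp.degree_eq_sum,
      Finset.mul_sum]
    refine Finset.sum_le_sum fun i _ => ?_
    rw [smul_eq_mul, mul_comm]
    exact Nat.mul_le_mul_right _ (hη i).le
  have h2 : 2 * d * Finsupp.degree a < 2 * d * q := Nat.mul_lt_mul_of_pos_left ha (by omega)
  exact_mod_cast lt_of_le_of_lt h1 h2

end Pool.Agent.SYZ71
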