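import Mathlib

/-!
# SYZ71/LDet : a determinant whose rows are nearly in a module with few generators

`A = B Ψ + c R` with `B : n × m`: then `c ^ (|n| - |m|) ∣ det A`.
-/

set_option autoImplicit false

open Matrix

namespace Pool.Agent.SYZ71

/-- If the rows in `s`, `|s| > |m|`, factor through `m` the determinant vanishes. -/
theorem det_eq_zero_of_factor {R : Type*} [CommRing R] [IsDomain R] {n m : Type*} [Fintype n]
    [DecidableEq n] [Fintype m] (B : Matrix n m R) (Ψ : Matrix m n R) (s : Finset n)
    (hs : Fintype.card m < s.card) (A : n → n → R)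
    (hA : ∀ i ∈ s, A i = B i ᵥ* Ψ) : Matrix.detRowAlternating A = 0 := by
  classical
  apply AlternatingMap.map_linearDependent
  intro hlin
  have h1 : LinearIndependent R (fun i : s => A i) := hlin.comp _ Subtype.val_injective
  have h2 : LinearIndependent R (fun i : s => B i) := by
    apply LinearIndependent.of_comp (Matrix.vecMulLinear Ψ)
    convert h1 using 1
    funext i
    simp [hA i.1 i.2]
  have h3 := h2.fintype_card_le_finrank
  rw [Module.finrank_fintype_fun_eq_card, Fintype.card_coe] at h3
  omega

/-- `A = B Ψ + c R'` with `B : n × m`: then `c ^ (|n| - |m|) ∣ det A`. -/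
theorem dvd_det_of_factor {R : Type*} [CommRing R] [IsDomain R] {n m : Type*} [Fintype n]
    [DecidableEq n] [Fintype m] (B : Matrix n m R) (Ψ : Matrix m n R) (R' A : Matrix n n R) (c : R)
    (hA : A = B * Ψ + c • R') : c ^ (Fintype.card n - Fintype.card m) ∣ A.det := by
  classical
  let P : n → n → R := fun i => B i ᵥ* Ψ
  let Q : n → n → R := fun i j => c * R' i j
  have hdet : A.det = Matrix.detRowAlternating (P + Q) := by
    have : (Matrix.of (P + Q) : Matrix n n R) = A := by
      rw [hA]
      ext i j
      simp [P, Q, Matrix.mul_apply, Matrix.vecMul, dotProduct]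
    rw [← this]
    rfl
  rw [hdet, AlternatingMap.map_add_univ]
  refine Finset.dvd_sum fun s _ => ?_
  by_cases hs : Fintype.card m < s.card
  · have : Matrix.detRowAlternating (s.piecewise P Q) = 0 :=
      det_eq_zero_of_factor B Ψ s hs (s.piecewise P Q)
        (fun i hi => by rw [Finset.piecewise_eq_of_mem _ _ _ hi])
    rw [this]
    exact dvd_zero _
  · have h1 : s.piecewise P Q =
        fun i => (s.piecewise (fun _ => (1 : R)) (fun _ => c) i) •
          (s.piecewise P (fun i => R' i) i) := by
      funext i
      by_cases hi : i ∈ s
      · simp [hi]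
      · simp only [hi, not_false_eq_true, Finset.piecewise_eq_of_notMem]
        rfl
    rw [h1]
    have h2 := (Matrix.detRowAlternating (R := R) (n := n)).toMultilinearMap.map_smul_univ
      (s.piecewise (fun _ => (1 : R)) (fun _ => c))
      (s.piecewise P (fun i => R' i))
    have h3 : Matrix.detRowAlternating (fun i => (s.piecewise (fun _ => (1 : R)) (fun _ => c) i) •
          (s.piecewise P (fun i => R' i) i)) =
        (∏ i, s.piecewise (fun _ => (1 : R)) (fun _ => c) i) •
          Matrix.detRowAlternating (s.piecewise P (fun i => R' i)) := h2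
    rw [h3, smul_eq_mul]
    apply Dvd.dvd.mul_right
    rw [Finset.prod_piecewise]
    simp only [Finset.univ_inter, Finset.prod_const_one, one_mul, Finset.prod_const]
    apply pow_dvd_pow
    rw [Finset.card_sdiff]
    simp only [Finset.inter_univ, Finset.card_univ]
    omega

end Pool.Agent.SYZ71
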