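import Pool.Agent.SYZ71.LNB

/-!
# SYZ71/LNC : few functionals

`ev : P → A` a `k`-algebra homomorphism such that `ev ∘ Y_l` is an `A`-combination of the
`ev ∘ E_j` and of the `ev ∘ Y_m`, `m ∈ J`.  Then on the series of torus weight `μ` each functional
`ev ∘ (∑ v_l Y_l)^p`, `p < Θ`, is an `A`-combination of the `Θ^|J|` functionals
`ev ∘ ∏_{m ∈ J} Y_m^(λ_m)`, `λ_m < Θ`.
-/

set_option autoImplicit false

open MvPowerSeries

namespace Pool.Agent.SYZ71.LN

open scoped IsMulCommutative in
/-- monomials in commuting operators -/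
theorem exists_mon {k V : Type*} [Field k] [AddCommGroup V] [Module k V] {r : ℕ}
    (T : Fin r → Module.End k V) (hT : ∀ l m, T l * T m = T m * T l) (J : Finset (Fin r)) :
    ∃ mon : (J → ℕ) → Module.End k V, mon 0 = 1 ∧
      (∀ (e : J → ℕ) (l : Fin r), mon e * T l = T l * mon e) ∧
      ∀ (e : J → ℕ) (m : J), mon (e + Pi.single m 1) = T m * mon e := by
  classical
  have hS : IsMulCommutative (Algebra.adjoin k (Set.range T)) := by
    apply Algebra.isMulCommutative_adjoin
    rintro _ ⟨l, rfl⟩ _ ⟨m, rfl⟩
    exact hT l m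
  let y : Fin r → Algebra.adjoin k (Set.range T) := fun l =>
    ⟨T l, Algebra.subset_adjoin ⟨l, rfl⟩⟩
  refine ⟨fun e => ((∏ m : J, y m ^ e m : Algebra.adjoin k (Set.range T)) : Module.End k V),
    ?_, ?_, ?_⟩
  · simp
  · intro e l
    have h := mul_comm (∏ m : J, y m ^ e m) (y l)
    exact congrArg Subtype.val h
  · intro e m
    have h : (∏ m' : J, y m' ^ ((e + Pi.single m 1 : J → ℕ) m')) = y m * ∏ m' : J, y m' ^ e m' := by
      simp only [Pi.add_apply, pow_add, Finset.prod_mul_distrib]
      rw [mul_comm]
      congr 1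
      rw [Finset.prod_eq_single m]
      · simp
      · intro b _ hb
        rw [Pi.single_eq_of_ne hb, pow_zero]
      · intro h
        exact absurd (Finset.mem_univ _) h
    exact congrArg Subtype.val h

variable {k : Type*} [Field k] {d r s : ℕ} {κ : Fin d → Fin s → ℤ}

theorem exists_functionals {A : Type*} [CommRing A] [Algebra k A] (ev : PS k d →ₐ[k] A)
    (Y : Fin r → Derivation k (PS k d) (PS k d)) (hY : ∀ l i, IsHom κ (κ i) (Y l (X i)))
    (hcomm : ∀ l m, ⁅Y l, Y m⁆ = 0) (J : Finset (Fin r)) (b : Fin r → Fin s → A)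
    (a : Fin r → J → A)
    (hrel : ∀ l (h : PS k d), ev (Y l h) =
      ∑ j, b l j * ev (euler k κ j h) + ∑ m, a l m * ev (Y m h)) :
    ∃ mon : (J → ℕ) → PS k d → PS k d, ∀ (Θ : ℕ) (v : Fin r → k) (c : ℕ → k) (μ : Fin s → ℤ),
      ∃ Ψ : (J → Fin Θ) → A, ∀ h, IsHom κ μ h →
        ev (∑ p ∈ Finset.range Θ, c p •
          (((∑ l, v l • (Y l : PS k d →ₗ[k] PS k d)) : Module.End k (PS k d)) ^ p) h) =
        ∑ e, Ψ e * ev (mon (fun m => (e m : ℕ)) h) := by
  classical
  let T : Fin r → Module.End k (PS k d) := fun l => (Y l : PS k d →ₗ[k] PS k d)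
  have hTa : ∀ l f, T l f = Y l f := fun _ _ => rfl
  have hT : ∀ l m, T l * T m = T m * T l := by
    intro l m
    ext1 f
    have h := congrArg (fun D : Derivation k (PS k d) (PS k d) => D f) (hcomm l m)
    simp only [Derivation.commutator_apply, Derivation.zero_apply] at h
    exact sub_eq_zero.1 h
  obtain ⟨mon, mon0, monc, mons⟩ := exists_mon T hT J
  -- operators preserving homogeneity
  have hTh : ∀ l μ h, IsHom κ μ h → IsHom κ μ (T l h) := fun l μ h hh =>
    isHom_derivation (Y l) (hY l) hh
  have hmonh : ∀ (n : ℕ) (e : J → ℕ), ∑ m, e m = n → ∀ μ h, IsHom κ μ h →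
      IsHom κ μ (mon e h) := by
    intro n
    induction n with
    | zero =>
      intro e he μ h hh
      have : e = 0 := by
        funext m
        exact (Finset.sum_eq_zero_iff.1 he) m (Finset.mem_univ _)
      rw [this, mon0]
      exact hh
    | succ n ih =>
      intro e he μ h hh
      obtain ⟨m, hm⟩ : ∃ m, e m ≠ 0 := by
        by_contra hcon
        push Not at hcon
        simp [hcon] at he
      have hsplit : e = (Function.update e m (e m - 1)) + Pi.single m 1 := by
        funext x
        by_cases hx : x = m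
        · subst hx; simp; omega
        · simp [Function.update_of_ne hx, Pi.single_eq_of_ne hx]
      have hsum : ∑ x, (Function.update e m (e m - 1)) x = n := by
        have h1 := congrArg (fun f : J → ℕ => ∑ x, f x) hsplit
        simp only [Pi.add_apply, Finset.sum_add_distrib, Finset.sum_pi_single', he,
          Finset.mem_univ, if_true] at h1
        omega
      rw [hsplit, mons]
      exact hTh _ _ _ (ih _ hsum μ h hh)
  have hmh : ∀ (e : J → ℕ) μ h, IsHom κ μ h → IsHom κ μ (mon e h) := fun e => hmonh _ e rfl
  refine ⟨fun e h => mon e h, fun Θ v c μ => ?_⟩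
  let R : Module.End k (PS k d) := ∑ l, v l • T l
  have hRa : ∀ f, R f = ∑ l, v l • Y l f := by
    intro f
    simp only [R, LinearMap.sum_apply, LinearMap.smul_apply]
    rfl
  have evs : ∀ (x : k) (f : PS k d), ev (x • f) = algebraMap k A x * ev f := by
    intro x f
    rw [map_smul, Algebra.smul_def]
  -- functionals on series of weight `μ`
  let H := {h : PS k d // IsHom κ μ h}
  let F : (J → ℕ) → H → A := fun e h => ev (mon e h.1)
  let RH : H → H := fun h => ⟨R h.1, by
    rw [hRa]
    exact isHom_sum _ _ fun l _ => isHom_smul _ (hTh l μ h.1 h.2)⟩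
  let N : ℕ → Submodule A (H → A) := fun p =>
    Submodule.span A {G | ∃ e : J → ℕ, ∑ m, e m ≤ p ∧ G = F e}
  have hstep : ∀ p (G : H → A), G ∈ N p → (fun h => G (RH h)) ∈ N (p + 1) := by
    intro p G hG
    induction hG using Submodule.span_induction with
    | mem G hG =>
      obtain ⟨e, he, rfl⟩ := hG
      have h1 : (fun h => F e (RH h)) =
          (∑ l, algebraMap k A (v l) * ∑ j, b l j * algebraMap k A (μ j)) • F e +
            ∑ m : J, (∑ l, algebraMap k A (v l) * a l m) • F (e + Pi.single m 1) := by
        funext h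
        have hc : mon e (R h.1) = R (mon e h.1) := by
          have : mon e * R = R * mon e := by
            simp only [R, Finset.mul_sum, Finset.sum_mul, mul_smul_comm, smul_mul_assoc, monc]
          exact congrArg (fun D : Module.End k (PS k d) => D h.1) this
        have h0 : F e (RH h) = ∑ l, algebraMap k A (v l) * ev (Y l (mon e h.1)) := by
          change ev (mon e (R h.1)) = _
          rw [hc, hRa, map_sum]
          exact Finset.sum_congr rfl fun l _ => evs _ _
        rw [h0]
        simp only [Pi.add_apply, Finset.sum_apply, Pi.smul_apply, smul_eq_mul, F, mons]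
        have h2 : ∀ l, ev (Y l (mon e h.1)) = (∑ j, b l j * algebraMap k A (μ j)) * ev (mon e h.1)
            + ∑ m, a l m * ev (Y m (mon e h.1)) := by
          intro l
          rw [hrel]
          congr 1
          rw [Finset.sum_mul]
          refine Finset.sum_congr rfl fun j _ => ?_
          rw [euler_of_isHom j (hmh e μ h.1 h.2), evs]
          ring
        have h3 : ∀ l, algebraMap k A (v l) * ev (Y l (mon e h.1)) =
            algebraMap k A (v l) * (∑ j, b l j * algebraMap k A (μ j)) * ev (mon e h.1) +
              ∑ m, algebraMap k A (v l) * a l m * ev (Y m (mon e h.1)) := by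
          intro l
          conv_lhs => rw [h2 l]
          rw [mul_add, Finset.mul_sum]
          congr 1
          · ring
          · exact Finset.sum_congr rfl fun m _ => by ring
        rw [Finset.sum_congr rfl fun l _ => h3 l, Finset.sum_add_distrib, Finset.sum_mul,
          Finset.sum_comm]
        congr 1
        refine Finset.sum_congr rfl fun m _ => ?_
        rw [Finset.sum_mul]
        rfl
      rw [h1]
      refine Submodule.add_mem _ (Submodule.smul_mem _ _ (Submodule.subset_span ⟨e, by omega, rfl⟩))
        (Submodule.sum_mem _ fun m _ => Submodule.smul_mem _ _ (Submodule.subset_span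
          ⟨e + Pi.single m 1, ?_, rfl⟩))
      simp only [Pi.add_apply, Finset.sum_add_distrib]
      have h2 : ∑ x, (Pi.single m 1 : J → ℕ) x = 1 := by simp
      rw [h2]
      omega
    | zero => exact Submodule.zero_mem _
    | add G G' _ _ h h' => exact Submodule.add_mem _ h h'
    | smul c G _ h => exact Submodule.smul_mem _ c h
  have hpow : ∀ p, (fun h : H => ev ((R ^ p) h.1)) ∈ N p := by
    intro p
    induction p with
    | zero =>
      apply Submodule.subset_span
      refine ⟨0, by simp, ?_⟩
      funext h
      simp [F, mon0]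
    | succ p ih =>
      have h1 : (fun h : H => ev ((R ^ (p + 1)) h.1)) = fun h => (fun h : H => ev ((R ^ p) h.1)) (RH h) := by
        funext h
        rw [pow_succ]
        rfl
      rw [h1]
      exact hstep p _ ih
  have htot : (fun h : H => ev (∑ p ∈ Finset.range Θ, c p • (R ^ p) h.1)) ∈
      Submodule.span A (Set.range fun e : J → Fin Θ => F fun m => (e m : ℕ)) := by
    have h1 : (fun h : H => ev (∑ p ∈ Finset.range Θ, c p • (R ^ p) h.1)) =
        ∑ p ∈ Finset.range Θ, algebraMap k A (c p) • fun h : H => ev ((R ^ p) h.1) := by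
      funext h
      simp only [map_sum, evs, Finset.sum_apply, Pi.smul_apply, smul_eq_mul]
    rw [h1]
    refine Submodule.sum_mem _ fun p hp => Submodule.smul_mem _ _ ?_
    refine (Submodule.span_le.2 ?_ : N p ≤ _) (hpow p)
    rintro _ ⟨e, he, rfl⟩
    have hlt : ∀ m, e m < Θ := fun m =>
      lt_of_le_of_lt ((Finset.single_le_sum (fun _ _ => Nat.zero_le _) (Finset.mem_univ m)).trans he)
        (Finset.mem_range.1 hp)
    exact Submodule.subset_span ⟨fun m => ⟨e m, hlt m⟩, rfl⟩
  obtain ⟨Ψ, hΨ⟩ := (Submodule.mem_span_range_iff_exists_fun A).1 htot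
  refine ⟨Ψ, fun h hh => ?_⟩
  have := congrFun hΨ ⟨h, hh⟩
  simp only [Finset.sum_apply, Pi.smul_apply, smul_eq_mul, F] at this
  exact this.symm

end Pool.Agent.SYZ71.LN
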