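import Pool.Agent.SYZ71.LA

/-!
# SYZ71/LB : derivations of a power series ring

* `derivation_eq`: `D' = D - ∑ D(X_i) ∂_i` is a derivation which vanishes on all `X_i`, hence on
  polynomials; a series of order `≥ q` is a finite sum `∑_{|a|=q} X^a f_a`, so `D'` of it has
  order `≥ q` (`D'(X^a) = 0`); so `D' f` has order `≥ q` for all `q`.
* `weightedOrder_derivation`: on `f` use `derivation_eq` and
  `weightedOrder (pderiv i f) + η i ≥ weightedOrder f` (coefficient formula `coeff_pderiv`).
* `eq_of_pderiv_zero`: characteristic `0`.
-/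

set_option autoImplicit false

open MvPowerSeries

namespace Pool.Agent.SYZ71

variable {k : Type*} [Field k] {d : ℕ}

/-- a series without constant term is a combination of the coordinates -/
private theorem exists_decomp (f : PS k d) (hf : constantCoeff f = 0) :
    ∃ g : Fin d → PS k d, f = ∑ i, X i * g i := by
  classical
  let h : Fin d → PS k d := fun i n =>
    if n i ≠ 0 ∧ ∀ j < i, n j = 0 then coeff n f else 0
  have hc : ∀ i n, coeff n (h i) = if n i ≠ 0 ∧ ∀ j < i, n j = 0 then coeff n f else 0 :=
    fun i n => rfl
  have hdvd : ∀ i, (X i : PS k d) ∣ h i := by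
    intro i
    rw [X_dvd_iff]
    intro m hm
    rw [hc, if_neg]
    intro h'
    exact h'.1 hm
  choose g hg using hdvd
  refine ⟨g, ?_⟩
  have : f = ∑ i, h i := by
    ext n
    rw [map_sum]
    simp only [hc]
    by_cases hn : n = 0
    · subst hn
      simp [hf]
    · have hne : (Finset.univ.filter (fun i : Fin d => n i ≠ 0)).Nonempty := by
        obtain ⟨i, hi⟩ := Finsupp.ne_iff.mp hn
        exact ⟨i, by simpa using hi⟩
      set i0 := (Finset.univ.filter (fun i : Fin d => n i ≠ 0)).min' hne with hi0
      have h1 : n i0 ≠ 0 := by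
        have := Finset.min'_mem _ hne
        rw [← hi0] at this
        simpa using this
      have h2 : ∀ j < i0, n j = 0 := by
        intro j hj
        by_contra hj0
        have : i0 ≤ j := Finset.min'_le _ _ (by simpa using hj0)
        exact absurd hj (not_lt.mpr this)
      rw [Finset.sum_eq_single i0]
      · rw [if_pos ⟨h1, h2⟩]
      · intro b _ hb
        rw [if_neg]
        rintro ⟨hb1, hb2⟩
        rcases lt_trichotomy b i0 with hlt | heq | hgt
        · exact hb1 (h2 b hlt)
        · exact hb heq
        · exact h1 (hb2 i0 hgt)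
      · intro hni
        exact absurd (Finset.mem_univ _) hni
  rw [this]
  exact Finset.sum_congr rfl (fun i _ => hg i)

/-- a derivation which kills the coordinates is zero -/
private theorem eq_zero_of_X (E : Derivation k (PS k d) (PS k d))
    (h : ∀ i, E (X i) = 0) (f : PS k d) : E f = 0 := by
  have key : ∀ q : ℕ, ∀ f : PS k d, (q : ℕ∞) ≤ (E f).order := by
    intro q
    induction q with
    | zero => intro f; simp
    | succ q ih =>
      intro f
      obtain ⟨g, hg⟩ := exists_decomp (f - C (constantCoeff f)) (by simp)
      have hE : E f = ∑ i, X i * E (g i) := by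
        have h1 : f = C (constantCoeff f) + ∑ i, X i * g i := by rw [← hg]; ring
        have h2 : E (C (constantCoeff f)) = 0 := by
          have : (C (constantCoeff f) : PS k d) = algebraMap k (PS k d) (constantCoeff f) := rfl
          rw [this]
          exact E.map_algebraMap _
        calc E f = E (C (constantCoeff f) + ∑ i, X i * g i) := by rw [← h1]
          _ = ∑ i, E (X i * g i) := by rw [map_add, h2, zero_add, map_sum]
          _ = ∑ i, X i * E (g i) := by
            refine Finset.sum_congr rfl (fun i _ => ?_)
            rw [Derivation.leibniz, h i]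
            simp
      rw [hE]
      refine le_order ?_
      intro n hn
      rw [map_sum]
      refine Finset.sum_eq_zero (fun i _ => ?_)
      apply coeff_of_lt_order
      refine lt_of_lt_of_le hn ?_
      refine le_trans ?_ (le_order_mul (f := X i) (g := E (g i)))
      have hX : (1 : ℕ∞) ≤ (X i : PS k d).order := by
        rw [one_le_order_iff_constCoeff_eq_zero]
        simp
      calc ((q + 1 : ℕ) : ℕ∞) = 1 + (q : ℕ∞) := by push_cast; ring
        _ ≤ _ := add_le_add hX (ih (g i))
  rw [← order_eq_top_iff]
  rw [← top_le_iff]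
  by_contra hlt
  rw [not_le] at hlt
  obtain ⟨n, hn⟩ := ENat.ne_top_iff_exists.mp (ne_of_lt hlt)
  have := key (n + 1) f
  rw [← hn] at this
  exact absurd (Nat.cast_le.mp this) (by omega)

private theorem sum_pderiv_X (a : Fin d → PS k d) (j : Fin d) :
    ∑ i, a i * pderiv k i (X j : PS k d) = a j := by
  classical
  rw [Finset.sum_eq_single j]
  · simp
  · intro b _ hb
    rw [pderiv_X_of_ne (Ne.symm hb), mul_zero]
  · intro h
    exact absurd (Finset.mem_univ _) h

private theorem sum_smul_apply (a : Fin d → PS k d) (f : PS k d) :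
    (∑ i, a i • pderiv k i : Derivation k (PS k d) (PS k d)) f = ∑ i, a i * pderiv k i f := by
  have h := map_sum (Derivation.coeFnAddMonoidHom (R := k) (A := PS k d) (M := PS k d))
    (fun i => a i • pderiv k i) Finset.univ
  have h2 := congrFun h f
  rw [Finset.sum_apply] at h2
  exact h2

theorem derivation_eq (D : Derivation k (PS k d) (PS k d)) (f : PS k d) :
    D f = ∑ i, D (X i) * pderiv k i f := by
  have h := eq_zero_of_X (D - ∑ i, D (X i) • pderiv k i) (by
    intro j
    rw [Derivation.sub_apply, sum_smul_apply, sum_pderiv_X (fun i => D (X i)) j, sub_self]) f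
  rw [Derivation.sub_apply, sum_smul_apply, sub_eq_zero] at h
  exact h

theorem derivation_ext (D D' : Derivation k (PS k d) (PS k d))
    (h : ∀ i, D (X i) = D' (X i)) : D = D' := by
  ext1 f
  rw [derivation_eq D f, derivation_eq D' f]
  exact Finset.sum_congr rfl (fun i _ => by rw [h i])

theorem derivation_eq_sum (D : Derivation k (PS k d) (PS k d)) :
    D = ∑ i, D (X i) • pderiv k i := by
  ext1 f
  rw [sum_smul_apply, ← derivation_eq D f]

/-- the derivation with prescribed values on the coordinates -/
noncomputable def mkDer (a : Fin d → PS k d) : Derivation k (PS k d) (PS k d) :=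
  ∑ i, a i • pderiv k i

theorem mkDer_X (a : Fin d → PS k d) (i : Fin d) : mkDer a (X i) = a i := by
  rw [mkDer, sum_smul_apply, sum_pderiv_X a i]

private theorem weightedOrder_pderiv (η : Fin d → ℕ) (i : Fin d) (f : PS k d) :
    f.weightedOrder η ≤ (pderiv k i f).weightedOrder η + η i := by
  by_cases htop : (pderiv k i f).weightedOrder η = ⊤
  · rw [htop]; simp
  obtain ⟨N, hN⟩ := ENat.ne_top_iff_exists.mp htop
  obtain ⟨n, hn, hw⟩ := exists_coeff_ne_zero_and_weightedOrder (f := pderiv k i f) η (by
    rw [← hN]; simp)
  rw [← hw]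
  rw [coeff_pderiv] at hn
  have h1 := left_ne_zero_of_mul hn
  refine le_trans (weightedOrder_le η h1) ?_
  rw [map_add]
  have : (Finsupp.weight η) (Finsupp.single i 1) = η i := by
    rw [Finsupp.weight_single]; simp
  rw [this]
  push_cast
  exact le_rfl

theorem weightedOrder_derivation (η : Fin d → ℕ) (m : ℕ) (D : Derivation k (PS k d) (PS k d))
    (h : ∀ i, ((η i + m : ℕ) : ℕ∞) ≤ (D (X i)).weightedOrder η) (f : PS k d) :
    f.weightedOrder η + m ≤ (D f).weightedOrder η := by
  rw [derivation_eq D f]
  apply le_weightedOrder
  intro n hn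
  rw [map_sum]
  refine Finset.sum_eq_zero (fun i _ => ?_)
  apply coeff_eq_zero_of_lt_weightedOrder (w := η)
  refine lt_of_lt_of_le hn ?_
  refine le_trans ?_ (le_weightedOrder_mul (w := η) (f := D (X i)) (g := pderiv k i f))
  calc f.weightedOrder η + m ≤ ((pderiv k i f).weightedOrder η + η i) + m :=
        add_le_add (weightedOrder_pderiv η i f) le_rfl
    _ = ((η i + m : ℕ) : ℕ∞) + (pderiv k i f).weightedOrder η := by push_cast; ring
    _ ≤ _ := add_le_add (h i) le_rfl

theorem eq_C_of_pderiv_eq_zero [CharZero k] (f : PS k d) (h : ∀ i, pderiv k i f = 0) :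
    f = C (constantCoeff f) := by
  apply pderiv.ext
  · intro i
    rw [h i, pderiv_C]
  · simp

theorem order_derivation_ge (D : Derivation k (PS k d) (PS k d))
    (h : ∀ i, constantCoeff (D (X i)) = 0) (f : PS k d) : f.order ≤ (D f).order := by
  have := weightedOrder_derivation (fun _ => 1) 0 D (by
    intro i
    have h1 := one_le_order_iff_constCoeff_eq_zero.mpr (h i)
    simpa [order] using h1) f
  simpa [order] using this

end Pool.Agent.SYZ71
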