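import Pool.Agent.SYZ71.LA

/-!
# SYZ71/LC : the line `x_t = t ξ`

`arc ξ f = f(t ξ)`: the coefficient of `t^q` is the value at `ξ` of the homogeneous part of degree
`q` of `f`.  It is a `k`-algebra homomorphism to `k⟦t⟧` (substitution `X_i ↦ ξ_i t`).  For `ξ`
outside a hypersurface the order of `arc ξ f` is the order of `f` (a nonzero polynomial over the
infinite field `k` has a nonzero value; take the product of the leading forms of the members of `S`
and of the coordinates).
-/

set_option autoImplicit false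

open MvPowerSeries

namespace Pool.Agent.SYZ71

variable {k : Type*} [Field k] {d : ℕ}

/-- restriction of a power series to the line `t ↦ t ξ` -/
noncomputable def arc (ξ : Fin d → k) : PS k d →ₐ[k] PowerSeries k :=
  MvPowerSeries.substAlgHom (R := k) (S := k)
    (a := fun i => (PowerSeries.C (ξ i) * PowerSeries.X : PowerSeries k))
    (MvPowerSeries.hasSubst_of_constantCoeff_zero (fun i => by
      change PowerSeries.constantCoeff (PowerSeries.C (ξ i) * PowerSeries.X) = 0
      simp))

theorem arc_hasSubst (ξ : Fin d → k) :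
    MvPowerSeries.HasSubst (fun i => (PowerSeries.C (ξ i) * PowerSeries.X : PowerSeries k)) :=
  MvPowerSeries.hasSubst_of_constantCoeff_zero (fun i => by
      change PowerSeries.constantCoeff (PowerSeries.C (ξ i) * PowerSeries.X) = 0
      simp)

theorem arc_X (ξ : Fin d → k) (i : Fin d) :
    arc ξ (X i) = PowerSeries.C (ξ i) * PowerSeries.X := by
  unfold arc
  exact MvPowerSeries.substAlgHom_X (R := k) (S := k) (arc_hasSubst ξ) i

theorem arc_prod (ξ : Fin d → k) (a : Fin d →₀ ℕ) :
    (a.prod fun s e => ((PowerSeries.C (ξ s) * PowerSeries.X : PowerSeries k)) ^ e) =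
      PowerSeries.C (∏ i, ξ i ^ a i) * PowerSeries.X ^ (∑ i, a i) := by
  rw [Finsupp.prod_fintype _ _ (by intro i; simp)]
  have h1 : ∀ i, (PowerSeries.C (ξ i) * PowerSeries.X : PowerSeries k) ^ a i
      = PowerSeries.C (ξ i ^ a i) * PowerSeries.X ^ a i := by
    intro i
    rw [mul_pow, map_pow]
  simp only [h1]
  rw [Finset.prod_mul_distrib, ← map_prod, Finset.prod_pow_eq_pow_sum]

theorem coeff_arc (ξ : Fin d → k) (f : PS k d) (q : ℕ) :
    PowerSeries.coeff q (arc ξ f) =
      ∑ a ∈ Finset.univ.finsuppAntidiag q, coeff a f * ∏ i, ξ i ^ a i := by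
  classical
  have h0 : arc ξ f = MvPowerSeries.subst
      (fun i => (PowerSeries.C (ξ i) * PowerSeries.X : PowerSeries k)) f := by
    unfold arc
    exact MvPowerSeries.substAlgHom_apply (arc_hasSubst ξ) f
  have h1 : PowerSeries.coeff q (arc ξ f) =
      finsum (fun a : Fin d →₀ ℕ => coeff a f • (PowerSeries.coeff q
        (a.prod fun s e => ((PowerSeries.C (ξ s) * PowerSeries.X : PowerSeries k)) ^ e))) := by
    rw [h0]
    exact MvPowerSeries.coeff_subst (arc_hasSubst ξ) f (Finsupp.single () q)
  rw [h1]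
  have h2 : ∀ a : Fin d →₀ ℕ, coeff a f • (PowerSeries.coeff q
        (a.prod fun s e => ((PowerSeries.C (ξ s) * PowerSeries.X : PowerSeries k)) ^ e))
      = if (∑ i, a i) = q then coeff a f * ∏ i, ξ i ^ a i else 0 := by
    intro a
    rw [arc_prod, PowerSeries.coeff_C_mul, PowerSeries.coeff_X_pow]
    by_cases h : (∑ i, a i) = q
    · rw [if_pos h, if_pos h.symm, mul_one, smul_eq_mul]
    · rw [if_neg h, if_neg (fun e => h e.symm), mul_zero, smul_zero]
  simp only [h2]
  rw [finsum_eq_sum_of_support_subset (s := Finset.univ.finsuppAntidiag q)]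
  · apply Finset.sum_congr rfl
    intro a ha
    rw [Finset.mem_finsuppAntidiag] at ha
    rw [if_pos ha.1]
  · intro a ha
    rw [Function.mem_support] at ha
    rw [Finset.mem_coe, Finset.mem_finsuppAntidiag]
    refine ⟨?_, Finset.subset_univ _⟩
    by_contra hne
    exact ha (if_neg hne)

theorem X_pow_dvd_arc (ξ : Fin d → k) (f : PS k d) (q : ℕ) (h : (q : ℕ∞) ≤ f.order) :
    (PowerSeries.X : PowerSeries k) ^ q ∣ arc ξ f := by
  rw [PowerSeries.X_pow_dvd_iff]
  intro m hm
  rw [coeff_arc]
  apply Finset.sum_eq_zero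
  intro a ha
  rw [Finset.mem_finsuppAntidiag] at ha
  have h2 : coeff a f = 0 := by
    apply MvPowerSeries.coeff_of_lt_order
    have h3 : Finsupp.degree a = m := by
      rw [Finsupp.degree_eq_sum]; exact ha.1
    rw [h3]
    exact lt_of_lt_of_le (by exact_mod_cast hm) h
  rw [h2, zero_mul]

/-- the leading form -/
noncomputable def lead (f : PS k d) (q : ℕ) : MvPolynomial (Fin d) k :=
  ∑ a ∈ Finset.univ.finsuppAntidiag q, MvPolynomial.monomial a (coeff a f)

theorem eval_lead (ξ : Fin d → k) (f : PS k d) (q : ℕ) :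
    MvPolynomial.eval ξ (lead f q) = PowerSeries.coeff q (arc ξ f) := by
  rw [coeff_arc, lead, map_sum]
  apply Finset.sum_congr rfl
  intro a _
  rw [MvPolynomial.eval_monomial, Finsupp.prod_fintype _ _ (by intro i; simp)]

theorem lead_ne_zero (f : PS k d) (hf : f ≠ 0) : lead f f.order.toNat ≠ 0 := by
  classical
  have h1 := (MvPowerSeries.ne_zero_iff_order_finite).1 hf
  obtain ⟨a, ha, hdeg⟩ := MvPowerSeries.exists_coeff_ne_zero_and_order h1
  have hdeg2 : (∑ i, a i) = f.order.toNat := by
    rw [← Finsupp.degree_eq_sum]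
    have h3 : ((Finsupp.degree a : ℕ) : ℕ∞) = ((f.order.toNat : ℕ) : ℕ∞) := by
      rw [h1]; exact hdeg
    exact_mod_cast h3
  intro h0
  have h4 : MvPolynomial.coeff a (lead f f.order.toNat) = coeff a f := by
    rw [lead, MvPolynomial.coeff_sum]
    rw [Finset.sum_eq_single a]
    · rw [MvPolynomial.coeff_monomial, if_pos rfl]
    · intro b _ hb
      rw [MvPolynomial.coeff_monomial, if_neg hb]
    · intro hna
      exfalso
      apply hna
      rw [Finset.mem_finsuppAntidiag]
      exact ⟨hdeg2, Finset.subset_univ _⟩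
  rw [h0, MvPolynomial.coeff_zero] at h4
  exact ha h4.symm

/-- generic lines -/
theorem exists_generic_arc [Infinite k] (S : Finset (PS k d)) (hS : ∀ f ∈ S, f ≠ 0) :
    ∃ ξ : Fin d → k, (∀ i, ξ i ≠ 0) ∧ ∀ f ∈ S, (arc ξ f).order = f.order := by
  classical
  set G : MvPolynomial (Fin d) k :=
    (∏ i, MvPolynomial.X i) * ∏ f ∈ S, lead f f.order.toNat with hG
  have hG0 : G ≠ 0 := by
    rw [hG]
    apply mul_ne_zero
    · rw [Finset.prod_ne_zero_iff]
      intro i _
      exact MvPolynomial.X_ne_zero i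
    · rw [Finset.prod_ne_zero_iff]
      intro f hf
      exact lead_ne_zero f (hS f hf)
  have hex : ∃ ξ : Fin d → k, MvPolynomial.eval ξ G ≠ 0 := by
    by_contra hno
    push Not at hno
    apply hG0
    apply MvPolynomial.funext
    intro ξ
    rw [hno ξ, map_zero]
  obtain ⟨ξ, hξ⟩ := hex
  rw [hG, map_mul, map_prod, map_prod] at hξ
  have h1 := left_ne_zero_of_mul hξ
  have h2 := right_ne_zero_of_mul hξ
  rw [Finset.prod_ne_zero_iff] at h1 h2
  refine ⟨ξ, ?_, ?_⟩
  · intro i
    have := h1 i (Finset.mem_univ i)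
    rwa [MvPolynomial.eval_X] at this
  · intro f hf
    have h3 := h2 f hf
    rw [eval_lead] at h3
    have h4 := (MvPowerSeries.ne_zero_iff_order_finite).1 (hS f hf)
    apply le_antisymm
    · rw [← h4]
      exact PowerSeries.order_le _ h3
    · rw [← h4]
      apply PowerSeries.nat_le_order
      intro i hi
      have h5 := X_pow_dvd_arc ξ f f.order.toNat h4.le
      rw [PowerSeries.X_pow_dvd_iff] at h5
      exact h5 i hi

end Pool.Agent.SYZ71
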