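import Pool.Agent.SYZ71.NFDefs
import Pool.Agent.SYZ71.LB
import Pool.Agent.SYZ71.LC

/-!
# SYZ71/LNB : torus-homogeneous series, Euler derivations, finite weight decomposition
-/

set_option autoImplicit false

open MvPowerSeries

namespace Pool.Agent.SYZ71.LN

variable {k : Type*} [Field k] {d s : ℕ} {κ : Fin d → Fin s → ℤ}

theorem wt_add (a b : Fin d →₀ ℕ) : wt κ (a + b) = wt κ a + wt κ b := by
  funext j
  simp only [wt, Finsupp.add_apply, Nat.cast_add, add_mul, Finset.sum_add_distrib, Pi.add_apply]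

theorem wt_single (i : Fin d) (n : ℕ) : wt κ (Finsupp.single i n) = n • κ i := by
  classical
  funext j
  simp only [wt, Pi.smul_apply]
  rw [Finset.sum_eq_single i]
  · simp
  · intro b _ hb
    rw [Finsupp.single_eq_of_ne hb]
    simp
  · intro h
    exact absurd (Finset.mem_univ _) h

theorem isHom_zero (m : Fin s → ℤ) : IsHom κ m (0 : PS k d) := by
  intro a ha
  exact absurd (by simp) ha

theorem isHom_add {m : Fin s → ℤ} {f g : PS k d} (hf : IsHom κ m f) (hg : IsHom κ m g) :
    IsHom κ m (f + g) := by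
  intro a ha
  by_cases h : coeff a f = 0
  · apply hg
    intro h'
    exact ha (by rw [map_add, h, h', add_zero])
  · exact hf a h

theorem isHom_smul {m : Fin s → ℤ} {f : PS k d} (c : k) (hf : IsHom κ m f) :
    IsHom κ m (c • f) := by
  intro a ha
  apply hf
  intro h
  exact ha (by rw [coeff_smul, h, mul_zero])

theorem isHom_sum {m : Fin s → ℤ} {ι : Type*} (S : Finset ι) (f : ι → PS k d)
    (hf : ∀ i ∈ S, IsHom κ m (f i)) : IsHom κ m (∑ i ∈ S, f i) := by
  classical
  induction S using Finset.induction_on with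
  | empty => simpa using isHom_zero m
  | insert i S hi ih =>
    rw [Finset.sum_insert hi]
    exact isHom_add (hf i (Finset.mem_insert_self _ _))
      (ih fun j hj => hf j (Finset.mem_insert_of_mem hj))

theorem isHom_mul {m m' : Fin s → ℤ} {f g : PS k d} (hf : IsHom κ m f) (hg : IsHom κ m' g) :
    IsHom κ (m + m') (f * g) := by
  classical
  intro a ha
  rw [coeff_mul] at ha
  obtain ⟨p, hp, hne⟩ := Finset.exists_ne_zero_of_sum_ne_zero ha
  rw [Finset.HasAntidiagonal.mem_antidiagonal] at hp
  rw [← hp, wt_add, hf _ (left_ne_zero_of_mul hne), hg _ (right_ne_zero_of_mul hne)]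

theorem isHom_pderiv {m : Fin s → ℤ} {f : PS k d} (i : Fin d) (hf : IsHom κ m f) :
    IsHom κ (m - κ i) (pderiv k i f) := by
  intro a ha
  rw [coeff_pderiv] at ha
  have h := hf _ (left_ne_zero_of_mul ha)
  rw [wt_add, wt_single, one_smul] at h
  rw [← h, add_sub_cancel_right]

theorem isHom_derivation {m : Fin s → ℤ} {f : PS k d} (D : Derivation k (PS k d) (PS k d))
    (hD : ∀ i, IsHom κ (κ i) (D (X i))) (hf : IsHom κ m f) : IsHom κ m (D f) := by
  rw [derivation_eq]
  apply isHom_sum
  intro i _
  have := isHom_mul (hD i) (isHom_pderiv i hf)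
  rwa [add_sub_cancel] at this

theorem euler_apply (j : Fin s) (f : PS k d) :
    euler k κ j f = ∑ i, ((κ i j : k)) • (X i * pderiv k i f) := by
  have h := map_sum (Derivation.coeFnAddMonoidHom (R := k) (A := PS k d) (M := PS k d))
    (fun i => ((κ i j : k) • (X i : PS k d)) • pderiv k i) Finset.univ
  have h2 := congrFun h f
  rw [Finset.sum_apply] at h2
  have h3 : euler k κ j f = ∑ i, ((κ i j : k) • (X i : PS k d)) * pderiv k i f := h2
  rw [h3]
  exact Finset.sum_congr rfl fun i _ => by rw [smul_mul_assoc]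

theorem coeff_X_mul_pderiv (i : Fin d) (f : PS k d) (a : Fin d →₀ ℕ) :
    coeff a (X i * pderiv k i f) = (a i : k) * coeff a f := by
  classical
  by_cases h : a i = 0
  · rw [h, Nat.cast_zero, zero_mul]
    have : (X i : PS k d) ∣ X i * pderiv k i f := dvd_mul_right _ _
    rw [X_dvd_iff] at this
    exact this a h
  · obtain ⟨b, rfl⟩ : ∃ b : Fin d →₀ ℕ, a = b + Finsupp.single i 1 := by
      refine ⟨a - Finsupp.single i 1, ?_⟩
      rw [tsub_add_cancel_of_le]
      rw [Finsupp.single_le_iff]
      omega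
    have hX : (X i : PS k d) = monomial (Finsupp.single i 1) 1 := rfl
    rw [hX, add_comm b, coeff_add_monomial_mul, one_mul, coeff_pderiv, add_comm b, mul_comm]
    congr 1
    simp [add_comm]

theorem coeff_euler (j : Fin s) (f : PS k d) (a : Fin d →₀ ℕ) :
    coeff a (euler k κ j f) = ((wt κ a j : ℤ) : k) * coeff a f := by
  rw [euler_apply, map_sum]
  simp only [coeff_smul, coeff_X_mul_pderiv, wt, Int.cast_sum, Int.cast_mul, Int.cast_natCast,
    Finset.sum_mul]
  exact Finset.sum_congr rfl fun i _ => by ring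

theorem euler_of_isHom {m : Fin s → ℤ} {f : PS k d} (j : Fin s) (hf : IsHom κ m f) :
    euler k κ j f = ((m j : ℤ) : k) • f := by
  ext a
  rw [coeff_euler, coeff_smul]
  by_cases h : coeff a f = 0
  · rw [h, mul_zero, mul_zero]
  · rw [hf a h]

/-- the part of degree `< q` and torus weight `m` -/
noncomputable def piece (κ : Fin d → Fin s → ℤ) (q : ℕ) (m : Fin s → ℤ) (f : PS k d) : PS k d :=
  open Classical in fun a => if a.degree < q ∧ wt κ a = m then coeff a f else 0

theorem coeff_piece (q : ℕ) (m : Fin s → ℤ) (f : PS k d) (a : Fin d →₀ ℕ) :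
    coeff a (piece κ q m f) = open Classical in
      if a.degree < q ∧ wt κ a = m then coeff a f else 0 := rfl

theorem isHom_piece (q : ℕ) (m : Fin s → ℤ) (f : PS k d) : IsHom κ m (piece κ q m f) := by
  intro a ha
  rw [coeff_piece] at ha
  by_contra h
  exact ha (if_neg (fun h' => h h'.2))

/-- Up to order `≥ q` a series is the sum of its pieces with weights in a box of size `≤ (C q)^s`. -/
theorem exists_box (κ : Fin d → Fin s → ℤ) : ∃ C : ℕ, 1 ≤ C ∧ ∀ q : ℕ, 1 ≤ q →
    ∃ Box : Finset (Fin s → ℤ), Box.card ≤ (C * q) ^ s ∧ ∀ f : PS k d,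
      (q : ℕ∞) ≤ (f - ∑ m ∈ Box, piece κ q m f).order := by
  classical
  -- `K` bounds all `|κ i j|`
  let K : ℕ := ∑ i, ∑ j, (κ i j).natAbs
  have hK : ∀ i j, (κ i j).natAbs ≤ K := fun i j =>
    (Finset.single_le_sum (f := fun j => (κ i j).natAbs) (fun _ _ => Nat.zero_le _)
      (Finset.mem_univ j)).trans
      (Finset.single_le_sum (f := fun i => ∑ j, (κ i j).natAbs) (fun _ _ => Nat.zero_le _)
        (Finset.mem_univ i))
  refine ⟨2 * K + 1, by omega, fun q hq => ?_⟩
  let Box : Finset (Fin s → ℤ) := Fintype.piFinset fun _ => Finset.Icc (-(K * q : ℤ)) (K * q : ℤ)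
  refine ⟨Box, ?_, fun f => ?_⟩
  · rw [Fintype.card_piFinset]
    simp only [Int.card_Icc, Finset.prod_const, Finset.card_univ, Fintype.card_fin]
    apply Nat.pow_le_pow_left
    have : ((K * q : ℤ) + 1 - -(K * q : ℤ)).toNat = 2 * (K * q) + 1 := by
      have : ((K * q : ℤ) + 1 - -(K * q : ℤ)) = ((2 * (K * q) + 1 : ℕ) : ℤ) := by
        push_cast; ring
      rw [this, Int.toNat_natCast]
    rw [this]
    nlinarith
  · refine le_order ?_
    intro a ha
    have ha' : a.degree < q := by exact_mod_cast ha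
    have hmem : wt κ a ∈ Box := by
      rw [Fintype.mem_piFinset]
      intro j
      rw [Finset.mem_Icc, ← abs_le]
      calc |wt κ a j| = |∑ i, (a i : ℤ) * κ i j| := rfl
        _ ≤ ∑ i, |(a i : ℤ) * κ i j| := Finset.abs_sum_le_sum_abs _ _
        _ ≤ ∑ i, (a i : ℤ) * K := by
            refine Finset.sum_le_sum fun i _ => ?_
            rw [abs_mul, Nat.abs_cast]
            refine mul_le_mul_of_nonneg_left ?_ (Nat.cast_nonneg _)
            rw [Int.abs_eq_natAbs]
            exact_mod_cast hK i j
        _ = (∑ i, (a i : ℤ)) * K := by rw [Finset.sum_mul]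
        _ = (a.degree : ℤ) * K := by
            rw [Finsupp.degree_eq_sum]
            push_cast
            rfl
        _ ≤ (q : ℤ) * K := by
            refine mul_le_mul_of_nonneg_right ?_ (Nat.cast_nonneg _)
            exact_mod_cast ha'.le
        _ = K * q := mul_comm _ _
    rw [map_sub, map_sum, Finset.sum_eq_single (wt κ a)]
    · rw [coeff_piece, if_pos ⟨ha', rfl⟩, sub_self]
    · intro b _ hb
      rw [coeff_piece, if_neg (fun h => hb h.2.symm)]
    · intro h
      exact absurd hmem h

end Pool.Agent.SYZ71.LN
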