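import Pool.Agent.SYZ71.LNA
import Pool.Agent.SYZ71.LNB

/-!
# SYZ71/LND : the lattice spanned by the vector fields at the generic arc; the form in coordinates
-/

set_option autoImplicit false

open MvPowerSeries

namespace Pool.Agent.SYZ71.LN

/-- The lattice in `k⟦t⟧^d` spanned by `t e_j` (`e_j ∈ k^d` independent) and by `y_l ∈ t k⟦t⟧^d` has
a basis consisting of all `t e_j` and some of the `y_l`. -/
theorem exists_lattice {k : Type*} [Field k] {d r s : ℕ} (e : Fin s → Fin d → k)
    (he : LinearIndependent k e) (y : Fin r → Fin d → PowerSeries k)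
    (hy : ∀ l i, (PowerSeries.X : PowerSeries k) ∣ y l i) :
    ∃ (J : Finset (Fin r)) (b : Fin r → Fin s → PowerSeries k) (a : Fin r → J → PowerSeries k),
      (∀ l i, y l i = ∑ j, b l j * (PowerSeries.C (e j i) * PowerSeries.X) + ∑ m, a l m * y m i) ∧
      LinearIndependent (PowerSeries k)
        (Sum.elim (fun j i => PowerSeries.C (e j i) * PowerSeries.X) (fun (m : J) => y m)) := by
  classical
  let A := PowerSeries k
  let t : A := PowerSeries.X
  -- left inverse
  let E : (Fin s → k) →ₗ[k] (Fin d → k) := Fintype.linearCombination k e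
  have hE : LinearMap.ker E = ⊥ := by
    rw [LinearMap.ker_eq_bot]
    exact linearIndependent_iff_injective_fintypeLinearCombination.1 he
  obtain ⟨L, hL⟩ := LinearMap.exists_leftInverse_of_injective E hE
  let Lm : Fin s → Fin d → k := fun j i => L (Pi.single i 1) j
  have hLm : ∀ j j', ∑ i, Lm j i * e j' i = if j = j' then 1 else 0 := by
    intro j j'
    have h1 : L (e j') = Pi.single j' 1 := by
      have h2 : E (Pi.single j' 1) = e j' := by
        simp [E, Fintype.linearCombination_apply_single]
      rw [← h2]
      exact congrArg (fun T : (Fin s → k) →ₗ[k] (Fin s → k) => T (Pi.single j' 1)) hL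
    have h3 : L (e j') = ∑ i, e j' i • L (Pi.single i 1) := by
      conv_lhs => rw [← Finset.univ_sum_single (e j')]
      rw [map_sum]
      refine Finset.sum_congr rfl fun i _ => ?_
      rw [← map_smul]
      congr 1
      funext x
      simp [Pi.single_apply]
    have h4 := congrFun (h3.symm.trans h1) j
    rw [Finset.sum_apply] at h4
    simp only [Pi.smul_apply, smul_eq_mul] at h4
    calc ∑ i, Lm j i * e j' i = ∑ i, e j' i * L (Pi.single i 1) j :=
          Finset.sum_congr rfl fun i _ => mul_comm _ _
      _ = _ := by rw [h4]; simp [Pi.single_apply]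
  let π : (Fin d → A) → Fin s → A := fun x j => ∑ i, PowerSeries.C (Lm j i) * x i
  let y0 : Fin r → Fin d → A := fun l i => y l i - ∑ j, π (y l) j * PowerSeries.C (e j i)
  obtain ⟨J, hJ, hspan⟩ := exists_subbasis y0
  have hcoef : ∀ l, ∃ c : J → A, ∑ m, c m • y0 m = y0 l := fun l =>
    (Submodule.mem_span_range_iff_exists_fun A).1 (hspan l)
  choose a ha using hcoef
  have hdiv : ∀ l j, t ∣ π (y l) j - ∑ m, a l m * π (y m) j := by
    intro l j
    have h1 : ∀ l', t ∣ π (y l') j := fun l' =>
      Finset.dvd_sum fun i _ => (hy l' i).mul_left _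
    exact dvd_sub (h1 l) (Finset.dvd_sum fun m _ => (h1 m).mul_left _)
  choose b hb using hdiv
  refine ⟨J, b, a, ?_, ?_⟩
  · intro l i
    have h1 := congrFun (ha l) i
    simp only [Finset.sum_apply, Pi.smul_apply, smul_eq_mul, y0] at h1
    have h2 : ∀ j, b l j * (PowerSeries.C (e j i) * t) =
        (π (y l) j - ∑ m, a l m * π (y m) j) * PowerSeries.C (e j i) := by
      intro j
      rw [hb l j]
      ring
    rw [Finset.sum_congr rfl fun j _ => h2 j]
    simp only [sub_mul, Finset.sum_sub_distrib, mul_sub] at h1 ⊢
    have h3 : ∑ j, (∑ m : J, a l m * π (y m) j) * PowerSeries.C (e j i) =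
        ∑ m : J, a l m * ∑ j, π (y m) j * PowerSeries.C (e j i) := by
      rw [Finset.sum_congr rfl fun j _ => Finset.sum_mul _ _ _, Finset.sum_comm]
      refine Finset.sum_congr rfl fun m _ => ?_
      rw [Finset.mul_sum]
      exact Finset.sum_congr rfl fun j _ => by ring
    rw [h3]
    linear_combination (-1 : A) * h1
  · rw [Fintype.linearIndependent_iff]
    intro c hc
    rw [Fintype.sum_sum_type] at hc
    simp only [Sum.elim_inl, Sum.elim_inr] at hc
    have hci : ∀ i, ∑ j, c (Sum.inl j) * (PowerSeries.C (e j i) * t) +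
        ∑ m : J, c (Sum.inr m) * y m i = 0 := by
      intro i
      have := congrFun hc i
      simpa only [Pi.add_apply, Finset.sum_apply, Pi.smul_apply, smul_eq_mul, Pi.zero_apply]
        using this
    -- apply `π`
    have hpe : ∀ j, c (Sum.inl j) * t + ∑ m : J, c (Sum.inr m) * π (y m) j = 0 := by
      intro j
      have h1 : ∑ i, PowerSeries.C (Lm j i) * (∑ j', c (Sum.inl j') * (PowerSeries.C (e j' i) * t) +
        ∑ m : J, c (Sum.inr m) * y m i) = 0 := by
        rw [Finset.sum_congr rfl fun i _ => by rw [hci i]]
        simp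
      rw [← h1]
      simp only [mul_add, Finset.sum_add_distrib, Finset.mul_sum]
      congr 1
      · rw [Finset.sum_comm]
        rw [Finset.sum_eq_single j]
        · have h2 := hLm j j
          rw [if_pos rfl] at h2
          have h3 : ∑ i, PowerSeries.C (Lm j i) * (c (Sum.inl j) * (PowerSeries.C (e j i) * t)) =
              (c (Sum.inl j) * t) * PowerSeries.C (∑ i, Lm j i * e j i) := by
            rw [map_sum, Finset.mul_sum]
            refine Finset.sum_congr rfl fun i _ => ?_
            rw [map_mul]
            ring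
          rw [h3, h2, map_one, mul_one]
        · intro j' _ hj'
          have h2 := hLm j j'
          rw [if_neg (Ne.symm hj')] at h2
          have h3 : ∑ i, PowerSeries.C (Lm j i) * (c (Sum.inl j') * (PowerSeries.C (e j' i) * t)) =
              (c (Sum.inl j') * t) * PowerSeries.C (∑ i, Lm j i * e j' i) := by
            rw [map_sum, Finset.mul_sum]
            refine Finset.sum_congr rfl fun i _ => ?_
            rw [map_mul]
            ring
          rw [h3, h2, map_zero, mul_zero]
        · intro h
          exact absurd (Finset.mem_univ _) h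
      · rw [Finset.sum_comm]
        refine Finset.sum_congr rfl fun m _ => ?_
        simp only [π, Finset.mul_sum]
        refine Finset.sum_congr rfl fun i _ => ?_
        ring
    have hzero : ∑ m : J, c (Sum.inr m) • y0 m = 0 := by
      funext i
      simp only [Finset.sum_apply, Pi.smul_apply, smul_eq_mul, y0, mul_sub,
        Finset.sum_sub_distrib, Pi.zero_apply]
      have h1 : ∑ m : J, c (Sum.inr m) * ∑ j, π (y m) j * PowerSeries.C (e j i) =
          ∑ j, (∑ m : J, c (Sum.inr m) * π (y m) j) * PowerSeries.C (e j i) := by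
        simp only [Finset.mul_sum, Finset.sum_mul]
        rw [Finset.sum_comm]
        refine Finset.sum_congr rfl fun m _ => Finset.sum_congr rfl fun i _ => ?_
        ring
      rw [h1]
      have h2 : ∀ j, (∑ m : J, c (Sum.inr m) * π (y m) j) * PowerSeries.C (e j i) =
          -(c (Sum.inl j) * (PowerSeries.C (e j i) * t)) := by
        intro j
        linear_combination (PowerSeries.C (e j i)) * hpe j
      rw [Finset.sum_congr rfl fun j _ => h2 j, Finset.sum_neg_distrib, sub_neg_eq_add, add_comm]
      exact hci i
    have hr : ∀ m : J, c (Sum.inr m) = 0 := Fintype.linearIndependent_iff.1 hJ _ hzero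
    intro x
    rcases x with j | m
    · have h1 := hpe j
      simp only [hr, zero_mul, Finset.sum_const_zero, add_zero] at h1
      rcases mul_eq_zero.1 h1 with h | h
      · exact h
      · exact absurd h PowerSeries.X_ne_zero
    · exact hr m

section Form

variable {k : Type*} [Field k] {d : ℕ}
    (ω : Derivation k (PS k d) (PS k d) →ₗ[PS k d]
      Derivation k (PS k d) (PS k d) →ₗ[PS k d] PS k d)

theorem omega_eq (D D' : Derivation k (PS k d) (PS k d)) :
    ω D D' = ∑ i, ∑ j, D (X i) * D' (X j) * ω (pderiv k i) (pderiv k j) := by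
  conv_lhs => rw [derivation_eq_sum D, derivation_eq_sum D']
  simp only [map_sum, map_smul, LinearMap.sum_apply, LinearMap.smul_apply, smul_eq_mul,
    Finset.mul_sum]
  rw [Finset.sum_comm]
  refine Finset.sum_congr rfl fun i _ => Finset.sum_congr rfl fun j _ => ?_
  ring

theorem omega_skew (hω : IsSymplectic ω) (D D' : Derivation k (PS k d) (PS k d))
    (h : ω D D' = 0) : ω D' D = 0 := by
  have h1 := hω.alt (D + D')
  simp only [map_add, LinearMap.add_apply, hω.alt, h, zero_add, add_zero] at h1
  exact h1

theorem omega_det_ne_zero (hω : IsSymplectic ω) :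
    (Matrix.of fun i j => ω (pderiv k i) (pderiv k j)).det ≠ 0 := by
  intro h0
  have : IsDomain (PS k d) := NoZeroDivisors.to_isDomain _
  obtain ⟨v, hv, hv0⟩ := Matrix.exists_vecMul_eq_zero_iff.2 h0
  apply hv
  have h1 : mkDer v = 0 := by
    apply hω.nondeg
    intro D
    rw [omega_eq]
    rw [Finset.sum_comm]
    refine Finset.sum_eq_zero fun j _ => ?_
    have h2 := congrFun hv0 j
    simp only [Matrix.vecMul, dotProduct, Matrix.of_apply, Pi.zero_apply] at h2
    have h3 : ∑ i, mkDer v (X i) * D (X j) * ω (pderiv k i) (pderiv k j) =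
        D (X j) * ∑ i, v i * ω (pderiv k i) (pderiv k j) := by
      rw [Finset.mul_sum]
      refine Finset.sum_congr rfl fun i _ => ?_
      rw [mkDer_X]
      ring
    rw [h3, h2, mul_zero]
  funext i
  rw [← mkDer_X v i, h1]
  rfl

end Form

end Pool.Agent.SYZ71.LN
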