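import Pool.Agent.SYZ71.NFDefs
import Pool.Agent.SYZ71.LDet
import Pool.Agent.SYZ71.LNC
import Pool.Agent.SYZ71.LND

/-!
# SYZ71/LEnd : the order of the determinants, target of part L-END
-/

set_option autoImplicit false

open MvPowerSeries

namespace Pool.Agent.SYZ71

namespace LN

variable {k : Type*} [Field k] {d s r : ℕ}

theorem isHom_X (κ : Fin d → Fin s → ℤ) (i : Fin d) : IsHom κ (κ i) (X i : PS k d) := by
  classical
  intro a ha
  rw [coeff_X] at ha
  split_ifs at ha with h
  · rw [h, wt_single, one_smul]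
  · exact absurd rfl ha

/-- `ev (D h) = ∑ ev (D X_i) ev (∂_i h)` -/
theorem ev_derivation {A : Type*} [CommRing A] [Algebra k A] (ev : PS k d →ₐ[k] A)
    (D : Derivation k (PS k d) (PS k d)) (h : PS k d) :
    ev (D h) = ∑ i, ev (D (X i)) * ev (pderiv k i h) := by
  rw [derivation_eq D h, map_sum]
  exact Finset.sum_congr rfl fun i _ => map_mul _ _ _

theorem ev_zero_dim (g : PS k 0 ≃ₐ[k] PS k 0) (x : PS k 0) : g x = x := by
  have h : x = algebraMap k (PS k 0) (constantCoeff x) := by
    ext a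
    have ha : a = 0 := Subsingleton.elim _ _
    subst ha
    rw [coeff_zero_eq_constantCoeff, MvPowerSeries.algebraMap_apply]
    simp
  rw [h]
  exact g.commutes _

end LN

open LN

theorem localData_bound {k : Type*} [Field k] [CharZero k] (m : ℕ) {d r s : ℕ}
    (g : (Fin r → ℤ) → (PS k d ≃ₐ[k] PS k d))
    (ψ : Fin s → Fin r → kˣ) (κ : Fin d → Fin s → ℤ)
    (Y : Fin r → Derivation k (PS k d) (PS k d)) (h : LocalData g ψ κ Y) (hm : RankLE m κ Y) :
    ∃ C : ℕ, 1 ≤ C ∧ ∀ (φ q : ℕ) (f : Fin φ → PS k d) (v : Fin φ → Fin r → ℤ),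
      1 ≤ q → 2 * C * q ^ m ≤ φ → (Matrix.of fun i j => g (v j) (f i)).det ≠ 0 →
      ((q * φ : ℕ) : ℕ∞) ≤ 2 * (Matrix.of fun i j => g (v j) (f i)).det.order := by
  classical
  rcases Nat.eq_zero_or_pos d with hd | hd
  · subst hd
    refine ⟨1, le_refl _, fun φ q f v hq hφ hdet => ?_⟩
    exfalso
    apply hdet
    have h1 : 1 ≤ q ^ m := Nat.one_le_pow _ _ hq
    have hφ2 : 2 ≤ φ := by omega
    have hne : (⟨0, by omega⟩ : Fin φ) ≠ ⟨1, by omega⟩ := by
      intro h
      have := congrArg Fin.val h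
      simp at this
    exact Matrix.det_zero_of_column_eq hne fun i => by
      simp only [Matrix.of_apply, ev_zero_dim]
  obtain ⟨C1, hC1, hbox⟩ := exists_box (k := k) κ
  have hC2 : 1 ≤ C1 + 2 * d := by omega
  refine ⟨(C1 + 2 * d) ^ m, Nat.one_le_pow _ _ hC2, fun φ q f v hq hφ hdet => ?_⟩
  -- all fields
  let Dall : Fin s ⊕ Fin r → Derivation k (PS k d) (PS k d) := Sum.elim (euler k κ) Y
  have hdep : ∀ t : Fin (m + 1) → Fin s ⊕ Fin r, ∃ c : Fin (m + 1) → PS k d,
      ∑ i, c i • Dall (t i) = 0 ∧ ∃ i, c i ≠ 0 := by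
    intro t
    apply Fintype.not_linearIndependent_iff.1
    apply hm (fun i => Dall (t i))
    intro i
    rcases hti : t i with j | l
    · right; exact ⟨j, rfl⟩
    · left; exact ⟨l, rfl⟩
  choose c hc0 i0 hi0 using hdep
  set Δ : PS k d := (Matrix.of fun i j => g (v j) (f i)).det with hΔ
  obtain ⟨ξ, hξ, hord⟩ := exists_generic_arc
    (insert Δ (Finset.univ.image fun t => c t (i0 t))) (by
      intro x hx
      rw [Finset.mem_insert, Finset.mem_image] at hx
      rcases hx with rfl | ⟨t, _, rfl⟩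
      · exact hdet
      · exact hi0 t)
  let ev : PS k d →ₐ[k] PowerSeries k := arc ξ
  have hev0 : ∀ t, ev (c t (i0 t)) ≠ 0 := by
    intro t h0
    have h1 := hord (c t (i0 t)) (Finset.mem_insert_of_mem (Finset.mem_image_of_mem _
      (Finset.mem_univ t)))
    have h2 : (arc ξ (c t (i0 t))).order = ⊤ := by
      rw [PowerSeries.order_eq_top]
      exact h0
    rw [h2] at h1
    exact hi0 t (order_eq_top_iff.1 h1.symm)
  -- the vectors
  let y : Fin r → Fin d → PowerSeries k := fun l i => ev (Y l (X i))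
  let e : Fin s → Fin d → k := fun j i => (κ i j : k) * ξ i
  have he : LinearIndependent k e := by
    rw [Fintype.linearIndependent_iff]
    intro x hx j
    refine congrFun (h.span x fun i => ?_) j
    have h1 := congrFun hx i
    simp only [Finset.sum_apply, Pi.smul_apply, smul_eq_mul, Pi.zero_apply, e] at h1
    have h2 : (∑ j, x j * (κ i j : k)) * ξ i = 0 := by
      rw [Finset.sum_mul, ← h1]
      exact Finset.sum_congr rfl fun j _ => by ring
    exact (mul_eq_zero.1 h2).resolve_right (hξ i)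
  have hy : ∀ l i, (PowerSeries.X : PowerSeries k) ∣ y l i := by
    intro l i
    have h1 : (1 : ℕ∞) ≤ (Y l (X i)).order := by
      rw [one_le_order_iff_constCoeff_eq_zero, ← coeff_zero_eq_constantCoeff_apply]
      apply coeff_eq_zero_of_lt_weightedOrder (eta d)
      refine lt_of_lt_of_le ?_ (h.raise l i)
      rw [map_zero]
      exact_mod_cast Nat.succ_pos _
    have h2 := X_pow_dvd_arc ξ (Y l (X i)) 1 (by exact_mod_cast h1)
    rwa [pow_one] at h2
  obtain ⟨J, b, a, hrel0, hLI⟩ := exists_lattice e he y hy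
  have heX : ∀ j i, ev (euler k κ j (X i)) = PowerSeries.C (e j i) * PowerSeries.X := by
    intro j i
    rw [euler_of_isHom j (isHom_X κ i), map_smul]
    change ((κ i j : ℤ) : k) • arc ξ (X i) = _
    rw [arc_X, PowerSeries.smul_eq_C_mul, ← mul_assoc, ← map_mul]
  -- rank
  have hcard : s + J.card ≤ m := by
    by_contra hcon
    have hcle : Fintype.card (Fin (m + 1)) ≤ Fintype.card (Fin s ⊕ J) := by
      rw [Fintype.card_fin, Fintype.card_sum, Fintype.card_fin, Fintype.card_coe]
      omega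
    obtain ⟨emb⟩ := Function.Embedding.nonempty_of_card_le hcle
    let t : Fin (m + 1) → Fin s ⊕ Fin r := fun i => Sum.map id Subtype.val (emb i)
    have hvec : ∀ (x : Fin s ⊕ J) (i : Fin d),
        Sum.elim (fun j i => PowerSeries.C (e j i) * PowerSeries.X) (fun (m : J) => y m) x i =
          ev (Dall (Sum.map id Subtype.val x) (X i)) := by
      intro x i
      rcases x with j | l
      · simp only [Sum.elim_inl, Sum.map_inl, id, Dall]
        exact (heX j i).symm
      · rfl
    have hli2 := hLI.comp emb emb.injective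
    rw [Fintype.linearIndependent_iff] at hli2
    refine hev0 t (hli2 (fun i => ev (c t i)) ?_ (i0 t))
    funext i'
    simp only [Finset.sum_apply, Pi.smul_apply, smul_eq_mul, Function.comp, Pi.zero_apply]
    have h1 := congrArg (fun D : Derivation k (PS k d) (PS k d) => ev (D (X i'))) (hc0 t)
    have h2 : (∑ i, c t i • Dall (t i)) (X i') = ∑ i, c t i * Dall (t i) (X i') := by
      have h3 := congrFun (map_sum (Derivation.coeFnAddMonoidHom (R := k) (A := PS k d)
        (M := PS k d)) (fun i => c t i • Dall (t i)) Finset.univ) (X i')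
      rw [Finset.sum_apply] at h3
      exact h3
    simp only [Derivation.zero_apply, map_zero] at h1
    rw [h2, map_sum] at h1
    rw [← h1]
    refine Finset.sum_congr rfl fun i _ => ?_
    rw [map_mul, hvec]
  -- relations between the functionals
  have hrel : ∀ l (x : PS k d), ev (Y l x) =
      ∑ j, b l j * ev (euler k κ j x) + ∑ m, a l m * ev (Y m x) := by
    intro l x
    rw [ev_derivation ev (Y l) x]
    have h1 : ∀ i, ev (Y l (X i)) * ev (pderiv k i x) =
        ∑ j, b l j * (ev (euler k κ j (X i)) * ev (pderiv k i x)) +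
          ∑ m, a l m * (ev (Y m (X i)) * ev (pderiv k i x)) := by
      intro i
      have h2 : ev (Y l (X i)) = y l i := rfl
      rw [h2, hrel0 l i, add_mul, Finset.sum_mul, Finset.sum_mul]
      congr 1
      · exact Finset.sum_congr rfl fun j _ => by rw [heX]; ring
      · exact Finset.sum_congr rfl fun m _ => by ring
    rw [Finset.sum_congr rfl fun i _ => h1 i, Finset.sum_add_distrib]
    congr 1
    · rw [Finset.sum_comm]
      refine Finset.sum_congr rfl fun j _ => ?_
      rw [← Finset.mul_sum, ← ev_derivation]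
    · rw [Finset.sum_comm]
      refine Finset.sum_congr rfl fun j _ => ?_
      rw [← Finset.mul_sum, ← ev_derivation]
  obtain ⟨mon, hmon⟩ := exists_functionals ev Y h.homog h.comm J b a hrel
  obtain ⟨Box, hBox, hpiece⟩ := hbox q hq
  let Θ := 2 * d * q
  choose Ψ hΨ using fun (w : Fin r → ℤ) (μ : Fin s → ℤ) =>
    hmon Θ (fun l => (w l : k)) (fun p => ((p.factorial : k)⁻¹)) μ
  have hη : ∀ i, eta d i < 2 * d := by
    intro i
    have := i.2
    simp only [eta]
    omega
  have key : ∀ (w : Fin r → ℤ) (x : PS k d), ∃ R : PowerSeries k,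
      ev (g w x) = (∑ p : Box × (J → Fin Θ), ev (mon (fun m => (p.2 m : ℕ)) (piece κ q p.1 x)) *
        (PowerSeries.C (chi ψ w p.1) * Ψ w p.1 p.2)) + PowerSeries.X ^ q * R := by
    intro w x
    have h1 : ∀ μ, (PowerSeries.X : PowerSeries k) ^ q ∣
        ev (g w (piece κ q μ x)) - ∑ p : J → Fin Θ, ev (mon (fun m => (p m : ℕ)) (piece κ q μ x)) *
          (PowerSeries.C (chi ψ w μ) * Ψ w μ p) := by
      intro μ
      have hh := isHom_piece (κ := κ) q μ x
      have h2 := h.exp w μ (piece κ q μ x) hh Θ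
      have h3 := order_ge_of_weightedOrder hd (eta d) hη _ q h2
      have h4 := X_pow_dvd_arc ξ _ q h3
      have h5 := hΨ w μ (piece κ q μ x) hh
      have h6 : ∑ p : J → Fin Θ, ev (mon (fun m => (p m : ℕ)) (piece κ q μ x)) *
          (PowerSeries.C (chi ψ w μ) * Ψ w μ p) = PowerSeries.C (chi ψ w μ) *
            ∑ p : J → Fin Θ, Ψ w μ p * ev (mon (fun m => (p m : ℕ)) (piece κ q μ x)) := by
        rw [Finset.mul_sum]
        exact Finset.sum_congr rfl fun p _ => by ring
      rw [h6, ← h5, ← PowerSeries.smul_eq_C_mul, ← map_smul, ← map_sub]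
      exact h4
    have h2 : (PowerSeries.X : PowerSeries k) ^ q ∣ ev (g w (x - ∑ μ ∈ Box, piece κ q μ x)) := by
      apply X_pow_dvd_arc
      rw [order_algEquiv]
      exact hpiece x
    have h3 : (PowerSeries.X : PowerSeries k) ^ q ∣ ev (g w x) -
        ∑ p : Box × (J → Fin Θ), ev (mon (fun m => (p.2 m : ℕ)) (piece κ q p.1 x)) *
        (PowerSeries.C (chi ψ w p.1) * Ψ w p.1 p.2) := by
      have h4 : ev (g w x) -
          ∑ p : Box × (J → Fin Θ), ev (mon (fun m => (p.2 m : ℕ)) (piece κ q p.1 x)) *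
          (PowerSeries.C (chi ψ w p.1) * Ψ w p.1 p.2) =
          ev (g w (x - ∑ μ ∈ Box, piece κ q μ x)) + ∑ μ ∈ Box, (ev (g w (piece κ q μ x)) -
            ∑ p : J → Fin Θ, ev (mon (fun m => (p m : ℕ)) (piece κ q μ x)) *
            (PowerSeries.C (chi ψ w μ) * Ψ w μ p)) := by
        rw [Fintype.sum_prod_type, Finset.sum_sub_distrib, map_sub, map_sub, map_sum, map_sum]
        rw [← Finset.sum_coe_sort Box (fun μ => ∑ p : J → Fin Θ,
          ev (mon (fun m => (p m : ℕ)) (piece κ q μ x)) *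
            (PowerSeries.C (chi ψ w μ) * Ψ w μ p))]
        ring
      rw [h4]
      exact dvd_add h2 (Finset.dvd_sum fun μ _ => h1 μ)
    obtain ⟨R, hR⟩ := h3
    exact ⟨R, by rw [← hR]; ring⟩
  choose R hR using key
  -- the determinant
  let I := Box × (J → Fin Θ)
  have hI : Fintype.card I ≤ (C1 + 2 * d) ^ m * q ^ m := by
    have h1 : Fintype.card I = Box.card * Θ ^ J.card := by
      simp only [I, Fintype.card_prod, Fintype.card_coe, Fintype.card_fun, Fintype.card_fin]
    rw [h1, ← mul_pow]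
    have h2 : 1 ≤ (C1 + 2 * d) * q := Nat.one_le_iff_ne_zero.2 (by positivity)
    calc Box.card * Θ ^ J.card ≤ ((C1 + 2 * d) * q) ^ s * ((C1 + 2 * d) * q) ^ J.card := by
          apply Nat.mul_le_mul
          · exact hBox.trans (Nat.pow_le_pow_left (Nat.mul_le_mul_right _ (by omega)) _)
          · exact Nat.pow_le_pow_left (Nat.mul_le_mul_right _ (by omega)) _
      _ = ((C1 + 2 * d) * q) ^ (s + J.card) := (pow_add _ _ _).symm
      _ ≤ ((C1 + 2 * d) * q) ^ m := Nat.pow_le_pow_right h2 hcard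
  let B : Matrix (Fin φ) I (PowerSeries k) := Matrix.of fun i p =>
    ev (mon (fun m => (p.2 m : ℕ)) (piece κ q p.1 (f i)))
  let W : Matrix I (Fin φ) (PowerSeries k) := Matrix.of fun p j =>
    PowerSeries.C (chi ψ (v j) p.1) * Ψ (v j) p.1 p.2
  let R' : Matrix (Fin φ) (Fin φ) (PowerSeries k) := Matrix.of fun i j => R (v j) (f i)
  let M : Matrix (Fin φ) (Fin φ) (PowerSeries k) := Matrix.of fun i j => ev (g (v j) (f i))
  have hM : M = B * W + (PowerSeries.X ^ q : PowerSeries k) • R' := by
    ext1 i j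
    simp only [M, B, W, R', Matrix.of_apply, Matrix.add_apply, Matrix.mul_apply,
      Matrix.smul_apply, smul_eq_mul]
    exact hR (v j) (f i)
  have hdvd := dvd_det_of_factor B W R' M (PowerSeries.X ^ q) hM
  have hdetM : M.det = ev Δ := by
    rw [hΔ, AlgHom.map_det]
    rfl
  rw [hdetM, Fintype.card_fin, ← pow_mul] at hdvd
  have hordΔ : (arc ξ Δ).order = Δ.order := hord Δ (Finset.mem_insert_self _ _)
  have h1 : ((q * (φ - Fintype.card I) : ℕ) : ℕ∞) ≤ Δ.order := by
    rw [← hordΔ]
    exact PowerSeries.nat_le_order _ _ fun i hi => (PowerSeries.X_pow_dvd_iff.1 hdvd) i hi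
  have h2 : q * φ ≤ 2 * (q * (φ - Fintype.card I)) := by
    have h3 : 2 * Fintype.card I ≤ φ := by
      refine le_trans ?_ hφ
      rw [mul_assoc]
      exact Nat.mul_le_mul_left 2 hI
    have h4 : φ ≤ 2 * (φ - Fintype.card I) := by omega
    calc q * φ ≤ q * (2 * (φ - Fintype.card I)) := Nat.mul_le_mul_left q h4
      _ = _ := by ring
  calc ((q * φ : ℕ) : ℕ∞) ≤ ((2 * (q * (φ - Fintype.card I)) : ℕ) : ℕ∞) := by exact_mod_cast h2
    _ = 2 * ((q * (φ - Fintype.card I) : ℕ) : ℕ∞) := by push_cast; rfl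
    _ ≤ 2 * Δ.order := mul_le_mul_right h1 2

end Pool.Agent.SYZ71
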