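import Pool.Agent.SYZ71.LM5

/-!
# SYZ71/LM8 : torus invariance of the form, Lie derivative along the Euler fields, isotropy

* `preserves_mul`, `preserves_inv`: `conj (g * g') X = conj g (conj g' X)`.
* `preserves_tor`: by `omega_expand` it suffices to compare
  `tor v (D X_i * D' X_j * w i j)`; `(conj (tor v) D) X_i = tor v (D (tor (-v) X_i))
   = chi (-v) (κ i) • tor v (D X_i)`, and `tor v (w i j) = chi v (-κ i - κ j) • w i j`.
* `lie_euler`: expand both sides with `omega_expand`; `⁅E, D⁆ X_i = E (D X_i) - κ_i D X_i`,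
  `E (w i j) = (-κ_i - κ_j) w i j`.
* `isotropy`: `A, B` commuting derivations with `L_A ω = L_B ω = 0`, `A X_i`, `B X_i` without
  constant term, `ω` closed (`IsSymplectic.closed`) and alternating (so antisymmetric:
  `ω (X + Y) (X + Y) = 0`).  For any derivation `X`, closedness for `(X, A, B)`:
  `X(ω A B) + A(ω B X) + B(ω X A) = ω ⁅X,A⁆ B + ω ⁅A,B⁆ X + ω ⁅B,X⁆ A`; with `⁅A,B⁆ = 0`,
  `A(ω B X) = ω ⁅A,B⁆ X + ω B ⁅A,X⁆ = ω B ⁅A,X⁆ = ω ⁅X,A⁆ B`,
  `B(ω X A) = ω ⁅B,X⁆ A + ω X ⁅B,A⁆ = ω ⁅B,X⁆ A`, so `X(ω A B) = 0`.  With `X = ∂_i`: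
  `ω A B` is constant (`eq_C_of_pderiv_eq_zero`), and its constant coefficient is `0` by
  `omega_expand`.
-/

set_option autoImplicit false

open MvPowerSeries

namespace Pool.Agent.SYZ71

section

variable {k : Type*} [Field k] {d r s : ℕ}

private theorem lm8_conj_mul (g g' : PS k d ≃ₐ[k] PS k d) (D : Derivation k (PS k d) (PS k d)) :
    conj (g * g') D = conj g (conj g' D) := by
  ext1 f
  rfl

private theorem lm8_conj_inv (g : PS k d ≃ₐ[k] PS k d) (D : Derivation k (PS k d) (PS k d)) :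
    conj g (conj g⁻¹ D) = D := by
  rw [← lm8_conj_mul, mul_inv_cancel]
  ext1 f
  rfl

private theorem lm8_tor_symm_X (ψ : Fin s → Fin r → kˣ) (κ : Fin d → Fin s → ℤ) (v : Fin r → ℤ)
    (i : Fin d) :
    (tor ψ κ v).symm (X i : PS k d) = (chi ψ v (κ i))⁻¹ • (X i : PS k d) := by
  rw [AlgEquiv.symm_apply_eq, map_smul, tor_of_isHom ψ κ v (κ i) (X i) (isHom_X κ i), smul_smul,
    inv_mul_cancel₀ (chi_ne_zero ψ v (κ i)), one_smul]

private theorem lm8_chi (ψ : Fin s → Fin r → kˣ) (v : Fin r → ℤ) (m m' : Fin s → ℤ) :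
    chi ψ v (-m - m') = (chi ψ v m)⁻¹ * (chi ψ v m')⁻¹ := by
  have h := chi_add_right ψ v (m + m') (-m - m')
  have e : m + m' + (-m - m') = 0 := by abel
  rw [e, chi_zero_right, chi_add_right] at h
  have h1 := chi_ne_zero ψ v m
  have h2 := chi_ne_zero ψ v m'
  rw [← mul_inv]
  exact eq_inv_of_mul_eq_one_right h.symm

private theorem lm8_lie_X (κ : Fin d → Fin s → ℤ) (j : Fin s)
    (A : Derivation k (PS k d) (PS k d)) (i : Fin d) :
    ⁅euler k κ j, A⁆ (X i : PS k d) = euler k κ j (A (X i)) - (κ i j : k) • A (X i) := by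
  rw [Derivation.commutator_apply, euler_of_isHom κ j (κ i) (X i) (isHom_X κ i),
    Derivation.map_smul]

end

variable {k : Type*} [Field k] {d r s : ℕ}
  (ω : Derivation k (PS k d) (PS k d) →ₗ[PS k d]
      Derivation k (PS k d) (PS k d) →ₗ[PS k d] PS k d)

theorem preserves_mul (g g' : PS k d ≃ₐ[k] PS k d) (h : Preserves ω g) (h' : Preserves ω g') :
    Preserves ω (g * g') := by
  intro A B
  rw [lm8_conj_mul, lm8_conj_mul, h, h']
  rfl

theorem preserves_inv (g : PS k d ≃ₐ[k] PS k d) (h : Preserves ω g) : Preserves ω g⁻¹ := by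
  intro A B
  have h1 := h (conj g⁻¹ A) (conj g⁻¹ B)
  rw [lm8_conj_inv, lm8_conj_inv] at h1
  rw [h1]
  exact (g.symm_apply_apply _).symm

theorem preserves_tor (ψ : Fin s → Fin r → kˣ) (κ : Fin d → Fin s → ℤ)
    (hw : ∀ i j, IsHom κ (-κ i - κ j) (ω (pderiv k i) (pderiv k j))) (v : Fin r → ℤ) :
    Preserves ω (tor ψ κ v) := by
  intro A B
  rw [omega_expand ω (conj _ A) (conj _ B), omega_expand ω A B, map_sum]
  refine Finset.sum_congr rfl fun i _ => ?_
  rw [map_sum]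
  refine Finset.sum_congr rfl fun j _ => ?_
  rw [map_mul, map_mul, conj_apply, conj_apply, lm8_tor_symm_X, lm8_tor_symm_X,
    Derivation.map_smul, Derivation.map_smul, map_smul, map_smul,
    tor_of_isHom ψ κ v _ _ (hw i j), lm8_chi]
  simp only [smul_mul_assoc, mul_smul_comm, smul_smul]
  rw [mul_comm (chi ψ v (κ j))⁻¹]

theorem lie_euler (κ : Fin d → Fin s → ℤ)
    (hw : ∀ i j, IsHom κ (-κ i - κ j) (ω (pderiv k i) (pderiv k j))) (j : Fin s)
    (A B : Derivation k (PS k d) (PS k d)) :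
    euler k κ j (ω A B) = ω ⁅euler k κ j, A⁆ B + ω A ⁅euler k κ j, B⁆ := by
  rw [omega_expand ω A B, omega_expand ω ⁅euler k κ j, A⁆ B, omega_expand ω A ⁅euler k κ j, B⁆,
    map_sum, ← Finset.sum_add_distrib]
  refine Finset.sum_congr rfl fun i _ => ?_
  rw [map_sum, ← Finset.sum_add_distrib]
  refine Finset.sum_congr rfl fun l _ => ?_
  rw [lm8_lie_X, lm8_lie_X, Derivation.leibniz, Derivation.leibniz,
    euler_of_isHom κ j _ _ (hw i l)]
  simp only [smul_eq_mul, Pi.sub_apply, Pi.neg_apply, Int.cast_sub, Int.cast_neg,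
    Algebra.smul_def, map_sub, map_neg]
  ring

theorem isotropy [CharZero k] (hω : IsSymplectic ω) (A B : Derivation k (PS k d) (PS k d))
    (hAB : ⁅A, B⁆ = 0) (hA : ∀ X Z, A (ω X Z) = ω ⁅A, X⁆ Z + ω X ⁅A, Z⁆)
    (hB : ∀ X Z, B (ω X Z) = ω ⁅B, X⁆ Z + ω X ⁅B, Z⁆)
    (h0 : ∀ i, constantCoeff (A (X i)) = 0) : ω A B = 0 := by
  have anti : ∀ P Q, ω P Q = - ω Q P := by
    intro P Q
    have h := hω.alt (P + Q)
    rw [map_add, map_add, LinearMap.add_apply, LinearMap.add_apply, hω.alt, hω.alt] at h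
    linear_combination h
  have hBA : ⁅B, A⁆ = 0 := by
    rw [← lie_skew, hAB, neg_zero]
  have key : ∀ P : Derivation k (PS k d) (PS k d), P (ω A B) = 0 := by
    intro P
    have h1 := hω.closed P A B
    have h2 := hA B P
    have h3 := hB P A
    rw [hAB, map_zero, LinearMap.zero_apply, zero_add] at h2
    rw [hBA, map_zero, add_zero] at h3
    rw [hAB, map_zero, LinearMap.zero_apply, add_zero] at h1
    have h4 : ω B ⁅A, P⁆ = ω ⁅P, A⁆ B := by
      rw [anti, ← lie_skew, map_neg, LinearMap.neg_apply, neg_neg]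
    rw [h4] at h2
    linear_combination h1 - h2 - h3
  have h5 := eq_C_of_pderiv_eq_zero (ω A B) (fun i => key (pderiv k i))
  have h6 : constantCoeff (ω A B) = 0 := by
    rw [omega_expand ω A B, map_sum]
    refine Finset.sum_eq_zero fun i _ => ?_
    rw [map_sum]
    refine Finset.sum_eq_zero fun j _ => ?_
    rw [map_mul, map_mul, h0 i, zero_mul, zero_mul]
  rw [h5, h6, map_zero]

end Pool.Agent.SYZ71
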