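import Mathlib

/-!
# SYZ71/LNA : linear algebra for part L-END

* a finite family in a free module over a local principal ideal domain contains a basis of its span
  (`exists_subbasis`);
* a family of vectors in `A^d`, `A` a domain, which is totally isotropic for a form with nonzero
  determinant has rank `≤ d / 2` (`card_le_of_isotropic`).
-/

set_option autoImplicit false

open Module

namespace Pool.Agent.SYZ71.LN

theorem exists_subbasis {A : Type*} [CommRing A] [IsDomain A] [IsPrincipalIdealRing A]
    [IsLocalRing A] {d r : ℕ} (y : Fin r → Fin d → A) :
    ∃ J : Finset (Fin r), LinearIndependent A (fun m : J => y m) ∧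
      ∀ l, y l ∈ Submodule.span A (Set.range fun m : J => y m) := by
  classical
  let M := Submodule.span A (Set.range y)
  let v : Fin r → M := fun l => ⟨y l, Submodule.subset_span ⟨l, rfl⟩⟩
  have hv : Submodule.span A (Set.range v) = ⊤ := by
    apply Submodule.map_injective_of_injective M.injective_subtype
    rw [Submodule.map_span, Submodule.map_top, Submodule.range_subtype, ← Set.range_comp]
    rfl
  have : Module.Finite A M := Module.Finite.span_of_finite A (Set.finite_range y)
  have : Module.FinitePresentation A M := Module.finitePresentation_of_finite A M
  obtain ⟨κ, a, b, hb⟩ := Module.exists_basis_of_span_of_flat v hv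
  have : Finite κ := Module.Finite.finite_basis b
  have : Fintype κ := Fintype.ofFinite κ
  have hli : LinearIndependent A (fun x : κ => y (a x)) := by
    have h := b.linearIndependent.map' M.subtype (Submodule.ker_subtype M)
    have e : (fun x : κ => y (a x)) = M.subtype ∘ b := by
      funext x
      simp [hb x, v]
    rw [e]
    exact h
  have hinj : Function.Injective a := by
    intro x x' h
    exact hli.injective (by simp [h])
  refine ⟨Finset.univ.image a, ?_, ?_⟩
  · have h1 : LinearIndependent A (fun m : Set.range a => y m) := by
      exact (linearIndependent_equiv (Equiv.ofInjective a hinj)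
        (f := fun m : Set.range a => y m)).1 hli
    have h2 : LinearIndependent A (fun m : ((Finset.univ.image a : Finset (Fin r)) : Set (Fin r)) => y m) := by
      have e : ((Finset.univ.image a : Finset (Fin r)) : Set (Fin r)) = Set.range a := by simp
      rw [e]
      exact h1
    exact h2
  · intro l
    have h1 : v l ∈ Submodule.span A (Set.range b) := by rw [b.span_eq]; trivial
    have h2 : y l ∈ Submodule.map M.subtype (Submodule.span A (Set.range b)) := ⟨v l, h1, rfl⟩
    rw [Submodule.map_span, ← Set.range_comp] at h2
    refine Submodule.span_mono ?_ h2
    rintro _ ⟨x, rfl⟩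
    refine ⟨⟨a x, by simp⟩, ?_⟩
    simp [hb x, v]

theorem card_le_of_isotropic {A : Type*} [CommRing A] [IsDomain A] {d : ℕ} {ι : Type*} [Fintype ι]
    (u : ι → Fin d → A) (hu : LinearIndependent A u) (Ω : Matrix (Fin d) (Fin d) A)
    (hΩ : Ω.det ≠ 0) (hiso : ∀ a b, ∑ i, ∑ j, u a i * u b j * Ω i j = 0) :
    2 * Fintype.card ι ≤ d := by
  classical
  let K := FractionRing A
  let U : Matrix ι (Fin d) K := Matrix.of fun a i => algebraMap A K (u a i)
  let W : Matrix (Fin d) (Fin d) K := Ω.map (algebraMap A K)
  have hU : LinearIndependent K U.row := by
    have h1 : LinearIndependent A (fun a => (fun i => algebraMap A K (u a i) : Fin d → K)) := by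
      let L : (Fin d → A) →ₗ[A] (Fin d → K) :=
        { toFun := fun x i => algebraMap A K (x i)
          map_add' := fun x y => by ext i; simp
          map_smul' := fun c x => by ext i; simp [Algebra.smul_def] }
      have := hu.map' L (by
        rw [LinearMap.ker_eq_bot]
        intro x y h
        funext i
        exact IsFractionRing.injective A K (congrFun h i))
      exact this
    exact (LinearIndependent.iff_fractionRing A K).1 h1
  have hW : IsUnit W.det := by
    rw [isUnit_iff_ne_zero]
    have : W.det = algebraMap A K Ω.det := by
      rw [RingHom.map_det]; rfl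
    rw [this]
    intro h
    exact hΩ ((IsFractionRing.injective A K) (by rw [h, map_zero]))
  have h0 : (U * W) * U.transpose = 0 := by
    ext a b
    simp only [Matrix.mul_apply, Matrix.transpose_apply, Matrix.zero_apply]
    have h := congrArg (algebraMap A K) (hiso a b)
    rw [map_zero, map_sum] at h
    rw [← h, ]
    simp only [map_sum, map_mul, Finset.sum_mul]
    rw [Finset.sum_comm]
    refine Finset.sum_congr rfl fun i _ => Finset.sum_congr rfl fun j _ => ?_
    simp [U, W]
    ring
  have h1 := Matrix.rank_add_rank_le_card_of_mul_eq_zero h0
  have h2 : (U * W).rank = Fintype.card ι := by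
    rw [Matrix.rank_mul_eq_left_of_isUnit_det W U hW]
    exact LinearIndependent.rank_matrix hU
  have h3 : (U.transpose).rank = Fintype.card ι := by
    rw [Matrix.rank_transpose]
    exact LinearIndependent.rank_matrix hU
  rw [h2, h3, Fintype.card_fin] at h1
  omega

end Pool.Agent.SYZ71.LN
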