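import Pool.Agent.SYZ71.LMid
import Pool.Agent.SYZ71.LM8
import Pool.Agent.SYZ71.LNA
import Pool.Agent.SYZ71.LND

/-!
# SYZ71/LIso : an invariant symplectic form forces rank `≤ n`, target of part L-ISO
-/

set_option autoImplicit false

open MvPowerSeries

namespace Pool.Agent.SYZ71

/-- the infinitesimal generators are pairwise orthogonal for an invariant symplectic form -/
theorem generators_isotropic {k : Type*} [Field k] [CharZero k] {d r s : ℕ}
    (ω : Derivation k (PS k d) (PS k d) →ₗ[PS k d]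
      Derivation k (PS k d) (PS k d) →ₗ[PS k d] PS k d)
    (hω : IsSymplectic ω)
    (g : (Fin r → ℤ) → (PS k d ≃ₐ[k] PS k d)) (hg : ∀ u v, g (u + v) = g u * g v)
    (hgω : ∀ v, Preserves ω (g v)) (ψ : Fin s → Fin r → kˣ) (κ : Fin d → Fin s → ℤ)
    (h : NF g ψ κ) (Y : Fin r → Derivation k (PS k d) (PS k d))
    (hY : LocalData g ψ κ Y) (A B : Derivation k (PS k d) (PS k d))
    (hA : A ∈ Set.range Y ∪ Set.range (euler k κ))
    (hB : B ∈ Set.range Y ∪ Set.range (euler k κ)) : ω A B = 0 := by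
  have hw := omega_homog ω g hg hgω ψ κ h
  have hUω : ∀ v, Preserves ω (uni ψ κ g v) := fun v =>
    preserves_mul ω _ _ (preserves_inv ω _ (preserves_tor ω ψ κ hw v)) (hgω v)
  have hD := hasD_of_localData g hg ψ κ h Y hY
  have hlieY := log_lie ω (uni ψ κ g) (uni_add g hg ψ κ h) (uni_raise ψ κ g h) hUω Y hD
  have hlieE := lie_euler ω κ hw
  have hccY : ∀ l i, constantCoeff (Y l (X i)) = 0 := by
    intro l i
    rw [← coeff_zero_eq_constantCoeff_apply]
    apply coeff_eq_zero_of_lt_weightedOrder (w := eta d)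
    refine lt_of_lt_of_le ?_ (hY.raise l i)
    rw [map_zero]
    exact_mod_cast Nat.succ_pos _
  have hEX : ∀ j i, euler k κ j (X i) = (κ i j : k) • (X i : PS k d) := fun j i =>
    euler_of_isHom κ j (κ i) (X i) (isHom_X κ i)
  have hccE : ∀ j i, constantCoeff (euler k κ j (X i)) = 0 := by
    intro j i
    rw [hEX, constantCoeff_smul, constantCoeff_X, smul_zero]
  have hEY : ∀ j l, ⁅euler k κ j, Y l⁆ = 0 := by
    intro j l
    apply derivation_ext
    intro i
    rw [Derivation.commutator_apply, euler_of_isHom κ j (κ i) _ (hY.homog l i), hEX,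
      Derivation.map_smul, sub_self]
    rfl
  have hEE : ∀ j j' : Fin s, ⁅euler k κ j, euler k κ j'⁆ = 0 := by
    intro j j'
    apply derivation_ext
    intro i
    rw [Derivation.commutator_apply, hEX, hEX, Derivation.map_smul, Derivation.map_smul, hEX, hEX,
      smul_comm, sub_self]
    rfl
  have hskew : ∀ A B, ω A B = 0 → ω B A = 0 := by
    intro A B hAB
    have h1 := hω.alt (A + B)
    simp only [map_add, LinearMap.add_apply, hω.alt, hAB, zero_add, add_zero] at h1
    exact h1
  rcases hA with ⟨l, rfl⟩ | ⟨j, rfl⟩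
  · rcases hB with ⟨m, rfl⟩ | ⟨j, rfl⟩
    · exact isotropy ω hω (Y l) (Y m) (hY.comm l m) (hlieY l) (hlieY m) (hccY l)
    · exact hskew _ _ (isotropy ω hω _ (Y l) (hEY j l) (hlieE j) (hlieY l) (hccE j))
  · rcases hB with ⟨m, rfl⟩ | ⟨j', rfl⟩
    · exact isotropy ω hω _ (Y m) (hEY j m) (hlieE j) (hlieY m) (hccE j)
    · exact isotropy ω hω _ _ (hEE j j') (hlieE j) (hlieE j') (hccE j)

theorem rank_le_of_symplectic {k : Type*} [Field k] [CharZero k] (n : ℕ) {r s : ℕ}
    (ω : Derivation k (PS k (2 * n)) (PS k (2 * n)) →ₗ[PS k (2 * n)]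
      Derivation k (PS k (2 * n)) (PS k (2 * n)) →ₗ[PS k (2 * n)] PS k (2 * n))
    (hω : IsSymplectic ω)
    (g : (Fin r → ℤ) → (PS k (2 * n) ≃ₐ[k] PS k (2 * n))) (hg : ∀ u v, g (u + v) = g u * g v)
    (hgω : ∀ v, Preserves ω (g v)) (ψ : Fin s → Fin r → kˣ) (κ : Fin (2 * n) → Fin s → ℤ)
    (h : NF g ψ κ) (Y : Fin r → Derivation k (PS k (2 * n)) (PS k (2 * n)))
    (hY : LocalData g ψ κ Y) : RankLE n κ Y := by
  intro t ht hlin
  have : IsDomain (PS k (2 * n)) := NoZeroDivisors.to_isDomain _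
  let L : Derivation k (PS k (2 * n)) (PS k (2 * n)) →ₗ[PS k (2 * n)]
      (Fin (2 * n) → PS k (2 * n)) :=
    { toFun := fun D i => D (X i)
      map_add' := fun D D' => by
        ext1 i
        rfl
      map_smul' := fun c D => by
        ext1 i
        rfl }
  have hu : LinearIndependent (PS k (2 * n)) (fun a => L (t a)) := by
    refine hlin.map' L (LinearMap.ker_eq_bot.2 ?_)
    intro D D' hDD
    exact derivation_ext D D' fun i => congrFun hDD i
  have h1 := LN.card_le_of_isotropic (fun a => L (t a)) hu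
    (Matrix.of fun i j => ω (pderiv k i) (pderiv k j)) (LN.omega_det_ne_zero ω hω) (by
      intro a b
      have h2 := generators_isotropic ω hω g hg hgω ψ κ h Y hY (t a) (t b) (ht a) (ht b)
      rw [omega_expand] at h2
      exact h2)
  rw [Fintype.card_fin] at h1
  omega

end Pool.Agent.SYZ71
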