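import Pool.Agent.SYZ71.LM1

/-!
# SYZ71/LM7 : an invariant form is homogeneous of torus weight `0`

`w i j = ω ∂_i ∂_j` is homogeneous of weight `-κ_i - κ_j`.

Proof.  For `v` put `J_{a i} = g v (∂_i (g (-v) X_a))`.  `(g v).symm = g (-v)`, so
`conj (g v) ∂_i = ∑_a J_{a i} ∂_a` (`derivation_eq_sum`), and `Preserves ω (g v)` reads
(1) `g v (w i j) = ∑_{a,b} J_{a i} * J_{b j} * w a b`.
`J_{a i}` is homogeneous of weight `κ_a - κ_i` (`isHom_pderiv`, `algHom_isHom`).
`g (-v) X_a = chi ψ (-v) (κ a) • X_a + R_a` with `weightedOrder R_a ≥ η a + 1` (`η = eta d`; constant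
coefficient `0`: `constantCoeff_algHom`; the coefficients of `X_l`, `l < a`, vanish by `tri`; that
of `X_a` is `diag`; the monomials `X_l`, `l > a`, have weight `η l ≥ η a + 1`, and those of degree
`≥ 2` have weight `≥ 2 d ≥ η a + 1`).  So (`weightedOrder (∂_i R) + η i ≥ weightedOrder R`, `g v`
does not decrease the weighted order: `weightedOrder_algHom_ge`)
(2) `J_{a i} = chi ψ (-v) (κ a) δ_{a i} + R'_{a i}`, `weightedOrder R'_{a i} + η i ≥ η a + 1`.
Fix a weight `m ≠ 0`, `w^m i j = tpr κ (m - κ i - κ j) (w i j)`.  Taking components of weight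
`m - κ i - κ j` in (1) (`tpr_algHom`, `tpr_mul`, `tpr_sum`):
(3) `g v (w^m i j) = ∑_{a,b} J_{a i} * J_{b j} * w^m a b`.
Suppose some `w^m i j ≠ 0`; choose `(i, j)` with `w^m i j ≠ 0` and
`N = weightedOrder (w^m i j) + η i + η j` minimal, and `n` with `coeff n (w^m i j) ≠ 0`,
`weight η n = weightedOrder (w^m i j)`.  Compare the coefficients of `n` in (3).  Left:
`g v f = tor v f + (weight > weightedOrder f)` (apply `weightedOrder_sub_id` to
`(tor ψ κ v)⁻¹ * g v`), so it is `chi ψ v (wt κ n) * coeff n (w^m i j)`.  Right: the terms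
`(a, b) ≠ (i, j)` have weighted order
`≥ (η a - η i + [a ≠ i]) + (η b - η j + [b ≠ j]) + (N - η a - η b) > weight η n`, and the term
`(i, j)` contributes `chi ψ (-v) (κ i) * chi ψ (-v) (κ j) * coeff n (w^m i j)` by (2).  With
`wt κ n = m - κ i - κ j` we get `chi ψ v m = 1` for all `v`; so `m = 0` by `eq_zero_of_chi`.
(To avoid subtraction in `ℕ∞` work with `weightedOrder (…) + η i + η j`.)
Hence for `m ≠ 0` all `w^m i j = 0`, i.e. `coeff n (w i j) ≠ 0` implies
`wt κ n + κ i + κ j = 0`.
-/

set_option autoImplicit false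

open MvPowerSeries

namespace Pool.Agent.SYZ71

variable {k : Type*} [Field k] {d r s : ℕ}

private theorem wo_le_of_coeff (η : Fin d → ℕ) {F : PS k d} {n : Fin d →₀ ℕ} {N : ℕ∞}
    (h : N ≤ F.weightedOrder η) (hn : (Finsupp.weight η n : ℕ∞) < N) : coeff n F = 0 :=
  coeff_eq_zero_of_lt_weightedOrder (w := η) (lt_of_lt_of_le hn h)

/-- leading term of `g v` on the coordinates -/
theorem nf_lead (g : (Fin r → ℤ) → (PS k d ≃ₐ[k] PS k d)) (ψ : Fin s → Fin r → kˣ)
    (κ : Fin d → Fin s → ℤ) (h : NF g ψ κ) (v : Fin r → ℤ) (i : Fin d) :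
    ((eta d i + 1 : ℕ) : ℕ∞) ≤ (g v (X i) - chi ψ v (κ i) • X i).weightedOrder (eta d) := by
  classical
  refine nat_le_weightedOrder (w := eta d) ?_
  intro n hn
  have hcs : ∀ l : Fin d, coeff (Finsupp.single l 1) (chi ψ v (κ i) • (X i : PS k d)) =
      if l = i then chi ψ v (κ i) else 0 := by
    intro l
    rw [coeff_smul, coeff_X]
    by_cases hl : l = i
    · subst hl; simp
    · have : (Finsupp.single l 1 : Fin d →₀ ℕ) ≠ Finsupp.single i 1 := by
        intro h'
        exact hl ((Finsupp.single_left_inj (one_ne_zero)).mp h')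
      rw [if_neg this, if_neg hl, mul_zero]
  have hdeg : Finsupp.degree n = ∑ l, n l := Finsupp.degree_eq_sum n
  have hwt : Finsupp.weight (eta d) n = ∑ l, n l * eta d l := by
    rw [Finsupp.weight_apply, Finsupp.sum_fintype]
    · simp [smul_eq_mul]
    · simp
  have hle : d * ∑ l, n l ≤ ∑ l, n l * eta d l := by
    rw [Finset.mul_sum]
    refine Finset.sum_le_sum fun l _ => ?_
    rw [mul_comm]
    exact Nat.mul_le_mul_left _ (by unfold eta; omega)
  have hi : eta d i < 2 * d := by unfold eta; omega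
  have hsum : ∑ l, n l < 2 := by
    by_contra hc
    have : d * 2 ≤ d * ∑ l, n l := Nat.mul_le_mul_left _ (by omega)
    omega
  by_cases h0 : ∑ l, n l = 0
  · have hn0 : n = 0 := by
      ext l
      have := (Finset.sum_eq_zero_iff.mp h0) l (Finset.mem_univ l)
      simpa using this
    subst hn0
    have h1 : constantCoeff (g v (X i)) = 0 :=
      constantCoeff_algHom (g v : PS k d →ₐ[k] PS k d) _ (constantCoeff_X i)
    rw [map_sub, coeff_smul, coeff_zero_eq_constantCoeff_apply, h1,
      coeff_zero_eq_constantCoeff_apply, constantCoeff_X]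
    simp
  · have h1 : Finsupp.degree n = 1 := by omega
    obtain ⟨l, -, hl⟩ := Finset.exists_ne_zero_of_sum_ne_zero h0
    have hnl : n = Finsupp.single l 1 := by
      have hsplit := Finset.add_sum_erase Finset.univ (fun l => n l) (Finset.mem_univ l)
      have h2 : ∑ x ∈ Finset.univ.erase l, n x = 0 := by
        omega
      ext x
      by_cases hx : x = l
      · subst hx
        rw [Finsupp.single_eq_same]
        omega
      · rw [Finsupp.single_eq_of_ne hx]
        exact (Finset.sum_eq_zero_iff.mp h2) x (Finset.mem_erase.mpr ⟨hx, Finset.mem_univ _⟩)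
    subst hnl
    have hwl : Finsupp.weight (eta d) (Finsupp.single l 1) = eta d l := by
      rw [Finsupp.weight_apply]; simp
    rw [hwl] at hn
    have hli : l ≤ i := by
      rw [Fin.le_def]
      unfold eta at hn
      omega
    rw [map_sub, hcs]
    rcases lt_or_eq_of_le hli with hlt | heq
    · rw [h.tri v i l hlt, if_neg (ne_of_lt hlt), sub_zero]
    · subst heq
      rw [h.diag v l, if_pos rfl, sub_self]

private theorem eta_pos (i : Fin d) : 1 ≤ eta d i := by
  unfold eta; omega

private theorem chi_mul_neg (ψ : Fin s → Fin r → kˣ) (v : Fin r → ℤ) (m : Fin s → ℤ) :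
    chi ψ v m * chi ψ (-v) m = 1 := by
  rw [← chi_add_left, add_neg_cancel, chi_zero_left]

private theorem eta_le_X (i : Fin d) : ((eta d i : ℕ) : ℕ∞) ≤ (X i : PS k d).weightedOrder (eta d) := by
  classical
  refine nat_le_weightedOrder (w := eta d) ?_
  intro n hn
  rw [coeff_X, if_neg]
  rintro rfl
  have hwl : Finsupp.weight (eta d) (Finsupp.single i 1) = eta d i := by
    rw [Finsupp.weight_apply]; simp
  omega

private theorem le_wo_add' (η : Fin d → ℕ) {Q : ℕ∞} {f g : PS k d}
    (hf : Q ≤ f.weightedOrder η) (hg : Q ≤ g.weightedOrder η) : Q ≤ (f + g).weightedOrder η :=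
  le_trans (le_min hf hg) (min_weightedOrder_le_add η)

private theorem nf_wo (g : (Fin r → ℤ) → (PS k d ≃ₐ[k] PS k d)) (ψ : Fin s → Fin r → kˣ)
    (κ : Fin d → Fin s → ℤ) (h : NF g ψ κ) (v : Fin r → ℤ) (f : PS k d) :
    f.weightedOrder (eta d) ≤ (g v f).weightedOrder (eta d) := by
  refine weightedOrder_algHom_ge (eta d) eta_pos (g v : PS k d →ₐ[k] PS k d) ?_ f
  intro i
  have h1 : (g v : PS k d →ₐ[k] PS k d) (X i) =
      (g v (X i) - chi ψ v (κ i) • X i) + chi ψ v (κ i) • X i := by
    simp
  rw [h1]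
  refine le_wo_add' _ (le_trans ?_ (nf_lead g ψ κ h v i)) ?_
  · exact_mod_cast Nat.le_succ _
  · exact le_trans (eta_le_X i) (le_weightedOrder_smul _)

/-- the leading part of `g v f` is the torus part -/
private theorem nf_lead_coeff (g : (Fin r → ℤ) → (PS k d ≃ₐ[k] PS k d)) (ψ : Fin s → Fin r → kˣ)
    (κ : Fin d → Fin s → ℤ) (h : NF g ψ κ) (v : Fin r → ℤ) (f : PS k d) (n : Fin d →₀ ℕ)
    (hn : (Finsupp.weight (eta d) n : ℕ∞) ≤ f.weightedOrder (eta d)) :
    coeff n (g v f) = chi ψ v (wt κ n) * coeff n f := by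
  set φ : PS k d ≃ₐ[k] PS k d := tor ψ κ (-v) * g v with hφ
  have happ : ∀ f, φ f = tor ψ κ (-v) (g v f) := fun f => rfl
  have h1 : ∀ i, ((eta d i + 1 : ℕ) : ℕ∞) ≤
      ((φ : PS k d →ₐ[k] PS k d) (X i) - X i).weightedOrder (eta d) := by
    intro i
    have h2 : (φ : PS k d →ₐ[k] PS k d) (X i) - X i =
        tor ψ κ (-v) (g v (X i) - chi ψ v (κ i) • X i) := by
      rw [map_sub, map_smul, tor_of_isHom ψ κ (-v) (κ i) (X i) (isHom_X κ i), smul_smul,
        chi_mul_neg, one_smul]
      rfl
    rw [h2, weightedOrder_tor]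
    exact nf_lead g ψ κ h v i
  have h3 := weightedOrder_sub_id (eta d) eta_pos (φ : PS k d →ₐ[k] PS k d) h1 f
  have h4 : coeff n (φ f - f) = 0 := by
    refine wo_le_of_coeff (eta d) h3 ?_
    refine lt_of_lt_of_le ?_ (add_le_add hn le_rfl)
    exact_mod_cast Nat.lt_succ_self _
  rw [map_sub, sub_eq_zero, happ, coeff_tor] at h4
  calc coeff n (g v f) = (chi ψ v (wt κ n) * chi ψ (-v) (wt κ n)) * coeff n (g v f) := by
        rw [chi_mul_neg, one_mul]
    _ = chi ψ v (wt κ n) * coeff n f := by rw [mul_assoc, h4]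

/-- the matrix of `g v` on the vector fields `∂_i` -/
private noncomputable def JJ (g : (Fin r → ℤ) → (PS k d ≃ₐ[k] PS k d)) (v : Fin r → ℤ)
    (a i : Fin d) : PS k d := g v (pderiv k i (g (-v) (X a)))

private theorem JJ_isHom (g : (Fin r → ℤ) → (PS k d ≃ₐ[k] PS k d)) (ψ : Fin s → Fin r → kˣ)
    (κ : Fin d → Fin s → ℤ) (h : NF g ψ κ) (v : Fin r → ℤ) (a i : Fin d) :
    IsHom κ (κ a - κ i) (JJ g v a i) := by
  refine algHom_isHom κ (g v : PS k d →ₐ[k] PS k d) (h.homog v) _ _ ?_
  exact isHom_pderiv κ (κ a) i _ (h.homog (-v) a)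

private theorem JJ_lead (g : (Fin r → ℤ) → (PS k d ≃ₐ[k] PS k d)) (ψ : Fin s → Fin r → kˣ)
    (κ : Fin d → Fin s → ℤ) (h : NF g ψ κ) (v : Fin r → ℤ) (a i : Fin d) :
    ∃ R : PS k d, JJ g v a i = (if a = i then chi ψ (-v) (κ a) else 0) • 1 + R ∧
      ((eta d a + 1 : ℕ) : ℕ∞) ≤ R.weightedOrder (eta d) + eta d i := by
  classical
  set S : PS k d := g (-v) (X a) - chi ψ (-v) (κ a) • X a with hS
  refine ⟨g v (pderiv k i S), ?_, ?_⟩
  · have h1 : g (-v) (X a) = chi ψ (-v) (κ a) • X a + S := by rw [hS]; abel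
    have h2 : pderiv k i (X a : PS k d) = if a = i then 1 else 0 := by
      by_cases hai : a = i
      · subst hai; simp
      · rw [if_neg hai, pderiv_X_of_ne hai]
    unfold JJ
    rw [h1, map_add, map_add, Derivation.map_smul, map_smul, h2]
    by_cases hai : a = i
    · rw [if_pos hai, if_pos hai, map_one]
    · rw [if_neg hai, if_neg hai, map_zero, smul_zero, zero_smul]
  · have h3 : ((eta d a + 1 : ℕ) : ℕ∞) ≤ S.weightedOrder (eta d) := nf_lead g ψ κ h (-v) a
    have h4 : S.weightedOrder (eta d) ≤ (pderiv k i S).weightedOrder (eta d) + eta d i := by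
      by_cases htop : (pderiv k i S).weightedOrder (eta d) = ⊤
      · rw [htop]; simp
      obtain ⟨N, hN⟩ := ENat.ne_top_iff_exists.mp htop
      obtain ⟨n, hn, hw⟩ := exists_coeff_ne_zero_and_weightedOrder (f := pderiv k i S) (eta d) (by
        rw [← hN]; rfl)
      rw [← hw]
      rw [coeff_pderiv] at hn
      have h5 := weightedOrder_le (eta d) (left_ne_zero_of_mul hn)
      refine le_trans h5 ?_
      rw [map_add]
      have hwl : Finsupp.weight (eta d) (Finsupp.single i 1) = eta d i := by
        rw [Finsupp.weight_apply]; simp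
      rw [hwl]
      push_cast
      exact le_rfl
    refine le_trans h3 (le_trans h4 ?_)
    exact add_le_add (nf_wo g ψ κ h v _) le_rfl

private theorem JJ_wo (g : (Fin r → ℤ) → (PS k d ≃ₐ[k] PS k d)) (ψ : Fin s → Fin r → kˣ)
    (κ : Fin d → Fin s → ℤ) (h : NF g ψ κ) (v : Fin r → ℤ) (a i : Fin d) :
    ((eta d a + (if a = i then 0 else 1) : ℕ) : ℕ∞) ≤
      (JJ g v a i).weightedOrder (eta d) + eta d i := by
  classical
  by_cases hai : a = i
  · subst hai
    rw [if_pos rfl, add_zero]
    exact le_add_self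
  · obtain ⟨R, hR, hR'⟩ := JJ_lead g ψ κ h v a i
    rw [if_neg hai, zero_smul, zero_add] at hR
    rw [hR, if_neg hai]
    exact hR'

theorem omega_homog (ω : Derivation k (PS k d) (PS k d) →ₗ[PS k d]
      Derivation k (PS k d) (PS k d) →ₗ[PS k d] PS k d)
    (g : (Fin r → ℤ) → (PS k d ≃ₐ[k] PS k d)) (hg : ∀ u v, g (u + v) = g u * g v)
    (hgω : ∀ v, Preserves ω (g v)) (ψ : Fin s → Fin r → kˣ) (κ : Fin d → Fin s → ℤ)
    (h : NF g ψ κ) (i j : Fin d) :
    IsHom κ (-κ i - κ j) (ω (pderiv k i) (pderiv k j)) := by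
  classical
  -- the inverse of `g v`
  have hg0 : g 0 = 1 := by
    have h1 := hg 0 0
    rw [add_zero] at h1
    exact (left_eq_mul.mp h1)
  have hsymm : ∀ v f, (g v).symm f = g (-v) f := by
    intro v f
    rw [AlgEquiv.symm_apply_eq]
    have h1 := hg v (-v)
    rw [add_neg_cancel, hg0] at h1
    have h2 := DFunLike.congr_fun h1 f
    exact h2
  have hconj : ∀ v i, conj (g v) (pderiv k i) = ∑ a, JJ g v a i • pderiv k a := by
    intro v i
    rw [derivation_eq_sum (conj (g v) (pderiv k i))]
    refine Finset.sum_congr rfl fun a _ => ?_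
    rw [conj_apply, hsymm]
    rfl
  -- (1)
  have h1 : ∀ v i j, g v (ω (pderiv k i) (pderiv k j)) =
      ∑ a, ∑ b, JJ g v a i * JJ g v b j * ω (pderiv k a) (pderiv k b) := by
    intro v i j
    rw [← hgω v (pderiv k i) (pderiv k j), hconj, hconj, map_sum ω, LinearMap.sum_apply]
    refine Finset.sum_congr rfl fun a _ => ?_
    rw [map_sum]
    refine Finset.sum_congr rfl fun b _ => ?_
    rw [map_smul, map_smul, LinearMap.smul_apply, smul_eq_mul, smul_eq_mul]
    ring
  -- components
  set W : (Fin s → ℤ) → Fin d → Fin d → PS k d := fun m a b =>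
    tpr κ (m - κ a - κ b) (ω (pderiv k a) (pderiv k b)) with hW
  -- (3)
  have h3 : ∀ v m i j, g v (W m i j) = ∑ a, ∑ b, JJ g v a i * JJ g v b j * W m a b := by
    intro v m i j
    have e1 : g v (W m i j) =
        tpr κ (m - κ i - κ j) (g v (ω (pderiv k i) (pderiv k j))) :=
      (tpr_algHom κ (g v : PS k d →ₐ[k] PS k d) (h.homog v) _ _).symm
    rw [e1, h1, tpr_sum]
    refine Finset.sum_congr rfl fun a _ => ?_
    rw [tpr_sum]
    refine Finset.sum_congr rfl fun b _ => ?_
    have e2 : m - κ i - κ j = ((κ a - κ i) + (κ b - κ j)) + (m - κ a - κ b) := by abel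
    rw [e2]
    exact tpr_mul κ _ _ _ _ (isHom_mul κ _ _ _ _ (JJ_isHom g ψ κ h v a i) (JJ_isHom g ψ κ h v b j))
  have key : ∀ m : Fin s → ℤ, m ≠ 0 → ∀ i j, W m i j = 0 := by
    intro m hm
    by_contra hcon
    push Not at hcon
    obtain ⟨i0, j0, hij0⟩ := hcon
    -- choose a minimal pair
    obtain ⟨⟨i, j⟩, hmem, hmin⟩ := Finset.exists_min_image
      (Finset.univ.filter fun p : Fin d × Fin d => W m p.1 p.2 ≠ 0)
      (fun p => (W m p.1 p.2).weightedOrder (eta d) + eta d p.1 + eta d p.2)
      ⟨(i0, j0), by simpa using hij0⟩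
    simp only [Finset.mem_filter, Finset.mem_univ, true_and] at hmem hmin
    have hmin' : ∀ a b, (W m i j).weightedOrder (eta d) + eta d i + eta d j ≤
        (W m a b).weightedOrder (eta d) + eta d a + eta d b := by
      intro a b
      by_cases hab : W m a b = 0
      · rw [hab, weightedOrder_zero]; simp
      · exact hmin (a, b) hab
    obtain ⟨n, hn, hw⟩ := exists_coeff_ne_zero_and_weightedOrder (f := W m i j) (eta d)
      (by rw [← ne_zero_iff_weightedOrder_finite]; exact hmem)
    have hwtn : wt κ n = m - κ i - κ j := isHom_tpr κ _ _ n hn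
    apply hm
    apply eq_zero_of_chi ψ h.indep m
    intro v
    -- compare coefficients
    have hL : coeff n (g v (W m i j)) = chi ψ v (wt κ n) * coeff n (W m i j) :=
      nf_lead_coeff g ψ κ h v _ n hw.le
    have hterm : ∀ a b, ¬ (a = i ∧ b = j) → coeff n (JJ g v a i * JJ g v b j * W m a b) = 0 := by
      intro a b hab
      have e1 := JJ_wo g ψ κ h v a i
      have e2 := JJ_wo g ψ κ h v b j
      have e3 := hmin' a b
      have e4 : (JJ g v a i).weightedOrder (eta d) + (JJ g v b j).weightedOrder (eta d) +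
          (W m a b).weightedOrder (eta d) ≤
          (JJ g v a i * JJ g v b j * W m a b).weightedOrder (eta d) :=
        le_trans (add_le_add (le_weightedOrder_mul _) le_rfl) (le_weightedOrder_mul _)
      have e5 : 1 ≤ (if a = i then 0 else 1) + (if b = j then 0 else 1 : ℕ) := by
        by_cases ha : a = i
        · have hb : b ≠ j := fun hb => hab ⟨ha, hb⟩
          simp [ha, hb]
        · simp [ha]
      rw [← hw] at e3
      refine coeff_eq_zero_of_lt_weightedOrder (w := eta d) (lt_of_lt_of_le ?_ e4)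
      generalize (JJ g v a i).weightedOrder (eta d) = x at *
      generalize (JJ g v b j).weightedOrder (eta d) = y at *
      generalize (W m a b).weightedOrder (eta d) = z at *
      generalize Finsupp.weight (eta d) n = N at *
      generalize (if a = i then 0 else 1 : ℕ) = p at *
      generalize (if b = j then 0 else 1 : ℕ) = q at *
      cases x with
      | top => simp
      | coe x =>
        cases y with
        | top => simp
        | coe y =>
          cases z with
          | top => simp
          | coe z =>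
            norm_cast at *
            omega
    have hmain : coeff n (JJ g v i i * JJ g v j j * W m i j) =
        chi ψ (-v) (κ i) * chi ψ (-v) (κ j) * coeff n (W m i j) := by
      obtain ⟨R, hR, hR'⟩ := JJ_lead g ψ κ h v i i
      obtain ⟨R2, hR2, hR2'⟩ := JJ_lead g ψ κ h v j j
      rw [if_pos rfl] at hR hR2
      have e0 : JJ g v i i * JJ g v j j * W m i j =
          (chi ψ (-v) (κ i) * chi ψ (-v) (κ j)) • W m i j +
          (chi ψ (-v) (κ i) • (R2 * W m i j) + R * (JJ g v j j * W m i j)) := by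
        rw [hR, hR2]
        simp only [smul_eq_C_mul, map_mul]
        ring
      have hR1 : 1 ≤ R.weightedOrder (eta d) := by
        generalize R.weightedOrder (eta d) = x at *
        cases x with
        | top => simp
        | coe x => norm_cast at *; omega
      have hR21 : 1 ≤ R2.weightedOrder (eta d) := by
        generalize R2.weightedOrder (eta d) = x at *
        cases x with
        | top => simp
        | coe x => norm_cast at *; omega
      have hN : ((Finsupp.weight (eta d) n : ℕ) : ℕ∞) < 1 + (W m i j).weightedOrder (eta d) := by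
        rw [← hw]
        norm_cast
        omega
      rw [e0, map_add, map_add, coeff_smul, coeff_smul]
      have z1 : coeff n (R2 * W m i j) = 0 := by
        refine coeff_eq_zero_of_lt_weightedOrder (w := eta d) (lt_of_lt_of_le hN ?_)
        exact le_trans (add_le_add hR21 le_rfl) (le_weightedOrder_mul _)
      have z2 : coeff n (R * (JJ g v j j * W m i j)) = 0 := by
        refine coeff_eq_zero_of_lt_weightedOrder (w := eta d) (lt_of_lt_of_le hN ?_)
        refine le_trans (add_le_add hR1 ?_) (le_weightedOrder_mul _)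
        exact le_trans le_add_self (le_weightedOrder_mul _)
      rw [z1, z2]
      ring
    have hR : coeff n (∑ a, ∑ b, JJ g v a i * JJ g v b j * W m a b) =
        chi ψ (-v) (κ i) * chi ψ (-v) (κ j) * coeff n (W m i j) := by
      rw [map_sum, Finset.sum_eq_single i, map_sum, Finset.sum_eq_single j, hmain]
      · intro b _ hb
        exact hterm i b (fun hh => hb hh.2)
      · intro hh; exact absurd (Finset.mem_univ _) hh
      · intro a _ ha
        rw [map_sum]
        exact Finset.sum_eq_zero fun b _ => hterm a b (fun hh => ha hh.1)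
      · intro hh; exact absurd (Finset.mem_univ _) hh
    have hfin : chi ψ v (wt κ n) = chi ψ (-v) (κ i) * chi ψ (-v) (κ j) := by
      have := hL.symm.trans ((congrArg (coeff n) (h3 v m i j)).trans hR)
      exact mul_right_cancel₀ hn this
    have hsplit : m = (m - κ i - κ j) + (κ i + κ j) := by abel
    rw [hsplit, chi_add_right, chi_add_right, ← hwtn, hfin]
    have c1 := chi_mul_neg ψ v (κ i)
    have c2 := chi_mul_neg ψ v (κ j)
    linear_combination (chi ψ v (κ j) * chi ψ (-v) (κ j)) * c1 + c2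
  -- conclusion
  intro a ha
  set m : Fin s → ℤ := wt κ a + κ i + κ j with hm
  have hm0 : m = 0 := by
    by_contra hne
    have hz := key m hne i j
    apply ha
    have e1 : coeff a (W m i j) = coeff a (ω (pderiv k i) (pderiv k j)) := by
      rw [hW, coeff_tpr, if_pos]
      rw [hm]; abel
    rw [← e1, hz, map_zero]
  have : wt κ a = m - κ i - κ j := by rw [hm]; abel
  rw [this, hm0]
  abel

end Pool.Agent.SYZ71
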