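import Pool.Agent.SYZ71.LM6
import Pool.Agent.SYZ71.LM7

/-!
# SYZ71/LMid : infinitesimal generators, target of part L-MID

`uni ψ κ g v = (tor v)⁻¹ * g v` is the unipotent part of `g v`; its logarithms `Y l` satisfy
`HasD l (fun v => uni ψ κ g v f) (Y l f)` and form a `LocalData`; conversely the derivations of any
`LocalData` are these logarithms (`hasD_of_localData`).
-/

set_option autoImplicit false

open MvPowerSeries

namespace Pool.Agent.SYZ71

/-- the unipotent part of `g v` -/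
noncomputable def uni {k : Type*} [Field k] {d r s : ℕ} (ψ : Fin s → Fin r → kˣ)
    (κ : Fin d → Fin s → ℤ) (g : (Fin r → ℤ) → (PS k d ≃ₐ[k] PS k d)) (v : Fin r → ℤ) :
    PS k d ≃ₐ[k] PS k d := (tor ψ κ v)⁻¹ * g v

theorem uni_add {k : Type*} [Field k] {d r s : ℕ}
    (g : (Fin r → ℤ) → (PS k d ≃ₐ[k] PS k d)) (hg : ∀ u v, g (u + v) = g u * g v)
    (ψ : Fin s → Fin r → kˣ) (κ : Fin d → Fin s → ℤ) (h : NF g ψ κ) (u v : Fin r → ℤ) :
    uni ψ κ g (u + v) = uni ψ κ g u * uni ψ κ g v := by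
  simp only [uni]
  have h1 : (tor ψ κ v : PS k d ≃ₐ[k] PS k d) * g u = g u * tor ψ κ v :=
    tor_commute ψ κ (g u) (h.homog u) v
  have h1' : g u * (tor ψ κ v)⁻¹ = (tor ψ κ v)⁻¹ * g u := by
    rw [mul_inv_eq_iff_eq_mul, mul_assoc, ← h1, inv_mul_cancel_left]
  have h2 : (tor ψ κ (u + v) : PS k d ≃ₐ[k] PS k d) = tor ψ κ v * tor ψ κ u := by
    rw [add_comm, tor_add]
  rw [h2, hg, mul_inv_rev]
  simp only [mul_assoc]
  rw [← mul_assoc (g u), h1', mul_assoc]

private theorem tor_inv_apply {k : Type*} [Field k] {d r s : ℕ}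
    (ψ : Fin s → Fin r → kˣ) (κ : Fin d → Fin s → ℤ) (v : Fin r → ℤ) (m : Fin s → ℤ)
    (f : PS k d) (hf : IsHom κ m f) : (tor ψ κ v)⁻¹ (chi ψ v m • f) = f := by
  rw [← tor_of_isHom ψ κ v m f hf]
  exact AlgEquiv.symm_apply_apply _ _

private theorem tor_inv_hom {k : Type*} [Field k] {d r s : ℕ}
    (ψ : Fin s → Fin r → kˣ) (κ : Fin d → Fin s → ℤ) (v : Fin r → ℤ) (m : Fin s → ℤ)
    (f : PS k d) (hf : IsHom κ m f) : (tor ψ κ v)⁻¹ f = (chi ψ v m)⁻¹ • f := by
  have h := tor_inv_apply ψ κ v m ((chi ψ v m)⁻¹ • f) (isHom_smul κ m _ f hf)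
  rw [smul_smul, mul_inv_cancel₀ (chi_ne_zero ψ v m), one_smul] at h
  exact h

theorem uni_apply {k : Type*} [Field k] {d r s : ℕ} (ψ : Fin s → Fin r → kˣ)
    (κ : Fin d → Fin s → ℤ) (g : (Fin r → ℤ) → (PS k d ≃ₐ[k] PS k d)) (v : Fin r → ℤ)
    (f : PS k d) : g v f = tor ψ κ v (uni ψ κ g v f) :=
  (AlgEquiv.apply_symm_apply (tor ψ κ v) (g v f)).symm

theorem uni_homog {k : Type*} [Field k] {d r s : ℕ} (ψ : Fin s → Fin r → kˣ)
    (κ : Fin d → Fin s → ℤ) (g : (Fin r → ℤ) → (PS k d ≃ₐ[k] PS k d)) (h : NF g ψ κ)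
    (v : Fin r → ℤ) (i : Fin d) : IsHom κ (κ i) (uni ψ κ g v (X i)) := by
  have h1 : uni ψ κ g v (X i) = (tor ψ κ v)⁻¹ (g v (X i)) := rfl
  rw [h1, tor_inv_hom ψ κ v (κ i) _ (h.homog v i)]
  exact isHom_smul κ _ _ _ (h.homog v i)

theorem uni_raise {k : Type*} [Field k] {d r s : ℕ} (ψ : Fin s → Fin r → kˣ)
    (κ : Fin d → Fin s → ℤ) (g : (Fin r → ℤ) → (PS k d ≃ₐ[k] PS k d)) (h : NF g ψ κ)
    (v : Fin r → ℤ) (i : Fin d) :
    ((eta d i + 1 : ℕ) : ℕ∞) ≤ (uni ψ κ g v (X i) - X i).weightedOrder (eta d) := by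
  have h1 := nf_lead g ψ κ h v i
  have h2 : g v (X i) - chi ψ v (κ i) • X i = tor ψ κ v (uni ψ κ g v (X i) - X i) := by
    rw [map_sub, ← uni_apply, tor_of_isHom ψ κ v (κ i) (X i) (isHom_X κ i)]
  rw [h2, weightedOrder_tor] at h1
  exact h1

theorem le_weightedOrder_X {k : Type*} [Field k] {d : ℕ} (i : Fin d) :
    ((eta d i : ℕ) : ℕ∞) ≤ (X i : PS k d).weightedOrder (eta d) := by
  apply nat_le_weightedOrder
  intro a ha
  rw [coeff_X, if_neg]
  rintro rfl
  rw [Finsupp.weight_single, one_smul] at ha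
  exact lt_irrefl _ ha

/-- the logarithms of the unipotent parts form a `LocalData` -/
theorem localData_of_hasD {k : Type*} [Field k] [CharZero k] {d r s : ℕ}
    (g : (Fin r → ℤ) → (PS k d ≃ₐ[k] PS k d)) (hg : ∀ u v, g (u + v) = g u * g v)
    (ψ : Fin s → Fin r → kˣ) (κ : Fin d → Fin s → ℤ)
    (h : NF g ψ κ) (Y : Fin r → Derivation k (PS k d) (PS k d))
    (hY : ∀ l f, HasD l (fun v => uni ψ κ g v f) (Y l f)) : LocalData g ψ κ Y := by
  have hU : ∀ u v, uni ψ κ g (u + v) = uni ψ κ g u * uni ψ κ g v := uni_add g hg ψ κ h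
  have hUhom := uni_homog ψ κ g h
  have hr := uni_raise ψ κ g h
  have hwt := log_weight (uni ψ κ g) hr Y hY
  exact
  { span := h.span
    raise := by
      intro l i
      refine le_trans ?_ (hwt l (X i))
      push_cast
      gcongr
      exact le_weightedOrder_X i
    homog := fun l i => log_homog (uni ψ κ g) κ hUhom Y hY l (κ i) (X i) (isHom_X κ i)
    comm := log_comm (uni ψ κ g) hU hr Y hY
    exp := by
      intro v m f hf Θ
      have h1 := log_exp (uni ψ κ g) hU hr Y hY v f Θ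
      set S : PS k d := ∑ j ∈ Finset.range Θ, ((j.factorial : k)⁻¹) •
        (((∑ l, (v l : k) • (Y l : PS k d →ₗ[k] PS k d)) : Module.End k (PS k d)) ^ j) f with hS
      have h2 : IsHom κ m (uni ψ κ g v f) :=
        algHom_isHom κ (uni ψ κ g v : PS k d →ₐ[k] PS k d) (hUhom v) m f hf
      have h3 : g v f - chi ψ v m • S = chi ψ v m • (uni ψ κ g v f - S) := by
        rw [uni_apply, tor_of_isHom ψ κ v m _ h2, smul_sub]
      rw [h3]
      exact le_trans h1 (le_weightedOrder_smul _) }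

theorem exists_localData {k : Type*} [Field k] [CharZero k] {d r s : ℕ}
    (g : (Fin r → ℤ) → (PS k d ≃ₐ[k] PS k d)) (hg : ∀ u v, g (u + v) = g u * g v)
    (ψ : Fin s → Fin r → kˣ) (κ : Fin d → Fin s → ℤ) (h : NF g ψ κ) :
    ∃ Y : Fin r → Derivation k (PS k d) (PS k d), LocalData g ψ κ Y := by
  obtain ⟨Y, hY⟩ := exists_log (uni ψ κ g) (uni_add g hg ψ κ h) (uni_raise ψ κ g h)
  exact ⟨Y, localData_of_hasD g hg ψ κ h Y hY⟩

private theorem hasD_coord {k : Type*} [Field k] {d r : ℕ} (l m : Fin r) :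
    HasD l (fun v => (C (v m : k) : PS k d)) (C (if l = m then 1 else 0)) := by
  classical
  intro a
  by_cases ha : a = 0
  · subst ha
    refine ⟨MvPolynomial.X m, ?_, ?_⟩
    · intro v
      simp
    · simp only [coeff_zero_C, MvPolynomial.pderiv_X]
      by_cases hlm : l = m
      · subst hlm
        simp
      · rw [if_neg hlm, Pi.single_eq_of_ne (Ne.symm hlm)]
        simp
  · refine ⟨0, ?_, ?_⟩
    · intro v
      rw [map_zero]
      classical
      rw [coeff_C, if_neg ha]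
    · rw [map_zero, map_zero]
      classical
      rw [coeff_C, if_neg ha]

private theorem hasD_scal {k : Type*} [Field k] {d r : ℕ} (l m : Fin r)
    (ψ : (Fin r → ℤ) → PS k d) (f' : PS k d) (hψ : HasD l ψ f') :
    HasD l (fun v => (v m : k) • ψ v) (if l = m then ψ 0 else 0) := by
  have h := hasD_mul l _ _ _ _ (hasD_coord (k := k) (d := d) l m) hψ
  have e1 : (fun v : Fin r → ℤ => (v m : k) • ψ v) = fun v => C (v m : k) * ψ v := by
    funext v
    rw [smul_eq_C_mul]
  rw [e1]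
  convert h using 1
  by_cases hlm : l = m
  · simp [hlm]
  · simp [hlm]

private theorem hasD_pow {k : Type*} [Field k] {d r : ℕ}
    (Y : Fin r → Derivation k (PS k d) (PS k d))
    (hY : ∀ m (f : PS k d), f.weightedOrder (eta d) ≤ (Y m f).weightedOrder (eta d))
    (hη : ∀ i, 1 ≤ eta d i) (l : Fin r) (f : PS k d) (j : ℕ) :
    HasD l (fun v => (((∑ m, (v m : k) • (Y m : PS k d →ₗ[k] PS k d)) :
      Module.End k (PS k d)) ^ j) f) (if j = 1 then Y l f else 0) := by
  induction j with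
  | zero => simpa using hasD_const l f
  | succ j ih =>
    have h1 : ∀ m ∈ (Finset.univ : Finset (Fin r)),
        HasD l (fun v : Fin r → ℤ => (v m : k) • Y m ((((∑ m, (v m : k) •
          (Y m : PS k d →ₗ[k] PS k d)) : Module.End k (PS k d)) ^ j) f))
          (if l = m then Y m ((((∑ m, (((0 : Fin r → ℤ) m : ℤ) : k) •
          (Y m : PS k d →ₗ[k] PS k d)) : Module.End k (PS k d)) ^ j) f) else 0) := by
      intro m _
      exact hasD_scal l m _ _ (hasD_linear (eta d) hη 0 (Y m : PS k d →ₗ[k] PS k d)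
        (fun f => by simpa using hY m f) l _ _ ih)
    have h2 := hasD_sum l Finset.univ _ _ h1
    rw [Finset.sum_ite_eq Finset.univ l, if_pos (Finset.mem_univ l)] at h2
    have e1 : (fun v : Fin r → ℤ => (((∑ m, (v m : k) • (Y m : PS k d →ₗ[k] PS k d)) :
        Module.End k (PS k d)) ^ (j + 1)) f) = fun v => ∑ m, (v m : k) •
        Y m ((((∑ m, (v m : k) • (Y m : PS k d →ₗ[k] PS k d)) :
        Module.End k (PS k d)) ^ j) f) := by
      funext v
      rw [pow_succ', Module.End.mul_apply, LinearMap.sum_apply]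
      rfl
    rw [e1]
    convert h2 using 1
    have e2 : (∑ m, (((0 : Fin r → ℤ) m : ℤ) : k) • (Y m : PS k d →ₗ[k] PS k d) :
        Module.End k (PS k d)) = 0 := by
      simp
    rw [e2]
    by_cases hj : j = 0
    · subst hj
      simp
    · rw [if_neg (by omega), zero_pow hj]
      simp

/-- the derivations of a `LocalData` are the logarithms of the unipotent parts -/
theorem hasD_of_localData {k : Type*} [Field k] [CharZero k] {d r s : ℕ}
    (g : (Fin r → ℤ) → (PS k d ≃ₐ[k] PS k d)) (hg : ∀ u v, g (u + v) = g u * g v)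
    (ψ : Fin s → Fin r → kˣ) (κ : Fin d → Fin s → ℤ) (h : NF g ψ κ)
    (Y : Fin r → Derivation k (PS k d) (PS k d)) (hY : LocalData g ψ κ Y) (l : Fin r)
    (f : PS k d) : HasD l (fun v => uni ψ κ g v f) (Y l f) := by
  obtain ⟨Y', hY'⟩ := exists_log (uni ψ κ g) (uni_add g hg ψ κ h) (uni_raise ψ κ g h)
  suffices hYY : Y l = Y' l by
    rw [hYY]
    exact hY' l f
  apply derivation_ext
  intro i
  refine hasD_unique l _ _ _ ?_ (hY' l (X i))
  have hη : ∀ i, 1 ≤ eta d i := by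
    intro i
    have := i.pos
    simp only [eta]
    omega
  have hYw : ∀ m (f : PS k d), f.weightedOrder (eta d) ≤ (Y m f).weightedOrder (eta d) := by
    intro m f
    have h1 := weightedOrder_derivation (eta d) 1 (Y m) (hY.raise m) f
    exact le_trans le_self_add h1
  intro a
  by_cases hwa : wt κ a = κ i
  · set Θ : ℕ := Finsupp.weight (eta d) a + 2 with hΘ
    have hS : HasD l (fun v : Fin r → ℤ => ∑ j ∈ Finset.range Θ, ((j.factorial : k)⁻¹) •
        (((∑ m, (v m : k) • (Y m : PS k d →ₗ[k] PS k d)) : Module.End k (PS k d)) ^ j) (X i))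
        (Y l (X i)) := by
      have h1 := hasD_sum l (Finset.range Θ) _ _ (fun j _ =>
        hasD_smul l ((j.factorial : k)⁻¹) _ _ (hasD_pow Y hYw hη l (X i) j))
      convert h1 using 1
      rw [Finset.sum_eq_single 1]
      · simp
      · intro j _ hj
        rw [if_neg hj, smul_zero]
      · intro hc
        exact absurd (Finset.mem_range.2 (by omega)) hc
    obtain ⟨P, hP, hP'⟩ := hS a
    refine ⟨P, ?_, hP'⟩
    intro v
    rw [← hP v]
    have h1 := hY.exp v (κ i) (X i) (isHom_X κ i) Θ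
    have h2 : coeff a (g v (X i) - chi ψ v (κ i) • ∑ j ∈ Finset.range Θ,
        ((j.factorial : k)⁻¹) • (((∑ m, (v m : k) • (Y m : PS k d →ₗ[k] PS k d)) :
        Module.End k (PS k d)) ^ j) (X i)) = 0 := by
      apply coeff_eq_zero_of_lt_weightedOrder (w := eta d)
      refine lt_of_lt_of_le ?_ h1
      exact_mod_cast (by omega : Finsupp.weight (eta d) a < Θ)
    rw [map_sub, sub_eq_zero, uni_apply ψ κ g v (X i), coeff_tor, hwa, coeff_smul] at h2
    exact mul_left_cancel₀ (chi_ne_zero ψ v (κ i)) h2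
  · refine ⟨0, ?_, ?_⟩
    · intro v
      rw [map_zero]
      by_contra hc
      exact hwa (uni_homog ψ κ g h v i a hc)
    · rw [map_zero, map_zero]
      by_contra hc
      exact hwa (hY.homog l i a hc)

end Pool.Agent.SYZ71
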