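import Pool.Agent.SYZ71.LNF
import Pool.Agent.SYZ71.LMid
import Pool.Agent.SYZ71.LIso
import Pool.Agent.SYZ71.LEnd
import Pool.Agent.SYZ71.LA

/-!
# SYZ71/Local : the local interpolation bound (target of part L)

`g v` commuting automorphisms of `k[[z_1..z_2n]]` preserving a closed generically nondegenerate
`2`-form.  Then there are `M, C ≥ 1` such that for all power series `f_i` and all `v_j ∈ ℕ^r`,
a nonzero determinant `det (g_{M v_j} f_i)` of size `φ ≥ 2 C q^n` has order `≥ q φ / 2`.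
No loss in `v_j`.
-/

set_option autoImplicit false

open MvPowerSeries

namespace Pool.Agent.SYZ71

variable {k : Type*} [Field k] {d : ℕ}

namespace Tr

/-- transport of vector fields is additive -/
theorem conj_add (θ : PS k d ≃ₐ[k] PS k d) (X Y : Derivation k (PS k d) (PS k d)) :
    conj θ (X + Y) = conj θ X + conj θ Y := by
  ext1 f
  simp

theorem conj_smul (θ : PS k d ≃ₐ[k] PS k d) (a : PS k d) (X : Derivation k (PS k d) (PS k d)) :
    conj θ (a • X) = θ a • conj θ X := by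
  ext1 f
  simp

theorem conj_mul (θ η : PS k d ≃ₐ[k] PS k d) (X : Derivation k (PS k d) (PS k d)) :
    conj (θ * η) X = conj θ (conj η X) := by
  ext1 f
  simp only [conj_apply, AlgEquiv.mul_apply]
  rfl

theorem conj_one (X : Derivation k (PS k d) (PS k d)) :
    conj (1 : PS k d ≃ₐ[k] PS k d) X = X := by
  ext1 f
  rfl

theorem conj_lie (θ : PS k d ≃ₐ[k] PS k d) (X Y : Derivation k (PS k d) (PS k d)) :
    conj θ ⁅X, Y⁆ = ⁅conj θ X, conj θ Y⁆ := by
  ext1 f
  simp only [conj_apply, Derivation.commutator_apply, AlgEquiv.symm_apply_apply, map_sub]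

/-- pull back of a `2`-form by an automorphism -/
noncomputable def transport (θ : PS k d ≃ₐ[k] PS k d)
    (ω : Derivation k (PS k d) (PS k d) →ₗ[PS k d]
      Derivation k (PS k d) (PS k d) →ₗ[PS k d] PS k d) :
    Derivation k (PS k d) (PS k d) →ₗ[PS k d]
      Derivation k (PS k d) (PS k d) →ₗ[PS k d] PS k d :=
  LinearMap.mk₂ (PS k d) (fun X Y => θ.symm (ω (conj θ X) (conj θ Y)))
    (by intro X X' Y; rw [conj_add]; simp)
    (by intro a X Y; rw [conj_smul]; simp)
    (by intro X Y Y'; rw [conj_add]; simp)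
    (by intro a X Y; rw [conj_smul]; simp)

theorem transport_apply (θ : PS k d ≃ₐ[k] PS k d)
    (ω : Derivation k (PS k d) (PS k d) →ₗ[PS k d]
      Derivation k (PS k d) (PS k d) →ₗ[PS k d] PS k d) (X Y : Derivation k (PS k d) (PS k d)) :
    transport θ ω X Y = θ.symm (ω (conj θ X) (conj θ Y)) := rfl

theorem transport_isSymplectic (θ : PS k d ≃ₐ[k] PS k d)
    (ω : Derivation k (PS k d) (PS k d) →ₗ[PS k d]
      Derivation k (PS k d) (PS k d) →ₗ[PS k d] PS k d) (h : IsSymplectic ω) :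
    IsSymplectic (transport θ ω) := by
  refine ⟨fun X => ?_, fun X Y Z => ?_, fun X hX => ?_⟩
  · rw [transport_apply, h.alt, map_zero]
  · have key : ∀ X f, X (θ.symm f) = θ.symm (conj θ X f) := by
      intro X f
      simp
    simp only [transport_apply, conj_lie, key, ← map_add]
    rw [h.closed]
  · have h1 : conj θ X = 0 := by
      apply h.nondeg
      intro Y
      have h2 := hX (conj θ⁻¹ Y)
      rw [transport_apply, ← conj_mul, mul_inv_cancel, conj_one] at h2
      simpa using h2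
    have h3 : conj θ⁻¹ (conj θ X) = X := by
      rw [← conj_mul, inv_mul_cancel, conj_one]
    rw [← h3, h1]
    ext1 f
    simp

theorem transport_preserves (θ g : PS k d ≃ₐ[k] PS k d)
    (ω : Derivation k (PS k d) (PS k d) →ₗ[PS k d]
      Derivation k (PS k d) (PS k d) →ₗ[PS k d] PS k d) (h : Preserves ω g) :
    Preserves (transport θ ω) (θ⁻¹ * g * θ) := by
  intro X Y
  rw [transport_apply, transport_apply, ← conj_mul, ← conj_mul]
  have h1 : θ * (θ⁻¹ * g * θ) = g * θ := by group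
  rw [h1, conj_mul, conj_mul, h]
  have h2 : ∀ f, (θ⁻¹ * g * θ) (θ.symm f) = θ.symm (g f) := by
    intro f
    simp only [AlgEquiv.mul_apply, AlgEquiv.apply_symm_apply]
    rfl
  rw [h2]

/-- the bound for `g` from the bound for a conjugate of `v ↦ g (M v)` -/
theorem localBound_of_data [CharZero k] {r s : ℕ} (m : ℕ)
    (g : (Fin r → ℤ) → (PS k d ≃ₐ[k] PS k d)) (θ : PS k d ≃ₐ[k] PS k d) (M : ℕ) (hM : 1 ≤ M)
    (ψ : Fin s → Fin r → kˣ) (κ : Fin d → Fin s → ℤ)
    (Y : Fin r → Derivation k (PS k d) (PS k d))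
    (hY : LocalData (fun v => θ⁻¹ * g (fun l => (M : ℤ) * v l) * θ) ψ κ Y)
    (hm : RankLE m κ Y) : LocalBound m g := by
  obtain ⟨C, hC, hCb⟩ := localData_bound m
    (fun v => θ⁻¹ * g (fun l => (M : ℤ) * v l) * θ) ψ κ Y hY hm
  refine ⟨M, C, hM, hC, ?_⟩
  intro φ q f v hq hφ hdet
  have h1 : (Matrix.of fun i j => (θ⁻¹ * g (fun l => (M : ℤ) * (fun l => (v j l : ℤ)) l) * θ)
      ((fun i => θ.symm (f i)) i)) =
      (θ.symm : PS k d →+* PS k d).mapMatrix
        (Matrix.of fun i j => g (fun l => ((M * v j l : ℕ) : ℤ)) (f i)) := by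
    ext1 i j
    simp only [Matrix.of_apply, RingHom.mapMatrix_apply, Matrix.map_apply, AlgEquiv.mul_apply,
      AlgEquiv.apply_symm_apply]
    push_cast
    rfl
  have h2 := hCb φ q (fun i => θ.symm (f i)) (fun j l => (v j l : ℤ)) hq hφ
  rw [h1, ← RingHom.map_det] at h2
  have h3 : (θ.symm : PS k d →+* PS k d)
      (Matrix.of fun i j => g (fun l => ((M * v j l : ℕ) : ℤ)) (f i)).det =
      θ.symm ((Matrix.of fun i j => g (fun l => ((M * v j l : ℕ) : ℤ)) (f i)).det) := rfl
  rw [h3, order_algEquiv] at h2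
  apply h2
  intro h4
  apply hdet
  exact (map_eq_zero_iff θ.symm θ.symm.injective).1 h4

/-- conjugates of `v ↦ g (M v)` -/
theorem conj_add_hom {r : ℕ} (g : (Fin r → ℤ) → (PS k d ≃ₐ[k] PS k d))
    (hg : ∀ u v, g (u + v) = g u * g v) (θ : PS k d ≃ₐ[k] PS k d) (M : ℕ) (u v : Fin r → ℤ) :
    (θ⁻¹ * g (fun l => (M : ℤ) * (u + v) l) * θ) =
      (θ⁻¹ * g (fun l => (M : ℤ) * u l) * θ) * (θ⁻¹ * g (fun l => (M : ℤ) * v l) * θ) := by
  have h1 : (fun l => (M : ℤ) * (u + v) l) =
      (fun l => (M : ℤ) * u l) + (fun l => (M : ℤ) * v l) := by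
    funext l
    simp [mul_add]
  rw [h1, hg]
  group

end Tr

open Tr in
theorem local_bound {k : Type*} [Field k] [CharZero k] [IsAlgClosed k] (n r : ℕ)
    (ω : Derivation k (PS k (2 * n)) (PS k (2 * n)) →ₗ[PS k (2 * n)]
      Derivation k (PS k (2 * n)) (PS k (2 * n)) →ₗ[PS k (2 * n)] PS k (2 * n))
    (hω : IsSymplectic ω)
    (g : (Fin r → ℤ) → (PS k (2 * n) ≃ₐ[k] PS k (2 * n)))
    (hg : ∀ u v, g (u + v) = g u * g v) (hgω : ∀ v, Preserves ω (g v)) :
    LocalBound n g := by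
  obtain ⟨θ, M, s, ψ, κ, hM, hNF⟩ := exists_NF g hg
  obtain ⟨Y, hY⟩ := exists_localData (fun v => θ⁻¹ * g (fun l => (M : ℤ) * v l) * θ)
    (conj_add_hom g hg θ M) ψ κ hNF
  exact localBound_of_data n g θ M hM ψ κ Y hY
    (rank_le_of_symplectic n (transport θ ω) (transport_isSymplectic θ ω hω) _
      (conj_add_hom g hg θ M) (fun v => transport_preserves θ _ ω (hgω _)) ψ κ hNF Y hY)

end Pool.Agent.SYZ71
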