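import Pool.Agent.SYZ71Z.ZAsm

/-!
# SYZ71/ZeroEst : the zero estimate (target of part Z)

`F` a field over `k` of transcendence degree `N`, `F ⊗_k F` a domain, `ℤ^r` acting on `F` by
`k`-automorphisms `g v`.  `B, M ⊆ F` finite dimensional, `1 ∈ M`, `M` generates `F`,
`β_u g_u(B) ⊆ M` for all `u ∈ [0, N w]^r` and suitable `β_u ≠ 0`, `dim M^K ≤ T₀ K^N`.
If `(w+1)^r > N! T₀`, then no nonzero `F`-linear combination of elements `b_i` of `B`, linearly
independent over the fixed field of `g v` for all `v ≠ 0`, vanishes at all `g_v`,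
`v ∈ [0, (N+1) w]^r`.
-/

set_option autoImplicit false

open Module TensorProduct

namespace Pool.Agent.SYZ71

universe u v

theorem zero_estimate {k : Type v} {F : Type u} [Field k] [CharZero k] [Field F] [Algebra k F]
    (hdom : IsDomain (F ⊗[k] F)) (N r w T₀ : ℕ) (hr : 1 ≤ r)
    (g : (Fin r → ℤ) → (F ≃ₐ[k] F)) (hg : ∀ u v, g (u + v) = g u * g v)
    (htr : Algebra.trdeg k F = N) (B M : Submodule k F)
    [Module.Finite k B] [Module.Finite k M] (h1 : (1 : F) ∈ M)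
    (hadj : IntermediateField.adjoin k (M : Set F) = ⊤)
    (hβ : ∀ u : Fin r → ℕ, (∀ i, u i ≤ N * w) →
      ∃ β : F, β ≠ 0 ∧ ∀ b ∈ B, β * g (fun i => (u i : ℤ)) b ∈ M)
    (hT : ∀ K : ℕ, 1 ≤ K → finrank k ↥(M ^ K) ≤ T₀ * K ^ N)
    (hbig : N.factorial * T₀ < (w + 1) ^ r)
    (m : ℕ) (b : Fin m → F) (hb : ∀ i, b i ∈ B)
    (hlin : ∀ v, v ≠ 0 → ∀ c : Fin m → F, (∀ i, g v (c i) = c i) → ∑ i, c i * b i = 0 → c = 0)
    (c : Fin m → F)
    (hz : ∀ v : Fin r → ℕ, (∀ i, v i ≤ (N + 1) * w) →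
      ∑ i, c i * g (fun j => (v j : ℤ)) (b i) = 0) :
    c = 0 :=
  SYZ71Z.zero_est_aux hdom N r w T₀ hr g hg htr B M h1 hadj hβ hT hbig m b hb hlin c hz

/-- `F ⊗_k F` is a domain if only the constants are fixed by `g v`, `v ≠ 0` -/
theorem isDomain_of_fixed {k : Type v} {F : Type u} [Field k] [CharZero k] [Field F] [Algebra k F]
    (r : ℕ) (hr : 1 ≤ r)
    (g : (Fin r → ℤ) → (F ≃ₐ[k] F)) (hg : ∀ u v, g (u + v) = g u * g v)
    (hinv : ∀ v, v ≠ 0 → ∀ a : F, g v a = a → a ∈ (algebraMap k F).range)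
    (M : Submodule k F) [Module.Finite k M]
    (hadj : IntermediateField.adjoin k (M : Set F) = ⊤) : IsDomain (F ⊗[k] F) := by
  have := SYZ71Z.tensor_noeth (k := k) M hadj
  exact SYZ71Z.tensor_isDomain r hr g hg hinv

end Pool.Agent.SYZ71
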