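import Mathlib

/-!
# SYZ71/ZDom : `F ⊗[k] F` is a domain for an algebraically closed field `k`

The proof uses only the Nullstellensatz: a product of two elements of `F ⊗ B₀` (`B₀` a finitely
generated subalgebra) is evaluated at all maximal ideals of `B₀`.
-/

set_option autoImplicit false

open TensorProduct

namespace Pool.Agent.SYZ71.ZE

/-- A nonzero element of a finitely generated domain over an algebraically closed field does not
vanish at some point. -/
theorem exists_point {k B : Type*} [Field k] [IsAlgClosed k] [CommRing B] [IsDomain B]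
    [Algebra k B] [Algebra.FiniteType k B] (x : B) (hx : x ≠ 0) : ∃ ε : B →ₐ[k] k, ε x ≠ 0 := by
  classical
  have hJ : IsJacobsonRing B := isJacobsonRing_of_finiteType (A := k)
  have h0 : x ∉ Ideal.jacobson (⊥ : Ideal B) := by
    rw [← Ideal.radical_eq_jacobson]
    rintro ⟨n, hn⟩
    exact hx (eq_zero_of_pow_eq_zero hn)
  rw [Ideal.jacobson, Ideal.mem_sInf] at h0
  push Not at h0
  obtain ⟨m, ⟨-, hm⟩, hxm⟩ := h0
  let _ : Field (B ⧸ m) := Ideal.Quotient.field m
  have hfin : Module.Finite k (B ⧸ m) := finite_of_finite_type_of_isJacobsonRing k (B ⧸ m)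
  have hbij : Function.Bijective (algebraMap k (B ⧸ m)) :=
    IsAlgClosed.algebraMap_bijective_of_isIntegral
  let e : k ≃ₐ[k] (B ⧸ m) := AlgEquiv.ofBijective (Algebra.ofId k (B ⧸ m)) hbij
  refine ⟨e.symm.toAlgHom.comp (Ideal.Quotient.mkₐ k m), ?_⟩
  intro h
  have h1 : e.symm ((Ideal.Quotient.mkₐ k m) x) = 0 := h
  have h2 : (Ideal.Quotient.mkₐ k m) x = 0 := (map_eq_zero_iff e.symm e.symm.injective).mp h1
  exact hxm (Ideal.Quotient.eq_zero_iff_mem.mp h2)

/-- Evaluation of a zero sum `∑ aᵢ ⊗ yᵢ = 0` in `F ⊗ F`, all `yᵢ` in a finitely generated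
subalgebra `B`, at a point of `B`. -/
theorem eval_zero {k F : Type*} [Field k] [Field F] [Algebra k F] (B : Subalgebra k F)
    (ε : B →ₐ[k] k) {ι : Type*} (s : Finset ι) (a : ι → F) (y : ι → B)
    (h : ∑ i ∈ s, a i ⊗ₜ[k] (y i : F) = 0) : ∑ i ∈ s, ε (y i) • a i = 0 := by
  have hinj : Function.Injective (LinearMap.lTensor F (B.val.toLinearMap)) :=
    Module.Flat.lTensor_preserves_injective_linearMap _ Subtype.val_injective
  have h1 : ∑ i ∈ s, a i ⊗ₜ[k] y i = (0 : F ⊗[k] B) := by
    apply hinj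
    rw [map_zero, map_sum]
    exact h
  have h2 := congrArg ((TensorProduct.rid k F).toLinearMap ∘ₗ LinearMap.lTensor F ε.toLinearMap) h1
  rw [map_zero, map_sum] at h2
  rw [← h2]
  refine Finset.sum_congr rfl fun i _ => ?_
  simp

private theorem sum_fac {k F : Type*} [Field k] [Field F] [Algebra k F] {ι κ : Type*}
    (s : Finset ι) (t : Finset κ) (p : ι → F) (q : κ → F) (u : ι → k) (v : κ → k) :
    ∑ x ∈ s ×ˢ t, (u x.1 * v x.2) • (p x.1 * q x.2) =
      (∑ i ∈ s, u i • p i) * (∑ j ∈ t, v j • q j) := by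
  rw [Finset.sum_mul_sum, Finset.sum_product]
  refine Finset.sum_congr rfl fun i _ => Finset.sum_congr rfl fun j _ => ?_
  rw [smul_mul_smul_comm]

private theorem tensor_fac {k F : Type*} [Field k] [Field F] [Algebra k F] {ι κ : Type*}
    (s : Finset ι) (t : Finset κ) (p : ι → F) (q : κ → F) (u : ι → F) (v : κ → F) :
    ∑ x ∈ s ×ˢ t, (p x.1 * q x.2) ⊗ₜ[k] (u x.1 * v x.2) =
      (∑ i ∈ s, p i ⊗ₜ[k] u i) * (∑ j ∈ t, q j ⊗ₜ[k] v j) := by
  rw [Finset.sum_mul_sum, Finset.sum_product]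
  refine Finset.sum_congr rfl fun i _ => Finset.sum_congr rfl fun j _ => ?_
  rw [Algebra.TensorProduct.tmul_mul_tmul]

private theorem core {k F : Type*} [Field k] [IsAlgClosed k] [Field F] [Algebra k F] {ι : Type*}
    (𝔟 : Module.Basis ι k F) (B : Subalgebra k F) [Algebra.FiniteType k B] (s t : Finset ι)
    (X Y : ι → B) (i0 j0 : ι) (hi : i0 ∈ s) (hj : j0 ∈ t) (hX : X i0 ≠ 0) (hY : Y j0 ≠ 0)
    (h : (∑ i ∈ s, 𝔟 i ⊗ₜ[k] (X i : F)) * (∑ i ∈ t, 𝔟 i ⊗ₜ[k] (Y i : F)) = 0) : False := by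
  obtain ⟨ε, hε⟩ := exists_point (k := k) (X i0 * Y j0) (mul_ne_zero hX hY)
  rw [← tensor_fac] at h
  have hev := eval_zero B ε (s ×ˢ t) (fun p => 𝔟 p.1 * 𝔟 p.2) (fun p => X p.1 * Y p.2) h
  have hfac : (∑ i ∈ s, ε (X i) • 𝔟 i) * (∑ j ∈ t, ε (Y j) • 𝔟 j) = 0 := by
    rw [← sum_fac, ← hev]
    refine Finset.sum_congr rfl fun x _ => ?_
    rw [map_mul ε (X x.1) (Y x.2)]
  rcases mul_eq_zero.mp hfac with h | h
  · have h3 := (linearIndependent_iff'.mp 𝔟.linearIndependent) s (fun i => ε (X i)) h i0 hi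
    exact hε (by rw [map_mul, h3, zero_mul])
  · have h3 := (linearIndependent_iff'.mp 𝔟.linearIndependent) t (fun i => ε (Y i)) h j0 hj
    exact hε (by rw [map_mul, h3, mul_zero])

/-- The tensor square of a field over an algebraically closed field is a domain. -/
theorem isDomain_tensor {k F : Type*} [Field k] [IsAlgClosed k] [Field F] [Algebra k F] :
    IsDomain (F ⊗[k] F) := by
  classical
  have hnt : Nontrivial (F ⊗[k] F) := by
    have hinj : Function.Injective (Algebra.TensorProduct.includeLeft : F →ₐ[k] F ⊗[k] F) :=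
      Algebra.TensorProduct.includeLeft_injective (S := k) (algebraMap k F).injective
    exact hinj.nontrivial
  have hnz : NoZeroDivisors (F ⊗[k] F) := by
    refine ⟨?_⟩
    intro x y hxy
    obtain ⟨⟨ι, 𝔟⟩⟩ := Module.Free.exists_basis (R := k) (M := F)
    obtain ⟨X, hX⟩ := TensorProduct.eq_repr_basis_left 𝔟 x
    obtain ⟨Y, hY⟩ := TensorProduct.eq_repr_basis_left 𝔟 y
    by_contra hcon
    push Not at hcon
    obtain ⟨hx, hy⟩ := hcon
    obtain ⟨i0, hi0⟩ : ∃ i, X i ≠ 0 := by
      by_contra h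
      push Not at h
      apply hx
      rw [← hX]
      have : X = 0 := Finsupp.ext h
      rw [this, Finsupp.sum_zero_index]
    obtain ⟨j0, hj0⟩ : ∃ j, Y j ≠ 0 := by
      by_contra h
      push Not at h
      apply hy
      rw [← hY]
      have : Y = 0 := Finsupp.ext h
      rw [this, Finsupp.sum_zero_index]
    obtain ⟨B, hB⟩ : ∃ B : Subalgebra k F, B =
      Algebra.adjoin k ((X.support.image X ∪ Y.support.image Y : Finset F) : Set F) := ⟨_, rfl⟩
    have hft : Algebra.FiniteType k B := by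
      rw [← Subalgebra.fg_iff_finiteType]
      exact ⟨_, hB.symm⟩
    have hXB : ∀ i, X i ∈ B := by
      intro i
      by_cases h : X i = 0
      · rw [h]
        exact B.zero_mem
      · rw [hB]
        refine Algebra.subset_adjoin ?_
        simp only [Finset.coe_union, Set.mem_union, Finset.mem_coe, Finset.mem_image]
        exact Or.inl ⟨i, Finsupp.mem_support_iff.mpr h, rfl⟩
    have hYB : ∀ i, Y i ∈ B := by
      intro i
      by_cases h : Y i = 0
      · rw [h]
        exact B.zero_mem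
      · rw [hB]
        refine Algebra.subset_adjoin ?_
        simp only [Finset.coe_union, Set.mem_union, Finset.mem_coe, Finset.mem_image]
        exact Or.inr ⟨i, Finsupp.mem_support_iff.mpr h, rfl⟩
    refine core 𝔟 B X.support Y.support (fun i => ⟨X i, hXB i⟩) (fun i => ⟨Y i, hYB i⟩) i0 j0
      (Finsupp.mem_support_iff.mpr hi0) (Finsupp.mem_support_iff.mpr hj0)
      (fun h => hi0 (congrArg Subtype.val h)) (fun h => hj0 (congrArg Subtype.val h)) ?_
    rw [← hX, ← hY] at hxy
    exact hxy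
  exact NoZeroDivisors.to_isDomain _

end Pool.Agent.SYZ71.ZE
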