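import Pool.Agent.SYZ71.Main
import Pool.Agent.SYZ71.Local
import Pool.Agent.SYZ71M.RD

/-!
# SYZ71/Rel : the formal theorem, lower bounds for `κ` (helper31's note 1573)

`core` with `m = ν = n`, `d = 2n`, `K₀` = the ratios of elements of `L 0 E`, `e₀ = κ`.
`main_full`: `K₁ = k`;  `main_triv`: `K₁ = K₀`.
-/

set_option autoImplicit false

open MvPowerSeries Module

namespace Pool.Agent.SYZ71

variable {k : Type*} [Field k] {d r : ℕ}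

/-- invariant functions are ratios of sections of multiples of `α` -/
def InvariantIitaka (L : ℕ → ℕ → Submodule k (PS k d))
    (g : (Fin r → ℤ) → (PS k d ≃ₐ[k] PS k d)) : Prop :=
  ∀ v, v ≠ 0 → ∀ D, ∀ f ∈ L D 0, ∀ h ∈ L D 0, h ≠ 0 → g v f * h = f * g v h →
    ∃ E, ∃ f' ∈ L 0 E, ∃ h' ∈ L 0 E, h' ≠ 0 ∧ f * h' = f' * h

/-- `κ(α) ≥ e` -/
def KappaGE (L : ℕ → ℕ → Submodule k (PS k d)) (e : ℕ) : Prop :=
  ∃ E : ℕ, ∃ s : Fin (e + 1) → PS k d, (∀ i, s i ∈ L 0 E) ∧ s 0 ≠ 0 ∧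
    AlgebraicIndependent k (fun i : Fin e => algebraMap (PS k d) (FractionRing (PS k d)) (s i.succ) /
      algebraMap (PS k d) (FractionRing (PS k d)) (s 0))

/-- `(n - κ) r ≤ 2n (n + κ)` -/
theorem main_full [CharZero k] [IsAlgClosed k] (n r : ℕ) (hn : 1 ≤ n)
    (ω : Derivation k (PS k (2 * n)) (PS k (2 * n)) →ₗ[PS k (2 * n)]
      Derivation k (PS k (2 * n)) (PS k (2 * n)) →ₗ[PS k (2 * n)] PS k (2 * n))
    (hω : IsSymplectic ω)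
    (g : (Fin r → ℤ) → (PS k (2 * n) ≃ₐ[k] PS k (2 * n)))
    (hg : ∀ u v, g (u + v) = g u * g v) (hgω : ∀ v, Preserves ω (g v))
    (L : ℕ → ℕ → Submodule k (PS k (2 * n))) (hL : SectionFamily n L)
    (h00 : (1 : PS k (2 * n)) ∈ L 0 0)
    (hgL : ∃ C : ℕ, ∀ (v : Fin r → ℤ) (D E : ℕ), 1 ≤ D → ∃ b : PS k (2 * n), b ≠ 0 ∧
      ∀ f ∈ L D E, b * g v f ∈ L (2 * D) (E + C * D * (1 + ∑ i, (v i).natAbs ^ 2)))
    (hinv : InvariantIitaka L g) :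
    ∃ e : ℕ, KappaGE L e ∧ (n - e) * r ≤ 2 * n * (n + e) := by
  exact Pool.Agent.SYZ71M.rel_full n r g hg (local_bound n r ω hω g hg hgω) L hL h00 hgL hinv

/-- if `G` acts trivially on the Iitaka field, `(n - κ) r ≤ 2n²` -/
theorem main_triv [CharZero k] [IsAlgClosed k] (n r : ℕ) (hn : 1 ≤ n)
    (ω : Derivation k (PS k (2 * n)) (PS k (2 * n)) →ₗ[PS k (2 * n)]
      Derivation k (PS k (2 * n)) (PS k (2 * n)) →ₗ[PS k (2 * n)] PS k (2 * n))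
    (hω : IsSymplectic ω)
    (g : (Fin r → ℤ) → (PS k (2 * n) ≃ₐ[k] PS k (2 * n)))
    (hg : ∀ u v, g (u + v) = g u * g v) (hgω : ∀ v, Preserves ω (g v))
    (L : ℕ → ℕ → Submodule k (PS k (2 * n))) (hL : SectionFamily n L)
    (h00 : (1 : PS k (2 * n)) ∈ L 0 0)
    (hgL : ∃ C : ℕ, ∀ (v : Fin r → ℤ) (D E : ℕ), 1 ≤ D → ∃ b : PS k (2 * n), b ≠ 0 ∧
      ∀ f ∈ L D E, b * g v f ∈ L (2 * D) (E + C * D * (1 + ∑ i, (v i).natAbs ^ 2)))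
    (hinv : InvariantIitaka L g)
    (htriv : ∀ v E, ∀ f ∈ L 0 E, ∀ h ∈ L 0 E, g v f * h = f * g v h) :
    ∃ e : ℕ, KappaGE L e ∧ (n - e) * r ≤ 2 * n ^ 2 := by
  exact Pool.Agent.SYZ71M.rel_triv n r g hg (local_bound n r ω hω g hg hgω) L hL h00 hgL hinv htriv

end Pool.Agent.SYZ71
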