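import Pool.Agent.SYZ71.GE

/-!
# SYZ71/GF : an invariant function is a ratio of sections of a multiple of `α`
-/

set_option autoImplicit false

open MvPowerSeries Module

namespace Pool.Agent.SYZ71

namespace Variety

variable {k : Type} [Field k] {n : ℕ} {X : Variety k (2 * n)} {α : X.Div} {r : ℕ}

theorem ord_pow (hX : X.IsSymplecticVariety n) (p : X.Prime) {f : X.K} (hf : f ≠ 0) (m : ℕ) :
    X.ord p (f ^ m) = m * X.ord p f := by
  induction m with
  | zero => rw [pow_zero, ord_one hX]; simp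
  | succ m ih =>
    rw [pow_succ, hX.ord_mul p _ _ (pow_ne_zero m hf) hf, ih]
    push_cast
    ring

theorem q_nonneg_of_disjoint (hX : X.IsSymplecticVariety n) {Z P : X.Div}
    (hZ : ∀ p, 0 ≤ Z p) (hP : ∀ p, 0 ≤ P p) (hd : ∀ p, Z p = 0 ∨ P p = 0) :
    0 ≤ X.q (X.classOf Z) (X.classOf P) := by
  unfold classOf Finsupp.sum
  simp only [map_sum, LinearMap.sum_apply, map_smul, LinearMap.smul_apply, smul_eq_mul]
  refine Finset.sum_nonneg fun p _ => ?_
  rw [Finset.mul_sum]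
  refine Finset.sum_nonneg fun p' _ => ?_
  by_cases h : p' = p
  · subst h
    rcases hd p' with h0 | h0
    · rw [h0]; simp
    · rw [h0]; simp
  · exact mul_nonneg (by exact_mod_cast hP p)
      (mul_nonneg (by exact_mod_cast hZ p') (hX.q_prime p' p h))

theorem q_ample_pos_of_eff (hX : X.IsSymplecticVariety n) {a : X.NS} (ha : a ∈ X.Ample)
    {P : X.Div} (hP : ∀ p, 0 ≤ P p) {p₀ : X.Prime} (hp₀ : P p₀ ≠ 0) :
    0 < X.q a (X.classOf P) := by
  unfold classOf Finsupp.sum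
  simp only [map_sum, map_smul, smul_eq_mul]
  refine Finset.sum_pos (fun p hp => ?_) ⟨p₀, Finsupp.mem_support_iff.mpr hp₀⟩
  have h1 : P p ≠ 0 := Finsupp.mem_support_iff.mp hp
  have h2 : 0 < P p := lt_of_le_of_ne (hP p) (Ne.symm h1)
  exact mul_pos (by exact_mod_cast h2) (hX.q_ample_prime a ha p)

theorem exists_iitaka (hX : X.IsSymplecticVariety n) (hα : X.IsNefIsotropic α)
    (G : X.Action r α) {v : Fin r → ℤ} (hv : v ≠ 0) {φ : X.K} (hφ0 : φ ≠ 0)
    (hinv : G.γ v φ = φ) (hφ : φ ∉ (algebraMap k X.K).range) :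
    ∃ m : ℕ, ∃ h ∈ X.H0 (m • α), h ≠ 0 ∧ φ * h ∈ X.H0 (m • α) := by
  obtain ⟨A, -, ha⟩ := hX.exists_ample
  set P := poles hX φ hφ0 with hPdef
  set Z := poles hX φ⁻¹ (inv_ne_zero hφ0) with hZdef
  have hP : ∀ p, P p = max 0 (- X.ord p φ) := fun p => poles_apply hX φ hφ0 p
  have hZ : ∀ p, Z p = max 0 (X.ord p φ) := fun p => by
    rw [hZdef, poles_apply, ord_inv hX p hφ0, neg_neg]
  have hPe : ∀ p, 0 ≤ P p := fun p => by rw [hP]; exact le_max_left _ _
  have hZe : ∀ p, 0 ≤ Z p := fun p => by rw [hZ]; exact le_max_left _ _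
  have hZP : ∀ p, Z p - P p = X.ord p φ := fun p => by rw [hZ, hP]; omega
  have hd : ∀ p, Z p = 0 ∨ P p = 0 := fun p => by rw [hZ, hP]; omega
  obtain ⟨p₀, hp₀⟩ : ∃ p, X.ord p φ < 0 := by
    by_contra hne
    push Not at hne
    exact hφ (hX.const_of_ord φ hφ0 hne)
  have hcl : X.classOf Z = X.classOf P := by
    have h := (hX.classOf_div (Z - P) φ ⟨hφ0, fun p => by rw [Finsupp.sub_apply, hZP]⟩).2
    rw [classOf_sub] at h
    exact sub_eq_zero.mp h
  have hPinv : P.mapDomain (G.π v) = P := by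
    ext p
    obtain ⟨p', rfl⟩ := (G.π v).surjective p
    rw [mapDomain_apply', hP, hP]
    have := G.ord_γ v p' φ hφ0
    rw [hinv] at this
    rw [this]
  set δ := X.classOf P with hδ
  have hT : X.transvection (X.classOf α) (G.w v) δ = δ := by
    rw [hδ, ← classOf_mapDomain, hPinv]
  have hq0 : X.q (X.classOf α) δ = 0 := by
    by_contra hne
    unfold transvection at hT
    set s := X.q (G.w v) δ + X.q (G.w v) (G.w v) / 2 * X.q (X.classOf α) δ with hs
    have h1 : X.q (X.classOf α) δ • G.w v = s • X.classOf α := by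
      have h2 : δ + X.q (X.classOf α) δ • G.w v - s • X.classOf α - δ = 0 := by
        rw [hT, sub_self]
      have h3 : X.q (X.classOf α) δ • G.w v - s • X.classOf α = 0 := by
        rw [← h2]; abel
      exact sub_eq_zero.mp h3
    refine G.w_indep v hv (s / X.q (X.classOf α) δ) ?_
    rw [div_eq_inv_mul, mul_smul, ← h1, smul_smul, inv_mul_cancel₀ hne, one_smul]
  have hqq : 0 ≤ X.q δ δ := by
    have h := q_nonneg_of_disjoint hX hZe hPe hd
    rw [hcl] at h
    exact h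
  have hPp : P p₀ ≠ 0 := by rw [hP]; omega
  have hδα := eq_smul_alpha hX hα ha hq0 hqq
  set c := X.q (X.classOf A) δ / X.q (X.classOf A) (X.classOf α) with hc
  have hc0 : 0 < c := div_pos (q_ample_pos_of_eff hX ha hPe hPp) (q_ample_alpha hX hα ha)
  -- `c = M / a₁`
  set M := c.num.toNat with hM
  set a₁ := c.den with ha₁
  have ha₁0 : 1 ≤ a₁ := c.den_pos
  have hnum : 0 < c.num := Rat.num_pos.mpr hc0
  have hM1 : 1 ≤ M := by omega
  have hMc : (M : ℚ) = a₁ * c := by
    have h1 : ((M : ℤ) : ℚ) = (c.num : ℚ) := by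
      rw [hM, Int.toNat_of_nonneg hnum.le]
    have h2 : (c.den : ℚ) * c = c.num := by rw [mul_comm]; exact Rat.mul_den_eq_num c
    rw [ha₁, h2, ← h1, Int.cast_natCast]
  obtain ⟨m, hm, f₁, hf₁0, hf₁⟩ := hX.principal (a₁ • Z - M • α) (by
    rw [classOf_sub, classOf_nsmul, classOf_nsmul, hcl, hδα, hMc, smul_smul, sub_self])
  have hf₁' : ∀ p, X.ord p f₁ = m * (a₁ * Z p - M * α p) := fun p => by
    rw [← hf₁ p]
    simp only [Finsupp.smul_apply, Finsupp.sub_apply, nsmul_eq_mul]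
  have hφi : φ⁻¹ ≠ 0 := inv_ne_zero hφ0
  have hpow0 : φ⁻¹ ^ (m * a₁) ≠ 0 := pow_ne_zero _ hφi
  have hf₂ : ∀ p, X.ord p (f₁ * φ⁻¹ ^ (m * a₁)) = m * (a₁ * P p - M * α p) := fun p => by
    rw [hX.ord_mul p _ _ hf₁0 hpow0, ord_pow hX p hφi, ord_inv hX p hφ0, hf₁', ← hZP p]
    push_cast
    ring
  have hma : 1 ≤ m * a₁ := Nat.one_le_iff_ne_zero.mpr (by positivity)
  have hsec0 : f₁ * φ⁻¹ ^ (m * a₁) ≠ 0 := mul_ne_zero hf₁0 hpow0
  have hmaP : ∀ p, P p ≤ m * (a₁ * P p) := fun p => by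
    have h1 : (1 : ℤ) ≤ m * a₁ := by exact_mod_cast hma
    have h2 := hPe p
    nlinarith
  refine ⟨m * M, f₁ * φ⁻¹ ^ (m * a₁), ?_, hsec0, ?_⟩
  · rw [mem_H0_iff hX]
    right
    intro p
    rw [hf₂, Finsupp.smul_apply, nsmul_eq_mul]
    push_cast
    have := hPe p
    have h2 := hmaP p
    linarith
  · rw [mem_H0_iff hX]
    right
    intro p
    rw [hX.ord_mul p _ _ hφ0 hsec0, hf₂, Finsupp.smul_apply, nsmul_eq_mul, ← hZP p]
    push_cast
    have := hZe p
    have h2 := hmaP p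
    linarith

section family

variable {G : X.Action r α} {S : Finset X.K} {x₀ : ℚ} {A : X.Div}

theorem invariantIitaka (hX : X.IsSymplecticVariety n) (hα : X.IsNefIsotropic α)
    (hαt : ∀ p ∈ X.thr G.x₀, α p = 0) (hA : GoodDivisor G S x₀ A) :
    InvariantIitaka (secL G A) G.g := by
  intro v hv D f hf h hh hh0 hinv
  obtain ⟨F, -, hF⟩ := mem_secL.mp hf
  obtain ⟨H, -, hH⟩ := mem_secL.mp hh
  have hH0 : H ≠ 0 := by
    rintro rfl
    rw [map_zero] at hH
    exact hh0 (toFrac_injective _ (by rw [← hH, map_zero]))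
  by_cases hconst : F / H ∈ (algebraMap k X.K).range
  · obtain ⟨c, hc⟩ := hconst
    have h2 : F = c • H := by
      rw [Algebra.smul_def]
      change algebraMap k X.K c = F / H at hc
      rw [hc, div_mul_cancel₀ _ hH0]
    have h3 : f = c • h := toFrac_injective _ (by rw [map_smul, ← hF, ← hH, h2, map_smul])
    refine ⟨0, c • 1, Submodule.smul_mem _ _ (one_mem_zero hX), 1, one_mem_zero hX,
      one_ne_zero, ?_⟩
    rw [h3, mul_one, smul_mul_assoc, one_mul]
  · have hF0 : F ≠ 0 := by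
      rintro rfl
      exact hconst ⟨0, by rw [map_zero, zero_div]⟩
    have h1 : G.γ v F * H = F * G.γ v H := by
      apply iota_injective G.x₀
      rw [map_mul, map_mul, iota_γ G v hF, iota_γ G v hH, hF, hH, ← map_mul, ← map_mul, hinv]
    obtain ⟨m, s, hs, hs0, hφs⟩ := exists_iitaka hX hα G hv (φ := F / H) (div_ne_zero hF0 hH0)
      (by rw [map_div₀, div_eq_div_iff ((map_ne_zero _).mpr hH0) hH0, h1]) hconst
    have hz : (0 : ℕ) • A + m • α = m • α := by rw [zero_smul, zero_add]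
    rw [← hz] at hs hφs
    obtain ⟨b, hb⟩ := expand hX hαt hA hs
    obtain ⟨a, ha⟩ := expand hX hαt hA hφs
    refine ⟨m, a, mem_secL.mpr ⟨_, hφs, ha⟩, b, mem_secL.mpr ⟨_, hs, hb⟩, ?_, ?_⟩
    · rintro rfl
      rw [map_zero] at hb
      exact hs0 (iota_injective G.x₀ (by rw [hb, map_zero]))
    · apply toFrac_injective
      rw [map_mul, map_mul, ← hF, ← hb, ← ha, ← hH, ← map_mul, ← map_mul]
      congr 1
      field_simp

end family

end Variety

end Pool.Agent.SYZ71
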