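import Pool.Agent.SYZ71.GForm
import Pool.Agent.SYZ71.GF

/-!
# SYZ71/GMain : `main_geom` from `Rel.main_full` and `Rel.main_triv`
-/

set_option autoImplicit false

open MvPowerSeries Module

namespace Pool.Agent.SYZ71

namespace Variety

variable {k : Type} [Field k] {n : ℕ} {X : Variety k (2 * n)} {α : X.Div} {r : ℕ}

section transfer

variable {G : X.Action r α} {A : X.Div}

theorem H0_zero (hX : X.IsSymplecticVariety n) {f : X.K} (hf : f ∈ X.H0 0) :
    f ∈ (algebraMap k X.K).range := by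
  by_cases h0 : f = 0
  · exact ⟨0, by rw [h0, map_zero]⟩
  · refine hX.const_of_ord f h0 fun p => ?_
    have := ((mem_H0_iff hX).mp hf).resolve_left h0 p
    rwa [Finsupp.zero_apply, add_zero] at this

/-- `KappaGE` of the section family gives `KodairaGE` -/
theorem kodairaGE_of_kappaGE (hX : X.IsSymplecticVariety n) {e e' : ℕ} (he : e + 1 ≤ e')
    (h : KappaGE (secL G A) e') : X.KodairaGE α (e + 1) := by
  obtain ⟨E, s, hs, hs0, hai⟩ := h
  have hz : ∀ E : ℕ, (0 : ℕ) • A + E • α = E • α := fun E => by rw [zero_smul, zero_add]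
  choose F hF hFs using fun i => mem_secL.mp (hs i)
  have hF0 : F 0 ≠ 0 := by
    intro h0
    have := hFs 0
    rw [h0, map_zero] at this
    exact hs0 (toFrac_injective _ (by rw [← this, map_zero]))
  have hai' : AlgebraicIndependent k (fun i : Fin e' => F i.succ / F 0) := by
    refine AlgebraicIndependent.of_comp (X.ι G.x₀) ?_
    convert hai using 1
    ext i
    simp only [Function.comp_apply, map_div₀, hFs, toFrac_apply]
  have hE : 1 ≤ E := by
    by_contra hE
    have hE0 : E = 0 := by omega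
    subst hE0
    have h1 : ∀ i, F i ∈ (algebraMap k X.K).range := fun i => by
      refine H0_zero hX ?_
      have := hF i
      rwa [zero_smul, zero_smul, add_zero] at this
    have h2 : (⟨0, by omega⟩ : Fin e') = ⟨0, by omega⟩ := rfl
    obtain ⟨a, ha⟩ := h1 (Fin.succ ⟨0, by omega⟩)
    obtain ⟨b, hb⟩ := h1 0
    have h3 := (hai'.transcendental ⟨0, by omega⟩)
    refine h3 ?_
    rw [← ha, ← hb, ← map_div₀]
    exact isAlgebraic_algebraMap _
  refine ⟨E, hE, fun i => F (Fin.castLE (by omega) i), fun i => ?_, ?_, ?_⟩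
  · have := hF (Fin.castLE (by omega) i)
    rwa [hz] at this
  · exact hF0
  · exact hai'.comp (Fin.castLE he) (Fin.castLE_injective he)

end transfer

section twist

/-- change of the representative of the line bundle -/
structure Twist (X : Variety k (2 * n)) (α α' : X.Div) (u : X.K) : Prop where
  ne_zero : u ≠ 0
  eq : ∀ p, α' p = α p + X.ord p u

theorem exists_twist (hX : X.IsSymplecticVariety n) (hα : X.IsNefIsotropic α) (x : X.Pt) :
    ∃ α' u, Twist X α α' u ∧ X.classOf α' = X.classOf α ∧ α' ∈ X.Cartier ∧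
      ∀ p ∈ X.thr x, α' p = 0 := by
  obtain ⟨u, hu0, hu⟩ := hX.locally_principal α hα.cartier x
  obtain ⟨h1, h2⟩ := hX.classOf_div _ u (isDivOf_dv hX u hu0)
  refine ⟨α + dv hX u hu0, u, ⟨hu0, fun p => ?_⟩, ?_, add_mem hα.cartier h1, fun p hp => ?_⟩
  · rw [Finsupp.add_apply, dv_apply]
  · rw [classOf_add, h2, add_zero]
  · rw [Finsupp.add_apply, dv_apply, add_comm]
    exact hu p hp

theorem IsNefIsotropic.twist (hα : X.IsNefIsotropic α) {α' : X.Div}
    (hcl : X.classOf α' = X.classOf α) (hc : α' ∈ X.Cartier) : X.IsNefIsotropic α' where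
  cartier := hc
  ne_zero := by rw [hcl]; exact hα.ne_zero
  isotropic := by rw [hcl]; exact hα.isotropic
  nef := by rw [hcl]; exact hα.nef

/-- the action, for another representative of the class of `α` -/
noncomputable def Action.twist (G : X.Action r α) {α' : X.Div}
    (hcl : X.classOf α' = X.classOf α) : X.Action r α' where
  toActionData := G.toActionData
  onFunctions := G.onFunctions
  onClasses := by
    refine ⟨?_, ?_, G.w_add, ?_, ?_⟩
    · rw [hcl]; exact G.cl_π
    · rw [hcl]; exact G.ample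
    · rw [hcl]; exact G.w_orth
    · rw [hcl]; exact G.w_indep
  onPoint := G.onPoint

theorem Twist.mem_H0 (hX : X.IsSymplecticVariety n) {α' : X.Div} {u : X.K}
    (hu : Twist X α α' u) {m : ℕ} {f : X.K} (hf : f ∈ X.H0 (m • α')) :
    f * u ^ m ∈ X.H0 (m • α) := by
  by_cases hf0 : f = 0
  · rw [hf0, zero_mul]; exact Submodule.zero_mem _
  rw [mem_H0_iff hX] at hf ⊢
  right
  intro p
  have h1 := hf.resolve_left hf0 p
  rw [Finsupp.smul_apply, nsmul_eq_mul, hu.eq] at h1
  rw [hX.ord_mul p _ _ hf0 (pow_ne_zero m hu.ne_zero), ord_pow hX p hu.ne_zero,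
    Finsupp.smul_apply, nsmul_eq_mul]
  linarith

theorem Twist.kodairaGE (hX : X.IsSymplecticVariety n) {α' : X.Div} {u : X.K}
    (hu : Twist X α α' u) {e : ℕ} (h : X.KodairaGE α' e) : X.KodairaGE α e := by
  obtain ⟨m, hm, f, hf, hf0, hai⟩ := h
  have hum : u ^ m ≠ 0 := pow_ne_zero m hu.ne_zero
  refine ⟨m, hm, fun i => f i * u ^ m, fun i => hu.mem_H0 hX (hf i), mul_ne_zero hf0 hum, ?_⟩
  convert hai using 2 with i
  rw [mul_div_mul_right _ _ hum]

end twist

theorem kodaira_of_thr [CharZero k] [IsAlgClosed k] (hn : 1 ≤ n)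
    (hX : X.IsSymplecticVariety n) (hα : X.IsNefIsotropic α) (G : X.Action r α)
    (hαt : ∀ p ∈ X.thr G.x₀, α p = 0) :
    (∀ e < n, 2 * n * (n + e) < (n - e) * r → X.KodairaGE α (e + 1)) ∧
    ((∀ v (m : ℕ), ∀ f ∈ X.H0 (m • α), ∀ h ∈ X.H0 (m • α), G.γ v f * h = f * G.γ v h) →
      ∀ e < n, 2 * n ^ 2 < (n - e) * r → X.KodairaGE α (e + 1)) := by
  obtain ⟨c, C, x₀, hc, hC, hx₀, hrr⟩ := exists_rr hX
  obtain ⟨S, hS⟩ := hX.fg
  obtain ⟨A, hA⟩ := exists_goodDivisor hX G S x₀
  have hL := sectionFamily hX hα hαt hS hc hC hx₀ hrr hA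
  have hg := hgL hX hα hαt hrr hA
  have hI := invariantIitaka hX hα hαt hA
  constructor
  · intro e he hlt
    obtain ⟨e', h1, h2⟩ := main_full n r hn G.form.toForm G.form.isSymplectic G.g G.g_add
      (fun v => G.form.preserves (G.g v) (G.invariant v))
      (secL G A) hL (one_mem_zero hX) hg hI
    refine kodairaGE_of_kappaGE (G := G) (A := A) hX ?_ h1
    by_contra hle
    have hle' : e' ≤ e := by omega
    have h3 : (n - e) * r ≤ (n - e') * r := Nat.mul_le_mul_right r (by omega)
    have h4 : 2 * n * (n + e') ≤ 2 * n * (n + e) := Nat.mul_le_mul_left _ (by omega)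
    omega
  · intro htriv e he hlt
    obtain ⟨e', h1, h2⟩ := main_triv n r hn G.form.toForm G.form.isSymplectic G.g G.g_add
      (fun v => G.form.preserves (G.g v) (G.invariant v))
      (secL G A) hL (one_mem_zero hX) hg hI (by
        intro v E f hf h hh
        obtain ⟨F, hFm, hF⟩ := mem_secL.mp hf
        obtain ⟨H, hHm, hH⟩ := mem_secL.mp hh
        rw [zero_smul, zero_add] at hFm hHm
        apply toFrac_injective
        rw [map_mul, map_mul, ← iota_γ G v hF, ← iota_γ G v hH, ← hF, ← hH, ← map_mul,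
          ← map_mul, htriv v E F hFm H hHm])
    refine kodairaGE_of_kappaGE (G := G) (A := A) hX ?_ h1
    by_contra hle
    have hle' : e' ≤ e := by omega
    have h3 : (n - e) * r ≤ (n - e') * r := Nat.mul_le_mul_right r (by omega)
    omega

end Variety

open Variety in
theorem main_geom' {k : Type} [Field k] [CharZero k] [IsAlgClosed k] (n r : ℕ) (hn : 1 ≤ n)
    (X : Variety k (2 * n)) (hX : X.IsSymplecticVariety n) (α : X.Div)
    (hα : X.IsNefIsotropic α) (G : X.Action r α) :
    (∀ e < n, 2 * n * (n + e) < (n - e) * r → X.KodairaGE α (e + 1)) ∧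
    ((∀ v (m : ℕ), ∀ f ∈ X.H0 (m • α), ∀ h ∈ X.H0 (m • α), G.γ v f * h = f * G.γ v h) →
      ∀ e < n, 2 * n ^ 2 < (n - e) * r → X.KodairaGE α (e + 1)) := by
  obtain ⟨α', u, hu, hcl, hcart, hthr⟩ := exists_twist hX hα G.x₀
  obtain ⟨h1, h2⟩ := kodaira_of_thr hn hX (hα.twist hcl hcart) (G.twist hcl) hthr
  refine ⟨fun e he hlt => hu.kodairaGE hX (h1 e he hlt), fun htriv e he hlt =>
    hu.kodairaGE hX (h2 (fun v m f hf h hh => ?_) e he hlt)⟩
  have h3 := htriv v m _ (hu.mem_H0 hX hf) _ (hu.mem_H0 hX hh)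
  change G.γ v f * h = f * G.γ v h
  rw [map_mul, map_mul] at h3
  have hum : u ^ m ≠ 0 := pow_ne_zero m hu.ne_zero
  have hum' : G.γ v (u ^ m) ≠ 0 := (map_ne_zero _).mpr hum
  have h4 : (G.γ v f * h) * (G.γ v (u ^ m) * u ^ m) =
      (f * G.γ v h) * (G.γ v (u ^ m) * u ^ m) := by linear_combination h3
  exact mul_right_cancel₀ (mul_ne_zero hum' hum) h4

end Pool.Agent.SYZ71
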