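import Pool.Agent.SYZ71.GC
import Pool.Agent.SYZ71.Rel

/-!
# SYZ71/GD : the section family `L D E` of an action
-/

set_option autoImplicit false

open MvPowerSeries Module

namespace Pool.Agent.SYZ71

namespace Variety

variable {k : Type} [Field k] {n : ℕ} {X : Variety k (2 * n)} {α : X.Div} {r : ℕ}

/-- power series as a `k`-subalgebra of the fraction field -/
noncomputable def toFrac (k : Type) [Field k] (d : ℕ) :
    PS k d →ₐ[k] FractionRing (PS k d) :=
  IsScalarTower.toAlgHom k (PS k d) (FractionRing (PS k d))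

theorem toFrac_apply (d : ℕ) (a : PS k d) :
    toFrac k d a = algebraMap (PS k d) (FractionRing (PS k d)) a := rfl

theorem toFrac_injective (d : ℕ) : Function.Injective (toFrac k d) :=
  IsFractionRing.injective (PS k d) (FractionRing (PS k d))

/-- the sections of `D A + E α`, expanded at the fixed point -/
noncomputable def secL (G : X.Action r α) (A : X.Div) (D E : ℕ) :
    Submodule k (PS k (2 * n)) :=
  ((X.H0 (D • A + E • α)).map (X.ι G.x₀).toLinearMap).comap (toFrac k (2 * n)).toLinearMap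

theorem mem_secL {G : X.Action r α} {A : X.Div} {D E : ℕ} {a : PS k (2 * n)} :
    a ∈ secL G A D E ↔ ∃ f ∈ X.H0 (D • A + E • α), (X.ι G.x₀) f = toFrac k (2 * n) a := by
  unfold secL
  rw [Submodule.mem_comap, Submodule.mem_map]
  rfl

section family

variable {G : X.Action r α} {S : Finset X.K} {x₀ : ℚ} {A : X.Div}

theorem thr_zero (hαt : ∀ p ∈ X.thr G.x₀, α p = 0) (hA : GoodDivisor G S x₀ A) (D E : ℕ) (p : X.Prime) (hp : p ∈ X.thr G.x₀) :
    (D • A + E • α) p = 0 := by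
  rw [Finsupp.add_apply, Finsupp.smul_apply, Finsupp.smul_apply, hA.thr p hp, hαt p hp,
    smul_zero, smul_zero, add_zero]

theorem expand (hX : X.IsSymplecticVariety n) (hαt : ∀ p ∈ X.thr G.x₀, α p = 0) (hA : GoodDivisor G S x₀ A) {D E : ℕ} {f : X.K}
    (hf : f ∈ X.H0 (D • A + E • α)) : ∃ a : PS k (2 * n), (X.ι G.x₀) f = toFrac k (2 * n) a := by
  by_cases h0 : f = 0
  · exact ⟨0, by rw [h0, map_zero, map_zero]⟩
  · refine hX.regular G.x₀ f h0 fun p hp => ?_
    have h1 := ((mem_H0_iff hX).mp hf).resolve_left h0 p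
    rw [thr_zero hαt hA D E p hp, add_zero] at h1
    exact h1

theorem secL_map (hX : X.IsSymplecticVariety n) (hαt : ∀ p ∈ X.thr G.x₀, α p = 0) (hA : GoodDivisor G S x₀ A) (D E : ℕ) :
    (secL G A D E).map (toFrac k (2 * n)).toLinearMap =
      (X.H0 (D • A + E • α)).map (X.ι G.x₀).toLinearMap := by
  unfold secL
  rw [Submodule.map_comap_eq, inf_eq_right]
  rintro x ⟨f, hf, rfl⟩
  obtain ⟨a, ha⟩ := expand hX hαt hA hf
  exact ⟨a, ha.symm⟩

/-- the sections and their expansions -/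
noncomputable def secEquiv (hX : X.IsSymplecticVariety n)
    (hαt : ∀ p ∈ X.thr G.x₀, α p = 0) (hA : GoodDivisor G S x₀ A)
    (D E : ℕ) : X.H0 (D • A + E • α) ≃ₗ[k] secL G A D E :=
  ((Submodule.equivMapOfInjective (X.ι G.x₀).toLinearMap (X.ι G.x₀).toRingHom.injective
    (X.H0 (D • A + E • α))).trans (LinearEquiv.ofEq _ _ (secL_map hX hαt hA D E).symm)).trans
    (Submodule.equivMapOfInjective (toFrac k (2 * n)).toLinearMap (toFrac_injective (2 * n))
      (secL G A D E)).symm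

theorem finrank_secL (hX : X.IsSymplecticVariety n) (hαt : ∀ p ∈ X.thr G.x₀, α p = 0) (hA : GoodDivisor G S x₀ A) (D E : ℕ) :
    finrank k (secL G A D E) = finrank k (X.H0 (D • A + E • α)) :=
  (secEquiv hX hαt hA D E).finrank_eq.symm

theorem classOf_DE (D E : ℕ) : X.classOf (D • A + E • α) =
    (D : ℚ) • X.classOf A + (E : ℚ) • X.classOf α := by
  rw [classOf_add, classOf_nsmul, classOf_nsmul]

theorem cartier_DE (hα : X.IsNefIsotropic α) (hA : GoodDivisor G S x₀ A) (D E : ℕ) :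
    D • A + E • α ∈ X.Cartier :=
  add_mem (nsmul_mem hA.cartier D) (nsmul_mem hα.cartier E)

theorem ample_DE (hX : X.IsSymplecticVariety n) (hα : X.IsNefIsotropic α)
    (hA : GoodDivisor G S x₀ A) {D : ℕ} (hD : 1 ≤ D) (E : ℕ) :
    X.classOf (D • A + E • α) ∈ X.Ample := by
  rw [classOf_DE]
  exact hα.nef _ (hX.ample_smul _ hA.ample _ (by exact_mod_cast hD)) _ (Nat.cast_nonneg E)

theorem q_DE (hX : X.IsSymplecticVariety n) (hα : X.IsNefIsotropic α) (D E : ℕ) :
    X.q (X.classOf (D • A + E • α)) (X.classOf (D • A + E • α)) =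
      (D : ℚ) ^ 2 * X.q (X.classOf A) (X.classOf A) +
        2 * D * E * X.q (X.classOf A) (X.classOf α) := by
  rw [classOf_DE, q_add_smul hX, hα.isotropic]
  simp only [map_smul, LinearMap.smul_apply, smul_eq_mul]
  ring

theorem q_DE_large (hX : X.IsSymplecticVariety n) (hα : X.IsNefIsotropic α)
    (hA : GoodDivisor G S x₀ A) {D : ℕ} (hD : 1 ≤ D) (E : ℕ) :
    x₀ ≤ X.q (X.classOf (D • A + E • α)) (X.classOf (D • A + E • α)) := by
  rw [q_DE hX hα]
  have h1 := q_ample_alpha hX hα hA.ample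
  have h2 := hX.q_ample_pos _ hA.ample
  have h3 := hA.large
  have hD' : (1 : ℚ) ≤ (D : ℚ) := by exact_mod_cast hD
  have hE' : (0 : ℚ) ≤ (E : ℚ) := Nat.cast_nonneg E
  have h4 : (1 : ℚ) ≤ (D : ℚ) ^ 2 := one_le_pow₀ hD'
  have h5 : 0 ≤ 2 * (D : ℚ) * E * X.q (X.classOf A) (X.classOf α) := by positivity
  nlinarith

theorem H0_one_zero (A : X.Div) : X.H0 ((1 : ℕ) • A + (0 : ℕ) • α) = X.H0 A := by
  rw [one_smul, zero_smul, add_zero]

theorem fieldRange_eq (hX : X.IsSymplecticVariety n) (hαt : ∀ p ∈ X.thr G.x₀, α p = 0)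
    (hS : IntermediateField.adjoin k (S : Set X.K) = ⊤) (hA : GoodDivisor G S x₀ A) :
    (X.ι G.x₀).fieldRange = IntermediateField.adjoin k
      (algebraMap (PS k (2 * n)) (FractionRing (PS k (2 * n))) ''
        (secL G A 1 0 : Set (PS k (2 * n)))) := by
  apply le_antisymm
  · rw [AlgHom.fieldRange_eq_map, ← hS, IntermediateField.adjoin_map,
      IntermediateField.adjoin_le_iff]
    rintro _ ⟨s, hs, rfl⟩
    obtain ⟨h, hh, hh0, hhs⟩ := hA.gen s hs
    have key : ∀ f ∈ X.H0 A, (X.ι G.x₀) f ∈ IntermediateField.adjoin k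
        (algebraMap (PS k (2 * n)) (FractionRing (PS k (2 * n))) ''
        (secL G A 1 0 : Set (PS k (2 * n)))) := by
      intro f hf
      rw [← H0_one_zero (α := α)] at hf
      obtain ⟨a, ha⟩ := expand hX hαt hA hf
      rw [ha]
      exact IntermediateField.subset_adjoin _ _ ⟨a, mem_secL.mpr ⟨f, hf, ha⟩, rfl⟩
    have h1 : s = (h * s) / h := by field_simp
    rw [h1, map_div₀]
    exact div_mem (key _ hhs) (key _ hh)
  · rw [IntermediateField.adjoin_le_iff]
    rintro _ ⟨a, ha, rfl⟩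
    obtain ⟨f, -, hf⟩ := mem_secL.mp ha
    exact ⟨f, hf⟩

theorem secL_fin (hX : X.IsSymplecticVariety n) (hα : X.IsNefIsotropic α)
    (hαt : ∀ p ∈ X.thr G.x₀, α p = 0)
    (hA : GoodDivisor G S x₀ A) (D E : ℕ) : Module.Finite k (secL G A D E) := by
  obtain ⟨RR, -, -, hRR⟩ := hX.riemann_roch
  have h1 : Module.Finite k (X.H0 (D • A + E • α)) := by
    have h2 : X.H0 (D • A + E • α) ≤ X.H0 ((D + 1) • A + E • α) := by
      refine H0_mono hX fun p => ?_
      have := hA.eff p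
      simp only [Finsupp.add_apply, Finsupp.smul_apply, add_smul, one_smul]
      omega
    have h3 := (hRR _ (cartier_DE hα hA (D + 1) E)
      (ample_DE hX hα hA (Nat.le_add_left 1 D) E)).1
    exact Submodule.finiteDimensional_of_le h2
  exact Module.Finite.equiv (secEquiv hX hαt hA D E)

/-- the conclusion of `exists_rr` -/
def RR {n : ℕ} (X : Variety k (2 * n)) (c C x₀ : ℚ) : Prop :=
  ∀ D ∈ X.Cartier, X.classOf D ∈ X.Ample →
      x₀ ≤ X.q (X.classOf D) (X.classOf D) →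
      Module.Finite k (X.H0 D) ∧ 0 < finrank k (X.H0 D) ∧
      c * X.q (X.classOf D) (X.classOf D) ^ n ≤ (finrank k (X.H0 D) : ℚ) ∧
      (finrank k (X.H0 D) : ℚ) ≤ C * X.q (X.classOf D) (X.classOf D) ^ n

theorem secL_upper (hX : X.IsSymplecticVariety n) (hα : X.IsNefIsotropic α)
    (hαt : ∀ p ∈ X.thr G.x₀, α p = 0) {c C : ℚ}
    (hC : 0 < C) (hx₀ : 1 ≤ x₀) (hrr : RR X c C x₀) (hA : GoodDivisor G S x₀ A) :
    ∃ C : ℕ, ∀ D E, 1 ≤ D → D ≤ E → finrank k (secL G A D E) ≤ C * (D * E) ^ n := by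
  set Q := X.q (X.classOf A) (X.classOf A) with hQ
  set B := X.q (X.classOf A) (X.classOf α) with hB
  have hQ0 : 0 < Q := hX.q_ample_pos _ hA.ample
  have hB0 : 0 < B := q_ample_alpha hX hα hA.ample
  obtain ⟨C', hC'⟩ := exists_nat_ge (C * (Q + 2 * B) ^ n)
  refine ⟨C', fun D E hD hDE => ?_⟩
  have h1 := (hrr _ (cartier_DE hα hA D E) (ample_DE hX hα hA hD E)
    (q_DE_large hX hα hA hD E)).2.2.2
  have hq1 : x₀ ≤ _ := q_DE_large hX hα hA hD E
  rw [q_DE hX hα, ← hQ, ← hB] at h1 hq1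
  rw [finrank_secL hX hαt hA]
  have hD' : (1 : ℚ) ≤ (D : ℚ) := by exact_mod_cast hD
  have hE' : (0 : ℚ) ≤ (E : ℚ) := Nat.cast_nonneg E
  have hDE' : (D : ℚ) ≤ (E : ℚ) := by exact_mod_cast hDE
  have h2 : (D : ℚ) ^ 2 * Q + 2 * D * E * B ≤ (Q + 2 * B) * (D * E) := by
    have h3 : 0 ≤ (D : ℚ) * ((E : ℚ) - D) * Q :=
      mul_nonneg (mul_nonneg (by linarith) (by linarith)) hQ0.le
    nlinarith
  have h3 : C * ((D : ℚ) ^ 2 * Q + 2 * D * E * B) ^ n ≤ C' * ((D * E : ℕ) : ℚ) ^ n := by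
    calc C * ((D : ℚ) ^ 2 * Q + 2 * D * E * B) ^ n
        ≤ C * ((Q + 2 * B) * (D * E)) ^ n := by
          refine mul_le_mul_of_nonneg_left (pow_le_pow_left₀ (by linarith) h2 n) hC.le
      _ = (C * (Q + 2 * B) ^ n) * ((D : ℚ) * E) ^ n := by rw [mul_pow (Q + 2 * B)]; ring
      _ ≤ C' * ((D : ℚ) * E) ^ n := mul_le_mul_of_nonneg_right hC' (by positivity)
      _ = C' * ((D * E : ℕ) : ℚ) ^ n := by push_cast; ring
  have h4 := h1.trans h3
  exact_mod_cast h4

theorem secL_lower (hX : X.IsSymplecticVariety n) (hα : X.IsNefIsotropic α)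
    (hαt : ∀ p ∈ X.thr G.x₀, α p = 0) {c C : ℚ}
    (hc : 0 < c) (hrr : RR X c C x₀) (hA : GoodDivisor G S x₀ A) :
    ∃ c : ℕ, ∀ D E, 1 ≤ D → D ≤ E → (D * E) ^ n ≤ c * finrank k (secL G A D E) := by
  set Q := X.q (X.classOf A) (X.classOf A) with hQ
  set B := X.q (X.classOf A) (X.classOf α) with hB
  have hQ0 : 0 < Q := hX.q_ample_pos _ hA.ample
  have hB0 : 0 < B := q_ample_alpha hX hα hA.ample
  obtain ⟨c', hc'⟩ := exists_nat_ge (1 / (c * (2 * B) ^ n))
  refine ⟨c', fun D E hD hDE => ?_⟩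
  have hE : 1 ≤ E := hD.trans hDE
  have h1 := (hrr _ (cartier_DE hα hA D E) (ample_DE hX hα hA hD E)
    (q_DE_large hX hα hA hD E)).2.2.1
  rw [q_DE hX hα, ← hQ, ← hB] at h1
  rw [finrank_secL hX hαt hA]
  have hD' : (1 : ℚ) ≤ (D : ℚ) := by exact_mod_cast hD
  have hE' : (1 : ℚ) ≤ (E : ℚ) := by exact_mod_cast hE
  have hcB : 0 < c * (2 * B) ^ n := by positivity
  have h2 : (2 * B) * ((D : ℚ) * E) ≤ (D : ℚ) ^ 2 * Q + 2 * D * E * B := by
    have h4 : 0 ≤ (D : ℚ) ^ 2 * Q := by positivity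
    nlinarith
  have h3 : (c * (2 * B) ^ n) * ((D : ℚ) * E) ^ n ≤
      (finrank k (X.H0 (D • A + E • α)) : ℚ) := by
    calc (c * (2 * B) ^ n) * ((D : ℚ) * E) ^ n = c * ((2 * B) * ((D : ℚ) * E)) ^ n := by
          rw [mul_pow (2 * B)]; ring
      _ ≤ c * ((D : ℚ) ^ 2 * Q + 2 * D * E * B) ^ n :=
          mul_le_mul_of_nonneg_left (pow_le_pow_left₀ (by positivity) h2 n) hc.le
      _ ≤ _ := h1
  have h5 : ((D : ℚ) * E) ^ n ≤ c' * (finrank k (X.H0 (D • A + E • α)) : ℚ) := by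
    have h6 : ((D : ℚ) * E) ^ n ≤ (1 / (c * (2 * B) ^ n)) *
        (finrank k (X.H0 (D • A + E • α)) : ℚ) := by
      rw [one_div, inv_mul_eq_div, le_div_iff₀ hcB, mul_comm]
      exact h3
    exact h6.trans (mul_le_mul_of_nonneg_right hc' (Nat.cast_nonneg _))
  exact_mod_cast h5

theorem secL_order (hX : X.IsSymplecticVariety n) (hα : X.IsNefIsotropic α)
    (hαt : ∀ p ∈ X.thr G.x₀, α p = 0)
    (hA : GoodDivisor G S x₀ A) :
    ∃ C : ℕ, ∀ D E f, f ∈ secL G A D E → f ≠ 0 → f.order ≤ ((C * (D + E) : ℕ) : ℕ∞) := by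
  obtain ⟨deg, hdeg⟩ := hX.multiplicity
  obtain ⟨C, hC⟩ := exists_nat_ge (|deg (X.classOf A)| + |deg (X.classOf α)|)
  refine ⟨C, fun D E f hf hf0 => ?_⟩
  obtain ⟨F, hF, hFf⟩ := mem_secL.mp hf
  have hF0 : F ≠ 0 := by
    rintro rfl
    rw [map_zero] at hFf
    exact hf0 (toFrac_injective _ (by rw [← hFf, map_zero]))
  have hord := ((mem_H0_iff hX).mp hF).resolve_left hF0
  have hfin : f.order ≠ ⊤ := by
    intro h
    exact hf0 (MvPowerSeries.order_eq_top_iff.mp h)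
  obtain ⟨m, hm⟩ := ENat.ne_top_iff_exists.mp hfin
  have h1 := hdeg _ (cartier_DE hα hA D E) G.x₀ (thr_zero hαt hA D E) F ⟨hF0, hord⟩ f hFf m
    (by rw [hm])
  rw [classOf_DE, map_add, map_smul, map_smul, smul_eq_mul, smul_eq_mul] at h1
  rw [← hm]
  have h2 : (m : ℚ) ≤ ((C * (D + E) : ℕ) : ℚ) := by
    push_cast
    have hD' : (0 : ℚ) ≤ (D : ℚ) := Nat.cast_nonneg D
    have hE' : (0 : ℚ) ≤ (E : ℚ) := Nat.cast_nonneg E
    have ha := le_abs_self (deg (X.classOf A))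
    have hb := le_abs_self (deg (X.classOf α))
    have ha0 := abs_nonneg (deg (X.classOf A))
    have hb0 := abs_nonneg (deg (X.classOf α))
    have h3 : (D : ℚ) * deg (X.classOf A) ≤ D * C :=
      mul_le_mul_of_nonneg_left (by linarith) hD'
    have h4 : (E : ℚ) * deg (X.classOf α) ≤ E * C :=
      mul_le_mul_of_nonneg_left (by linarith) hE'
    linarith
  have h3 : m ≤ C * (D + E) := by exact_mod_cast h2
  exact_mod_cast h3

theorem isFamily (hX : X.IsSymplecticVariety n) (hα : X.IsNefIsotropic α)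
    (hαt : ∀ p ∈ X.thr G.x₀, α p = 0)
    (hS : IntermediateField.adjoin k (S : Set X.K) = ⊤)
    (hA : GoodDivisor G S x₀ A) : IsFamily (secL G A) where
  one_mem := by
    refine mem_secL.mpr ⟨1, one_mem_H0 hX fun p => ?_, by rw [map_one, map_one]⟩
    rw [one_smul, zero_smul, add_zero]
    exact hA.eff p
  mul_mem := by
    intro D E D' E' a b ha hb
    obtain ⟨f, hf, hfa⟩ := mem_secL.mp ha
    obtain ⟨h, hh, hhb⟩ := mem_secL.mp hb
    refine mem_secL.mpr ⟨f * h, ?_, by rw [map_mul, map_mul, hfa, hhb]⟩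
    have := mul_mem_H0 hX hf hh
    have h2 : (D + D') • A + (E + E') • α = D • A + E • α + (D' • A + E' • α) := by
      rw [add_smul, add_smul]; abel
    rw [h2]
    exact this
  fin := secL_fin hX hα hαt hA
  order_le := secL_order hX hα hαt hA
  mem_field := by
    intro D E f hf
    unfold Fld
    rw [← fieldRange_eq hX hαt hS hA]
    obtain ⟨F, -, hF⟩ := mem_secL.mp hf
    exact ⟨F, hF⟩

theorem sectionFamily (hX : X.IsSymplecticVariety n) (hα : X.IsNefIsotropic α)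
    (hαt : ∀ p ∈ X.thr G.x₀, α p = 0) {c C : ℚ}
    (hS : IntermediateField.adjoin k (S : Set X.K) = ⊤)
    (hc : 0 < c) (hC : 0 < C) (hx₀ : 1 ≤ x₀) (hrr : RR X c C x₀) (hA : GoodDivisor G S x₀ A) :
    SectionFamily n (secL G A) where
  toIsFamily := isFamily hX hα hαt hS hA
  upper := secL_upper hX hα hαt hC hx₀ hrr hA
  lower := secL_lower hX hα hαt hc hrr hA
  trdeg := by
    unfold Fld
    rw [← fieldRange_eq hX hαt hS hA]
    have h1 := (AlgEquiv.ofInjectiveField (X.ι G.x₀)).trdeg_eq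
    rw [hX.trdeg] at h1
    exact h1.symm

theorem one_mem_zero (hX : X.IsSymplecticVariety n) :
    (1 : PS k (2 * n)) ∈ secL G A 0 0 := by
  refine mem_secL.mpr ⟨1, one_mem_H0 hX fun p => ?_, by rw [map_one, map_one]⟩
  rw [zero_smul, zero_smul, add_zero, Finsupp.zero_apply]

end family

end Variety

end Pool.Agent.SYZ71
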