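import Pool.Agent.SYZ71.NFDefs

/-!
# SYZ71/CDefs : the definitions for the general interpolation theorem `core`

`L D E ⊆ k[[z_1..z_d]]` = sections of `D A + E α` near the fixed point, `F = k(L 1 0)` the function
field.
-/

set_option autoImplicit false

open MvPowerSeries Module TensorProduct

namespace Pool.Agent.SYZ71

variable {k : Type*} [Field k] {d : ℕ}

/-- the function field `k(L 1 0)` -/
noncomputable def Fld (L : ℕ → ℕ → Submodule k (PS k d)) :
    IntermediateField k (FractionRing (PS k d)) :=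
  IntermediateField.adjoin k (algebraMap (PS k d) (FractionRing (PS k d)) ''
    (L 1 0 : Set (PS k d)))

/-- A bigraded family `L D E` of spaces of power series (sections of `D A + E α`, trivialised at
the fixed point). -/
structure IsFamily (L : ℕ → ℕ → Submodule k (PS k d)) : Prop where
  one_mem : (1 : PS k d) ∈ L 1 0
  mul_mem : ∀ D E D' E' a b, a ∈ L D E → b ∈ L D' E' → a * b ∈ L (D + D') (E + E')
  fin : ∀ D E, Module.Finite k (L D E)
  order_le : ∃ C : ℕ, ∀ D E f, f ∈ L D E → f ≠ 0 → f.order ≤ ((C * (D + E) : ℕ) : ℕ∞)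
  mem_field : ∀ D E f, f ∈ L D E →
    algebraMap (PS k d) (FractionRing (PS k d)) f ∈ Fld L

/-- the `K`-span of `L D E` -/
noncomputable def KSpan (L : ℕ → ℕ → Submodule k (PS k d))
    (K : IntermediateField k (FractionRing (PS k d))) (D E : ℕ) :
    Submodule K (FractionRing (PS k d)) :=
  Submodule.span K (algebraMap (PS k d) (FractionRing (PS k d)) '' (L D E : Set (PS k d)))

/-- `dim_K (K L D E) ≥ c D^(d-ν) E^(ν-e)` for `1 ≤ D ≤ E` -/
def GrowthLower (L : ℕ → ℕ → Submodule k (PS k d))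
    (K : IntermediateField k (FractionRing (PS k d))) (ν e : ℕ) : Prop :=
  ∃ c : ℕ, ∀ D E, 1 ≤ D → D ≤ E →
    D ^ (d - ν) * E ^ ν ≤ c * (E ^ e * finrank K (KSpan L K D E))

/-- `dim_K (K L D E) ≤ C D^(d-ν) E^(ν-e)` for `1 ≤ D ≤ E` -/
def GrowthUpper (L : ℕ → ℕ → Submodule k (PS k d))
    (K : IntermediateField k (FractionRing (PS k d))) (ν e : ℕ) : Prop :=
  ∃ C : ℕ, ∀ D E, 1 ≤ D → D ≤ E →
    E ^ e * finrank K (KSpan L K D E) ≤ C * (D ^ (d - ν) * E ^ ν)

end Pool.Agent.SYZ71
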