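import Pool.Agent.SYZ71.GDefs
import Pool.Agent.SYZ71.LB

/-!
# SYZ71/GForm : the bilinear form on vector fields attached to a `SymplecticForm`
-/

set_option autoImplicit false

open MvPowerSeries Module

namespace Pool.Agent.SYZ71

namespace SymplecticForm

variable {k : Type} [Field k] {d : ℕ} (ω : SymplecticForm k d)

/-- `ω(D, D') = ∑ D(z_i) D'(z_j) w_ij` -/
noncomputable def toForm : Derivation k (PS k d) (PS k d) →ₗ[PS k d]
    Derivation k (PS k d) (PS k d) →ₗ[PS k d] PS k d :=
  LinearMap.mk₂ (PS k d) (fun D D' => ∑ i, ∑ j, D (X i) * D' (X j) * ω.w i j)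
    (by
      intro D₁ D₂ D'
      simp only [Derivation.add_apply, add_mul, Finset.sum_add_distrib])
    (by
      intro c D D'
      simp only [Derivation.smul_apply, smul_eq_mul, Finset.mul_sum, mul_assoc])
    (by
      intro D D₁ D₂
      simp only [Derivation.add_apply, mul_add, add_mul, Finset.sum_add_distrib])
    (by
      intro c D D'
      simp only [Derivation.smul_apply, smul_eq_mul, Finset.mul_sum]
      refine Finset.sum_congr rfl fun i _ => Finset.sum_congr rfl fun j _ => ?_
      ring)

theorem toForm_apply (D D' : Derivation k (PS k d) (PS k d)) :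
    ω.toForm D D' = ∑ i, ∑ j, D (X i) * D' (X j) * ω.w i j := by
  simp [toForm]

theorem w_self [CharZero k] (i : Fin d) : ω.w i i = 0 := by
  have h := ω.skew i i
  have h2 : (2 : k) • ω.w i i = 0 := by
    rw [two_smul]
    nth_rewrite 1 [h]
    exact neg_add_cancel _
  exact (smul_eq_zero.1 h2).resolve_left two_ne_zero

theorem toForm_skew (D D' : Derivation k (PS k d) (PS k d)) :
    ω.toForm D' D = -ω.toForm D D' := by
  rw [toForm_apply, toForm_apply, Finset.sum_comm, ← Finset.sum_neg_distrib]
  refine Finset.sum_congr rfl fun i _ => ?_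
  rw [← Finset.sum_neg_distrib]
  refine Finset.sum_congr rfl fun j _ => ?_
  rw [ω.skew i j]
  ring

/-- the derivative of the coefficients -/
theorem der_toForm (A B C : Derivation k (PS k d) (PS k d)) :
    A (ω.toForm B C) = ∑ i, ∑ j, (A (B (X i)) * C (X j) * ω.w i j +
      B (X i) * A (C (X j)) * ω.w i j) +
      ∑ l, ∑ i, ∑ j, A (X l) * B (X i) * C (X j) * pderiv k l (ω.w i j) := by
  have h1 : ∑ l, ∑ i, ∑ j, A (X l) * B (X i) * C (X j) * pderiv k l (ω.w i j) =
      ∑ i, ∑ j, B (X i) * C (X j) * A (ω.w i j) := by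
    rw [Finset.sum_comm]
    refine Finset.sum_congr rfl fun i _ => ?_
    rw [Finset.sum_comm]
    refine Finset.sum_congr rfl fun j _ => ?_
    rw [derivation_eq A (ω.w i j), Finset.mul_sum]
    refine Finset.sum_congr rfl fun l _ => ?_
    ring
  rw [h1, toForm_apply, map_sum, ← Finset.sum_add_distrib]
  refine Finset.sum_congr rfl fun i _ => ?_
  rw [map_sum, ← Finset.sum_add_distrib]
  refine Finset.sum_congr rfl fun j _ => ?_
  rw [Derivation.leibniz, Derivation.leibniz]
  simp only [smul_eq_mul]
  ring

theorem isSymplectic [CharZero k] : IsSymplectic ω.toForm where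
  alt := by
    intro D
    have h := ω.toForm_skew D D
    have h2 : (2 : k) • ω.toForm D D = 0 := by
      rw [two_smul]
      nth_rewrite 1 [h]
      exact neg_add_cancel _
    exact (smul_eq_zero.1 h2).resolve_left two_ne_zero
  closed := by
    intro A B C
    rw [der_toForm ω A B C, der_toForm ω B C A, der_toForm ω C A B]
    rw [toForm_apply ω ⁅A, B⁆ C, toForm_apply ω ⁅B, C⁆ A, toForm_apply ω ⁅C, A⁆ B]
    simp only [Derivation.commutator_apply]
    -- the third order terms cancel
    have h3 : (∑ l, ∑ i, ∑ j, A (X l) * B (X i) * C (X j) * pderiv k l (ω.w i j)) +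
        (∑ l, ∑ i, ∑ j, B (X l) * C (X i) * A (X j) * pderiv k l (ω.w i j)) +
        (∑ l, ∑ i, ∑ j, C (X l) * A (X i) * B (X j) * pderiv k l (ω.w i j)) = 0 := by
      have e2 : (∑ l, ∑ i, ∑ j, B (X l) * C (X i) * A (X j) * pderiv k l (ω.w i j)) =
          ∑ l, ∑ i, ∑ j, A (X l) * B (X i) * C (X j) * pderiv k i (ω.w j l) := by
        rw [Finset.sum_comm]
        rw [show (∑ y, ∑ x, ∑ j, B (X x) * C (X y) * A (X j) * pderiv k x (ω.w y j)) =
          ∑ y, ∑ j, ∑ x, B (X x) * C (X y) * A (X j) * pderiv k x (ω.w y j) from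
          Finset.sum_congr rfl fun y _ => Finset.sum_comm]
        rw [Finset.sum_comm]
        refine Finset.sum_congr rfl fun l _ => ?_
        rw [Finset.sum_comm]
        refine Finset.sum_congr rfl fun i _ => Finset.sum_congr rfl fun j _ => ?_
        ring
      have e3 : (∑ l, ∑ i, ∑ j, C (X l) * A (X i) * B (X j) * pderiv k l (ω.w i j)) =
          ∑ l, ∑ i, ∑ j, A (X l) * B (X i) * C (X j) * pderiv k j (ω.w l i) := by
        rw [Finset.sum_comm]
        refine Finset.sum_congr rfl fun l _ => ?_
        rw [Finset.sum_comm]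
        refine Finset.sum_congr rfl fun i _ => Finset.sum_congr rfl fun j _ => ?_
        ring
      rw [e2, e3, ← Finset.sum_add_distrib, ← Finset.sum_add_distrib]
      refine Finset.sum_eq_zero fun l _ => ?_
      rw [← Finset.sum_add_distrib, ← Finset.sum_add_distrib]
      refine Finset.sum_eq_zero fun i _ => ?_
      rw [← Finset.sum_add_distrib, ← Finset.sum_add_distrib]
      refine Finset.sum_eq_zero fun j _ => ?_
      have hc := ω.closed l i j
      linear_combination (A (X l) * B (X i) * C (X j)) * hc
    -- swap the indices of the terms of the wrong type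
    have sw : ∀ (P : Fin d → PS k d) (Q : Fin d → PS k d), (∑ i, ∑ j, P i * Q j * ω.w i j) =
        -∑ i, ∑ j, Q i * P j * ω.w i j := by
      intro P Q
      rw [Finset.sum_comm, ← Finset.sum_neg_distrib]
      refine Finset.sum_congr rfl fun i _ => ?_
      rw [← Finset.sum_neg_distrib]
      refine Finset.sum_congr rfl fun j _ => ?_
      rw [ω.skew i j]
      ring
    simp only [sub_mul, Finset.sum_add_distrib, Finset.sum_sub_distrib]
    have s1 := sw (fun i => B (X i)) (fun j => A (C (X j)))
    have s2 := sw (fun i => C (X i)) (fun j => B (A (X j)))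
    have s3 := sw (fun i => A (X i)) (fun j => C (B (X j)))
    linear_combination h3 + s1 + s2 + s3
  nondeg := by
    intro D h
    have : IsDomain (PS k d) := NoZeroDivisors.to_isDomain _
    by_contra hD
    have hne : (fun i => D (X i)) ≠ 0 := by
      intro h0
      apply hD
      apply derivation_ext
      intro i
      have := congrFun h0 i
      simpa using this
    apply ω.nondegenerate
    rw [← Matrix.exists_vecMul_eq_zero_iff]
    refine ⟨fun i => D (X i), hne, ?_⟩
    funext j
    have h1 := h (pderiv k j)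
    rw [toForm_apply] at h1
    have h2 : ∀ i, (∑ l, D (X i) * (pderiv k j) (X l) * ω.w i l) = D (X i) * ω.w i j := by
      intro i
      rw [Finset.sum_eq_single j]
      · rw [pderiv_X_self, mul_one]
      · intro l _ hl
        rw [pderiv_X_of_ne hl, mul_zero, zero_mul]
      · intro hj
        exact absurd (Finset.mem_univ j) hj
    simp only [h2] at h1
    simpa [Matrix.vecMul, dotProduct] using h1

theorem preserves (g : PS k d ≃ₐ[k] PS k d) (h : ω.Invariant g) : Preserves ω.toForm g := by
  intro A B
  rw [toForm_apply, toForm_apply, map_sum]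
  have hd : ∀ (D : Derivation k (PS k d) (PS k d)) (a : Fin d),
      ∑ i, conj g D (X i) * pderiv k i (g (X a)) = g (D (X a)) := by
    intro D a
    rw [← derivation_eq (conj g D) (g (X a)), conj_apply, AlgEquiv.symm_apply_apply]
  have h1 : (∑ i, ∑ j, conj g A (X i) * conj g B (X j) * ω.w i j) =
      ∑ a, ∑ b, g (ω.w a b) * (∑ i, conj g A (X i) * pderiv k i (g (X a))) *
        (∑ j, conj g B (X j) * pderiv k j (g (X b))) := by
    have e1 : ∀ i j, conj g A (X i) * conj g B (X j) * ω.w i j =
        ∑ a, ∑ b, conj g A (X i) * conj g B (X j) *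
          (g (ω.w a b) * pderiv k i (g (X a)) * pderiv k j (g (X b))) := by
      intro i j
      rw [← h i j, Finset.mul_sum]
      refine Finset.sum_congr rfl fun a _ => ?_
      rw [Finset.mul_sum]
    simp only [e1]
    rw [show (∑ i, ∑ j, ∑ a, ∑ b, conj g A (X i) * conj g B (X j) *
          (g (ω.w a b) * pderiv k i (g (X a)) * pderiv k j (g (X b)))) =
        ∑ i, ∑ a, ∑ b, ∑ j, conj g A (X i) * conj g B (X j) *
          (g (ω.w a b) * pderiv k i (g (X a)) * pderiv k j (g (X b))) from
      Finset.sum_congr rfl fun i _ => by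
        rw [Finset.sum_comm]
        exact Finset.sum_congr rfl fun a _ => Finset.sum_comm]
    rw [Finset.sum_comm]
    refine Finset.sum_congr rfl fun a _ => ?_
    rw [Finset.sum_comm]
    refine Finset.sum_congr rfl fun b _ => ?_
    rw [mul_assoc, Finset.sum_mul_sum, Finset.mul_sum]
    refine Finset.sum_congr rfl fun i _ => ?_
    rw [Finset.mul_sum]
    refine Finset.sum_congr rfl fun j _ => ?_
    ring
  rw [h1]
  refine Finset.sum_congr rfl fun a _ => ?_
  rw [map_sum]
  refine Finset.sum_congr rfl fun b _ => ?_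
  rw [hd A a, hd B b, map_mul, map_mul]
  ring

end SymplecticForm

end Pool.Agent.SYZ71
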