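import Mathlib

/-!
# SYZ71/CNum : the choice of the parameters in `core`

`p = d - m - e₀`, `μ = m + e₀ - ν`, `σ = ν - e₁`, so `d - e₁ = σ + μ + p`, `d - ν = μ + p`.
-/

set_option autoImplicit false

namespace Pool.Agent.SYZ71

theorem core_numerics (p μ σ ν m' r N : ℕ) (hp : 1 ≤ p) (hm' : m' = ν + μ) (hN : N = σ + μ + p)
    (hbig : 2 * (μ + p) * (μ + σ) < p * r) (Cu cl C A0 : ℕ) :
    ∃ D w : ℕ, 1 ≤ D ∧ 1 ≤ w ∧
      (cl * (C * (D * ((N + 1) * w) ^ 2) ^ m') < D ^ (μ + p) * (D * ((N + 1) * w) ^ 2) ^ ν) ∧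
      N.factorial * (Cu * ((2 * D + 1) ^ (μ + p) * (A0 * (D * ((N + 1) * w) ^ 2)) ^ σ)) <
        (w + 1) ^ r := by
  obtain ⟨D0, hD0⟩ : ∃ D0, D0 = cl * C * (N + 1) ^ (2 * μ) + 1 := ⟨_, rfl⟩
  obtain ⟨A, hA⟩ : ∃ A, A = N.factorial * Cu * 3 ^ (μ + p) * A0 ^ σ * D0 ^ N *
      (N + 1) ^ (2 * σ) := ⟨_, rfl⟩
  obtain ⟨t, ht⟩ : ∃ t, t = A + 1 := ⟨_, rfl⟩
  have ht1 : 1 ≤ t := by omega
  have hD01 : 1 ≤ D0 := by omega
  obtain ⟨D, hD⟩ : ∃ D, D = D0 * t ^ (2 * μ) := ⟨_, rfl⟩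
  obtain ⟨w, hw⟩ : ∃ w, w = t ^ p := ⟨_, rfl⟩
  have hD1 : 1 ≤ D := by
    rw [hD]; exact Nat.mul_pos hD01 (Nat.pow_pos ht1)
  have hw1 : 1 ≤ w := by rw [hw]; exact Nat.pow_pos ht1
  obtain ⟨V, hV⟩ : ∃ V, V = (N + 1) * w := ⟨_, rfl⟩
  have hV1 : 1 ≤ V := by rw [hV]; exact Nat.mul_pos (by omega) hw1
  refine ⟨D, w, hD1, hw1, ?_, ?_⟩
  · rw [← hV]
    have h3 : V ^ (2 * μ) = (N + 1) ^ (2 * μ) * t ^ (2 * μ * p) := by
      rw [hV, hw, mul_pow, ← pow_mul]; congr 2; ring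
    have h4 : D0 * t ^ (2 * μ * p) ≤ D ^ p := by
      rw [hD, mul_pow, ← pow_mul]
      gcongr
      exact Nat.le_self_pow (by omega) _
    have hpos : 0 < t ^ (2 * μ * p) * (D ^ m' * V ^ (2 * ν)) := by positivity
    calc cl * (C * (D * V ^ 2) ^ m')
        = cl * C * (D ^ m' * (V ^ (2 * ν) * V ^ (2 * μ))) := by
          rw [mul_pow, ← pow_mul, ← pow_add, hm']; ring_nf
      _ = (cl * C * (N + 1) ^ (2 * μ)) * (t ^ (2 * μ * p) * (D ^ m' * V ^ (2 * ν))) := by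
          rw [h3]; ring
      _ < D0 * (t ^ (2 * μ * p) * (D ^ m' * V ^ (2 * ν))) :=
          Nat.mul_lt_mul_of_pos_right (by omega) hpos
      _ = D0 * t ^ (2 * μ * p) * (D ^ m' * V ^ (2 * ν)) := by ring
      _ ≤ D ^ p * (D ^ m' * V ^ (2 * ν)) := by gcongr
      _ = D ^ (μ + p) * (D * V ^ 2) ^ ν := by
          rw [mul_pow, ← pow_mul, hm', pow_add, pow_add]; ring
  · rw [← hV]
    have h1 : 2 * D + 1 ≤ 3 * D := by omega
    have h3 : 2 * (μ + p) * (μ + σ) + 1 ≤ p * r := hbig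
    have hposF : 0 < t ^ (2 * (μ + p) * (μ + σ)) := Nat.pow_pos ht1
    calc N.factorial * (Cu * ((2 * D + 1) ^ (μ + p) * (A0 * (D * V ^ 2)) ^ σ))
        ≤ N.factorial * (Cu * ((3 * D) ^ (μ + p) * (A0 * (D * V ^ 2)) ^ σ)) := by gcongr
      _ = N.factorial * Cu * 3 ^ (μ + p) * A0 ^ σ * D ^ N * V ^ (2 * σ) := by
          rw [mul_pow, mul_pow, mul_pow, ← pow_mul, hN]
          have : D ^ (σ + μ + p) = D ^ σ * D ^ (μ + p) := by rw [← pow_add]; congr 1; ring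
          rw [this]; ring
      _ = A * t ^ (2 * (μ + p) * (μ + σ)) := by
          rw [hA, hD, hV, hw, mul_pow D0, mul_pow (N + 1), ← pow_mul, ← pow_mul]
          have e : 2 * (μ + p) * (μ + σ) = 2 * μ * N + p * (2 * σ) := by rw [hN]; ring
          rw [e, pow_add]; ring
      _ < t * t ^ (2 * (μ + p) * (μ + σ)) :=
          Nat.mul_lt_mul_of_pos_right (by omega) hposF
      _ = t ^ (2 * (μ + p) * (μ + σ) + 1) := by rw [pow_succ]; ring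
      _ ≤ t ^ (p * r) := Nat.pow_le_pow_right ht1 h3
      _ = w ^ r := by rw [hw, ← pow_mul]
      _ ≤ (w + 1) ^ r := Nat.pow_le_pow_left (by omega) r

end Pool.Agent.SYZ71
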