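import Pool.Agent.SYZ71.CSpan
import Pool.Agent.SYZ71.CNum
import Pool.Agent.SYZ71.ZeroEst

/-!
# SYZ71/Core : the general interpolation theorem (target of part M)

`L D E ⊆ k[[z_1..z_d]]` = sections of `D A + E α` near the fixed point, `F = k(L 1 0)` the function
field, `dim L D E ~ D^(d-ν) E^ν` (`1 ≤ D ≤ E`); `K₁ ⊆ K₀ ⊆ F` fields of transcendence degrees
`e₁, e₀`, `G` trivial on `K₁`.  The local bound holds with exponent `m`.
If `2 (d-ν)(m+e₀-e₁) < (d-m-e₀) r`, some `g v`, `v ≠ 0`, fixes an element of `F` not in `K₀`.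

Proof.  Put `V = W^(d-m-e₀)`, `D = c₀ W^(2(m+e₀-ν))`, `E = D V² = c₀ W^(2(d-ν))`.
`LocalBound` and `order_le`: the rank over `Frac` of `(g_v f)_(|v| ≤ (N+1) w)`, `f ∈ L D E`, is
`≤ C E^m`, smaller than `dim_(K₀) K₀ L(D,E) ≥ D^(d-ν) E^(ν-e₀) / c` (`c₀` large).  If every `g v`,
`v ≠ 0`, has its fixed field in `K₀`, then `zero_estimate` over `K₁` (`N = d - e₁`,
`M = K₁ y₀⁻¹ L(2D+1, E')`, `T₀ = C D^(d-ν) E^(ν-e₁) ~ W^(2(d-ν)(m+e₀-e₁))`, `w ~ W^(d-m-e₀)`)
gives a contradiction.
-/

set_option autoImplicit false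

open MvPowerSeries Module TensorProduct

namespace Pool.Agent.SYZ71

variable {k : Type*} [Field k] {d : ℕ}

theorem core [CharZero k] (m ν e₀ e₁ r : ℕ) (hν : ν ≤ m + e₀) (hνd : ν ≤ d) (he₁ : e₁ ≤ ν)
    (hm : m + e₀ < d)
    (hbig : 2 * (d - ν) * (m + e₀ - e₁) < (d - (m + e₀)) * r)
    (g : (Fin r → ℤ) → (PS k d ≃ₐ[k] PS k d)) (hg : ∀ u v, g (u + v) = g u * g v)
    (hloc : LocalBound m g)
    (L : ℕ → ℕ → Submodule k (PS k d)) (hL : IsFamily L)
    (hgL : ∃ C : ℕ, ∀ (v : Fin r → ℤ) (D E : ℕ), 1 ≤ D → ∃ b : PS k d, b ≠ 0 ∧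
      ∀ f ∈ L D E, b * g v f ∈ L (2 * D) (E + C * D * (1 + ∑ i, (v i).natAbs ^ 2)))
    (K₀ K₁ : IntermediateField k (FractionRing (PS k d))) (h₁₀ : K₁ ≤ K₀) (h₁ : K₁ ≤ Fld L)
    (htr₁ : Algebra.trdeg k K₁ = (e₁ : ℕ)) (htr : Algebra.trdeg k (Fld L) = (d : ℕ))
    (hlow : GrowthLower L K₀ ν e₀) (hup : GrowthUpper L K₁ ν e₁)
    (hK : ∀ v, ∀ f h : PS k d, h ≠ 0 → algebraMap (PS k d) (FractionRing (PS k d)) f /
      algebraMap (PS k d) (FractionRing (PS k d)) h ∈ K₁ → g v f * h = f * g v h)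
    (hdom : IsDomain (IntermediateField.extendScalars h₁ ⊗[K₁]
      IntermediateField.extendScalars h₁)) :
    ∃ v : Fin r → ℤ, v ≠ 0 ∧ ∃ D : ℕ, ∃ f ∈ L D 0, ∃ h ∈ L D 0, h ≠ 0 ∧
      algebraMap (PS k d) (FractionRing (PS k d)) f /
        algebraMap (PS k d) (FractionRing (PS k d)) h ∉ K₀ ∧
      g v f * h = f * g v h := by
  classical
  by_contra hcon
  have hinj : Function.Injective (algebraMap (PS k d) (FractionRing (PS k d))) :=
    IsFractionRing.injective _ _
  have hcon' : ∀ v : Fin r → ℤ, v ≠ 0 → ∀ D : ℕ, ∀ f ∈ L D 0, ∀ h ∈ L D 0, h ≠ 0 →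
      g v f * h = f * g v h → algebraMap (PS k d) (FractionRing (PS k d)) f /
        algebraMap (PS k d) (FractionRing (PS k d)) h ∈ K₀ := by
    intro v hv D f hf h hh h0 e
    by_contra hc
    exact hcon ⟨v, hv, D, f, hf, h, hh, h0, hc, e⟩
  -- parameters
  obtain ⟨p, hp⟩ : ∃ p, p = d - (m + e₀) := ⟨_, rfl⟩
  obtain ⟨μ, hμ⟩ : ∃ μ, μ = m + e₀ - ν := ⟨_, rfl⟩
  obtain ⟨σ, hσ⟩ : ∃ σ, σ = ν - e₁ := ⟨_, rfl⟩
  have hdν : d - ν = μ + p := by omega
  have hmσ : m + e₀ - e₁ = μ + σ := by omega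
  have hde : d - e₁ = σ + μ + p := by omega
  have hr1 : 1 ≤ r := by
    rcases Nat.eq_zero_or_pos r with h | h
    · rw [h, mul_zero] at hbig; omega
    · exact h
  obtain ⟨M0, C, hM0, hC1, hrel⟩ := exists_relation g hloc L hL hgL
  obtain ⟨γ, hγadd, hγ⟩ := exists_act g hg L hL hgL K₁ h₁ hK
  obtain ⟨Cg, hCg⟩ := hgL
  obtain ⟨cl, hlow⟩ := hlow
  obtain ⟨Cu, hup⟩ := hup
  obtain ⟨a, ha⟩ : ∃ a, a = Cg * (1 + r * M0 ^ 2) := ⟨_, rfl⟩
  obtain ⟨D, w, hD1, hw1, hnum1, hnum2⟩ := core_numerics p μ σ ν (m + e₀) r (d - e₁)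
    (by omega) (by omega) hde (by rw [← hdν, ← hmσ, hp]; exact hbig) Cu cl C (4 + a)
  obtain ⟨V, hV⟩ : ∃ V, V = (d - e₁ + 1) * w := ⟨_, rfl⟩
  rw [← hV] at hnum1 hnum2
  have hV1 : 1 ≤ V := by rw [hV]; exact Nat.mul_pos (by omega) hw1
  obtain ⟨E, hE⟩ : ∃ E, E = D * V ^ 2 := ⟨_, rfl⟩
  rw [← hE] at hnum1 hnum2
  have hDE : D ≤ E := by rw [hE]; exact Nat.le_mul_of_pos_right _ (by positivity)
  have hE1 : 1 ≤ E := hD1.trans hDE
  obtain ⟨E', hE'⟩ : ∃ E', E' = (4 + a) * E := ⟨_, rfl⟩
  rw [← hE'] at hnum2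
  have hDE' : 2 * D + 1 ≤ E' := by rw [hE']; nlinarith
  have hE'1 : 1 ≤ E' := by omega
  -- nonzero elements
  have hex : ∀ D E, 1 ≤ D → D ≤ E → ∃ x ∈ L D E, x ≠ 0 := by
    intro D E hD hDE
    by_contra hno
    have h1 := hlow D E hD hDE
    have h2 : KSpan L K₀ D E = ⊥ := by
      rw [KSpan, Submodule.span_eq_bot]
      rintro _ ⟨x, hx, rfl⟩
      by_contra hx0
      exact hno ⟨x, hx, fun h => hx0 (by rw [h, map_zero])⟩
    rw [h2, finrank_bot, mul_zero, mul_zero] at h1
    have : 0 < D ^ (d - ν) * E ^ ν := Nat.mul_pos (Nat.pow_pos hD) (Nat.pow_pos (hD.trans hDE))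
    omega
  -- the elements `f i`, independent over `K₀`
  obtain ⟨φ, hφ, f, hfm, hfli⟩ : ∃ φ, φ = finrank K₀ (KSpan L K₀ D E) ∧
      ∃ f : Fin φ → PS k d, (∀ i, f i ∈ L D E) ∧
        LinearIndependent K₀ (fun i => algebraMap (PS k d) (FractionRing (PS k d)) (f i)) :=
    ⟨_, rfl, exists_basis_KSpan hL K₀ D E⟩
  have hφlow : D ^ (d - ν) * E ^ ν ≤ cl * (E ^ e₀ * φ) := by rw [hφ]; exact hlow D E hD1 hDE
  have hφC : C * E ^ m < φ := by
    by_contra hle
    have hle' : φ ≤ C * E ^ m := Nat.le_of_not_lt hle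
    have h1 : cl * (E ^ e₀ * φ) ≤ cl * (C * E ^ (m + e₀)) := by
      calc cl * (E ^ e₀ * φ) ≤ cl * (E ^ e₀ * (C * E ^ m)) := by gcongr
        _ = cl * (C * E ^ (m + e₀)) := by rw [pow_add]; ring
    rw [hdν] at hφlow
    exact absurd (hφlow.trans h1) (Nat.not_le.2 hnum1)
  -- the relation
  obtain ⟨c, hcF, hc0, hc⟩ := hrel D E V φ f hD1 hDE (by rw [hE]) hfm hφC
  apply hc0
  -- everything in the field `F`
  have hfF : ∀ i, algebraMap (PS k d) (FractionRing (PS k d)) (f i) ∈ Fld L :=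
    fun i => hL.mem_field _ _ _ (hfm i)
  have hmemF : ∀ D E x, x ∈ L D E → ∃ z : IntermediateField.extendScalars h₁,
      (z : FractionRing (PS k d)) = algebraMap (PS k d) (FractionRing (PS k d)) x :=
    fun D E x hx => ⟨⟨_, hL.mem_field D E x hx⟩, rfl⟩
  let fF : Fin φ → IntermediateField.extendScalars h₁ := fun i =>
    ⟨algebraMap (PS k d) (FractionRing (PS k d)) (f i), hfF i⟩
  let cF : Fin φ → IntermediateField.extendScalars h₁ := fun i => ⟨c i, hcF i⟩
  let γ' : (Fin r → ℤ) → (IntermediateField.extendScalars h₁ ≃ₐ[K₁]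
      IntermediateField.extendScalars h₁) := fun v => γ (fun l => (M0 : ℤ) * v l)
  have hγ'add : ∀ u v, γ' (u + v) = γ' u * γ' v := by
    intro u v
    have e : (fun l => (M0 : ℤ) * (u + v) l) =
        (fun l => (M0 : ℤ) * u l) + (fun l => (M0 : ℤ) * v l) := by
      ext l; simp [mul_add]
    change γ _ = γ _ * γ _
    rw [← hγadd, ← e]
  -- `γ'` on series
  have hγ'f : ∀ (v : Fin r → ℕ) (x : IntermediateField.extendScalars h₁) (z : PS k d),
      (x : FractionRing (PS k d)) = algebraMap (PS k d) (FractionRing (PS k d)) z →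
      ((γ' (fun j => (v j : ℤ)) x : IntermediateField.extendScalars h₁) :
        FractionRing (PS k d)) = algebraMap (PS k d) (FractionRing (PS k d))
          (g (fun l => ((M0 * v l : ℕ) : ℤ)) z) := by
    intro v x z hx
    have e : (fun l => (M0 : ℤ) * ((v l : ℕ) : ℤ)) = (fun l => ((M0 * v l : ℕ) : ℤ)) := by
      ext l; push_cast; rfl
    change ((γ (fun l => (M0 : ℤ) * ((v l : ℕ) : ℤ)) x : IntermediateField.extendScalars h₁) :
        FractionRing (PS k d)) = _
    rw [hγ, e, hx, CI.ext_algebraMap]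
  -- the bound for the action on `L D E`
  have hbound : ∀ u : Fin r → ℕ, (∀ i, u i ≤ V) → ∃ b : PS k d, b ≠ 0 ∧ ∃ E'' ≤ E',
      ∀ x ∈ L D E, b * g (fun l => ((M0 * u l : ℕ) : ℤ)) x ∈ L (2 * D) E'' := by
    intro u hu
    obtain ⟨b, hb0, hb⟩ := hCg (fun l => ((M0 * u l : ℕ) : ℤ)) D E hD1
    refine ⟨b, hb0, _, ?_, hb⟩
    have h1 : ∑ i, (((M0 * u i : ℕ) : ℤ)).natAbs ^ 2 ≤ r * (M0 * V) ^ 2 := by
      calc ∑ i, (((M0 * u i : ℕ) : ℤ)).natAbs ^ 2 ≤ ∑ _i : Fin r, (M0 * V) ^ 2 := by
            refine Finset.sum_le_sum fun i _ => ?_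
            rw [Int.natAbs_natCast]
            exact Nat.pow_le_pow_left (Nat.mul_le_mul_left _ (hu i)) 2
        _ = r * (M0 * V) ^ 2 := by simp
    calc E + Cg * D * (1 + ∑ i, (((M0 * u i : ℕ) : ℤ)).natAbs ^ 2)
        ≤ E + Cg * D * (1 * V ^ 2 + r * (M0 * V) ^ 2) := by
          gcongr
          rw [one_mul]; exact Nat.pow_pos hV1
      _ = (1 + a) * E := by rw [ha, hE]; ring
      _ ≤ E' := by rw [hE']; gcongr; omega
  obtain ⟨y0, hy0, hy0n⟩ := hex (2 * D) E' (by omega) (by omega)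
  obtain ⟨y, hy⟩ : ∃ y, y = algebraMap (PS k d) (FractionRing (PS k d)) y0 := ⟨_, rfl⟩
  have hyn : y ≠ 0 := by
    intro h
    exact hy0n (hinj (by rw [← hy, h, map_zero]))
  obtain ⟨yF, hyF⟩ := hmemF _ _ _ hy0
  rw [← hy] at hyF
  have hM := Mk_finite (h₁ := h₁) hL y hyn (2 * D + 1) E'
  have hB := Mk_finite (h₁ := h₁) hL (1 : FractionRing (PS k d)) one_ne_zero D E
  have hfM := hM.1
  have hfB := hB.1
  have key : cF = 0 := by
    refine zero_estimate hdom (d - e₁) r w (Cu * ((2 * D + 1) ^ (μ + p) * E' ^ σ)) hr1 γ' hγ'add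
      (trdeg_extendScalars h₁ e₁ (by omega) htr₁ htr) (Mk L h₁ 1 D E)
      (Mk L h₁ y (2 * D + 1) E') ?_ ?_ ?_ ?_ hnum2 φ fF ?_ ?_ cF ?_
    · -- `1 ∈ M`
      refine mem_Mk.2 ?_
      have h1 : y * ((1 : IntermediateField.extendScalars h₁) : FractionRing (PS k d)) =
          algebraMap (PS k d) (FractionRing (PS k d)) (y0 * 1) := by
        rw [hy, mul_one]; simp
      rw [h1]
      exact mem_KSpan (by simpa using hL.mul_mem _ _ _ _ _ _ hy0 hL.one_mem)
    · -- `M` generates
      rw [eq_top_iff]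
      intro x _
      have h1 : Fld L ≤ ((IntermediateField.adjoin K₁ ((Mk L h₁ y (2 * D + 1) E' :
            Submodule K₁ (IntermediateField.extendScalars h₁)) :
              Set (IntermediateField.extendScalars h₁))).map
            (IntermediateField.extendScalars h₁).val).restrictScalars k := by
        conv_lhs => rw [Fld]
        rw [IntermediateField.adjoin_le_iff]
        rintro _ ⟨z, hz, rfl⟩
        obtain ⟨zF, hzF⟩ := hmemF _ _ _ hz
        refine ⟨zF, IntermediateField.subset_adjoin _ _ ?_, hzF⟩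
        refine mem_Mk.2 ?_
        rw [hzF, hy, ← map_mul]
        exact mem_KSpan (by simpa using hL.mul_mem _ _ _ _ _ _ hy0 hz)
      obtain ⟨z, hz, hzx⟩ := h1 x.2
      have : z = x := Subtype.ext hzx
      rw [← this]; exact hz
    · -- the factors `β`
      intro u hu
      have hu' : ∀ i, u i ≤ V := fun i => (hu i).trans (by rw [hV]; gcongr; omega)
      obtain ⟨b, hb0, E'', hE'', hb⟩ := hbound u hu'
      -- a nonzero element of `L 1 (E' - E'')`
      obtain ⟨x, hx, hx0⟩ : ∃ x ∈ L 1 (E' - E''), x ≠ 0 := by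
        rcases Nat.eq_zero_or_pos (E' - E'') with h | h
        · rw [h]; exact ⟨1, hL.one_mem, one_ne_zero⟩
        · exact hex 1 _ le_rfl h
      -- `b` lies in `F`
      have hfi0 : ∃ z ∈ L D E, z ≠ 0 := hex D E hD1 hDE
      obtain ⟨bF, hbF⟩ : ∃ z : IntermediateField.extendScalars h₁,
          (z : FractionRing (PS k d)) = algebraMap (PS k d) (FractionRing (PS k d)) b := by
        obtain ⟨f0, hf0, hf0n⟩ := hfi0
        obtain ⟨z, hz⟩ := hmemF _ _ _ (hb _ hf0)
        obtain ⟨f0F, hf0F⟩ := hmemF _ _ _ hf0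
        have hGi := hγ'f u f0F f0 hf0F
        have hgf : g (fun l => ((M0 * u l : ℕ) : ℤ)) f0 ≠ 0 := by
          intro h
          exact hf0n ((map_eq_zero_iff _ (AlgEquiv.injective _)).1 h)
        have hgf' : algebraMap (PS k d) (FractionRing (PS k d))
            (g (fun l => ((M0 * u l : ℕ) : ℤ)) f0) ≠ 0 :=
          fun h => hgf (hinj (by rw [h, map_zero]))
        refine ⟨z * (γ' (fun j => (u j : ℤ)) f0F)⁻¹, ?_⟩
        have e : ((z * (γ' (fun j => (u j : ℤ)) f0F)⁻¹ : IntermediateField.extendScalars h₁) :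
            FractionRing (PS k d)) = (z : FractionRing (PS k d)) *
            ((γ' (fun j => (u j : ℤ)) f0F : IntermediateField.extendScalars h₁) :
              FractionRing (PS k d))⁻¹ := rfl
        rw [e, hz, hGi, map_mul, mul_assoc, mul_inv_cancel₀ hgf', mul_one]
      obtain ⟨xF, hxF⟩ := hmemF _ _ _ hx
      have hbF0 : bF ≠ 0 := by
        intro h
        apply hb0
        apply hinj
        rw [map_zero, ← hbF, h]; rfl
      have hxF0 : xF ≠ 0 := by
        intro h
        apply hx0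
        apply hinj
        rw [map_zero, ← hxF, h]; rfl
      have hyF0 : yF ≠ 0 := by
        intro h
        apply hyn
        rw [← hyF, h]; rfl
      refine ⟨yF⁻¹ * (xF * bF), mul_ne_zero (inv_ne_zero hyF0) (mul_ne_zero hxF0 hbF0), ?_⟩
      -- a `K₁`-linear condition
      intro z hz
      have hlin : ∀ q ∈ KSpan L K₁ D E, ∀ z : IntermediateField.extendScalars h₁,
          (z : FractionRing (PS k d)) = q →
          yF⁻¹ * (xF * bF) * γ' (fun j => (u j : ℤ)) z ∈ Mk L h₁ y (2 * D + 1) E' := by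
        intro q hq
        refine Submodule.span_induction (p := fun q _ =>
          ∀ z : IntermediateField.extendScalars h₁, (z : FractionRing (PS k d)) = q →
          yF⁻¹ * (xF * bF) * γ' (fun j => (u j : ℤ)) z ∈ Mk L h₁ y (2 * D + 1) E')
          ?_ ?_ ?_ ?_ hq
        · rintro _ ⟨zP, hzP, rfl⟩ z hz
          have hGz := hγ'f u z zP hz
          have h5 : x * (b * g (fun l => ((M0 * u l : ℕ) : ℤ)) zP) ∈ L (2 * D + 1) E' := by
            have := hL.mul_mem _ _ _ _ _ _ hx (hb zP hzP)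
            have e1 : 1 + 2 * D = 2 * D + 1 := by ring
            have e2 : E' - E'' + E'' = E' := Nat.sub_add_cancel hE''
            rwa [e1, e2] at this
          refine mem_Mk.2 ?_
          have h6 : y * ((yF⁻¹ * (xF * bF) * γ' (fun j => (u j : ℤ)) z :
              IntermediateField.extendScalars h₁) : FractionRing (PS k d)) =
              algebraMap (PS k d) (FractionRing (PS k d))
                (x * (b * g (fun l => ((M0 * u l : ℕ) : ℤ)) zP)) := by
            have e : ((yF⁻¹ * (xF * bF) * γ' (fun j => (u j : ℤ)) z :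
              IntermediateField.extendScalars h₁) : FractionRing (PS k d)) =
              (yF : FractionRing (PS k d))⁻¹ * ((xF : FractionRing (PS k d)) *
                (bF : FractionRing (PS k d))) *
              ((γ' (fun j => (u j : ℤ)) z : IntermediateField.extendScalars h₁) :
                FractionRing (PS k d)) := rfl
            rw [e, hyF, hxF, hbF, hGz, map_mul, map_mul, ← mul_assoc, ← mul_assoc,
              mul_inv_cancel₀ hyn, one_mul, mul_assoc]
          rw [h6]
          exact mem_KSpan h5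
        · intro z hz
          have h0 : z = 0 := Subtype.ext hz
          rw [h0, map_zero, mul_zero]
          exact Submodule.zero_mem _
        · intro q₁ q₂ hq₁ hq₂ ih₁ ih₂ z hz
          have hle : ∀ q ∈ KSpan L K₁ D E, q ∈ IntermediateField.extendScalars h₁ := by
            intro q hq
            refine (Submodule.span_le (p := (Subalgebra.toSubmodule
              (IntermediateField.extendScalars h₁).toSubalgebra))).2 ?_ hq
            rintro _ ⟨x, hx, rfl⟩
            exact hL.mem_field _ _ _ hx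
          have e : z = ⟨q₁, hle q₁ hq₁⟩ + ⟨q₂, hle q₂ hq₂⟩ := Subtype.ext hz
          rw [e, map_add, mul_add]
          exact Submodule.add_mem _ (ih₁ _ rfl) (ih₂ _ rfl)
        · intro s q₁ hq₁ ih₁ z hz
          have hle : ∀ q ∈ KSpan L K₁ D E, q ∈ IntermediateField.extendScalars h₁ := by
            intro q hq
            refine (Submodule.span_le (p := (Subalgebra.toSubmodule
              (IntermediateField.extendScalars h₁).toSubalgebra))).2 ?_ hq
            rintro _ ⟨x, hx, rfl⟩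
            exact hL.mem_field _ _ _ hx
          have e : z = s • (⟨q₁, hle q₁ hq₁⟩ : IntermediateField.extendScalars h₁) :=
            Subtype.ext hz
          have e2 : γ' (fun j => (u j : ℤ)) (s • (⟨q₁, hle q₁ hq₁⟩ :
              IntermediateField.extendScalars h₁)) = s • γ' (fun j => (u j : ℤ)) ⟨q₁, hle q₁ hq₁⟩ :=
            (γ' (fun j => (u j : ℤ))).toLinearEquiv.map_smul s _
          rw [e, e2, mul_smul_comm]
          exact Submodule.smul_mem _ _ (ih₁ _ rfl)
      refine hlin _ (mem_Mk.1 hz) z ?_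
      rw [one_mul]
    · -- growth
      intro K hK
      obtain ⟨K, rfl⟩ := Nat.exists_eq_add_of_le' hK
      have h1 := Mk_pow (h₁ := h₁) hL y (2 * D + 1) E' K
      have h2 := Mk_finite (h₁ := h₁) hL (y ^ (K + 1)) (pow_ne_zero _ hyn)
        ((K + 1) * (2 * D + 1)) ((K + 1) * E')
      have hfinK' := h2.1
      have h3 := hup ((K + 1) * (2 * D + 1)) ((K + 1) * E') (Nat.mul_pos (by omega) (by omega))
        (Nat.mul_le_mul_left _ hDE')
      have hν' : ν = e₁ + σ := by omega
      have h4 : finrank K₁ (KSpan L K₁ ((K + 1) * (2 * D + 1)) ((K + 1) * E')) ≤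
          Cu * (((K + 1) * (2 * D + 1)) ^ (μ + p) * ((K + 1) * E') ^ σ) := by
        have hX : 0 < ((K + 1) * E') ^ e₁ := Nat.pow_pos (Nat.mul_pos (by omega) hE'1)
        refine Nat.le_of_mul_le_mul_left ?_ hX
        refine h3.trans (le_of_eq ?_)
        rw [hdν, hν', pow_add ((K + 1) * E')]
        ring
      calc finrank K₁ ↥(Mk L h₁ y (2 * D + 1) E' ^ (K + 1))
          ≤ finrank K₁ (Mk L h₁ (y ^ (K + 1)) ((K + 1) * (2 * D + 1)) ((K + 1) * E')) :=
            Submodule.finrank_mono h1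
        _ ≤ finrank K₁ (KSpan L K₁ ((K + 1) * (2 * D + 1)) ((K + 1) * E')) := h2.2
        _ ≤ Cu * (((K + 1) * (2 * D + 1)) ^ (μ + p) * ((K + 1) * E') ^ σ) := h4
        _ = Cu * ((2 * D + 1) ^ (μ + p) * E' ^ σ) * (K + 1) ^ (d - e₁) := by
            rw [hde, mul_pow, mul_pow (K + 1), add_assoc σ μ p, pow_add (K + 1) σ]; ring
    · intro i
      refine mem_Mk.2 ?_
      rw [one_mul]
      exact mem_KSpan (hfm i)
    · -- independence over the fixed fields
      intro v hv c' hc' hsum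
      have hMv : (fun l => (M0 : ℤ) * v l) ≠ 0 := by
        intro h0
        apply hv
        ext l
        have := congrFun h0 l
        simp only [Pi.zero_apply, mul_eq_zero] at this
        rcases this with h | h
        · omega
        · exact h
      have hcK : ∀ i, ((c' i : IntermediateField.extendScalars h₁) : FractionRing (PS k d)) ∈
          K₀ := by
        intro i
        obtain ⟨D', f', hf', h', hh', h0', e⟩ := exists_frac hL (c' i).2
        have h1 : CI.ext (g (fun l => (M0 : ℤ) * v l))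
            ((c' i : IntermediateField.extendScalars h₁) : FractionRing (PS k d)) = c' i := by
          rw [← hγ]
          exact congrArg Subtype.val (hc' i)
        rw [e] at h1
        have h2 := (ext_div_eq_iff _ f' h' h0').1 h1
        rw [e]
        exact hcon' _ hMv D' f' hf' h' hh' h0' h2
      have hsum' : ∑ i, (⟨_, hcK i⟩ : K₀) •
          algebraMap (PS k d) (FractionRing (PS k d)) (f i) = 0 := by
        have h1 := congrArg (Subtype.val : IntermediateField.extendScalars h₁ →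
          FractionRing (PS k d)) hsum
        have h2 : ((∑ i, c' i * fF i : IntermediateField.extendScalars h₁) :
            FractionRing (PS k d)) = ∑ i, ((c' i : IntermediateField.extendScalars h₁) :
              FractionRing (PS k d)) * algebraMap (PS k d) (FractionRing (PS k d)) (f i) := by
          rw [← IntermediateField.coe_val, map_sum]
          rfl
        exact h2.symm.trans h1
      have h3 := (Fintype.linearIndependent_iff.1 hfli) _ hsum'
      funext i
      have h4 := congrArg Subtype.val (h3 i)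
      exact Subtype.ext h4
    · -- the relation
      intro v hv
      apply Subtype.ext
      have h1 := hc v (by rw [hV]; exact hv)
      have h2 : ((∑ i, cF i * γ' (fun j => (v j : ℤ)) (fF i) :
          IntermediateField.extendScalars h₁) : FractionRing (PS k d)) =
          ∑ i, c i * algebraMap (PS k d) (FractionRing (PS k d))
            (g (fun l => ((M0 * v l : ℕ) : ℤ)) (f i)) := by
        rw [← IntermediateField.coe_val, map_sum]
        refine Finset.sum_congr rfl fun i _ => ?_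
        rw [← hγ'f v (fF i) (f i) rfl]
        rfl
      rw [h2, h1]
      rfl
  funext i
  exact congrArg Subtype.val (congrFun key i)

end Pool.Agent.SYZ71
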