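import Pool.Agent.SYZ71.LM1

/-!
# SYZ71/LM2 : polynomial families of power series and their derivative at `0`

`HasD l φ f'`: every coefficient of `φ v` is a polynomial `P` in `v ∈ ℤ^r`, and the coefficients of
`f'` are `∂_l P (0)`.
-/

set_option autoImplicit false

open MvPowerSeries

namespace Pool.Agent.SYZ71

variable {k : Type*} [Field k] {d r s : ℕ}

/-- `φ` is a polynomial family with `l`-th partial derivative `f'` at `0` -/
def HasD (l : Fin r) (φ : (Fin r → ℤ) → PS k d) (f' : PS k d) : Prop :=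
  ∀ a, ∃ P : MvPolynomial (Fin r) k,
    (∀ v : Fin r → ℤ, coeff a (φ v) = MvPolynomial.eval (fun i => (v i : k)) P) ∧
      coeff a f' = MvPolynomial.eval 0 (MvPolynomial.pderiv l P)

theorem poly_unique [CharZero k] (P Q : MvPolynomial (Fin r) k)
    (h : ∀ v : Fin r → ℤ, MvPolynomial.eval (fun i => (v i : k)) P =
      MvPolynomial.eval (fun i => (v i : k)) Q) : P = Q := by
  apply MvPolynomial.funext_set (fun _ : Fin r => Set.range (Int.cast : ℤ → k))
    (fun _ => Set.infinite_range_of_injective Int.cast_injective)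
  intro x hx
  have hx' : ∀ i, ∃ n : ℤ, (n : k) = x i := fun i => hx i (Set.mem_univ i)
  choose v hv using hx'
  have : x = fun i => (v i : k) := funext fun i => (hv i).symm
  rw [this]
  exact h v

theorem hasD_unique [CharZero k] (l : Fin r) (φ : (Fin r → ℤ) → PS k d) (f' f'' : PS k d)
    (h : HasD l φ f') (h' : HasD l φ f'') : f' = f'' := by
  ext a
  obtain ⟨P, hP, hP'⟩ := h a
  obtain ⟨Q, hQ, hQ'⟩ := h' a
  have : P = Q := poly_unique P Q (fun v => by rw [← hP v, ← hQ v])
  rw [hP', hQ', this]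

theorem hasD_const (l : Fin r) (f : PS k d) : HasD l (fun _ => f) 0 := by
  intro a
  refine ⟨MvPolynomial.C (coeff a f), fun v => ?_, ?_⟩
  · simp
  · simp

theorem hasD_add (l : Fin r) (φ ψ : (Fin r → ℤ) → PS k d) (f' h' : PS k d) (hφ : HasD l φ f')
    (hψ : HasD l ψ h') : HasD l (fun v => φ v + ψ v) (f' + h') := by
  intro a
  obtain ⟨P, hP, hP'⟩ := hφ a
  obtain ⟨Q, hQ, hQ'⟩ := hψ a
  refine ⟨P + Q, fun v => ?_, ?_⟩
  · simp [map_add, hP v, hQ v]
  · simp [map_add, hP', hQ']

theorem hasD_smul (l : Fin r) (c : k) (φ : (Fin r → ℤ) → PS k d) (f' : PS k d)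
    (hφ : HasD l φ f') : HasD l (fun v => c • φ v) (c • f') := by
  intro a
  obtain ⟨P, hP, hP'⟩ := hφ a
  refine ⟨c • P, fun v => ?_, ?_⟩
  · simp [MvPolynomial.smul_eval, hP v]
  · simp [hP']

theorem hasD_sum (l : Fin r) {ι : Type*} (t : Finset ι) (φ : ι → (Fin r → ℤ) → PS k d)
    (f' : ι → PS k d) (hφ : ∀ i ∈ t, HasD l (φ i) (f' i)) :
    HasD l (fun v => ∑ i ∈ t, φ i v) (∑ i ∈ t, f' i) := by
  classical
  induction t using Finset.induction_on with
  | empty => simpa using hasD_const l (0 : PS k d)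
  | insert i t hi ih =>
    simp only [Finset.sum_insert hi]
    exact hasD_add l _ _ _ _ (hφ i (Finset.mem_insert_self i t))
      (ih fun j hj => hφ j (Finset.mem_insert_of_mem hj))

theorem cast_zero_fun : (fun i : Fin r => (((0 : Fin r → ℤ) i : ℤ) : k)) = 0 := by
  funext i
  simp

theorem hasD_mul (l : Fin r) (φ ψ : (Fin r → ℤ) → PS k d) (f' h' : PS k d) (hφ : HasD l φ f')
    (hψ : HasD l ψ h') : HasD l (fun v => φ v * ψ v) (f' * ψ 0 + φ 0 * h') := by
  classical
  choose P hP hP' using hφ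
  choose Q hQ hQ' using hψ
  intro a
  refine ⟨∑ p ∈ Finset.HasAntidiagonal.antidiagonal a, P p.1 * Q p.2, fun v => ?_, ?_⟩
  · rw [coeff_mul, map_sum]
    refine Finset.sum_congr rfl fun p _ => ?_
    rw [map_mul, hP p.1 v, hQ p.2 v]
  · rw [map_add, coeff_mul, coeff_mul, map_sum, map_sum, ← Finset.sum_add_distrib]
    refine Finset.sum_congr rfl fun p _ => ?_
    rw [Derivation.leibniz, map_add, smul_eq_mul, smul_eq_mul, map_mul, map_mul, hP' p.1, hQ' p.2,
      hP p.1 0, hQ p.2 0, cast_zero_fun]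
    ring

theorem hasD_neg (l : Fin r) (φ : (Fin r → ℤ) → PS k d) (f' : PS k d) (hφ : HasD l φ f') :
    HasD l (fun v => φ (-v)) (-f') := by
  intro a
  obtain ⟨P, hP, hP'⟩ := hφ a
  have key1 : ∀ (x : Fin r → k) (Q : MvPolynomial (Fin r) k),
      MvPolynomial.eval x (MvPolynomial.bind₁ (fun i => -MvPolynomial.X i) Q) =
        MvPolynomial.eval (-x) Q := by
    intro x Q
    induction Q using MvPolynomial.induction_on with
    | C c => simp
    | add p q hp hq => simp only [map_add, hp, hq]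
    | mul_X p i hp => simp only [map_mul, hp, MvPolynomial.bind₁_X_right, map_neg,
        MvPolynomial.eval_X, Pi.neg_apply]
  have key2 : ∀ Q : MvPolynomial (Fin r) k,
      MvPolynomial.pderiv l (MvPolynomial.bind₁ (fun i => -MvPolynomial.X i) Q) =
        -MvPolynomial.bind₁ (fun i => -MvPolynomial.X i) (MvPolynomial.pderiv l Q) := by
    intro Q
    induction Q using MvPolynomial.induction_on with
    | C c => simp
    | add p q hp hq => simp only [map_add, hp, hq, neg_add]
    | mul_X p i hp =>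
      rw [map_mul, Derivation.leibniz, Derivation.leibniz, hp]
      simp only [smul_eq_mul, map_add, map_mul, MvPolynomial.bind₁_X_right, map_neg,
        MvPolynomial.pderiv_X]
      by_cases hil : i = l
      · subst hil
        simp
        ring
      · simp [hil]
  refine ⟨MvPolynomial.bind₁ (fun i => -MvPolynomial.X i) P, fun v => ?_, ?_⟩
  · rw [hP (-v), key1]
    congr 2
    funext i
    simp
  · rw [key2, map_neg, map_neg, key1, hP', neg_zero]

theorem hasD_linear (η : Fin d → ℕ) (hη : ∀ i, 1 ≤ η i) (c : ℕ) (L : PS k d →ₗ[k] PS k d)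
    (hL : ∀ f, f.weightedOrder η ≤ (L f).weightedOrder η + c) (l : Fin r)
    (φ : (Fin r → ℤ) → PS k d) (f' : PS k d) (hφ : HasD l φ f') :
    HasD l (fun v => L (φ v)) (L f') := by
  classical
  choose P hP hP' using hφ
  intro a
  obtain ⟨S, hS⟩ := coeff_cont (k := k) η hη c a
  refine ⟨∑ b ∈ S, P b * MvPolynomial.C (coeff a (L (monomial b (1 : k)))), fun v => ?_, ?_⟩
  · rw [hS L hL, map_sum]
    refine Finset.sum_congr rfl fun b _ => ?_
    rw [map_mul, hP b v, MvPolynomial.eval_C]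
  · rw [hS L hL, map_sum, map_sum]
    refine Finset.sum_congr rfl fun b _ => ?_
    rw [Derivation.leibniz, MvPolynomial.pderiv_C, smul_zero, zero_add, smul_eq_mul, map_mul,
      hP' b, MvPolynomial.eval_C, mul_comm]

theorem hasD_app (η : Fin d → ℕ) (hη : ∀ i, 1 ≤ η i) (L : (Fin r → ℤ) → (PS k d →ₗ[k] PS k d))
    (hL : ∀ v f, f.weightedOrder η ≤ (L v f).weightedOrder η) (L' : PS k d →ₗ[k] PS k d)
    (hL' : ∀ f, f.weightedOrder η ≤ (L' f).weightedOrder η) (l : Fin r)
    (hD : ∀ f, HasD l (fun v => L v f) (L' f))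
    (φ : (Fin r → ℤ) → PS k d) (f' : PS k d) (hφ : HasD l φ f') :
    HasD l (fun v => L v (φ v)) (L' (φ 0) + L 0 f') := by
  classical
  choose P hP hP' using hφ
  intro a
  obtain ⟨S, hS⟩ := coeff_cont (k := k) η hη 0 a
  have hD' := fun b : Fin d →₀ ℕ => hD (monomial b (1 : k)) a
  choose Q hQ hQ' using hD'
  have hL0 : ∀ v f, f.weightedOrder η ≤ (L v f).weightedOrder η + (0 : ℕ) := by
    intro v f
    simpa using hL v f
  have hL0' : ∀ f, f.weightedOrder η ≤ (L' f).weightedOrder η + (0 : ℕ) := by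
    intro f
    simpa using hL' f
  refine ⟨∑ b ∈ S, P b * Q b, fun v => ?_, ?_⟩
  · rw [hS (L v) (hL0 v), map_sum]
    refine Finset.sum_congr rfl fun b _ => ?_
    rw [map_mul, hP b v, hQ b v]
  · rw [map_add, hS L' hL0', hS (L 0) (hL0 0), map_sum, map_sum, ← Finset.sum_add_distrib]
    refine Finset.sum_congr rfl fun b _ => ?_
    rw [Derivation.leibniz, map_add, smul_eq_mul, smul_eq_mul, map_mul, map_mul, hP' b, hQ' b,
      hP b 0, hQ b 0, cast_zero_fun]
    ring

end Pool.Agent.SYZ71
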