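import Pool.Agent.SYZ71.CInt

/-!
# SYZ71/CAct : fractions and the action on the function field over `K₁`

* `exists_frac`: every element of `Fld L` is `f / h` with `f, h ∈ L D 0`;
* `exists_act`: the automorphisms `g v` extend to `K₁`-automorphisms `γ v` of `F = Fld L`
  (as `IntermediateField.extendScalars h₁`), `γ (u + v) = γ u * γ v`.
-/

set_option autoImplicit false

open MvPowerSeries Module

namespace Pool.Agent.SYZ71

variable {k : Type*} [Field k] {d r : ℕ}

/-- every element of the function field is a fraction of elements of some `L D 0` -/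
theorem exists_frac {L : ℕ → ℕ → Submodule k (PS k d)} (hL : IsFamily L)
    {x : FractionRing (PS k d)} (hx : x ∈ Fld L) :
    ∃ D : ℕ, ∃ f ∈ L D 0, ∃ h ∈ L D 0, h ≠ 0 ∧
      x = algebraMap (PS k d) (FractionRing (PS k d)) f /
        algebraMap (PS k d) (FractionRing (PS k d)) h := by
  have hinj : Function.Injective (algebraMap (PS k d) (FractionRing (PS k d))) :=
    IsFractionRing.injective _ _
  have hmul0 : ∀ {D D' : ℕ} {a b : PS k d}, a ∈ L D 0 → b ∈ L D' 0 → a * b ∈ L (D + D') 0 := by
    intro D D' a b ha hb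
    simpa using hL.mul_mem D 0 D' 0 a b ha hb
  have key : ∃ D : ℕ, ∃ f ∈ L D 0, ∃ h ∈ L D 0, h ≠ 0 ∧
      x * algebraMap (PS k d) (FractionRing (PS k d)) h =
        algebraMap (PS k d) (FractionRing (PS k d)) f := by
    refine IntermediateField.adjoin_induction k
      (p := fun x _ => ∃ D : ℕ, ∃ f ∈ L D 0, ∃ h ∈ L D 0, h ≠ 0 ∧
        x * algebraMap (PS k d) (FractionRing (PS k d)) h =
          algebraMap (PS k d) (FractionRing (PS k d)) f) ?_ ?_ ?_ ?_ ?_ hx
    · rintro _ ⟨f, hf, rfl⟩
      exact ⟨1, f, hf, 1, hL.one_mem, one_ne_zero, by simp⟩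
    · intro c
      refine ⟨1, c • 1, (L 1 0).smul_mem c hL.one_mem, 1, hL.one_mem, one_ne_zero, ?_⟩
      rw [map_one, mul_one, Algebra.smul_def, mul_one, ← IsScalarTower.algebraMap_apply]
    · rintro x y - - ⟨D, f, hf, h, hh, h0, e⟩ ⟨D', f', hf', h', hh', h0', e'⟩
      refine ⟨D + D', f * h' + h * f', (L _ _).add_mem (hmul0 hf hh') (hmul0 hh hf'),
        h * h', hmul0 hh hh', mul_ne_zero h0 h0', ?_⟩
      simp only [map_mul, map_add]
      rw [← e, ← e']
      ring
    · rintro x - ⟨D, f, hf, h, hh, h0, e⟩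
      by_cases hx0 : x = 0
      · refine ⟨1, 0, (L 1 0).zero_mem, 1, hL.one_mem, one_ne_zero, ?_⟩
        simp [hx0]
      · refine ⟨D, h, hh, f, hf, ?_, ?_⟩
        · rintro rfl
          rw [map_zero] at e
          rcases mul_eq_zero.1 e with h1 | h1
          · exact hx0 h1
          · exact h0 (hinj (by rw [h1, map_zero]))
        · rw [← e, ← mul_assoc, inv_mul_cancel₀ hx0, one_mul]
    · rintro x y - - ⟨D, f, hf, h, hh, h0, e⟩ ⟨D', f', hf', h', hh', h0', e'⟩
      refine ⟨D + D', f * f', hmul0 hf hf', h * h', hmul0 hh hh', mul_ne_zero h0 h0', ?_⟩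
      simp only [map_mul]
      rw [← e, ← e']
      ring
  obtain ⟨D, f, hf, h, hh, h0, e⟩ := key
  refine ⟨D, f, hf, h, hh, h0, ?_⟩
  have h0' : algebraMap (PS k d) (FractionRing (PS k d)) h ≠ 0 :=
    fun h1 => h0 (hinj (by rw [h1, map_zero]))
  rw [← e, mul_div_cancel_right₀ _ h0']

theorem ext_div (g : PS k d ≃ₐ[k] PS k d) (f h : PS k d) :
    CI.ext g (algebraMap (PS k d) (FractionRing (PS k d)) f /
      algebraMap (PS k d) (FractionRing (PS k d)) h) =
      algebraMap (PS k d) (FractionRing (PS k d)) (g f) /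
        algebraMap (PS k d) (FractionRing (PS k d)) (g h) := by
  rw [map_div₀, CI.ext_algebraMap, CI.ext_algebraMap]

/-- `ext g` fixes `f/h` iff `g f * h = f * g h` -/
theorem ext_div_eq_iff (g : PS k d ≃ₐ[k] PS k d) (f h : PS k d) (hh : h ≠ 0) :
    CI.ext g (algebraMap (PS k d) (FractionRing (PS k d)) f /
      algebraMap (PS k d) (FractionRing (PS k d)) h) =
      algebraMap (PS k d) (FractionRing (PS k d)) f /
        algebraMap (PS k d) (FractionRing (PS k d)) h ↔ g f * h = f * g h := by
  have hinj : Function.Injective (algebraMap (PS k d) (FractionRing (PS k d))) :=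
    IsFractionRing.injective _ _
  have h0' : algebraMap (PS k d) (FractionRing (PS k d)) h ≠ 0 :=
    fun h1 => hh (hinj (by rw [h1, map_zero]))
  have hgh : g h ≠ 0 := fun h1 => hh ((map_eq_zero_iff _ g.injective).1 h1)
  have h0'' : algebraMap (PS k d) (FractionRing (PS k d)) (g h) ≠ 0 :=
    fun h1 => hgh (hinj (by rw [h1, map_zero]))
  rw [ext_div, div_eq_div_iff h0'' h0', ← map_mul, ← map_mul]
  exact ⟨fun h => hinj h, fun h => by rw [h]⟩

/-- the action on the function field, over a field `K₁` of invariants -/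
theorem exists_act (g : (Fin r → ℤ) → (PS k d ≃ₐ[k] PS k d)) (hg : ∀ u v, g (u + v) = g u * g v)
    (L : ℕ → ℕ → Submodule k (PS k d)) (hL : IsFamily L)
    (hgL : ∃ C : ℕ, ∀ (v : Fin r → ℤ) (D E : ℕ), 1 ≤ D → ∃ b : PS k d, b ≠ 0 ∧
      ∀ f ∈ L D E, b * g v f ∈ L (2 * D) (E + C * D * (1 + ∑ i, (v i).natAbs ^ 2)))
    (K₁ : IntermediateField k (FractionRing (PS k d))) (h₁ : K₁ ≤ Fld L)
    (hK : ∀ v, ∀ f h : PS k d, h ≠ 0 → algebraMap (PS k d) (FractionRing (PS k d)) f /
      algebraMap (PS k d) (FractionRing (PS k d)) h ∈ K₁ → g v f * h = f * g v h) :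
    ∃ γ : (Fin r → ℤ) → (IntermediateField.extendScalars h₁ ≃ₐ[K₁]
        IntermediateField.extendScalars h₁),
      (∀ u v, γ (u + v) = γ u * γ v) ∧
      ∀ v (x : IntermediateField.extendScalars h₁),
        ((γ v x : IntermediateField.extendScalars h₁) : FractionRing (PS k d)) =
          CI.ext (g v) (x : FractionRing (PS k d)) := by
  have hg0 : g 0 = 1 := by
    have := hg 0 0
    rw [add_zero] at this
    exact (mul_eq_left.1 this.symm)
  -- `ext (g v)` as a `K₁`-algebra homomorphism
  have hfix : ∀ v, ∀ x : K₁, CI.ext (g v) (x : FractionRing (PS k d)) = x := by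
    intro v x
    obtain ⟨D, f, hf, h, hh, h0, e⟩ := exists_frac hL (h₁ x.2)
    have hx : algebraMap (PS k d) (FractionRing (PS k d)) f /
      algebraMap (PS k d) (FractionRing (PS k d)) h ∈ K₁ := by rw [← e]; exact x.2
    have := hK v f h h0 hx
    rw [e]
    exact (ext_div_eq_iff (g v) f h h0).2 this
  let GQ : (Fin r → ℤ) → (FractionRing (PS k d) →ₐ[K₁] FractionRing (PS k d)) := fun v =>
    { (CI.ext (g v) : FractionRing (PS k d) →+* FractionRing (PS k d)) with
      commutes' := fun x => hfix v x }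
  have hGQ : ∀ v x, GQ v x = CI.ext (g v) x := fun v x => rfl
  have hadd : ∀ u v x, CI.ext (g (u + v)) x = CI.ext (g u) (CI.ext (g v) x) := by
    intro u v x
    rw [hg, CI.ext_mul, AlgEquiv.mul_apply]
  have h0 : ∀ x, CI.ext (g 0) x = x := by
    intro x
    rw [hg0, CI.ext_one, AlgEquiv.one_apply]
  have hmap : ∀ v, ∀ x : IntermediateField.extendScalars h₁,
      GQ v (x : FractionRing (PS k d)) ∈ IntermediateField.extendScalars h₁ := by
    intro v x
    rw [hGQ]
    exact CI.mem_Fld_ext g L hL hgL v _ x.2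
  let γ : (Fin r → ℤ) → (IntermediateField.extendScalars h₁ ≃ₐ[K₁]
      IntermediateField.extendScalars h₁) := fun v =>
    AlgEquiv.ofAlgHom
      (((GQ v).comp (IntermediateField.extendScalars h₁).val).codRestrict
        (IntermediateField.extendScalars h₁).toSubalgebra (hmap v))
      (((GQ (-v)).comp (IntermediateField.extendScalars h₁).val).codRestrict
        (IntermediateField.extendScalars h₁).toSubalgebra (hmap (-v)))
      (by
        ext x
        change CI.ext (g v) (CI.ext (g (-v)) (x : FractionRing (PS k d))) = x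
        rw [← hadd, add_neg_cancel, h0])
      (by
        ext x
        change CI.ext (g (-v)) (CI.ext (g v) (x : FractionRing (PS k d))) = x
        rw [← hadd, neg_add_cancel, h0])
  have hγ : ∀ v (x : IntermediateField.extendScalars h₁),
      ((γ v x : IntermediateField.extendScalars h₁) : FractionRing (PS k d)) =
        CI.ext (g v) (x : FractionRing (PS k d)) := fun v x => rfl
  refine ⟨γ, ?_, hγ⟩
  intro u v
  ext x
  rw [AlgEquiv.mul_apply, hγ, hγ, hγ, hadd]

end Pool.Agent.SYZ71
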