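import Pool.Agent.SYZ71.CDefs
import Pool.Agent.SYZ71.LA

/-!
# SYZ71/CInt : the interpolation half of `Core.core`

`exists_relation`: if `f_1, …, f_φ ∈ L D E`, `D ≤ E`, `D V² ≤ E` and `φ > C E^m`, then there are
`c_i ∈ F = Fld L`, not all zero, with `∑ c_i g_(M v)(f_i) = 0` for all `v ∈ [0,V]^r`.
Proof: all `φ × φ` minors of `(g_(M v)(f_i))` vanish, by `LocalBound` and `order_le`.
-/

set_option autoImplicit false

open MvPowerSeries Module

namespace Pool.Agent.SYZ71

namespace CI

variable {k : Type*} [Field k] {d m r : ℕ}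

/-- If all maximal minors (columns with repetition allowed) of a matrix over a field vanish, the
rows are linearly dependent. -/
theorem exists_row_relation {F : Type*} [Field F] {φ : ℕ} {ι : Type*} (a : Fin φ → ι → F)
    (h : ∀ v : Fin φ → ι, (Matrix.of fun i j => a i (v j)).det = 0) :
    ∃ c : Fin φ → F, c ≠ 0 ∧ ∀ x, ∑ i, c i * a i x = 0 := by
  classical
  let w : ι → Fin φ → F := fun x i => a i x
  by_cases htop : Submodule.span F (Set.range w) = ⊤
  · exfalso
    obtain ⟨b, hb, -, hli⟩ := Submodule.exists_fun_fin_finrank_span_eq F (Set.range w)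
    have hfr : finrank F (Submodule.span F (Set.range w)) = φ := by
      rw [htop, finrank_top, Module.finrank_fintype_fun_eq_card, Fintype.card_fin]
    choose v hv using hb
    let v' : Fin φ → ι := fun j => v (Fin.cast hfr.symm j)
    have hli2 : LinearIndependent F (fun j : Fin φ => w (v' j)) := by
      have h1 := hli.comp (Fin.cast hfr.symm) (Fin.cast_injective _)
      have h2 : (fun j : Fin φ => w (v' j)) = b ∘ Fin.cast hfr.symm := by
        funext j
        exact hv _
      rw [h2]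
      exact h1
    have h3 : IsUnit (Matrix.of fun i j => a i (v' j)) := by
      apply Matrix.linearIndependent_cols_iff_isUnit.1
      exact hli2
    rw [Matrix.isUnit_iff_isUnit_det, h v'] at h3
    exact not_isUnit_zero h3
  · obtain ⟨f, hf0, hf⟩ := Submodule.exists_le_ker_of_lt_top _ (lt_top_iff_ne_top.2 htop)
    refine ⟨fun i => f (Pi.single i 1), ?_, ?_⟩
    · intro h0
      apply hf0
      apply LinearMap.pi_ext'
      intro i
      ext
      exact congrFun h0 i
    · intro x
      have h1 : f (w x) = 0 := hf (Submodule.subset_span ⟨x, rfl⟩)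
      have h2 : w x = ∑ i, a i x • (Pi.single i 1 : Fin φ → F) := by
        funext i
        simp [w, Finset.sum_apply, Pi.single_apply]
      rw [h2, map_sum] at h1
      rw [← h1]
      refine Finset.sum_congr rfl fun i _ => ?_
      rw [map_smul, smul_eq_mul, mul_comm]

/-- the extension of an automorphism to the field of fractions -/
noncomputable def ext (g : PS k d ≃ₐ[k] PS k d) :
    FractionRing (PS k d) ≃ₐ[k] FractionRing (PS k d) :=
  IsFractionRing.fieldEquivOfAlgEquiv k (FractionRing (PS k d)) (FractionRing (PS k d)) g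

theorem ext_algebraMap (g : PS k d ≃ₐ[k] PS k d) (f : PS k d) :
    ext g (algebraMap (PS k d) (FractionRing (PS k d)) f) =
      algebraMap (PS k d) (FractionRing (PS k d)) (g f) :=
  IsFractionRing.fieldEquivOfAlgEquiv_algebraMap k _ _ g f

theorem ext_mul (g g' : PS k d ≃ₐ[k] PS k d) : ext (g * g') = ext g * ext g' :=
  IsFractionRing.fieldEquivOfAlgEquiv_trans k (FractionRing (PS k d)) (FractionRing (PS k d))
    (FractionRing (PS k d)) g' g

theorem ext_one : ext (1 : PS k d ≃ₐ[k] PS k d) = 1 :=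
  IsFractionRing.fieldEquivOfAlgEquiv_refl k (PS k d) k (FractionRing (PS k d))

theorem mem_Fld_ext (g : (Fin r → ℤ) → (PS k d ≃ₐ[k] PS k d))
    (L : ℕ → ℕ → Submodule k (PS k d)) (hL : IsFamily L)
    (hgL : ∃ C : ℕ, ∀ (v : Fin r → ℤ) (D E : ℕ), 1 ≤ D → ∃ b : PS k d, b ≠ 0 ∧
      ∀ f ∈ L D E, b * g v f ∈ L (2 * D) (E + C * D * (1 + ∑ i, (v i).natAbs ^ 2)))
    (v : Fin r → ℤ) (x : FractionRing (PS k d)) (hx : x ∈ Fld L) : ext (g v) x ∈ Fld L := by
  obtain ⟨C, hC⟩ := hgL
  obtain ⟨b, hb, hbL⟩ := hC v 1 0 le_rfl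
  have hinj := IsFractionRing.injective (PS k d) (FractionRing (PS k d))
  have h1 : algebraMap (PS k d) (FractionRing (PS k d)) b ∈ Fld L := by
    have := hL.mem_field _ _ _ (hbL 1 hL.one_mem)
    rwa [map_one, mul_one] at this
  have hb' : algebraMap (PS k d) (FractionRing (PS k d)) b ≠ 0 := by
    intro h
    exact hb (hinj (by rw [h, map_zero]))
  have h2 : (Fld L).map (ext (g v)).toAlgHom ≤ Fld L := by
    unfold Fld
    rw [IntermediateField.adjoin_map, IntermediateField.adjoin_le_iff]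
    rintro _ ⟨_, ⟨f, hf, rfl⟩, rfl⟩
    have h3 := hL.mem_field _ _ _ (hbL f hf)
    rw [map_mul] at h3
    have h4 : (ext (g v)).toAlgHom (algebraMap (PS k d) (FractionRing (PS k d)) f) =
        algebraMap (PS k d) (FractionRing (PS k d)) b *
          algebraMap (PS k d) (FractionRing (PS k d)) (g v f) /
          algebraMap (PS k d) (FractionRing (PS k d)) b := by
      rw [mul_div_cancel_left₀ _ hb']
      exact ext_algebraMap (g v) f
    change _ ∈ Fld L
    rw [h4]
    exact div_mem h3 h1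
  exact h2 ⟨x, hx, rfl⟩

theorem prod_mem {L : ℕ → ℕ → Submodule k (PS k d)} (hL : IsFamily L) {ι : Type*} (s : Finset ι)
    (D E : ι → ℕ) (a : ι → PS k d) (ha : ∀ i ∈ s, a i ∈ L (D i) (E i)) :
    ∏ i ∈ s, a i ∈ L (1 + ∑ i ∈ s, D i) (∑ i ∈ s, E i) := by
  classical
  induction s using Finset.induction_on with
  | empty => simpa using hL.one_mem
  | insert i s hi ih =>
    rw [Finset.prod_insert hi, Finset.sum_insert hi, Finset.sum_insert hi]
    have h1 := hL.mul_mem _ _ _ _ _ _ (ha i (Finset.mem_insert_self _ _))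
      (ih fun j hj => ha j (Finset.mem_insert_of_mem hj))
    have h2 : D i + (1 + ∑ i ∈ s, D i) = 1 + (D i + ∑ i ∈ s, D i) := by ring
    rwa [h2] at h1

theorem det_mem {L : ℕ → ℕ → Submodule k (PS k d)} (hL : IsFamily L) {φ : ℕ}
    (D E : Fin φ → ℕ) (a : Matrix (Fin φ) (Fin φ) (PS k d))
    (ha : ∀ i j, a i j ∈ L (D j) (E j)) : a.det ∈ L (1 + ∑ j, D j) (∑ j, E j) := by
  classical
  rw [Matrix.det_apply]
  refine Submodule.sum_mem _ fun σ _ => ?_
  have h1 : ∏ i, a (σ i) i ∈ L (1 + ∑ j, D j) (∑ j, E j) :=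
    prod_mem hL Finset.univ D E _ fun i _ => ha (σ i) i
  rcases Int.units_eq_one_or (Equiv.Perm.sign σ) with h | h
  · rw [h, one_smul]; exact h1
  · rw [h, Units.neg_smul, one_smul]; exact neg_mem h1

end CI

open CI

theorem exists_relation {k : Type*} [Field k] {d m r : ℕ}
    (g : (Fin r → ℤ) → (PS k d ≃ₐ[k] PS k d)) (hloc : LocalBound m g)
    (L : ℕ → ℕ → Submodule k (PS k d)) (hL : IsFamily L)
    (hgL : ∃ C : ℕ, ∀ (v : Fin r → ℤ) (D E : ℕ), 1 ≤ D → ∃ b : PS k d, b ≠ 0 ∧
      ∀ f ∈ L D E, b * g v f ∈ L (2 * D) (E + C * D * (1 + ∑ i, (v i).natAbs ^ 2))) :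
    ∃ M C : ℕ, 1 ≤ M ∧ 1 ≤ C ∧ ∀ (D E V φ : ℕ) (f : Fin φ → PS k d), 1 ≤ D → D ≤ E →
      D * V ^ 2 ≤ E → (∀ i, f i ∈ L D E) → C * E ^ m < φ →
      ∃ c : Fin φ → FractionRing (PS k d), (∀ i, c i ∈ Fld L) ∧ c ≠ 0 ∧
        ∀ v : Fin r → ℕ, (∀ l, v l ≤ V) →
          ∑ i, c i * algebraMap (PS k d) (FractionRing (PS k d))
            (g (fun l => ((M * v l : ℕ) : ℤ)) (f i)) = 0 := by
  classical
  obtain ⟨M, C0, hM, hC0, hb⟩ := hloc
  obtain ⟨C1, hC1⟩ := id hgL
  obtain ⟨C2, hC2⟩ := hL.order_le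
  let C3 := 1 + C1 + C1 * (r * M ^ 2)
  let C4 := 2 * (C2 * (3 + C3)) + 1
  refine ⟨M, 2 * C0 * C4 ^ m, hM, Nat.one_le_iff_ne_zero.2 (by positivity), ?_⟩
  intro D E V φ f hD hDE hDV hf hφ
  have hE : 1 ≤ E := hD.trans hDE
  -- all minors vanish
  have hminor : ∀ v : Fin φ → Fin r → Fin (V + 1),
      (Matrix.of fun i j => g (fun l => ((M * (v j l : ℕ) : ℕ) : ℤ)) (f i)).det = 0 := by
    intro v
    by_contra hne
    let u : Fin φ → Fin r → ℤ := fun j l => ((M * (v j l : ℕ) : ℕ) : ℤ)
    choose b hb0 hbL using fun j => hC1 (u j) D E hD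
    let Ej : Fin φ → ℕ := fun j => E + C1 * D * (1 + ∑ l, (u j l).natAbs ^ 2)
    have hEj : ∀ j, Ej j ≤ C3 * E := by
      intro j
      have h1 : ∑ l, (u j l).natAbs ^ 2 ≤ r * (M ^ 2 * V ^ 2) := by
        calc ∑ l, (u j l).natAbs ^ 2 ≤ ∑ _l : Fin r, M ^ 2 * V ^ 2 := by
              refine Finset.sum_le_sum fun l _ => ?_
              have h2 : (u j l).natAbs = M * (v j l : ℕ) := Int.natAbs_natCast _
              rw [h2, ← mul_pow]
              exact Nat.pow_le_pow_left (Nat.mul_le_mul_left _ (Nat.lt_succ_iff.1 (v j l).2)) _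
          _ = r * (M ^ 2 * V ^ 2) := by simp
      calc Ej j ≤ E + C1 * D * (1 + r * (M ^ 2 * V ^ 2)) := by
            apply Nat.add_le_add_left
            exact Nat.mul_le_mul_left _ (Nat.add_le_add_left h1 _)
        _ = E + C1 * D + C1 * (r * M ^ 2) * (D * V ^ 2) := by ring
        _ ≤ E + C1 * E + C1 * (r * M ^ 2) * E := by gcongr
        _ = C3 * E := by simp only [C3]; ring
    have hmem : (Matrix.of fun i j => b j * g (u j) (f i)).det ∈
        L (1 + ∑ _j : Fin φ, 2 * D) (∑ j, Ej j) :=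
      det_mem hL (fun _ => 2 * D) Ej _ fun i j => hbL j (f i) (hf i)
    have hprod : (Matrix.of fun i j => b j * g (u j) (f i)).det =
        (∏ j, b j) * (Matrix.of fun i j => g (u j) (f i)).det := by
      rw [Matrix.det_mul_row]
      rfl
    have hne2 : (Matrix.of fun i j => b j * g (u j) (f i)).det ≠ 0 := by
      rw [hprod]
      exact mul_ne_zero (Finset.prod_ne_zero_iff.2 fun j _ => hb0 j) hne
    have hord := hC2 _ _ _ hmem hne2
    have hφ1 : 1 ≤ φ := by omega
    have hord2 : (Matrix.of fun i j => g (u j) (f i)).det.order ≤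
        ((C2 * ((3 + C3) * E * φ) : ℕ) : ℕ∞) := by
      have h1 : (Matrix.of fun i j => g (u j) (f i)).det.order ≤
          (Matrix.of fun i j => b j * g (u j) (f i)).det.order := by
        rw [hprod]
        exact le_trans le_add_self le_order_mul
      refine h1.trans (hord.trans ?_)
      norm_cast
      apply Nat.mul_le_mul_left
      have h2 : ∑ j, Ej j ≤ φ * (C3 * E) := by
        calc ∑ j, Ej j ≤ ∑ _j : Fin φ, C3 * E := Finset.sum_le_sum fun j _ => hEj j
          _ = φ * (C3 * E) := by simp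
      have h3 : 1 ≤ E * φ := Nat.mul_pos hE hφ1
      have h4 : D * φ ≤ E * φ := Nat.mul_le_mul_right _ hDE
      simp only [Finset.sum_const, Finset.card_univ, Fintype.card_fin, smul_eq_mul]
      nlinarith
    have hq := hb φ (2 * (C2 * (3 + C3)) * E + 1) f (fun j l => (v j l : ℕ)) (by omega) (by
      have h1 : 2 * (C2 * (3 + C3)) * E + 1 ≤ C4 * E := by
        simp only [C4]
        nlinarith
      calc 2 * C0 * (2 * (C2 * (3 + C3)) * E + 1) ^ m ≤ 2 * C0 * (C4 * E) ^ m :=
            Nat.mul_le_mul_left _ (Nat.pow_le_pow_left h1 _)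
        _ = 2 * C0 * C4 ^ m * E ^ m := by rw [mul_pow]; ring
        _ ≤ φ := hφ.le) hne
    have h5 : (((2 * (C2 * (3 + C3)) * E + 1) * φ : ℕ) : ℕ∞) ≤
        ((2 * (C2 * ((3 + C3) * E * φ)) : ℕ) : ℕ∞) := by
      refine hq.trans ?_
      push_cast at hord2 ⊢
      exact mul_le_mul_right hord2 2
    have h6 : (2 * (C2 * (3 + C3)) * E + 1) * φ ≤ 2 * (C2 * ((3 + C3) * E * φ)) := by
      exact_mod_cast h5
    have h7 : 2 * (C2 * ((3 + C3) * E * φ)) = 2 * (C2 * (3 + C3)) * E * φ := by ring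
    rw [h7, add_mul] at h6
    omega
  -- the entries are in the function field
  have hent : ∀ (i : Fin φ) (v : Fin r → Fin (V + 1)),
      algebraMap (PS k d) (FractionRing (PS k d))
        (g (fun l => ((M * (v l : ℕ) : ℕ) : ℤ)) (f i)) ∈ Fld L := by
    intro i v
    rw [← ext_algebraMap]
    exact mem_Fld_ext g L hL hgL _ _ (hL.mem_field _ _ _ (hf i))
  let a : Fin φ → (Fin r → Fin (V + 1)) → Fld L := fun i v => ⟨_, hent i v⟩
  obtain ⟨c, hc0, hc⟩ := exists_row_relation a (by
    intro v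
    have hinj : Function.Injective (algebraMap (Fld L) (FractionRing (PS k d))) :=
      (algebraMap (Fld L) (FractionRing (PS k d))).injective
    apply hinj
    rw [map_zero, RingHom.map_det]
    have h1 := congrArg (algebraMap (PS k d) (FractionRing (PS k d))) (hminor v)
    rw [map_zero, RingHom.map_det] at h1
    exact h1)
  refine ⟨fun i => (c i : FractionRing (PS k d)), fun i => (c i).2, ?_, ?_⟩
  · intro h
    apply hc0
    funext i
    exact Subtype.ext (congrFun h i)
  · intro v hv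
    have h1 := congrArg (algebraMap (Fld L) (FractionRing (PS k d)))
      (hc fun l => ⟨v l, Nat.lt_succ_iff.2 (hv l)⟩)
    rw [map_sum, map_zero] at h1
    exact h1

end Pool.Agent.SYZ71
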