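import Pool.Agent.SYZ71.CAct

/-!
# SYZ71/CSpan : the `K`-spans of `L D E`, and the subspaces `y⁻¹ K₁ L D E` of `F`
-/

set_option autoImplicit false

open MvPowerSeries Module

namespace Pool.Agent.SYZ71

variable {k : Type*} [Field k] {d : ℕ}

theorem mem_KSpan {L : ℕ → ℕ → Submodule k (PS k d)}
    {K : IntermediateField k (FractionRing (PS k d))} {D E : ℕ} {f : PS k d} (hf : f ∈ L D E) :
    algebraMap (PS k d) (FractionRing (PS k d)) f ∈ KSpan L K D E :=
  Submodule.subset_span ⟨f, hf, rfl⟩

theorem KSpan_mul {L : ℕ → ℕ → Submodule k (PS k d)} (hL : IsFamily L)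
    {K : IntermediateField k (FractionRing (PS k d))} {D E D' E' : ℕ}
    {a b : FractionRing (PS k d)} (ha : a ∈ KSpan L K D E) (hb : b ∈ KSpan L K D' E') :
    a * b ∈ KSpan L K (D + D') (E + E') := by
  have h1 := Submodule.mul_mem_mul ha hb
  rw [KSpan, KSpan, Submodule.span_mul_span] at h1
  refine Submodule.span_mono ?_ h1
  rintro _ ⟨_, ⟨f, hf, rfl⟩, _, ⟨h, hh, rfl⟩, rfl⟩
  exact ⟨f * h, hL.mul_mem _ _ _ _ _ _ hf hh, map_mul _ _ _⟩

theorem KSpan_finite {L : ℕ → ℕ → Submodule k (PS k d)} (hL : IsFamily L)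
    (K : IntermediateField k (FractionRing (PS k d))) (D E : ℕ) :
    Module.Finite K (KSpan L K D E) := by
  have hfin := hL.fin D E
  obtain ⟨s, hs⟩ := (Module.Finite.iff_fg.1 hfin : (L D E).FG)
  have h1 : KSpan L K D E =
      Submodule.span K (algebraMap (PS k d) (FractionRing (PS k d)) '' (s : Set (PS k d))) := by
    apply le_antisymm
    · rw [KSpan, Submodule.span_le]
      rintro _ ⟨f, hf, rfl⟩
      rw [← hs] at hf
      have h2 : algebraMap (PS k d) (FractionRing (PS k d)) f ∈
          (Submodule.span k (s : Set (PS k d))).map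
            (IsScalarTower.toAlgHom k (PS k d) (FractionRing (PS k d))).toLinearMap :=
        ⟨f, hf, rfl⟩
      rw [Submodule.map_span] at h2
      have h3 : Submodule.span k (algebraMap (PS k d) (FractionRing (PS k d)) ''
          (s : Set (PS k d))) ≤ (Submodule.span K (algebraMap (PS k d) (FractionRing (PS k d)) ''
          (s : Set (PS k d)))).restrictScalars k := Submodule.span_le_restrictScalars _ _ _
      exact h3 h2
    · refine Submodule.span_mono (Set.image_mono ?_)
      rw [← hs]; exact Submodule.subset_span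
  rw [h1]
  exact Module.Finite.span_of_finite K ((Finset.finite_toSet s).image _)

section Mk

variable (L : ℕ → ℕ → Submodule k (PS k d)) {K₁ : IntermediateField k (FractionRing (PS k d))}
  (h₁ : K₁ ≤ Fld L)

/-- the subspace `y⁻¹ K₁ L D E` of `F` -/
noncomputable def Mk (y : FractionRing (PS k d)) (D E : ℕ) :
    Submodule K₁ (IntermediateField.extendScalars h₁) :=
  (KSpan L K₁ D E).comap
    (LinearMap.mulLeft K₁ y ∘ₗ (IntermediateField.extendScalars h₁).val.toLinearMap)

variable {L h₁}

theorem mem_Mk {y : FractionRing (PS k d)} {D E : ℕ} {x : IntermediateField.extendScalars h₁} :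
    x ∈ Mk L h₁ y D E ↔ y * (x : FractionRing (PS k d)) ∈ KSpan L K₁ D E := Iff.rfl

theorem Mk_mul (hL : IsFamily L) (y y' : FractionRing (PS k d)) (D E D' E' : ℕ) :
    Mk L h₁ y D E * Mk L h₁ y' D' E' ≤ Mk L h₁ (y * y') (D + D') (E + E') := by
  rw [Submodule.mul_le]
  intro a ha b hb
  have h := KSpan_mul hL (mem_Mk.1 ha) (mem_Mk.1 hb)
  refine mem_Mk.2 ?_
  have e : y * y' * ((a * b : IntermediateField.extendScalars h₁) : FractionRing (PS k d)) =
      y * (a : FractionRing (PS k d)) * (y' * (b : FractionRing (PS k d))) := by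
    push_cast
    ring
  rw [e]
  exact h

theorem Mk_pow (hL : IsFamily L) (y : FractionRing (PS k d)) (D E K : ℕ) :
    (Mk L h₁ y D E) ^ (K + 1) ≤ Mk L h₁ (y ^ (K + 1)) ((K + 1) * D) ((K + 1) * E) := by
  induction K with
  | zero => simp
  | succ K ih =>
    rw [pow_succ (Mk L h₁ y D E) (K + 1), pow_succ y (K + 1)]
    refine (mul_le_mul' ih le_rfl).trans ?_
    have := Mk_mul (h₁ := h₁) hL (y ^ (K + 1)) y ((K + 1) * D) ((K + 1) * E) D E
    have e1 : (K + 1) * D + D = (K + 1 + 1) * D := by ring
    have e2 : (K + 1) * E + E = (K + 1 + 1) * E := by ring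
    rwa [e1, e2] at this

theorem Mk_finite (hL : IsFamily L) (y : FractionRing (PS k d)) (hy : y ≠ 0) (D E : ℕ) :
    Module.Finite K₁ (Mk L h₁ y D E) ∧
      finrank K₁ (Mk L h₁ y D E) ≤ finrank K₁ (KSpan L K₁ D E) := by
  have := KSpan_finite hL K₁ D E
  let T : Mk L h₁ y D E →ₗ[K₁] KSpan L K₁ D E :=
    LinearMap.codRestrict (KSpan L K₁ D E)
      ((LinearMap.mulLeft K₁ y ∘ₗ (IntermediateField.extendScalars h₁).val.toLinearMap) ∘ₗ
        (Mk L h₁ y D E).subtype)
      (fun x => x.2)
  have hT : Function.Injective T := by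
    intro a b hab
    have h1 := congrArg (Subtype.val : KSpan L K₁ D E → FractionRing (PS k d)) hab
    have h2 : y * ((a : IntermediateField.extendScalars h₁) : FractionRing (PS k d)) =
        y * ((b : IntermediateField.extendScalars h₁) : FractionRing (PS k d)) := h1
    exact Subtype.ext (Subtype.ext (mul_left_cancel₀ hy h2))
  have hfin : Module.Finite K₁ (Mk L h₁ y D E) := Module.Finite.of_injective T hT
  exact ⟨hfin, LinearMap.finrank_le_finrank_of_injective hT⟩

end Mk

/-- elements of `L D E` which form a basis of the `K`-span -/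
theorem exists_basis_KSpan {L : ℕ → ℕ → Submodule k (PS k d)} (hL : IsFamily L)
    (K : IntermediateField k (FractionRing (PS k d))) (D E : ℕ) :
    ∃ f : Fin (finrank K (KSpan L K D E)) → PS k d, (∀ i, f i ∈ L D E) ∧
      LinearIndependent K (fun i => algebraMap (PS k d) (FractionRing (PS k d)) (f i)) := by
  have : Module.Finite K (Submodule.span K (algebraMap (PS k d) (FractionRing (PS k d)) ''
    (L D E : Set (PS k d)))) := KSpan_finite hL K D E
  obtain ⟨b, hb, -, hli⟩ := Submodule.exists_fun_fin_finrank_span_eq K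
    (algebraMap (PS k d) (FractionRing (PS k d)) '' (L D E : Set (PS k d)))
  choose f hf using hb
  refine ⟨f, fun i => (hf i).1, ?_⟩
  have : (fun i => algebraMap (PS k d) (FractionRing (PS k d)) (f i)) = b := by
    funext i
    exact (hf i).2
  have h5 : LinearIndependent K (fun i => algebraMap (PS k d) (FractionRing (PS k d)) (f i)) := by
    rw [this]
    exact hli
  exact h5

/-- the transcendence degree of `F` over `K₁` -/
theorem trdeg_extendScalars {L : ℕ → ℕ → Submodule k (PS k d)}
    {K₁ : IntermediateField k (FractionRing (PS k d))} (h₁ : K₁ ≤ Fld L) (e₁ : ℕ) (he : e₁ ≤ d)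
    (htr₁ : Algebra.trdeg k K₁ = (e₁ : ℕ)) (htr : Algebra.trdeg k (Fld L) = (d : ℕ)) :
    Algebra.trdeg K₁ (IntermediateField.extendScalars h₁) = ((d - e₁ : ℕ) : Cardinal) := by
  have h := trdeg_add_eq k K₁ (A := IntermediateField.extendScalars h₁)
  have h2 : Algebra.trdeg k (IntermediateField.extendScalars h₁) = (d : ℕ) := htr
  rw [h2, htr₁] at h
  have h3 : (d : Cardinal) = (e₁ : Cardinal) + ((d - e₁ : ℕ) : Cardinal) := by
    rw [← Nat.cast_add]; congr 1; omega
  rw [h3] at h
  exact Cardinal.eq_of_add_eq_add_left h Cardinal.natCast_lt_aleph0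

end Pool.Agent.SYZ71
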