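import Mathlib

/-!
# SYZ71 : basic definitions

Project for `MP_b96d42_ag` (SYZ conjecture).  `PS k d` is the ring of formal power series in `d`
variables over `k` (the completed local ring at a smooth point of a `d`-dimensional variety).
-/

set_option autoImplicit false

open MvPowerSeries

namespace Pool.Agent.SYZ71

/-- Formal power series in `d` variables: the completed local ring at a smooth point. -/
abbrev PS (k : Type*) [Field k] (d : ℕ) : Type _ := MvPowerSeries (Fin d) k

variable {k : Type*} [Field k] {d r : ℕ}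

/-- The transport of a vector field (derivation) by an automorphism: `f ↦ g (X (g⁻¹ f))`. -/
noncomputable def conj (g : PS k d ≃ₐ[k] PS k d) (X : Derivation k (PS k d) (PS k d)) :
    Derivation k (PS k d) (PS k d) :=
  Derivation.mk' (g.toLinearMap ∘ₗ (X : PS k d →ₗ[k] PS k d) ∘ₗ g.symm.toLinearMap) (by
    intro a b
    simp [Derivation.leibniz, smul_eq_mul])

@[simp] theorem conj_apply (g : PS k d ≃ₐ[k] PS k d) (X : Derivation k (PS k d) (PS k d))
    (f : PS k d) : conj g X f = g (X (g.symm f)) := rfl

/-- A closed, generically nondegenerate `2`-form on the formal germ, as an alternating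
`PS`-bilinear form on vector fields; `closed` is Cartan's formula for `dω = 0`. -/
structure IsSymplectic (ω : Derivation k (PS k d) (PS k d) →ₗ[PS k d]
    Derivation k (PS k d) (PS k d) →ₗ[PS k d] PS k d) : Prop where
  alt : ∀ X, ω X X = 0
  closed : ∀ X Y Z, X (ω Y Z) + Y (ω Z X) + Z (ω X Y) =
    ω ⁅X, Y⁆ Z + ω ⁅Y, Z⁆ X + ω ⁅Z, X⁆ Y
  nondeg : ∀ X, (∀ Y, ω X Y = 0) → X = 0

/-- The `2`-form is invariant under the automorphism `g`. -/
def Preserves (ω : Derivation k (PS k d) (PS k d) →ₗ[PS k d]
    Derivation k (PS k d) (PS k d) →ₗ[PS k d] PS k d) (g : PS k d ≃ₐ[k] PS k d) : Prop :=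
  ∀ X Y, ω (conj g X) (conj g Y) = g (ω X Y)

end Pool.Agent.SYZ71
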