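import Pool.Agent.SYZ71.GDefs

/-!
# SYZ71/GA : elementary facts on `Variety`
-/

set_option autoImplicit false

open MvPowerSeries Module

namespace Pool.Agent.SYZ71

namespace Variety

variable {k : Type} [Field k] {n : ℕ} {X : Variety k (2 * n)}

section basic

theorem ord_one (hX : X.IsSymplecticVariety n) (p : X.Prime) : X.ord p 1 = 0 := by
  have h := hX.ord_mul p 1 1 one_ne_zero one_ne_zero
  rw [one_mul] at h
  omega

theorem ord_inv (hX : X.IsSymplecticVariety n) (p : X.Prime) {f : X.K} (hf : f ≠ 0) :
    X.ord p f⁻¹ = - X.ord p f := by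
  have h := hX.ord_mul p f f⁻¹ hf (inv_ne_zero hf)
  rw [mul_inv_cancel₀ hf, ord_one hX] at h
  omega

theorem ord_div (hX : X.IsSymplecticVariety n) (p : X.Prime) {f h : X.K} (hf : f ≠ 0)
    (hh : h ≠ 0) : X.ord p (f / h) = X.ord p f - X.ord p h := by
  rw [div_eq_mul_inv, hX.ord_mul p f h⁻¹ hf (inv_ne_zero hh), ord_inv hX p hh]
  ring

theorem mem_H0_iff (hX : X.IsSymplecticVariety n) {D : X.Div} {f : X.K} :
    f ∈ X.H0 D ↔ f = 0 ∨ ∀ p, 0 ≤ X.ord p f + D p := by
  constructor
  · intro hf
    induction hf using Submodule.span_induction with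
    | mem x hx => exact Or.inr hx.2
    | zero => exact Or.inl rfl
    | add a b _ _ ha hb =>
      by_cases ha0 : a = 0
      · rw [ha0, zero_add]; exact hb
      by_cases hb0 : b = 0
      · rw [hb0, add_zero]; exact ha
      by_cases hab : a + b = 0
      · exact Or.inl hab
      right
      intro p
      have h1 := hX.ord_add p a b ha0 hb0 hab
      have h2 := ha.resolve_left ha0 p
      have h3 := hb.resolve_left hb0 p
      rcases min_le_iff.mp h1 with h4 | h4 <;> omega
    | smul c a _ ha =>
      by_cases hc : c = 0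
      · left; rw [hc, zero_smul]
      rcases ha with ha | ha
      · left; rw [ha, smul_zero]
      by_cases ha0 : a = 0
      · left; rw [ha0, smul_zero]
      right
      intro p
      rw [Algebra.smul_def, hX.ord_mul p _ _ ((map_ne_zero _).mpr hc) ha0,
        hX.ord_const p c hc, zero_add]
      exact ha p
  · rintro (hf | hf)
    · rw [hf]; exact Submodule.zero_mem _
    · by_cases h0 : f = 0
      · rw [h0]; exact Submodule.zero_mem _
      · exact Submodule.subset_span ⟨h0, hf⟩

theorem mul_mem_H0 (hX : X.IsSymplecticVariety n) {D D' : X.Div} {f h : X.K}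
    (hf : f ∈ X.H0 D) (hh : h ∈ X.H0 D') : f * h ∈ X.H0 (D + D') := by
  rw [mem_H0_iff hX] at hf hh ⊢
  by_cases hf0 : f = 0
  · left; rw [hf0, zero_mul]
  by_cases hh0 : h = 0
  · left; rw [hh0, mul_zero]
  right
  intro p
  rw [hX.ord_mul p f h hf0 hh0, Finsupp.add_apply]
  have h1 := hf.resolve_left hf0 p
  have h2 := hh.resolve_left hh0 p
  omega

theorem H0_mono (hX : X.IsSymplecticVariety n) {D D' : X.Div} (h : ∀ p, D p ≤ D' p) :
    X.H0 D ≤ X.H0 D' := by
  intro f hf
  rw [mem_H0_iff hX] at hf ⊢
  refine hf.imp id fun hf p => ?_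
  have := hf p
  have := h p
  omega

theorem one_mem_H0 (hX : X.IsSymplecticVariety n) {D : X.Div} (h : ∀ p, 0 ≤ D p) :
    (1 : X.K) ∈ X.H0 D := by
  rw [mem_H0_iff hX]
  right
  intro p
  rw [ord_one hX, zero_add]
  exact h p

end basic

section classes

theorem classOf_add (D D' : X.Div) : X.classOf (D + D') = X.classOf D + X.classOf D' := by
  classical
  unfold classOf
  rw [Finsupp.sum_add_index]
  · intro p _; simp
  · intro p _ a b; push_cast; rw [add_smul]

/-- the class map as an additive homomorphism -/
noncomputable def clHom (X : Variety k (2 * n)) : X.Div →+ X.NS where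
  toFun := X.classOf
  map_zero' := by unfold classOf; exact Finsupp.sum_zero_index
  map_add' := classOf_add

theorem classOf_zero : X.classOf 0 = 0 := (clHom X).map_zero

theorem classOf_nsmul (m : ℕ) (D : X.Div) : X.classOf (m • D) = (m : ℚ) • X.classOf D := by
  have h := (clHom X).map_nsmul m D
  change X.classOf (m • D) = m • X.classOf D at h
  rw [h, Nat.cast_smul_eq_nsmul]

theorem classOf_neg (D : X.Div) : X.classOf (-D) = - X.classOf D := (clHom X).map_neg D

theorem classOf_sub (D D' : X.Div) : X.classOf (D - D') = X.classOf D - X.classOf D' :=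
  (clHom X).map_sub D D'

theorem classOf_single (p : X.Prime) (m : ℤ) :
    X.classOf (Finsupp.single p m) = (m : ℚ) • X.cl p := by
  unfold classOf
  rw [Finsupp.sum_single_index]
  simp

/-- the transvection as a linear map -/
noncomputable def transvectionL (X : Variety k (2 * n)) (α w : X.NS) : X.NS →ₗ[ℚ] X.NS where
  toFun := X.transvection α w
  map_add' := fun x y => by
    unfold transvection
    simp only [map_add, add_smul, mul_add]
    abel
  map_smul' := fun c x => by
    unfold transvection
    simp only [map_smul, smul_eq_mul, RingHom.id_apply, smul_add, smul_sub, smul_smul]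
    rw [show c * (X.q w x + X.q w w / 2 * X.q α x) = c * X.q w x + X.q w w / 2 * (c * X.q α x) by
      ring]

theorem transvectionL_apply (α w x : X.NS) : transvectionL X α w x = X.transvection α w x := rfl

end classes

section action

variable {r : ℕ} {α : X.Div}

theorem classOf_mapDomain (G : X.Action r α) (v : Fin r → ℤ) (D : X.Div) :
    X.classOf (D.mapDomain (G.π v)) = X.transvection (X.classOf α) (G.w v) (X.classOf D) := by
  classical
  rw [← transvectionL_apply]
  change (D.mapDomain (G.π v)).sum (fun p m => (m : ℚ) • X.cl p) =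
    transvectionL X (X.classOf α) (G.w v) (D.sum fun p m => (m : ℚ) • X.cl p)
  rw [Finsupp.sum_mapDomain_index (by intro p; simp)
    (by intro p a b; push_cast; rw [add_smul])]
  rw [map_finsuppSum]
  refine Finsupp.sum_congr fun p _ => ?_
  rw [map_smul, transvectionL_apply, G.cl_π]

theorem mapDomain_apply' (G : X.Action r α) (v : Fin r → ℤ) (D : X.Div) (p : X.Prime) :
    D.mapDomain (G.π v) (G.π v p) = D p :=
  Finsupp.mapDomain_apply (G.π v).injective D p

theorem γ_mem_H0 (hX : X.IsSymplecticVariety n) (G : X.Action r α) (v : Fin r → ℤ)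
    {D : X.Div} {f : X.K} (hf : f ∈ X.H0 D) : G.γ v f ∈ X.H0 (D.mapDomain (G.π v)) := by
  rw [mem_H0_iff hX] at hf ⊢
  by_cases hf0 : f = 0
  · left; rw [hf0, map_zero]
  · right
    intro p
    obtain ⟨p', rfl⟩ := (G.π v).surjective p
    rw [G.ord_γ v p' f hf0, mapDomain_apply']
    exact hf.resolve_left hf0 p'

end action

end Variety

end Pool.Agent.SYZ71
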