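import Pool.Agent.SYZ71.GA

/-!
# SYZ71/GB : positivity, Riemann-Roch, choice of the ample divisor
-/

set_option autoImplicit false

open MvPowerSeries Module

namespace Pool.Agent.SYZ71

namespace Variety

variable {k : Type} [Field k] {n : ℕ} {X : Variety k (2 * n)} {α : X.Div}

section positivity

theorem q_add_smul (hX : X.IsSymplecticVariety n) (a b : X.NS) (t : ℚ) :
    X.q (a + t • b) (a + t • b) = X.q a a + 2 * t * X.q a b + t ^ 2 * X.q b b := by
  simp only [map_add, map_smul, LinearMap.add_apply, LinearMap.smul_apply, smul_eq_mul]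
  rw [hX.q_symm b a]
  ring

theorem q_ample_alpha (hX : X.IsSymplecticVariety n) (hα : X.IsNefIsotropic α) {a : X.NS}
    (ha : a ∈ X.Ample) : 0 < X.q a (X.classOf α) := by
  have h0 : X.q a (X.classOf α) ≠ 0 := by
    intro h
    have := hX.hodge_index a ha _ h hα.ne_zero
    rw [hα.isotropic] at this
    exact lt_irrefl _ this
  by_contra hneg
  have hlt : X.q a (X.classOf α) < 0 := lt_of_le_of_ne (not_lt.mp hneg) h0
  set c := X.q a (X.classOf α) with hc
  have haa := hX.q_ample_pos a ha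
  have ht : 0 ≤ X.q a a / (-c) := div_nonneg haa.le (by linarith)
  have h1 := hX.q_ample_pos _ (hα.nef a ha _ ht)
  rw [q_add_smul hX, hα.isotropic, ← hc] at h1
  have h2 : X.q a a / (-c) * c = - X.q a a := by
    rw [div_neg, neg_mul, div_mul_cancel₀ _ hlt.ne]
  nlinarith

theorem q_alpha_prime (hX : X.IsSymplecticVariety n) (hα : X.IsNefIsotropic α) {a : X.NS}
    (ha : a ∈ X.Ample) (p : X.Prime) : 0 ≤ X.q (X.classOf α) (X.cl p) := by
  by_contra hneg
  have hlt : X.q (X.classOf α) (X.cl p) < 0 := not_le.mp hneg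
  set c := X.q (X.classOf α) (X.cl p) with hc
  have hap := hX.q_ample_prime a ha p
  have ht : 0 ≤ X.q a (X.cl p) / (-c) := div_nonneg hap.le (by linarith)
  have h1 := hX.q_ample_prime _ (hα.nef a ha _ ht) p
  rw [map_add, map_smul, LinearMap.add_apply, LinearMap.smul_apply, smul_eq_mul, ← hc] at h1
  have h2 : X.q a (X.cl p) / (-c) * c = - X.q a (X.cl p) := by
    rw [div_neg, neg_mul, div_mul_cancel₀ _ hlt.ne]
  linarith

/-- a class orthogonal to `α` with nonnegative square is a multiple of `α` -/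
theorem eq_smul_alpha (hX : X.IsSymplecticVariety n) (hα : X.IsNefIsotropic α) {a : X.NS}
    (ha : a ∈ X.Ample) {x : X.NS} (hx : X.q (X.classOf α) x = 0) (hxx : 0 ≤ X.q x x) :
    x = (X.q a x / X.q a (X.classOf α)) • X.classOf α := by
  set c := X.q a x / X.q a (X.classOf α) with hc
  have hpos := q_ample_alpha hX hα ha
  by_contra hne
  have h1 : x + (-c) • X.classOf α ≠ 0 := by
    intro h
    apply hne
    rw [neg_smul] at h
    exact (sub_eq_zero.mp (by rw [sub_eq_add_neg]; exact h))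
  have h2 : X.q a (x + (-c) • X.classOf α) = 0 := by
    rw [map_add, map_smul, smul_eq_mul, hc]
    field_simp
    ring
  have h3 := hX.hodge_index a ha _ h2 h1
  rw [q_add_smul hX, hα.isotropic, hX.q_symm x (X.classOf α), hx] at h3
  nlinarith

/-- the form is negative semidefinite on the orthogonal complement of `α` -/
theorem q_self_nonpos (hX : X.IsSymplecticVariety n) (hα : X.IsNefIsotropic α) {a : X.NS}
    (ha : a ∈ X.Ample) {x : X.NS} (hx : X.q (X.classOf α) x = 0) : X.q x x ≤ 0 := by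
  by_contra hneg
  have h1 := eq_smul_alpha hX hα ha hx (not_le.mp hneg).le
  have h2 : X.q x x = 0 := by
    rw [h1]
    simp only [map_smul, LinearMap.smul_apply, smul_eq_mul, hα.isotropic, mul_zero]
  rw [h2] at hneg
  exact hneg le_rfl

end positivity

section riemannRoch

/-- growth of a polynomial with positive leading coefficient -/
theorem poly_growth (P : Polynomial ℚ) (hP : 0 < P.leadingCoeff) :
    ∃ c C x₀ : ℚ, 0 < c ∧ 0 < C ∧ 1 ≤ x₀ ∧ ∀ x, x₀ ≤ x →
      c * x ^ P.natDegree ≤ P.eval x ∧ P.eval x ≤ C * x ^ P.natDegree := by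
  have h := Polynomial.div_tendsto_atTop_leadingCoeff_div_of_degree_eq P
    ((Polynomial.X : Polynomial ℚ) ^ P.natDegree) (by
      rw [Polynomial.degree_X_pow]
      exact Polynomial.degree_eq_natDegree (Polynomial.leadingCoeff_ne_zero.mp hP.ne'))
  rw [Polynomial.leadingCoeff_X_pow, div_one] at h
  have h1 := h.eventually (Ioo_mem_nhds (show P.leadingCoeff / 2 < P.leadingCoeff by linarith)
    (show P.leadingCoeff < 2 * P.leadingCoeff by linarith))
  obtain ⟨x₁, hx₁⟩ := Filter.eventually_atTop.mp h1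
  refine ⟨P.leadingCoeff / 2, 2 * P.leadingCoeff, max 1 x₁, by linarith, by linarith,
    le_max_left _ _, fun x hx => ?_⟩
  obtain ⟨h2, h3⟩ := hx₁ x ((le_max_right _ _).trans hx)
  have hx0 : 0 < x := lt_of_lt_of_le one_pos ((le_max_left _ _).trans hx)
  have hpow : 0 < x ^ P.natDegree := pow_pos hx0 _
  rw [Polynomial.eval_pow, Polynomial.eval_X] at h2 h3
  constructor
  · exact ((lt_div_iff₀ hpow).mp h2).le
  · exact ((div_lt_iff₀ hpow).mp h3).le

/-- Riemann-Roch in the form used here -/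
theorem exists_rr (hX : X.IsSymplecticVariety n) :
    ∃ c C x₀ : ℚ, 0 < c ∧ 0 < C ∧ 1 ≤ x₀ ∧ ∀ D ∈ X.Cartier, X.classOf D ∈ X.Ample →
      x₀ ≤ X.q (X.classOf D) (X.classOf D) →
      Module.Finite k (X.H0 D) ∧ 0 < finrank k (X.H0 D) ∧
      c * X.q (X.classOf D) (X.classOf D) ^ n ≤ (finrank k (X.H0 D) : ℚ) ∧
      (finrank k (X.H0 D) : ℚ) ≤ C * X.q (X.classOf D) (X.classOf D) ^ n := by
  obtain ⟨RR, hdeg, hlc, hRR⟩ := hX.riemann_roch
  obtain ⟨c, C, x₀, hc, hC, hx₀, h⟩ := poly_growth RR hlc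
  refine ⟨c, C, x₀, hc, hC, hx₀, fun D hD hA hx => ?_⟩
  obtain ⟨hfin, hrk⟩ := hRR D hD hA
  obtain ⟨h1, h2⟩ := h _ hx
  rw [hdeg, ← hrk] at h1 h2
  refine ⟨hfin, ?_, h1, h2⟩
  have hpos : 0 < X.q (X.classOf D) (X.classOf D) := lt_of_lt_of_le (by linarith) hx
  have : (0 : ℚ) < (finrank k (X.H0 D) : ℚ) := lt_of_lt_of_le (by positivity) h1
  exact_mod_cast this

theorem exists_section {D : X.Div}
    (hpos : 0 < finrank k (X.H0 D)) : ∃ f ∈ X.H0 D, f ≠ 0 := by
  have hne : X.H0 D ≠ ⊥ := by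
    intro h
    rw [h, finrank_bot] at hpos
    exact lt_irrefl _ hpos
  obtain ⟨f, hf, hf0⟩ := Submodule.exists_mem_ne_zero_of_ne_bot hne
  exact ⟨f, hf, hf0⟩

end riemannRoch

end Variety

end Pool.Agent.SYZ71
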