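import Pool.Agent.SYZ71.GB

/-!
# SYZ71/GC : choice of the ample divisor `A`
-/

set_option autoImplicit false

open MvPowerSeries Module

namespace Pool.Agent.SYZ71

namespace Variety

variable {k : Type} [Field k] {n : ℕ} {X : Variety k (2 * n)} {α : X.Div}

theorem quad_large (Q b c x₀ : ℚ) (hQ : 0 < Q) :
    ∃ T : ℕ, ∀ t : ℚ, (T : ℚ) ≤ t → x₀ ≤ c + 2 * t * b + t ^ 2 * Q := by
  obtain ⟨T, hT⟩ := exists_nat_ge ((2 * |b| + |c| + |x₀|) / Q + 1)
  refine ⟨T, fun t ht => ?_⟩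
  have h1 : (2 * |b| + |c| + |x₀|) / Q + 1 ≤ t := hT.trans ht
  have h0 : 0 ≤ (2 * |b| + |c| + |x₀|) / Q := by positivity
  have h2 : 1 ≤ t := by linarith
  have h3 : 2 * |b| + |c| + |x₀| ≤ t * Q := by
    rw [← div_le_iff₀ hQ]; linarith
  have h4 : t * (2 * |b| + |c| + |x₀|) ≤ t ^ 2 * Q := by
    have := mul_le_mul_of_nonneg_left h3 (show (0 : ℚ) ≤ t by linarith)
    nlinarith
  have hb := neg_abs_le b
  have hc := neg_abs_le c
  have hx := le_abs_self x₀
  have hc0 := abs_nonneg c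
  have hx0 := abs_nonneg x₀
  nlinarith [mul_nonneg (show (0 : ℚ) ≤ t - 1 by linarith) hc0,
    mul_nonneg (show (0 : ℚ) ≤ t - 1 by linarith) hx0,
    mul_nonneg (show (0 : ℚ) ≤ t by linarith) (show (0 : ℚ) ≤ b + |b| by linarith)]

/-- the divisor of poles of a rational function -/
noncomputable def poles (hX : X.IsSymplecticVariety n) (s : X.K) (hs : s ≠ 0) : X.Div :=
  Finsupp.ofSupportFinite (fun p => max 0 (- X.ord p s)) ((hX.ord_finite s hs).subset (by
    intro p hp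
    simp only [Function.mem_support, Set.mem_ofPred_eq] at hp ⊢
    intro h
    rw [h] at hp
    simp at hp))

theorem poles_apply (hX : X.IsSymplecticVariety n) (s : X.K) (hs : s ≠ 0) (p : X.Prime) :
    poles hX s hs p = max 0 (- X.ord p s) := rfl

/-- large multiples of an effective ample divisor: a rational function is a quotient of two
sections -/
theorem eventually_gen (hX : X.IsSymplecticVariety n) (A₀ : X.Div) (hc : A₀ ∈ X.Cartier)
    (ha : X.classOf A₀ ∈ X.Ample) (heff : ∀ p, 0 ≤ A₀ p) (s : X.K) :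
    ∃ T : ℕ, ∀ t : ℕ, T ≤ t → ∃ h ∈ X.H0 (t • A₀), h ≠ 0 ∧ h * s ∈ X.H0 (t • A₀) := by
  have hteff : ∀ (t : ℕ) p, 0 ≤ (t • A₀) p := fun t p => by
    rw [Finsupp.smul_apply]; exact nsmul_nonneg (heff p) t
  by_cases hs : s = 0
  · refine ⟨0, fun t _ => ⟨1, one_mem_H0 hX (hteff t), one_ne_zero, ?_⟩⟩
    rw [hs, mul_zero]
    exact Submodule.zero_mem _
  obtain ⟨c, C, x₀, -, -, -, hrr⟩ := exists_rr hX
  obtain ⟨m, hm, hmC⟩ := hX.qFactorial (poles hX s hs)
  set D := m • poles hX s hs with hD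
  obtain ⟨N, hN⟩ := hX.ample_large _ ha (- X.classOf D)
  obtain ⟨T, hT⟩ := quad_large (X.q (X.classOf A₀) (X.classOf A₀))
    (X.q (- X.classOf D) (X.classOf A₀)) (X.q (- X.classOf D) (- X.classOf D)) x₀
    (hX.q_ample_pos _ ha)
  refine ⟨max N T, fun t ht => ?_⟩
  have htN : (N : ℚ) ≤ (t : ℚ) := by exact_mod_cast (le_max_left _ _).trans ht
  have htT : (T : ℚ) ≤ (t : ℚ) := by exact_mod_cast (le_max_right _ _).trans ht
  have hcl : X.classOf (t • A₀ - D) = (t : ℚ) • X.classOf A₀ + - X.classOf D := by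
    rw [classOf_sub, classOf_nsmul, sub_eq_add_neg]
  have h1 := hrr (t • A₀ - D) (sub_mem (nsmul_mem hc t) hmC) (by rw [hcl]; exact hN _ htN) (by
    rw [hcl, add_comm, q_add_smul hX]
    exact hT _ htT)
  obtain ⟨h, hh, hh0⟩ := exists_section h1.2.1
  have hDeff : ∀ p, 0 ≤ D p := fun p => by
    rw [hD, Finsupp.smul_apply]
    exact nsmul_nonneg (by rw [poles_apply]; exact le_max_left _ _) m
  refine ⟨h, H0_mono hX (fun p => ?_) hh, hh0, ?_⟩
  · rw [Finsupp.sub_apply]
    have := hDeff p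
    omega
  · rw [mem_H0_iff hX] at hh ⊢
    right
    intro p
    have h2 := hh.resolve_left hh0 p
    rw [hX.ord_mul p h s hh0 hs]
    rw [Finsupp.sub_apply] at h2
    have h3 : - X.ord p s ≤ D p := by
      rw [hD, Finsupp.smul_apply]
      have h4 : - X.ord p s ≤ poles hX s hs p := by rw [poles_apply]; exact le_max_right _ _
      have h5 : 0 ≤ poles hX s hs p := by rw [poles_apply]; exact le_max_left _ _
      refine h4.trans ?_
      have : poles hX s hs p = 1 • poles hX s hs p := (one_nsmul _).symm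
      conv_lhs => rw [this]
      exact nsmul_le_nsmul_left h5 hm
    omega

variable {r : ℕ}

/-- the divisor of a rational function -/
noncomputable def dv (hX : X.IsSymplecticVariety n) (s : X.K) (hs : s ≠ 0) : X.Div :=
  Finsupp.ofSupportFinite (fun p => X.ord p s) (hX.ord_finite s hs)

theorem dv_apply (hX : X.IsSymplecticVariety n) (s : X.K) (hs : s ≠ 0) (p : X.Prime) :
    dv hX s hs p = X.ord p s := rfl

theorem isDivOf_dv (hX : X.IsSymplecticVariety n) (s : X.K) (hs : s ≠ 0) :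
    X.IsDivOf (dv hX s hs) s := ⟨hs, fun p => dv_apply hX s hs p⟩

/-- an effective ample divisor which does not pass through a given point -/
theorem exists_ample_avoiding (hX : X.IsSymplecticVariety n) (x : X.Pt) :
    ∃ A ∈ X.Cartier, X.classOf A ∈ X.Ample ∧ (∀ p, 0 ≤ A p) ∧ ∀ p ∈ X.thr x, A p = 0 := by
  obtain ⟨D, hD, hA⟩ := hX.exists_ample
  obtain ⟨m, hm, hgen⟩ := hX.ample_generated D hD hA
  obtain ⟨f, ⟨hf0, hf⟩, hfx⟩ := hgen x
  obtain ⟨h1, h2⟩ := hX.classOf_div _ f (isDivOf_dv hX f hf0)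
  refine ⟨m • D + dv hX f hf0, add_mem (nsmul_mem hD m) h1, ?_, fun p => ?_, fun p hp => ?_⟩
  · rw [classOf_add, h2, add_zero, classOf_nsmul]
    exact hX.ample_smul _ hA _ (by exact_mod_cast hm)
  · rw [Finsupp.add_apply, dv_apply, add_comm]
    exact hf p
  · rw [Finsupp.add_apply, dv_apply, add_comm]
    exact hfx p hp

/-- the ample divisor used to define the section family -/
structure GoodDivisor (G : X.Action r α) (S : Finset X.K) (x₀ : ℚ) (A : X.Div) : Prop where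
  cartier : A ∈ X.Cartier
  ample : X.classOf A ∈ X.Ample
  eff : ∀ p, 0 ≤ A p
  thr : ∀ p ∈ X.thr G.x₀, A p = 0
  large : x₀ ≤ X.q (X.classOf A) (X.classOf A)
  gen : ∀ s ∈ S, ∃ h ∈ X.H0 A, h ≠ 0 ∧ h * s ∈ X.H0 A

theorem exists_goodDivisor (hX : X.IsSymplecticVariety n) (G : X.Action r α)
    (S : Finset X.K) (x₀ : ℚ) : ∃ A, GoodDivisor G S x₀ A := by
  classical
  obtain ⟨A₀, hc, ha, heff, hthr⟩ := exists_ample_avoiding hX G.x₀
  have hS : ∃ T : ℕ, ∀ s ∈ S, ∀ t : ℕ, T ≤ t →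
      ∃ h ∈ X.H0 (t • A₀), h ≠ 0 ∧ h * s ∈ X.H0 (t • A₀) := by
    choose T hT using fun s : X.K => eventually_gen hX A₀ hc ha heff s
    exact ⟨S.sup T, fun s hs t ht => hT s t ((Finset.le_sup hs).trans ht)⟩
  obtain ⟨T, hT⟩ := hS
  obtain ⟨T', hT'⟩ := quad_large (X.q (X.classOf A₀) (X.classOf A₀)) 0 0 x₀
    (hX.q_ample_pos _ ha)
  set t := max 1 (max T T') with ht
  have ht1 : 1 ≤ t := le_max_left _ _
  have htT : T ≤ t := (le_max_left _ _).trans (le_max_right _ _)
  have htT' : T' ≤ t := (le_max_right _ _).trans (le_max_right _ _)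
  have htq : (0 : ℚ) < (t : ℚ) := by exact_mod_cast ht1
  refine ⟨t • A₀, nsmul_mem hc t, ?_, fun p => ?_, fun p hp => ?_, ?_, fun s hs => hT s hs t htT⟩
  · rw [classOf_nsmul]; exact hX.ample_smul _ ha _ htq
  · rw [Finsupp.smul_apply]; exact nsmul_nonneg (heff p) t
  · rw [Finsupp.smul_apply, hthr p hp, smul_zero]
  · have := hT' (t : ℚ) (by exact_mod_cast htT')
    rw [classOf_nsmul]
    simp only [map_smul, LinearMap.smul_apply, smul_eq_mul]
    nlinarith

end Variety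

end Pool.Agent.SYZ71
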