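import Pool.Agent.SYZ71.Defs

/-!
# SYZ71/GDefs : the geometric data `(X, α, G = ℤ^r, x₀)`

`X` is a projective primitive symplectic variety of dimension `2n` (normal, `ℚ`-factorial, e.g. a
projective hyperkähler manifold), seen through its function field, its prime divisors and the
closed points of a resolution (for smooth `X`: of `X`); `α` a nef isotropic line bundle, `G = ℤ^r` a
group of automorphisms of `X` which acts on `NS(X)_ℚ` by the Eichler transvections `T_(α, w(v))`,
and `x₀` a fixed point of `G` (on the resolution, to which the action lifts).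
-/

set_option autoImplicit false

open MvPowerSeries Module

namespace Pool.Agent.SYZ71

/-- A normal projective variety `X` of dimension `d` over `k`, seen through its function field,
prime divisors, divisor classes and points. -/
structure Variety (k : Type) [Field k] (d : ℕ) where
  /-- the function field `K(X)` -/
  K : Type
  [field : Field K]
  [algebra : Algebra k K]
  /-- the prime divisors of `X` -/
  Prime : Type
  /-- order of vanishing of a nonzero rational function along a prime divisor -/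
  ord : Prime → K → ℤ
  /-- the Cartier divisors among the Weil divisors -/
  Cartier : AddSubgroup (Prime →₀ ℤ)
  /-- the space of divisor classes `NS(X)_ℚ` -/
  NS : Type
  [addCommGroup : AddCommGroup NS]
  [module : Module ℚ NS]
  /-- the class of a prime divisor -/
  cl : Prime → NS
  /-- the Beauville-Bogomolov-Fujiki form -/
  q : NS →ₗ[ℚ] NS →ₗ[ℚ] ℚ
  /-- the ample cone -/
  Ample : Set NS
  /-- the closed points of a fixed resolution `X' → X` (of `X` if `X` is smooth) -/
  Pt : Type
  /-- the prime divisors of `X` which pass through the image of the point `x` in `X` -/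
  thr : Pt → Set Prime
  /-- the embedding of `K(X)` in the fraction field of the completed local ring
  `k[[z_1, …, z_d]]` at the point `x` -/
  ι : Pt → (K →ₐ[k] FractionRing (PS k d))

attribute [instance] Variety.field Variety.algebra Variety.addCommGroup Variety.module

/-- A closed, generically nondegenerate `2`-form `∑_(i<j) w_ij dz_i ∧ dz_j` on the formal germ with
coordinates `z_1, …, z_d`. -/
structure SymplecticForm (k : Type) [Field k] (d : ℕ) where
  w : Fin d → Fin d → PS k d
  skew : ∀ i j, w j i = -w i j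
  closed : ∀ i j l, pderiv k i (w j l) + pderiv k j (w l i) + pderiv k l (w i j) = 0
  nondegenerate : (Matrix.of w).det ≠ 0

/-- The `2`-form is invariant: `∑_(a<b) g(w_ab) d(g z_a) ∧ d(g z_b) = ∑_(i<j) w_ij dz_i ∧ dz_j`. -/
def SymplecticForm.Invariant {k : Type} [Field k] {d : ℕ} (ω : SymplecticForm k d)
    (g : PS k d ≃ₐ[k] PS k d) : Prop :=
  ∀ i j, ∑ a, ∑ b, g (ω.w a b) * pderiv k i (g (X a)) * pderiv k j (g (X b)) = ω.w i j

namespace Variety

variable {k : Type} [Field k] {d : ℕ} (X : Variety k d)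

/-- (Weil) divisors -/
abbrev Div : Type := X.Prime →₀ ℤ

/-- the class of a divisor -/
noncomputable def classOf (D : X.Div) : X.NS := D.sum fun p m => (m : ℚ) • X.cl p

/-- `D` is the divisor of the rational function `f` -/
def IsDivOf (D : X.Div) (f : X.K) : Prop := f ≠ 0 ∧ ∀ p, D p = X.ord p f

/-- `f` is a nonzero section of `O(D)`: `div f + D ≥ 0` -/
def IsSection (D : X.Div) (f : X.K) : Prop := f ≠ 0 ∧ ∀ p, 0 ≤ X.ord p f + D p

/-- `H⁰(X, O(D))`, the space of rational functions `f` with `f = 0` or `div f + D ≥ 0` -/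
noncomputable def H0 (D : X.Div) : Submodule k X.K := Submodule.span k {f | X.IsSection D f}

/-- the function `f` is regular at `x`, with power series expansion `a` -/
def Expansion (x : X.Pt) (f : X.K) (a : PS k d) : Prop :=
  X.ι x f = algebraMap (PS k d) (FractionRing (PS k d)) a

/-- `f` is the quotient `a / b` at `x` (for `b ≠ 0`) -/
def IsQuotient (x : X.Pt) (f : X.K) (a b : PS k d) : Prop :=
  X.ι x f * algebraMap (PS k d) (FractionRing (PS k d)) b =
    algebraMap (PS k d) (FractionRing (PS k d)) a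

/-- `κ(X, O(D)) ≥ e`: some multiple of `D` has sections `f_0 ≠ 0, f_1, …, f_e` such that
`f_1/f_0, …, f_e/f_0` are algebraically independent over `k` -/
def KodairaGE (D : X.Div) (e : ℕ) : Prop :=
  ∃ m : ℕ, 1 ≤ m ∧ ∃ f : Fin (e + 1) → X.K, (∀ i, f i ∈ X.H0 (m • D)) ∧ f 0 ≠ 0 ∧
    AlgebraicIndependent k (fun i : Fin e => f i.succ / f 0)

/-- The function field of a normal projective variety, and its prime divisors. -/
structure FunctionField : Prop where
  /-- the function field is finitely generated, of transcendence degree `d = dim X` -/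
  fg : ∃ S : Finset X.K, IntermediateField.adjoin k (S : Set X.K) = ⊤
  trdeg : Algebra.trdeg k X.K = (d : ℕ)
  /-- orders of vanishing are discrete valuations, trivial on constants -/
  ord_mul : ∀ p f h, f ≠ 0 → h ≠ 0 → X.ord p (f * h) = X.ord p f + X.ord p h
  ord_add : ∀ p f h, f ≠ 0 → h ≠ 0 → f + h ≠ 0 → min (X.ord p f) (X.ord p h) ≤ X.ord p (f + h)
  ord_const : ∀ p (c : k), c ≠ 0 → X.ord p (algebraMap k X.K c) = 0
  /-- a rational function has finitely many zeros and poles -/
  ord_finite : ∀ f, f ≠ 0 → {p | X.ord p f ≠ 0}.Finite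
  /-- `X` is projective: a function without poles is constant -/
  const_of_ord : ∀ f, f ≠ 0 → (∀ p, 0 ≤ X.ord p f) → f ∈ (algebraMap k X.K).range

/-- Divisors and their classes on a projective `ℚ`-factorial variety with `H¹(X, O) = 0`. -/
structure DivisorClasses : Prop where
  /-- there is an ample Cartier divisor -/
  exists_ample : ∃ D ∈ X.Cartier, X.classOf D ∈ X.Ample
  /-- `X` is `ℚ`-factorial -/
  qFactorial : ∀ D : X.Div, ∃ m : ℕ, 1 ≤ m ∧ m • D ∈ X.Cartier
  NS_finite : Module.Finite ℚ X.NS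
  /-- principal divisors are Cartier of class `0`; as `H¹(O) = 0`, a divisor of class `0` is
  principal up to a multiple -/
  classOf_div : ∀ D f, X.IsDivOf D f → D ∈ X.Cartier ∧ X.classOf D = 0
  principal : ∀ D, X.classOf D = 0 → ∃ m : ℕ, 1 ≤ m ∧ ∃ f, X.IsDivOf (m • D) f

/-- The form is symmetric, and nonnegative on different prime divisors. -/
structure FormPrimes : Prop where
  q_symm : ∀ x y, X.q x y = X.q y x
  q_prime : ∀ p p', p ≠ p' → 0 ≤ X.q (X.cl p) (X.cl p')

/-- Hodge index theorem. -/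
structure HodgeIndex : Prop where
  q_ample_pos : ∀ a ∈ X.Ample, 0 < X.q a a
  q_ample_prime : ∀ a ∈ X.Ample, ∀ p, 0 < X.q a (X.cl p)
  hodge_index : ∀ a ∈ X.Ample, ∀ x, X.q a x = 0 → x ≠ 0 → X.q x x < 0

/-- The ample cone is an open convex cone. -/
structure AmpleCone : Prop where
  ample_add : ∀ a ∈ X.Ample, ∀ b ∈ X.Ample, a + b ∈ X.Ample
  ample_smul : ∀ a ∈ X.Ample, ∀ c : ℚ, 0 < c → c • a ∈ X.Ample
  ample_large : ∀ a ∈ X.Ample, ∀ x, ∃ N : ℕ, ∀ t : ℚ, N ≤ t → t • a + x ∈ X.Ample

/-- Riemann-Roch and Kawamata-Viehweg vanishing: `h⁰(D) = RR(q(D))` for `D` ample, with a polynomial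
`RR` of degree `n = dim X / 2` and positive leading coefficient. -/
structure RiemannRoch (n : ℕ) : Prop where
  riemann_roch : ∃ RR : Polynomial ℚ, RR.natDegree = n ∧ 0 < RR.leadingCoeff ∧
    ∀ D ∈ X.Cartier, X.classOf D ∈ X.Ample → Module.Finite k (X.H0 D) ∧
      (finrank k (X.H0 D) : ℚ) = RR.eval (X.q (X.classOf D) (X.classOf D))

/-- Divisors and functions near a point. -/
structure Points : Prop where
  /-- a function whose poles do not pass through (the image of) `x` is regular at `x` -/
  regular : ∀ x f, f ≠ 0 → (∀ p ∈ X.thr x, 0 ≤ X.ord p f) → ∃ a, X.Expansion x f a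
  /-- a Cartier divisor is principal near `x` -/
  locally_principal : ∀ D ∈ X.Cartier, ∀ x, ∃ f, f ≠ 0 ∧ ∀ p ∈ X.thr x, X.ord p f + D p = 0
  /-- a multiple of an ample line bundle is generated by global sections -/
  ample_generated : ∀ D ∈ X.Cartier, X.classOf D ∈ X.Ample → ∃ m : ℕ, 1 ≤ m ∧ ∀ x, ∃ f,
    X.IsSection (m • D) f ∧ ∀ p ∈ X.thr x, X.ord p f + (m • D) p = 0
  /-- the multiplicity of an effective divisor at a point is bounded by a degree -/
  multiplicity : ∃ deg : X.NS →ₗ[ℚ] ℚ, ∀ D ∈ X.Cartier, ∀ x, (∀ p ∈ X.thr x, D p = 0) →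
    ∀ f, X.IsSection D f → ∀ a, X.Expansion x f a →
      ∀ m : ℕ, (m : ℕ∞) ≤ a.order → (m : ℚ) ≤ deg (X.classOf D)

/-- Standard facts on a projective `ℚ`-factorial primitive symplectic variety of dimension `2n`. -/
structure IsSymplecticVariety (n : ℕ) (X : Variety k (2 * n)) : Prop extends X.FunctionField,
  X.DivisorClasses, X.FormPrimes, X.HodgeIndex, X.AmpleCone, X.RiemannRoch n, X.Points

/-- `O(D)` is a nef line bundle, not numerically trivial, with `q(D) = 0`. -/
structure IsNefIsotropic (D : X.Div) : Prop where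
  cartier : D ∈ X.Cartier
  ne_zero : X.classOf D ≠ 0
  isotropic : X.q (X.classOf D) (X.classOf D) = 0
  nef : ∀ a ∈ X.Ample, ∀ c : ℚ, 0 ≤ c → a + c • X.classOf D ∈ X.Ample

/-- the Eichler transvection `T_(α, w)` (for `q(α,α) = q(α,w) = 0`) -/
noncomputable def transvection (α w x : X.NS) : X.NS :=
  x + X.q α x • w - (X.q w x + X.q w w / 2 * X.q α x) • α

/-- The data of an action of `ℤ^r` on `X` with a fixed point `x₀`. -/
structure ActionData {n : ℕ} (X : Variety k (2 * n)) (r : ℕ) where
  /-- the action on functions -/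
  γ : (Fin r → ℤ) → (X.K ≃ₐ[k] X.K)
  /-- the action on prime divisors -/
  π : (Fin r → ℤ) → Equiv.Perm X.Prime
  /-- the vector `w(v)` in `α^⊥` -/
  w : (Fin r → ℤ) → X.NS
  /-- the fixed point -/
  x₀ : X.Pt
  /-- the action on the completed local ring at `x₀` -/
  g : (Fin r → ℤ) → (PS k (2 * n) ≃ₐ[k] PS k (2 * n))
  /-- the symplectic form near `x₀` -/
  form : SymplecticForm k (2 * n)

/-- `ℤ^r` acts on functions, compatibly with the action on prime divisors. -/
structure ActionData.OnFunctions {n r : ℕ} {X : Variety k (2 * n)} (G : X.ActionData r) : Prop where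
  γ_add : ∀ u v, G.γ (u + v) = G.γ u * G.γ v
  ord_γ : ∀ v p f, f ≠ 0 → X.ord (G.π v p) (G.γ v f) = X.ord p f
  cartier : ∀ v (D : X.Div), D ∈ X.Cartier → D.mapDomain (G.π v) ∈ X.Cartier

/-- `ℤ^r` acts on `NS(X)_ℚ` by the Eichler transvections `T_(α, w(v))`, with `w(v) ∈ α^⊥` additive in
`v`, and not a multiple of `α` for `v ≠ 0`. -/
structure ActionData.OnClasses {n r : ℕ} {X : Variety k (2 * n)} (G : X.ActionData r) (α : X.Div) :
    Prop where
  cl_π : ∀ v p, X.cl (G.π v p) = X.transvection (X.classOf α) (G.w v) (X.cl p)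
  ample : ∀ v, ∀ a ∈ X.Ample, X.transvection (X.classOf α) (G.w v) a ∈ X.Ample
  w_add : ∀ u v, G.w (u + v) = G.w u + G.w v
  w_orth : ∀ v, X.q (X.classOf α) (G.w v) = 0
  w_indep : ∀ v, v ≠ 0 → ∀ c : ℚ, G.w v ≠ c • X.classOf α

/-- `ℤ^r` fixes the point `x₀`, acts compatibly on its completed local ring and preserves the
symplectic form. -/
structure ActionData.OnPoint {n r : ℕ} {X : Variety k (2 * n)} (G : X.ActionData r) : Prop where
  thr_stable : ∀ v p, p ∈ X.thr G.x₀ ↔ G.π v p ∈ X.thr G.x₀
  g_add : ∀ u v, G.g (u + v) = G.g u * G.g v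
  g_ι : ∀ v f a b, X.IsQuotient G.x₀ f a b → X.IsQuotient G.x₀ (G.γ v f) (G.g v a) (G.g v b)
  invariant : ∀ v, G.form.Invariant (G.g v)

/-- An action of `ℤ^r` on `X` by automorphisms which fix the isotropic class `α`, act on
`NS(X)_ℚ` by the Eichler transvections `T_(α, w(v))`, with a common fixed point `x₀`. -/
structure Action {n : ℕ} (X : Variety k (2 * n)) (r : ℕ) (α : X.Div) extends X.ActionData r where
  onFunctions : toActionData.OnFunctions
  onClasses : toActionData.OnClasses α
  onPoint : toActionData.OnPoint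

namespace Action

variable {n r : ℕ} {X : Variety k (2 * n)} {α : X.Div} (G : X.Action r α)

theorem γ_add : ∀ u v, G.γ (u + v) = G.γ u * G.γ v := G.onFunctions.γ_add

theorem ord_γ : ∀ v p f, f ≠ 0 → X.ord (G.π v p) (G.γ v f) = X.ord p f := G.onFunctions.ord_γ

theorem cartier : ∀ v (D : X.Div), D ∈ X.Cartier → D.mapDomain (G.π v) ∈ X.Cartier :=
  G.onFunctions.cartier

theorem cl_π : ∀ v p, X.cl (G.π v p) = X.transvection (X.classOf α) (G.w v) (X.cl p) :=
  G.onClasses.cl_π

theorem ample : ∀ v, ∀ a ∈ X.Ample, X.transvection (X.classOf α) (G.w v) a ∈ X.Ample :=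
  G.onClasses.ample

theorem w_add : ∀ u v, G.w (u + v) = G.w u + G.w v := G.onClasses.w_add

theorem w_orth : ∀ v, X.q (X.classOf α) (G.w v) = 0 := G.onClasses.w_orth

theorem w_indep : ∀ v, v ≠ 0 → ∀ c : ℚ, G.w v ≠ c • X.classOf α := G.onClasses.w_indep

theorem thr_stable : ∀ v p, p ∈ X.thr G.x₀ ↔ G.π v p ∈ X.thr G.x₀ := G.onPoint.thr_stable

theorem g_add : ∀ u v, G.g (u + v) = G.g u * G.g v := G.onPoint.g_add

theorem g_ι : ∀ v f (a b : PS k (2 * n)),
    X.ι G.x₀ f * algebraMap (PS k (2 * n)) (FractionRing (PS k (2 * n))) b =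
      algebraMap (PS k (2 * n)) (FractionRing (PS k (2 * n))) a →
    X.ι G.x₀ (G.γ v f) * algebraMap (PS k (2 * n)) (FractionRing (PS k (2 * n))) (G.g v b) =
      algebraMap (PS k (2 * n)) (FractionRing (PS k (2 * n))) (G.g v a) :=
  G.onPoint.g_ι

theorem invariant : ∀ v, G.form.Invariant (G.g v) := G.onPoint.invariant

end Action

/-- `ℤ^r` acts trivially on the ratios of sections of multiples of `α` -/
def TrivialOnRatios {n r : ℕ} {X : Variety k (2 * n)} (G : X.ActionData r) (α : X.Div) : Prop :=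
  ∀ v (m : ℕ), ∀ f ∈ X.H0 (m • α), ∀ h ∈ X.H0 (m • α), G.γ v f * h = f * G.γ v h

end Variety

end Pool.Agent.SYZ71
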