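import Pool.Agent.SYZ71.GD

/-!
# SYZ71/GE : the action on the section family
-/

set_option autoImplicit false

open MvPowerSeries Module

namespace Pool.Agent.SYZ71

namespace Variety

variable {k : Type} [Field k] {n : ℕ} {X : Variety k (2 * n)} {α : X.Div} {r : ℕ}

section transv

theorem q_transvection (hX : X.IsSymplecticVariety n) {β w x : X.NS} (hβ : X.q β β = 0)
    (hw : X.q β w = 0) : X.q (X.transvection β w x) (X.transvection β w x) = X.q x x := by
  have hw' : X.q w β = 0 := by rw [hX.q_symm, hw]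
  unfold transvection
  simp only [map_add, map_sub, map_smul, LinearMap.add_apply, LinearMap.sub_apply,
    LinearMap.smul_apply, smul_eq_mul, hβ, hw, hw', hX.q_symm x w, hX.q_symm x β]
  ring

/-- `2 a - T_w a = T_(-w) a + q(w,w) q(β,a) β` -/
theorem two_sub_transvection (β w a : X.NS) :
    (2 : ℚ) • a - X.transvection β w a =
      X.transvection β (-w) a + (X.q w w * X.q β a) • β := by
  unfold transvection
  simp only [map_neg, LinearMap.neg_apply, neg_neg, smul_neg]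
  module

theorem transvection_self {β w : X.NS} (hβ : X.q β β = 0) (hw : X.q w β = 0) :
    X.transvection β w β = β := by
  unfold transvection
  rw [hβ, hw]
  simp

theorem w_zero (G : X.Action r α) : G.w 0 = 0 := by
  have h := G.w_add 0 0
  rw [add_zero] at h
  exact (left_eq_add.mp h)

theorem w_neg (G : X.Action r α) (v : Fin r → ℤ) : G.w (-v) = - G.w v := by
  have h := G.w_add (-v) v
  rw [neg_add_cancel, w_zero] at h
  exact eq_neg_of_add_eq_zero_left h.symm

theorem w_sum (G : X.Action r α) (v : Fin r → ℤ) :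
    G.w v = ∑ i, (v i : ℚ) • G.w (Pi.single i 1) := by
  let W : (Fin r → ℤ) →ₗ[ℤ] X.NS := (AddMonoidHom.mk' G.w G.w_add).toIntLinearMap
  have h : W v = ∑ i, v i • W (Pi.single i 1) := by
    conv_lhs => rw [pi_eq_sum_univ' v]
    rw [map_sum]
    refine Finset.sum_congr rfl fun i _ => ?_
    rw [map_smul]
  change G.w v = ∑ i, v i • G.w (Pi.single i 1) at h
  rw [h]
  refine Finset.sum_congr rfl fun i _ => ?_
  rw [Int.cast_smul_eq_zsmul]

theorem q_w_bound (G : X.Action r α) : ∃ K : ℚ, 0 ≤ K ∧ ∀ v : Fin r → ℤ,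
    |X.q (G.w v) (G.w v)| ≤ K * ∑ i, ((v i : ℚ)) ^ 2 := by
  refine ⟨∑ i, ∑ j, |X.q (G.w (Pi.single i 1)) (G.w (Pi.single j 1))|,
    Finset.sum_nonneg fun i _ => Finset.sum_nonneg fun j _ => abs_nonneg _, fun v => ?_⟩
  have h1 : X.q (G.w v) (G.w v) = ∑ i, ∑ j, (v i : ℚ) * (v j : ℚ) *
      X.q (G.w (Pi.single i 1)) (G.w (Pi.single j 1)) := by
    conv_lhs => rw [w_sum G v]
    simp only [map_sum, LinearMap.sum_apply, map_smul, LinearMap.smul_apply, smul_eq_mul]
    rw [Finset.sum_comm]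
    refine Finset.sum_congr rfl fun i _ => ?_
    rw [Finset.mul_sum]
    refine Finset.sum_congr rfl fun j _ => ?_
    ring
  rw [h1, Finset.sum_mul]
  refine (Finset.abs_sum_le_sum_abs _ _).trans (Finset.sum_le_sum fun i _ => ?_)
  rw [Finset.sum_mul]
  refine (Finset.abs_sum_le_sum_abs _ _).trans (Finset.sum_le_sum fun j _ => ?_)
  rw [abs_mul, mul_comm]
  refine mul_le_mul_of_nonneg_left ?_ (abs_nonneg _)
  have hi : ((v i : ℚ)) ^ 2 ≤ ∑ l, ((v l : ℚ)) ^ 2 :=
    Finset.single_le_sum (f := fun l => ((v l : ℚ)) ^ 2) (fun l _ => sq_nonneg _)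
      (Finset.mem_univ i)
  have hj : ((v j : ℚ)) ^ 2 ≤ ∑ l, ((v l : ℚ)) ^ 2 :=
    Finset.single_le_sum (f := fun l => ((v l : ℚ)) ^ 2) (fun l _ => sq_nonneg _)
      (Finset.mem_univ j)
  rw [abs_le]
  constructor <;> nlinarith [sq_nonneg ((v i : ℚ) + v j), sq_nonneg ((v i : ℚ) - v j)]

end transv

section move

variable {G : X.Action r α} {S : Finset X.K} {x₀ : ℚ} {A : X.Div}

theorem iota_injective (x : X.Pt) : Function.Injective (X.ι x) := (X.ι x).toRingHom.injective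

theorem mapDomain_thr (G : X.Action r α) (v : Fin r → ℤ) {D : X.Div}
    (hD : ∀ p ∈ X.thr G.x₀, D p = 0) (p : X.Prime) (hp : p ∈ X.thr G.x₀) :
    D.mapDomain (G.π v) p = 0 := by
  obtain ⟨p', rfl⟩ := (G.π v).surjective p
  rw [mapDomain_apply']
  exact hD p' ((G.thr_stable v p').mpr hp)

theorem iota_γ (G : X.Action r α) (v : Fin r → ℤ) {F : X.K} {f : PS k (2 * n)}
    (h : X.ι G.x₀ F = toFrac k (2 * n) f) : X.ι G.x₀ (G.γ v F) = toFrac k (2 * n) (G.g v f) := by
  have h1 := G.g_ι v F f 1 (by rw [map_one, mul_one]; exact h)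
  rw [map_one, map_one, mul_one] at h1
  exact h1

/-- the divisor `2 D A + E' α - π_v (D A + E α)` -/
noncomputable def moveDiv (G : X.Action r α) (A : X.Div) (v : Fin r → ℤ) (D E E' : ℕ) :
    X.Div :=
  ((2 * D) • A + E' • α) - (D • A + E • α).mapDomain (G.π v)

theorem classOf_moveDiv (hX : X.IsSymplecticVariety n) (hα : X.IsNefIsotropic α)
    (G : X.Action r α) (A : X.Div) (v : Fin r → ℤ) (D E E' : ℕ) :
    X.classOf (moveDiv G A v D E E') =
      (D : ℚ) • X.transvection (X.classOf α) (G.w (-v)) (X.classOf A) +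
      ((D : ℚ) * (X.q (G.w v) (G.w v) * X.q (X.classOf α) (X.classOf A)) + (E' - E)) •
        X.classOf α := by
  unfold moveDiv
  rw [classOf_sub, classOf_mapDomain, classOf_DE, classOf_DE, ← transvectionL_apply, map_add,
    map_smul, map_smul, transvectionL_apply, transvectionL_apply,
    transvection_self hα.isotropic (by rw [hX.q_symm, G.w_orth]), w_neg]
  have h := two_sub_transvection (X.classOf α) (G.w v) (X.classOf A)
  have h2 : X.transvection (X.classOf α) (-G.w v) (X.classOf A) =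
      (2 : ℚ) • X.classOf A - X.transvection (X.classOf α) (G.w v) (X.classOf A) -
        (X.q (G.w v) (G.w v) * X.q (X.classOf α) (X.classOf A)) • X.classOf α := by
    rw [h]; abel
  rw [h2]
  push_cast
  module

theorem exists_move (hX : X.IsSymplecticVariety n) (hα : X.IsNefIsotropic α)
    (hαt : ∀ p ∈ X.thr G.x₀, α p = 0) {c C : ℚ}
    (hrr : RR X c C x₀) (hA : GoodDivisor G S x₀ A) (v : Fin r → ℤ) {D E E' : ℕ}
    (hD : 1 ≤ D) (hE : 0 ≤ (D : ℚ) * (X.q (G.w v) (G.w v) *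
      X.q (X.classOf α) (X.classOf A)) + (E' - E)) :
    ∃ b : PS k (2 * n), b ≠ 0 ∧ ∀ f ∈ secL G A D E, b * G.g v f ∈ secL G A (2 * D) E' := by
  classical
  have hD' : (1 : ℚ) ≤ (D : ℚ) := by exact_mod_cast hD
  set t := (D : ℚ) * (X.q (G.w v) (G.w v) * X.q (X.classOf α) (X.classOf A)) + (E' - E)
    with ht
  set a' := X.transvection (X.classOf α) (G.w (-v)) (X.classOf A) with ha'
  have ha'A : a' ∈ X.Ample := G.ample (-v) _ hA.ample
  have hcl : X.classOf (moveDiv G A v D E E') = (D : ℚ) • a' + t • X.classOf α :=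
    classOf_moveDiv hX hα G A v D E E'
  have hcart : moveDiv G A v D E E' ∈ X.Cartier :=
    sub_mem (cartier_DE hα hA (2 * D) E') (G.cartier v _ (cartier_DE hα hA D E))
  have hample : X.classOf (moveDiv G A v D E E') ∈ X.Ample := by
    rw [hcl]
    exact hα.nef _ (hX.ample_smul _ ha'A _ (by linarith)) _ hE
  have hq : X.q a' a' = X.q (X.classOf A) (X.classOf A) :=
    q_transvection hX hα.isotropic (G.w_orth (-v))
  have hlarge : x₀ ≤ X.q (X.classOf (moveDiv G A v D E E'))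
      (X.classOf (moveDiv G A v D E E')) := by
    rw [hcl, q_add_smul hX, hα.isotropic]
    simp only [map_smul, LinearMap.smul_apply, smul_eq_mul]
    rw [hq]
    have h1 := hA.large
    have h2 := q_ample_alpha hX hα ha'A
    have h3 := hX.q_ample_pos _ hA.ample
    have h4 : (1 : ℚ) ≤ (D : ℚ) * D := by nlinarith
    have h5 : 0 ≤ t * ((D : ℚ) * X.q a' (X.classOf α)) := by positivity
    nlinarith
  obtain ⟨β, hβ, hβ0⟩ := exists_section (hrr _ hcart hample hlarge).2.1
  have hthr : ∀ p ∈ X.thr G.x₀, moveDiv G A v D E E' p = 0 := by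
    intro p hp
    unfold moveDiv
    rw [Finsupp.sub_apply, thr_zero hαt hA _ _ p hp, mapDomain_thr G v (thr_zero hαt hA D E) p hp,
      sub_zero]
  obtain ⟨b, hb⟩ : ∃ b : PS k (2 * n), X.ι G.x₀ β = toFrac k (2 * n) b := by
    refine hX.regular G.x₀ β hβ0 fun p hp => ?_
    have h1 := ((mem_H0_iff hX).mp hβ).resolve_left hβ0 p
    rw [hthr p hp, add_zero] at h1
    exact h1
  refine ⟨b, ?_, fun f hf => ?_⟩
  · rintro rfl
    rw [map_zero] at hb
    exact hβ0 (iota_injective G.x₀ (by rw [hb, map_zero]))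
  · obtain ⟨F, hF, hFf⟩ := mem_secL.mp hf
    refine mem_secL.mpr ⟨β * G.γ v F, ?_, ?_⟩
    · have h1 := mul_mem_H0 hX hβ (γ_mem_H0 hX G v hF)
      unfold moveDiv at h1
      rw [sub_add_cancel] at h1
      exact h1
    · rw [map_mul, map_mul, hb, iota_γ G v hFf]

theorem hgL (hX : X.IsSymplecticVariety n) (hα : X.IsNefIsotropic α)
    (hαt : ∀ p ∈ X.thr G.x₀, α p = 0) {c C : ℚ}
    (hrr : RR X c C x₀) (hA : GoodDivisor G S x₀ A) :
    ∃ C : ℕ, ∀ (v : Fin r → ℤ) (D E : ℕ), 1 ≤ D → ∃ b : PS k (2 * n), b ≠ 0 ∧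
      ∀ f ∈ secL G A D E, b * G.g v f ∈
        secL G A (2 * D) (E + C * D * (1 + ∑ i, (v i).natAbs ^ 2)) := by
  obtain ⟨K, hK0, hK⟩ := q_w_bound G
  set B := X.q (X.classOf α) (X.classOf A) with hB
  have hB0 : 0 < B := by
    rw [hB, hX.q_symm]; exact q_ample_alpha hX hα hA.ample
  obtain ⟨C', hC'⟩ := exists_nat_ge (K * B)
  refine ⟨C', fun v D E hD => ?_⟩
  refine exists_move hX hα hαt hrr hA v hD ?_
  have hD' : (1 : ℚ) ≤ (D : ℚ) := by exact_mod_cast hD
  have h1 : ((∑ i, (v i).natAbs ^ 2 : ℕ) : ℚ) = ∑ i, (v i : ℚ) ^ 2 := by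
    push_cast
    refine Finset.sum_congr rfl fun i _ => ?_
    rw [Nat.cast_natAbs, Int.cast_abs, sq_abs]
  have hs : 0 ≤ ∑ i, (v i : ℚ) ^ 2 := Finset.sum_nonneg fun i _ => sq_nonneg _
  have h2 := (abs_le.mp (hK v)).1
  push_cast at h1 ⊢
  rw [h1, ← hB]
  have h3 : -(K * B * ∑ i, (v i : ℚ) ^ 2) ≤ X.q (G.w v) (G.w v) * B := by
    nlinarith
  have h4 : K * B * ∑ i, (v i : ℚ) ^ 2 ≤ C' * ∑ i, (v i : ℚ) ^ 2 :=
    mul_le_mul_of_nonneg_right hC' hs
  have h5 : (0 : ℚ) ≤ C' := Nat.cast_nonneg C'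
  have h6 : 0 ≤ (D : ℚ) * (X.q (G.w v) (G.w v) * B + C' * ∑ i, (v i : ℚ) ^ 2 + C') := by
    refine mul_nonneg (by linarith) ?_
    linarith
  nlinarith

end move

end Variety

end Pool.Agent.SYZ71
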