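import Pool.Agent.SYZ71.LA

/-!
# SYZ71/LD : linear parts; the inverse function theorem for formal power series

* `coeff_single_algHom`: `f = ∑ c_i X_i + (order ≥ 2)`, `φ` does not decrease orders, and
  `coeff (single l 1) (h * h') = 0` if both have no constant term.
* `exists_algEquiv`: let `φ` be the endomorphism with `φ (X i) = a i` (`exists_algHom`) and `ℓ` the
  linear endomorphism `X i ↦ ∑_l (B i l) X l` with `B` the inverse matrix.  `φ' = ℓ ∘ φ` or `φ ∘ ℓ`
  has linear part the identity, so `φ' (X i) - X i` has order `≥ 2` and by `weightedOrder_sub_id`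
  (`η = 1`) `δ = φ' - 1` raises the order by one.  Injectivity: `φ' f = 0` gives `f = -δ f`, so
  `order f ≥ order f + 1`.  Surjectivity: for `y` the series `∑_j (-1)^j δ^j y` (coefficientwise a
  finite sum: `coeff n` of it `= ∑_{j ≤ |n|} (-1)^j coeff n (δ^j y)`) is a preimage (compare modulo
  each order).  The linear map `ℓ` is bijective with inverse the linear endomorphism of the inverse
  matrix (`algHom_ext`).  `AlgEquiv.ofBijective`.
-/

set_option autoImplicit false

open MvPowerSeries

namespace Pool.Agent.SYZ71

variable {k : Type*} [Field k] {d : ℕ}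

/-- the matrix of the linear parts of the `φ (X i)` -/
noncomputable def linMat (φ : PS k d →ₐ[k] PS k d) : Matrix (Fin d) (Fin d) k :=
  Matrix.of fun i l => coeff (Finsupp.single l 1) (φ (X i))

private theorem two_le_order (f : PS k d) (hf : constantCoeff f = 0)
    (h : ∀ l, coeff (Finsupp.single l 1) f = 0) : ((2 : ℕ) : ℕ∞) ≤ f.order := by
  apply nat_le_order
  intro e he
  rcases Nat.eq_zero_or_pos e.degree with h0 | h0
  · rw [Finsupp.degree_eq_zero_iff] at h0
    subst h0
    simpa using hf
  · obtain ⟨i, hi⟩ : ∃ i, e i ≠ 0 := by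
      by_contra hcon
      push Not at hcon
      have : e = 0 := Finsupp.ext hcon
      subst this
      simp at h0
    have he1 : e = Finsupp.single i 1 := by
      have h1 : Finsupp.single i 1 ≤ e := by
        rw [Finsupp.single_le_iff]
        omega
      obtain ⟨e', rfl⟩ := exists_add_of_le h1
      have h2 : (Finsupp.single i 1 + e').degree = 1 + e'.degree := by
        rw [map_add, Finsupp.degree_single]
      have h3 : e'.degree = 0 := by omega
      rw [Finsupp.degree_eq_zero_iff] at h3
      simp [h3]
    rw [he1]
    exact h i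

private theorem coeff_lin (c : Fin d → k) (l : Fin d) :
    coeff (Finsupp.single l 1) (∑ i, c i • (X i : PS k d)) = c l := by
  classical
  rw [map_sum, Finset.sum_eq_single l]
  · simp [coeff_X]
  · intro i _ hi
    have : (Finsupp.single l 1 : Fin d →₀ ℕ) ≠ Finsupp.single i 1 := by
      intro h
      have h1 := Finsupp.single_left_injective (one_ne_zero : (1 : ℕ) ≠ 0) h
      exact hi h1.symm
    simp [coeff_X, this]
  · intro h
    exact absurd (Finset.mem_univ l) h

theorem coeff_single_algHom (φ : PS k d →ₐ[k] PS k d) (f : PS k d)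
    (hf : constantCoeff f = 0) (l : Fin d) :
    coeff (Finsupp.single l 1) (φ f) =
      ∑ i, coeff (Finsupp.single i 1) f * linMat φ i l := by
  classical
  set g : PS k d := ∑ i, (coeff (Finsupp.single i 1) f) • (X i : PS k d) with hg
  have hgl : ∀ m, coeff (Finsupp.single m 1) g = coeff (Finsupp.single m 1) f := by
    intro m
    rw [hg, coeff_lin]
  have hgc : constantCoeff g = 0 := by
    rw [hg, map_sum]
    apply Finset.sum_eq_zero
    intro i _
    simp
  have h2 : ((2 : ℕ) : ℕ∞) ≤ (φ (f - g)).order := by
    refine (two_le_order _ ?_ ?_).trans (order_algHom_ge φ _)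
    · rw [map_sub, hf, hgc, sub_zero]
    · intro m
      rw [map_sub, hgl, sub_self]
  have h3 : coeff (Finsupp.single l 1) (φ (f - g)) = 0 := by
    apply coeff_of_lt_order
    rw [Finsupp.degree_single]
    exact lt_of_lt_of_le (by norm_num) h2
  rw [map_sub, map_sub, sub_eq_zero] at h3
  rw [h3, hg, map_sum, map_sum]
  simp [linMat]

theorem linMat_comp (φ ψ : PS k d →ₐ[k] PS k d) : linMat (φ.comp ψ) = linMat ψ * linMat φ := by
  ext i l
  rw [Matrix.mul_apply]
  have h := coeff_single_algHom φ (ψ (X i)) (constantCoeff_algHom ψ _ (by simp)) l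
  simpa [linMat] using h

theorem linMat_id : linMat (AlgHom.id k (PS k d)) = 1 := by
  classical
  ext i l
  by_cases h : i = l
  · subst h
    simp [linMat, coeff_X]
  · have : (Finsupp.single l 1 : Fin d →₀ ℕ) ≠ Finsupp.single i 1 := by
      intro h'
      have h1 := Finsupp.single_left_injective (one_ne_zero : (1 : ℕ) ≠ 0) h'
      exact h h1.symm
    simp [linMat, coeff_X, this, Matrix.one_apply_ne h]

theorem isUnit_det_linMat (g : PS k d ≃ₐ[k] PS k d) :
    IsUnit (linMat (g : PS k d →ₐ[k] PS k d)).det := by
  have h : linMat (g : PS k d →ₐ[k] PS k d) * linMat (g.symm : PS k d →ₐ[k] PS k d) = 1 := by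
    rw [← linMat_comp, ← linMat_id (k := k) (d := d)]
    congr 1
    ext f : 1
    simp
  exact Matrix.isUnit_det_of_right_inverse h

private theorem bijective_of_sub_id (φ : PS k d →ₐ[k] PS k d)
    (h : ∀ i, ((2 : ℕ) : ℕ∞) ≤ (φ (X i) - X i).order) : Function.Bijective φ := by
  have hd : ∀ f : PS k d, f.order + 1 ≤ (φ f - f).order := fun f =>
    weightedOrder_sub_id (fun _ => 1) (fun _ => le_rfl) φ (by intro i; exact h i) f
  constructor
  · rw [injective_iff_map_eq_zero]
    intro f hf
    by_contra hne
    have h1 := hd f
    rw [hf, zero_sub, order_neg] at h1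
    have h2 : f.order ≠ ⊤ := by rwa [Ne, order_eq_top_iff]
    obtain ⟨n, hn⟩ := ENat.ne_top_iff_exists.1 h2
    rw [← hn] at h1
    have h3 : n + 1 ≤ n := by exact_mod_cast h1
    omega
  · intro y
    set D : PS k d → PS k d := fun f => f - φ f with hD
    have hDord : ∀ f : PS k d, f.order + 1 ≤ (D f).order := by
      intro f
      have := hd f
      have e : D f = -(φ f - f) := by simp [hD]
      rw [e, order_neg]
      exact this
    have hDn : ∀ (n : ℕ) (f : PS k d), (n : ℕ∞) ≤ (D^[n] f).order := by
      intro n f
      induction n with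
      | zero => simp
      | succ n ih =>
        rw [Function.iterate_succ_apply']
        refine le_trans ?_ (hDord _)
        push_cast
        exact add_le_add_left ih 1
    set x : PS k d := fun e => ∑ j ∈ Finset.range (e.degree + 1), coeff e (D^[j] y) with hx
    have hxc : ∀ e, coeff e x = ∑ j ∈ Finset.range (e.degree + 1), coeff e (D^[j] y) := by
      intro e
      rfl
    have hxq : ∀ q : ℕ, (q : ℕ∞) ≤ (x - ∑ j ∈ Finset.range q, D^[j] y).order := by
      intro q
      apply nat_le_order
      intro e he
      rw [map_sub, map_sum, hxc, sub_eq_zero]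
      apply Finset.sum_subset
      · intro j hj
        rw [Finset.mem_range] at hj ⊢
        omega
      · intro j _ hj
        rw [Finset.mem_range, not_lt] at hj
        apply coeff_of_lt_order
        refine lt_of_lt_of_le ?_ (hDn j y)
        exact_mod_cast (by omega : e.degree < j)
    have hφq : ∀ q : ℕ, φ (∑ j ∈ Finset.range q, D^[j] y) = y - D^[q] y := by
      intro q
      induction q with
      | zero => simp
      | succ q ih =>
        rw [Finset.sum_range_succ, map_add, ih, Function.iterate_succ_apply']
        have : D (D^[q] y) = D^[q] y - φ (D^[q] y) := rfl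
        rw [this]
        abel
    refine ⟨x, ?_⟩
    have hfin : ∀ q : ℕ, (q : ℕ∞) ≤ (φ x - y).order := by
      intro q
      have e1 : φ x - y = φ (x - ∑ j ∈ Finset.range q, D^[j] y) + (- D^[q] y) := by
        rw [map_sub, hφq]
        abel
      rw [e1]
      refine le_trans (le_min ?_ ?_) min_order_le_add
      · exact (hxq q).trans (order_algHom_ge φ _)
      · rw [order_neg]
        exact hDn q y
    have htop : (φ x - y).order = ⊤ := by
      by_contra hne
      obtain ⟨n, hn⟩ := ENat.ne_top_iff_exists.1 hne
      have h1 := hfin (n + 1)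
      rw [← hn] at h1
      have h3 : n + 1 ≤ n := by exact_mod_cast h1
      omega
    rw [order_eq_top_iff, sub_eq_zero] at htop
    exact htop

/-- formal inverse function theorem -/
theorem exists_algEquiv (a : Fin d → PS k d) (ha : ∀ i, constantCoeff (a i) = 0)
    (hdet : (Matrix.of fun i l => coeff (Finsupp.single l 1) (a i)).det ≠ 0) :
    ∃ θ : PS k d ≃ₐ[k] PS k d, ∀ i, θ (X i) = a i := by
  classical
  obtain ⟨φ, hφ⟩ := exists_algHom a ha
  set M : Matrix (Fin d) (Fin d) k := Matrix.of fun i l => coeff (Finsupp.single l 1) (a i) with hM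
  have hu : IsUnit M.det := isUnit_iff_ne_zero.2 hdet
  have hMB : M * M⁻¹ = 1 := Matrix.mul_nonsing_inv M hu
  have hBM : M⁻¹ * M = 1 := Matrix.nonsing_inv_mul M hu
  set B : Matrix (Fin d) (Fin d) k := M⁻¹ with hB
  have hc : ∀ (P : Matrix (Fin d) (Fin d) k) (i : Fin d),
      constantCoeff (∑ l, P i l • (X l : PS k d)) = 0 := by
    intro P i
    rw [map_sum]
    apply Finset.sum_eq_zero
    intro l _
    simp
  obtain ⟨u, hu1⟩ := exists_algHom (fun i => ∑ l, B i l • (X l : PS k d)) (hc B)
  obtain ⟨v, hv1⟩ := exists_algHom (fun i => ∑ l, M i l • (X l : PS k d)) (hc M)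
  have hcomp : ∀ (P Q : Matrix (Fin d) (Fin d) k) (p q : PS k d →ₐ[k] PS k d),
      (∀ i, p (X i) = ∑ l, P i l • (X l : PS k d)) →
      (∀ i, q (X i) = ∑ l, Q i l • (X l : PS k d)) → P * Q = 1 →
      q.comp p = AlgHom.id k (PS k d) := by
    intro P Q p q hp hq hPQ
    apply algHom_ext
    intro i
    have h1 : q (p (X i)) = ∑ m, (P * Q) i m • (X m : PS k d) := by
      rw [hp, map_sum]
      simp only [map_smul, hq, Finset.smul_sum, smul_smul, Matrix.mul_apply, Finset.sum_smul]
      rw [Finset.sum_comm]
    change q (p (X i)) = X i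
    rw [h1, hPQ, Finset.sum_eq_single i]
    · simp
    · intro m _ hm
      simp [Matrix.one_apply_ne hm.symm]
    · intro h
      exact absurd (Finset.mem_univ i) h
  have huv : u.comp v = AlgHom.id k (PS k d) := hcomp M B v u hv1 hu1 hMB
  have hvu : v.comp u = AlgHom.id k (PS k d) := hcomp B M u v hu1 hv1 hBM
  have hφ' : Function.Bijective (φ.comp u) := by
    apply bijective_of_sub_id
    intro i
    apply two_le_order
    · rw [map_sub]
      have h1 : constantCoeff ((φ.comp u) (X i)) = 0 := constantCoeff_algHom _ _ (by simp)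
      rw [h1]
      simp
    · intro l
      rw [map_sub]
      have h1 : coeff (Finsupp.single l 1) ((φ.comp u) (X i)) =
          (1 : Matrix (Fin d) (Fin d) k) i l := by
        rw [← hBM, Matrix.mul_apply]
        change coeff (Finsupp.single l 1) (φ (u (X i))) = _
        rw [hu1, map_sum, map_sum]
        apply Finset.sum_congr rfl
        intro m _
        rw [map_smul, hφ]
        simp [hM]
      have h2 : coeff (Finsupp.single l 1) (X i : PS k d) =
          (1 : Matrix (Fin d) (Fin d) k) i l := by
        rw [← linMat_id]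
        rfl
      rw [h1, h2, sub_self]
  have hv : Function.Bijective v := by
    constructor
    · intro f g hfg
      have h1 : (u.comp v) f = (u.comp v) g := by
        change u (v f) = u (v g)
        rw [hfg]
      rw [huv] at h1
      exact h1
    · intro y
      refine ⟨u y, ?_⟩
      have h1 : (v.comp u) y = y := by rw [hvu]; rfl
      exact h1
  have hφb : Function.Bijective φ := by
    have e : (φ : PS k d → PS k d) = (φ.comp u) ∘ v := by
      funext f
      have h1 : (u.comp v) f = f := by rw [huv]; rfl
      change φ f = φ (u (v f))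
      exact congrArg φ h1.symm
    rw [e]
    exact hφ'.comp hv
  refine ⟨AlgEquiv.ofBijective φ hφb, ?_⟩
  intro i
  rw [AlgEquiv.ofBijective_apply, hφ]

end Pool.Agent.SYZ71
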