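import Pool.Agent.SYZ71.LA

/-!
# SYZ71/LE1 : topological generalised eigenvectors

`G i`, `i < r`, pairwise commuting automorphisms of `PS k d`; `f` is a (topological) generalised
eigenvector for the system of eigenvalues `χ : Fin r → k` if for every `i` and `q` some power of
`G i - χ i` maps `f` into the series of order `≥ q`.

Proofs: `G i - c` does not decrease the order (`order_algEquiv`), so the exponent may be increased.
`isGE_mul`: with `A = G i - a`, `B = G i - b` one has
`(G i - a b)(f h) = A f * G i h + a • (f * B h)`, and by induction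
`(G i - a b)^K (f h) = ∑_j (K choose j) a^(K-j) • (A^j f * (G i)^j (B^(K-j) h))`; for `K = K₁ + K₂`
every term has order `≥ q` (orders add).  `isGE_algEquiv`: `ψ` commutes with `G i - c` and preserves
the order.  `isGE_ne_zero`: if `χ i = 0` then `(G i)^K f` has the order of `f`.
`isGE_const`: automorphisms preserve constant coefficients: `constantCoeff ((G i - c)^K f) =
(1 - c)^K * constantCoeff f` (`f - C c₀` has no constant term, use `constantCoeff_algHom`).
-/

set_option autoImplicit false

open MvPowerSeries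

namespace Pool.Agent.SYZ71

variable {k : Type*} [Field k] {d r : ℕ}

/-- the operator `G - c` -/
noncomputable def shiftOp (G : PS k d ≃ₐ[k] PS k d) (c : k) : Module.End k (PS k d) :=
  (G : PS k d →ₐ[k] PS k d).toLinearMap - c • LinearMap.id

/-- topological generalised eigenvectors -/
def IsGE (G : Fin r → PS k d ≃ₐ[k] PS k d) (χ : Fin r → k) (f : PS k d) : Prop :=
  ∀ (i : Fin r) (q : ℕ), ∃ K : ℕ, (q : ℕ∞) ≤ ((shiftOp (G i) (χ i) ^ K) f).order

private theorem shiftOp_apply (G : PS k d ≃ₐ[k] PS k d) (c : k) (f : PS k d) :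
    shiftOp G c f = G f - c • f := by
  simp [shiftOp]

private theorem order_shiftOp (G : PS k d ≃ₐ[k] PS k d) (c : k) (f : PS k d) :
    f.order ≤ (shiftOp G c f).order := by
  rw [shiftOp_apply, sub_eq_add_neg]
  refine le_trans (le_min ?_ ?_) min_order_le_add
  · rw [order_algEquiv]
  · rw [order_neg]
    exact le_order_smul

theorem order_shiftOp_pow (G : PS k d ≃ₐ[k] PS k d) (c : k) (K : ℕ) (f : PS k d) :
    f.order ≤ ((shiftOp G c ^ K) f).order := by
  induction K with
  | zero => simp
  | succ K ih =>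
    rw [pow_succ', Module.End.mul_apply]
    exact ih.trans (order_shiftOp G c _)

theorem order_shiftOp_pow_mono (G : PS k d ≃ₐ[k] PS k d) (c : k) {K K' : ℕ} (h : K ≤ K')
    (f : PS k d) : ((shiftOp G c ^ K) f).order ≤ ((shiftOp G c ^ K') f).order := by
  obtain ⟨m, rfl⟩ := Nat.exists_eq_add_of_le h
  rw [add_comm, pow_add, Module.End.mul_apply]
  exact order_shiftOp_pow G c m _

private theorem order_mul_ge_left (f h : PS k d) : f.order ≤ (f * h).order :=
  le_trans le_self_add le_order_mul

private theorem order_mul_ge_right (f h : PS k d) : h.order ≤ (f * h).order :=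
  le_trans le_add_self le_order_mul

private theorem shiftOp_pow_algEquiv (G ψ : PS k d ≃ₐ[k] PS k d) (hc : ∀ f, ψ (G f) = G (ψ f)) (c : k)
    (K : ℕ) (f : PS k d) : (shiftOp G c ^ K) (ψ f) = ψ ((shiftOp G c ^ K) f) := by
  induction K generalizing f with
  | zero => simp
  | succ K ih =>
    rw [pow_succ, Module.End.mul_apply, Module.End.mul_apply]
    have : shiftOp G c (ψ f) = ψ (shiftOp G c f) := by
      rw [shiftOp_apply, shiftOp_apply, map_sub, map_smul, hc]
    rw [this, ih]

/-- the product estimate -/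
private theorem mul_aux (G : PS k d ≃ₐ[k] PS k d) (a b : k) (q : ℕ∞) (n : ℕ) :
    ∀ (K₁ K₂ : ℕ) (f h : PS k d), K₁ + K₂ = n → q ≤ ((shiftOp G a ^ K₁) f).order →
      q ≤ ((shiftOp G b ^ K₂) h).order → q ≤ ((shiftOp G (a * b) ^ n) (f * h)).order := by
  induction n with
  | zero =>
    intro K₁ K₂ f h hK hf hh
    have h1 : K₁ = 0 := by omega
    subst h1
    simp only [pow_zero, Module.End.one_apply] at hf ⊢
    exact hf.trans (order_mul_ge_left f h)
  | succ n ih =>
    intro K₁ K₂ f h hK hf hh
    rcases Nat.eq_zero_or_pos K₁ with h1 | h1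
    · subst h1
      simp only [pow_zero, Module.End.one_apply] at hf
      exact (hf.trans (order_mul_ge_left f h)).trans (order_shiftOp_pow G (a * b) _ _)
    rcases Nat.eq_zero_or_pos K₂ with h2 | h2
    · subst h2
      simp only [pow_zero, Module.End.one_apply] at hh
      exact (hh.trans (order_mul_ge_right f h)).trans (order_shiftOp_pow G (a * b) _ _)
    obtain ⟨m₁, rfl⟩ : ∃ m, K₁ = m + 1 := ⟨K₁ - 1, by omega⟩
    obtain ⟨m₂, rfl⟩ : ∃ m, K₂ = m + 1 := ⟨K₂ - 1, by omega⟩
    have hkey : shiftOp G (a * b) (f * h) =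
        shiftOp G a f * G h + a • (f * shiftOp G b h) := by
      simp only [shiftOp_apply, map_mul, sub_mul, mul_sub, smul_sub, smul_mul_assoc,
        mul_smul_comm, smul_smul]
      ring
    rw [pow_succ, Module.End.mul_apply, hkey, map_add, map_smul]
    refine le_trans (le_min ?_ ?_) min_order_le_add
    · apply ih m₁ (m₂ + 1) _ _ (by omega)
      · rw [pow_succ, Module.End.mul_apply] at hf
        exact hf
      · rw [shiftOp_pow_algEquiv G G (fun _ => rfl), order_algEquiv]
        exact hh
    · refine le_trans ?_ le_order_smul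
      apply ih (m₁ + 1) m₂ _ _ (by omega) hf
      rw [pow_succ, Module.End.mul_apply] at hh
      exact hh

variable (G : Fin r → PS k d ≃ₐ[k] PS k d)

theorem isGE_zero (χ : Fin r → k) : IsGE G χ 0 := by
  intro i q
  refine ⟨0, ?_⟩
  simp

theorem isGE_add (χ : Fin r → k) (f h : PS k d) (hf : IsGE G χ f) (hh : IsGE G χ h) :
    IsGE G χ (f + h) := by
  intro i q
  obtain ⟨K₁, h1⟩ := hf i q
  obtain ⟨K₂, h2⟩ := hh i q
  refine ⟨max K₁ K₂, ?_⟩
  rw [map_add]
  refine le_trans (le_min ?_ ?_) min_order_le_add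
  · exact h1.trans (order_shiftOp_pow_mono _ _ (le_max_left _ _) _)
  · exact h2.trans (order_shiftOp_pow_mono _ _ (le_max_right _ _) _)

theorem isGE_smul (χ : Fin r → k) (c : k) (f : PS k d) (hf : IsGE G χ f) :
    IsGE G χ (c • f) := by
  intro i q
  obtain ⟨K, h⟩ := hf i q
  refine ⟨K, ?_⟩
  rw [map_smul]
  exact h.trans le_order_smul

theorem isGE_sum {ι : Type*} (s : Finset ι) (χ : Fin r → k) (f : ι → PS k d)
    (hf : ∀ i ∈ s, IsGE G χ (f i)) : IsGE G χ (∑ i ∈ s, f i) := by
  classical
  induction s using Finset.induction_on with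
  | empty => simpa using isGE_zero G χ
  | insert a s ha ih =>
    rw [Finset.sum_insert ha]
    exact isGE_add G χ _ _ (hf a (Finset.mem_insert_self a s))
      (ih fun i hi => hf i (Finset.mem_insert_of_mem hi))

theorem isGE_C (c : k) : IsGE G (fun _ => 1) (C c) := by
  intro i q
  refine ⟨1, ?_⟩
  rw [pow_one, shiftOp_apply, one_smul]
  have h : G i (C c) = C c := (G i).commutes c
  rw [h, sub_self, order_zero]
  exact le_top

theorem isGE_mul (χ χ' : Fin r → k) (f h : PS k d) (hf : IsGE G χ f) (hh : IsGE G χ' h) :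
    IsGE G (fun i => χ i * χ' i) (f * h) := by
  intro i q
  obtain ⟨K₁, h1⟩ := hf i q
  obtain ⟨K₂, h2⟩ := hh i q
  exact ⟨K₁ + K₂, mul_aux (G i) (χ i) (χ' i) q _ K₁ K₂ f h rfl h1 h2⟩

private theorem isGE_one : IsGE G (fun _ => 1) 1 := by
  have := isGE_C G (1 : k)
  rwa [map_one] at this

private theorem isGE_pow (χ : Fin r → k) (f : PS k d) (hf : IsGE G χ f) (n : ℕ) :
    IsGE G (fun i => χ i ^ n) (f ^ n) := by
  induction n with
  | zero => simpa using isGE_one G
  | succ n ih =>
    have h := isGE_mul G _ _ _ _ ih hf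
    simpa only [pow_succ] using h

private theorem isGE_prod {ι : Type*} (s : Finset ι) (χ : ι → Fin r → k) (f : ι → PS k d)
    (hf : ∀ j ∈ s, IsGE G (χ j) (f j)) : IsGE G (fun i => ∏ j ∈ s, χ j i) (∏ j ∈ s, f j) := by
  classical
  induction s using Finset.induction_on with
  | empty => simpa using isGE_one G
  | insert a s ha ih =>
    have h := isGE_mul G _ _ _ _ (hf a (Finset.mem_insert_self a s))
      (ih fun i hi => hf i (Finset.mem_insert_of_mem hi))
    rw [Finset.prod_insert ha]
    simpa only [Finset.prod_insert ha] using h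

theorem isGE_prod_pow (x : Fin d → PS k d) (χ : Fin d → Fin r → k) (h : ∀ j, IsGE G (χ j) (x j))
    (a : Fin d →₀ ℕ) :
    IsGE G (fun i => ∏ j, χ j i ^ a j) (∏ j, x j ^ a j) :=
  isGE_prod G Finset.univ (fun j i => χ j i ^ a j) (fun j => x j ^ a j)
    (fun j _ => isGE_pow G (χ j) (x j) (h j) (a j))

theorem isGE_algEquiv (ψ : PS k d ≃ₐ[k] PS k d) (hψ : ∀ i, Commute ψ (G i)) (χ : Fin r → k)
    (f : PS k d) (hf : IsGE G χ f) : IsGE G χ (ψ f) := by
  intro i q
  obtain ⟨K, h⟩ := hf i q
  refine ⟨K, ?_⟩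
  rw [shiftOp_pow_algEquiv (G i) ψ (fun x => ?_), order_algEquiv]
  · exact h
  · have := congrArg (fun e : PS k d ≃ₐ[k] PS k d => e x) (hψ i).eq
    simpa [AlgEquiv.mul_apply] using this

/-- closedness -/
theorem isGE_of_approx (χ : Fin r → k) (f : PS k d)
    (h : ∀ q : ℕ, ∃ f' : PS k d, IsGE G χ f' ∧ (q : ℕ∞) ≤ (f - f').order) : IsGE G χ f := by
  intro i q
  obtain ⟨f', hf', ho⟩ := h q
  obtain ⟨K, hK⟩ := hf' i q
  refine ⟨K, ?_⟩
  have e : f = f' + (f - f') := by ring
  rw [e, map_add]
  refine le_trans (le_min hK ?_) min_order_le_add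
  exact ho.trans (order_shiftOp_pow _ _ _ _)

theorem isGE_ne_zero (χ : Fin r → k) (f : PS k d) (hf : IsGE G χ f) (h0 : f ≠ 0) (i : Fin r) :
    χ i ≠ 0 := by
  intro hχ
  have hord : ∀ K : ℕ, ((shiftOp (G i) (χ i) ^ K) f).order = f.order := by
    intro K
    induction K with
    | zero => simp
    | succ K ih =>
      rw [pow_succ', Module.End.mul_apply, shiftOp_apply, hχ, zero_smul, sub_zero,
        order_algEquiv, ← hχ, ih]
  have hfin : f.order.toNat = f.order := ne_zero_iff_order_finite.1 h0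
  obtain ⟨K, hK⟩ := hf i (f.order.toNat + 1)
  rw [hord K, ← hfin] at hK
  have hK' : f.order.toNat + 1 ≤ f.order.toNat := by exact_mod_cast hK
  omega

private theorem constantCoeff_algEquiv (g : PS k d ≃ₐ[k] PS k d) (f : PS k d) :
    constantCoeff (g f) = constantCoeff f := by
  have h := constantCoeff_algHom (g : PS k d →ₐ[k] PS k d) (f - C (constantCoeff f)) (by simp)
  have h2 : g (C (constantCoeff f)) = C (constantCoeff f) := g.commutes _
  have h3 : (g : PS k d →ₐ[k] PS k d) (f - C (constantCoeff f)) =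
      g f - C (constantCoeff f) := by
    rw [AlgEquiv.coe_toAlgHom, map_sub, h2]
  rw [h3, map_sub, constantCoeff_C, sub_eq_zero] at h
  exact h

theorem isGE_const (χ : Fin r → k) (f : PS k d) (hf : IsGE G χ f)
    (h0 : constantCoeff f ≠ 0) (i : Fin r) : χ i = 1 := by
  by_contra hχ
  have hcc : ∀ K : ℕ, constantCoeff ((shiftOp (G i) (χ i) ^ K) f) =
      (1 - χ i) ^ K * constantCoeff f := by
    intro K
    induction K with
    | zero => simp
    | succ K ih =>
      rw [pow_succ', Module.End.mul_apply, shiftOp_apply, map_sub, constantCoeff_algEquiv,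
        constantCoeff_smul, ih]
      rw [smul_eq_mul]
      ring
  obtain ⟨K, hK⟩ := hf i 1
  have h1 : constantCoeff ((shiftOp (G i) (χ i) ^ K) f) = 0 :=
    one_le_order_iff_constCoeff_eq_zero.1 (by exact_mod_cast hK)
  rw [hcc] at h1
  rcases mul_eq_zero.1 h1 with h2 | h2
  · exact hχ (sub_eq_zero.1 (eq_zero_of_pow_eq_zero h2)).symm
  · exact h0 h2

end Pool.Agent.SYZ71
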