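import Pool.Agent.SYZ71.LE1

/-!
# SYZ71/LE2 : independence of generalised eigenvectors for different eigenvalues, modulo any order

Proof.  Let `I_q` be the series of order `≥ q` (stable under all `G i`, `order_algEquiv`).
(a) If `IsGE G χ h`, `c ≠ χ i` and `(G i - c)^K h ∈ I_q` then `h ∈ I_q`: with `(G i - χ i)^K' h ∈ I_q`
the polynomials `(T - c)^K`, `(T - χ i)^K'` are coprime, `1 = A (T - c)^K + B (T - χ i)^K'`, evaluate at
`G i` and apply to `h`.
(b) Fix `χ₀ ∈ S`.  For `χ ∈ S`, `χ ≠ χ₀` choose `i(χ)` with `χ i ≠ χ₀ i` and `K` such that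
`(G i - χ i)^K (f χ) ∈ I_q`.  The product `T` of these (commuting) operators kills, modulo `I_q`, all
`f χ`, `χ ≠ χ₀`; so `T (f χ₀) ∈ I_q`, and (a), applied to the factors one after the other (each
`(…) (f χ₀)` is again `IsGE G χ₀`, since the `G i` commute: `isGE_algEquiv`, `isGE_add`,
`isGE_smul`), gives `f χ₀ ∈ I_q`.
-/

set_option autoImplicit false

open MvPowerSeries

namespace Pool.Agent.SYZ71

variable {k : Type*} [Field k] {d r : ℕ}

/-- the series of order `≥ q` -/
private def iq (q : ℕ) : Submodule k (PS k d) where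
  carrier := {f | (q : ℕ∞) ≤ f.order}
  zero_mem' := by
    show (q : ℕ∞) ≤ (0 : MvPowerSeries (Fin d) k).order
    rw [order_zero]
    exact le_top
  add_mem' := fun {_ _} ha hb => le_trans (le_min ha hb) min_order_le_add
  smul_mem' := fun _ _ hf => le_trans hf le_order_smul

private theorem mem_iq {q : ℕ} {f : PS k d} : f ∈ iq q ↔ (q : ℕ∞) ≤ f.order := Iff.rfl

private theorem shift_mem {q : ℕ} (G : PS k d ≃ₐ[k] PS k d) (c : k) (K : ℕ) {f : PS k d}
    (hf : f ∈ iq q) : (shiftOp G c ^ K) f ∈ iq q :=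
  le_trans (mem_iq.1 hf) (order_shiftOp_pow G c K f)

private theorem pow_mem {q : ℕ} (G : PS k d ≃ₐ[k] PS k d) (n : ℕ) {f : PS k d}
    (hf : f ∈ iq q) :
    (((G : PS k d →ₐ[k] PS k d).toLinearMap : Module.End k (PS k d)) ^ n) f ∈ iq q := by
  induction n with
  | zero => simpa using hf
  | succ n ih =>
    rw [pow_succ', Module.End.mul_apply, mem_iq]
    have h := order_algEquiv G
      ((((G : PS k d →ₐ[k] PS k d).toLinearMap : Module.End k (PS k d)) ^ n) f)
    exact le_trans (mem_iq.1 ih) h.ge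

private theorem aeval_mem {q : ℕ} (G : PS k d ≃ₐ[k] PS k d) (A : Polynomial k) {f : PS k d}
    (hf : f ∈ iq q) :
    (Polynomial.aeval ((G : PS k d →ₐ[k] PS k d).toLinearMap : Module.End k (PS k d)) A) f
      ∈ iq q := by
  rw [Polynomial.aeval_endomorphism, Polynomial.sum_def]
  exact Submodule.sum_mem _ fun n _ => Submodule.smul_mem _ _ (pow_mem G n hf)

private theorem le2_a (G : PS k d ≃ₐ[k] PS k d) {c c' : k} (hc : c ≠ c') {K K' q : ℕ}
    {h : PS k d} (h1 : (shiftOp G c ^ K) h ∈ iq q) (h2 : (shiftOp G c' ^ K') h ∈ iq q) :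
    h ∈ iq q := by
  set T : Module.End k (PS k d) := (G : PS k d →ₐ[k] PS k d).toLinearMap with hT
  have hP : ∀ (c : k) (K : ℕ),
      Polynomial.aeval T ((Polynomial.X - Polynomial.C c) ^ K) = shiftOp G c ^ K := by
    intro c K
    rw [map_pow, map_sub, Polynomial.aeval_X, Polynomial.aeval_C]
    rfl
  have hcop : IsCoprime ((Polynomial.X - Polynomial.C c) ^ K)
      ((Polynomial.X - Polynomial.C c') ^ K') :=
    (Polynomial.isCoprime_X_sub_C_of_isUnit_sub (sub_ne_zero.2 hc).isUnit).pow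
  obtain ⟨A, B, hAB⟩ := hcop
  have h3 := congrArg (fun p : Polynomial k => (Polynomial.aeval T p) h) hAB
  simp only [map_add, map_mul, map_one, LinearMap.add_apply, Module.End.mul_apply,
    Module.End.one_apply, hP] at h3
  rw [← h3]
  exact Submodule.add_mem _ (aeval_mem G A h1) (aeval_mem G B h2)

private theorem shift_isGE (G : Fin r → PS k d ≃ₐ[k] PS k d) (hG : ∀ i j, Commute (G i) (G j))
    (i : Fin r) (c : k) (K : ℕ) {χ : Fin r → k} {f : PS k d} (hf : IsGE G χ f) :
    IsGE G χ ((shiftOp (G i) c ^ K) f) := by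
  induction K with
  | zero => simpa using hf
  | succ K ih =>
    rw [pow_succ', Module.End.mul_apply]
    have e : shiftOp (G i) c ((shiftOp (G i) c ^ K) f)
        = (G i) ((shiftOp (G i) c ^ K) f) + (-c) • ((shiftOp (G i) c ^ K) f) := by
      rw [neg_smul, ← sub_eq_add_neg]
      rfl
    rw [e]
    exact isGE_add G χ _ _ (isGE_algEquiv G (G i) (fun j => hG i j) χ _ ih)
      (isGE_smul G χ (-c) _ ih)

private theorem le2_b (G : Fin r → PS k d ≃ₐ[k] PS k d) (hG : ∀ i j, Commute (G i) (G j))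
    (q : ℕ) (S : Finset (Fin r → k)) :
    ∀ f : (Fin r → k) → PS k d, (∀ χ ∈ S, IsGE G χ (f χ)) → (∑ χ ∈ S, f χ) ∈ iq q →
      ∀ χ ∈ S, f χ ∈ iq q := by
  classical
  induction S using Finset.induction_on with
  | empty =>
    intro f _ _ χ hχ
    exact absurd hχ (Finset.notMem_empty _)
  | insert a s ha ih =>
    intro f hf hsum
    have hs : ∀ χ ∈ s, f χ ∈ iq q := by
      intro χ₀ hχ₀
      have hne : χ₀ ≠ a := fun h => ha (h ▸ hχ₀)
      obtain ⟨i, hi⟩ := Function.ne_iff.1 hne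
      obtain ⟨K, hK⟩ := hf a (Finset.mem_insert_self a s) i q
      obtain ⟨K', hK'⟩ := hf χ₀ (Finset.mem_insert_of_mem hχ₀) i q
      have h1 := ih (fun χ => (shiftOp (G i) (a i) ^ K) (f χ))
        (fun χ hχ => shift_isGE G hG i (a i) K (hf χ (Finset.mem_insert_of_mem hχ))) (by
          have h2 : ∑ χ ∈ s, (shiftOp (G i) (a i) ^ K) (f χ)
              = (shiftOp (G i) (a i) ^ K) (∑ χ ∈ insert a s, f χ)
                - (shiftOp (G i) (a i) ^ K) (f a) := by
            rw [Finset.sum_insert ha, map_add, map_sum]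
            abel
          rw [h2]
          exact Submodule.sub_mem _ (shift_mem (G i) (a i) K hsum) (mem_iq.2 hK)) χ₀ hχ₀
      exact le2_a (G i) hi (mem_iq.2 hK') h1
    intro χ hχ
    rcases Finset.mem_insert.1 hχ with rfl | h
    · have h2 : f χ = ∑ x ∈ insert χ s, f x - ∑ x ∈ s, f x := by
        rw [Finset.sum_insert ha]
        abel
      rw [h2]
      exact Submodule.sub_mem _ hsum (Submodule.sum_mem _ hs)
    · exact hs χ h

theorem isGE_independent (G : Fin r → PS k d ≃ₐ[k] PS k d) (hG : ∀ i j, Commute (G i) (G j))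
    (S : Finset (Fin r → k)) (f : (Fin r → k) → PS k d) (hf : ∀ χ ∈ S, IsGE G χ (f χ)) (q : ℕ)
    (h : (q : ℕ∞) ≤ (∑ χ ∈ S, f χ).order) : ∀ χ ∈ S, (q : ℕ∞) ≤ (f χ).order :=
  fun χ hχ => mem_iq.1 (le2_b G hG q S f hf (mem_iq.2 h) χ hχ)

end Pool.Agent.SYZ71
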