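import Pool.Agent.SYZ71.LE1

/-!
# SYZ71/LE3 : there are enough topological generalised eigenvectors

Statement: every `f` without constant term is, modulo order `≥ 2`, a finite sum of topological
generalised eigenvectors without constant term (`k` algebraically closed, `G i` commuting).

Proof.  For `q : ℕ` let `I q : Submodule k (PS k d)` be the series of order `≥ q`,
`W q = PS k d ⧸ I q`, finite dimensional (spanned by the monomials of degree `< q`), with the
commuting endomorphisms `Gᵢ` induced by `G i`.  By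
`Module.End.iSup_iInf_maxGenEigenspace_eq_top_of_forall_mapsTo` (or the version `..._of_commute`)
`W q` is the sum over `χ : Fin r → k` of `W q χ = ⨅ i, maxGenEigenspace (Gᵢ) (χ i)`, and the sum is
direct (`Module.End.independent_iInf_maxGenEigenspace_of_forall_mapsTo`).
(a) The surjection `W (q+1) → W q` maps `W (q+1) χ` ONTO `W q χ`: decompose a preimage and compare
components (directness).
(b) Hence for `w ∈ W 2 χ` there is `F ∈ PS k d` with `IsGE G χ F` and class `w` in `W 2`: choose
recursively `F_2, F_3, …` with `F_q` mod `I q` in `W q χ`, `F_(q+1) - F_q ∈ I q` (lift the class of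
`F_q` in `W q χ` to `W (q+1) χ` by (a)); the limit `F`, `coeff a F = coeff a F_(|a|+1)`-ish, satisfies
`F - F_q ∈ I q` for all `q ≥ 2`, so `(G i - χ i)^K F ∈ I q` for `K` large.
(c) Decompose the class of `f` in `W 2` and lift the components.  The lift `F_χ` of the component
for `χ` may have a constant coefficient only if `χ = 1` (`isGE_const`); subtract it then
(`isGE_C`, `isGE_add`); as `f` has no constant coefficient and the constant coefficients of the
`F_χ`, `χ ≠ 1`, vanish, this does not change the class of the sum modulo order `2`.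
-/

set_option autoImplicit false

open MvPowerSeries

namespace Pool.Agent.SYZ71

variable {k : Type*} [Field k] {d r : ℕ}

/-- the series of order at least `q` -/
private noncomputable def ordSub (k : Type*) [Field k] (d q : ℕ) : Submodule k (PS k d) where
  carrier := {f | (q : ℕ∞) ≤ f.order}
  add_mem' := fun {a b} ha hb => le_trans (le_min ha hb) min_order_le_add
  zero_mem' := by simp
  smul_mem' := fun c f hf => le_trans hf le_order_smul

private theorem mem_ordSub {q : ℕ} {f : PS k d} : f ∈ ordSub k d q ↔ (q : ℕ∞) ≤ f.order :=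
  Iff.rfl

private theorem mem_ordSub' {q : ℕ} {f : PS k d} :
    f ∈ ordSub k d q ↔ ∀ a : Fin d →₀ ℕ, a.degree < q → coeff a f = 0 := by
  rw [mem_ordSub]
  constructor
  · intro h a ha
    exact coeff_of_lt_order (lt_of_lt_of_le (by exact_mod_cast ha) h)
  · intro h
    exact nat_le_order h

private theorem ordSub_anti {q q' : ℕ} (h : q ≤ q') : ordSub k d q' ≤ ordSub k d q := by
  intro f hf
  rw [mem_ordSub] at *
  exact le_trans (by exact_mod_cast h) hf

private noncomputable def coefMap (k : Type*) [Field k] (d q : ℕ) :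
    PS k d →ₗ[k] ({a : Fin d →₀ ℕ // a.degree < q} → k) :=
  LinearMap.pi fun a => coeff (a : Fin d →₀ ℕ)

private theorem ker_coefMap (q : ℕ) : LinearMap.ker (coefMap k d q) = ordSub k d q := by
  ext f
  rw [mem_ordSub', LinearMap.mem_ker]
  constructor
  · intro h a ha
    exact congrFun h ⟨a, ha⟩
  · intro h
    funext a
    exact h a.1 a.2

private theorem finite_quot (q : ℕ) : FiniteDimensional k (PS k d ⧸ ordSub k d q) := by
  rw [← ker_coefMap]
  have : Finite {a : Fin d →₀ ℕ // a.degree < q} :=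
    (Finsupp.finite_of_degree_lt (σ := Fin d) q).to_subtype
  exact Module.Finite.equiv (coefMap k d q).quotKerEquivRange.symm

private theorem le_comap (g : PS k d ≃ₐ[k] PS k d) (q : ℕ) :
    ordSub k d q ≤ (ordSub k d q).comap (g : PS k d →ₐ[k] PS k d).toLinearMap := by
  intro f hf
  rw [Submodule.mem_comap, mem_ordSub]
  have := order_algEquiv g f
  rw [mem_ordSub] at hf
  change (q : ℕ∞) ≤ (g f).order
  rw [this]
  exact hf

/-- the induced endomorphism of the quotient -/
private noncomputable def qEnd (g : PS k d ≃ₐ[k] PS k d) (q : ℕ) :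
    Module.End k (PS k d ⧸ ordSub k d q) :=
  (ordSub k d q).mapQ (ordSub k d q) (g : PS k d →ₐ[k] PS k d).toLinearMap (le_comap g q)

private theorem qEnd_mk (g : PS k d ≃ₐ[k] PS k d) (q : ℕ) (f : PS k d) :
    qEnd g q ((ordSub k d q).mkQ f) = (ordSub k d q).mkQ (g f) := rfl

private theorem qEnd_pow_mk (g : PS k d ≃ₐ[k] PS k d) (c : k) (q K : ℕ) (f : PS k d) :
    ((qEnd g q - c • (1 : Module.End k (PS k d ⧸ ordSub k d q))) ^ K) ((ordSub k d q).mkQ f) =
      (ordSub k d q).mkQ ((shiftOp g c ^ K) f) := by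
  induction K generalizing f with
  | zero => simp
  | succ K ih =>
    rw [pow_succ, pow_succ, Module.End.mul_apply, Module.End.mul_apply, ← ih]
    congr 1

private theorem qEnd_commute (g h : PS k d ≃ₐ[k] PS k d) (hgh : Commute g h) (q : ℕ) :
    Commute (qEnd g q) (qEnd h q) := by
  refine LinearMap.ext fun x => ?_
  obtain ⟨f, rfl⟩ := (ordSub k d q).mkQ_surjective x
  rw [Module.End.mul_apply, Module.End.mul_apply, qEnd_mk, qEnd_mk, qEnd_mk, qEnd_mk]
  have := congrArg (fun φ : PS k d ≃ₐ[k] PS k d => φ f) hgh.eq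
  exact congrArg _ this

/-- generalised eigenvectors modulo order `q` -/
private noncomputable def EE (G : Fin r → PS k d ≃ₐ[k] PS k d) (q : ℕ) (χ : Fin r → k) :
    Submodule k (PS k d) :=
  (⨅ i, (qEnd (G i) q).maxGenEigenspace (χ i)).comap (ordSub k d q).mkQ

private theorem mem_EE (G : Fin r → PS k d ≃ₐ[k] PS k d) (q : ℕ) (χ : Fin r → k) (f : PS k d) :
    f ∈ EE G q χ ↔ ∀ i, ∃ K, (q : ℕ∞) ≤ ((shiftOp (G i) (χ i) ^ K) f).order := by
  unfold EE
  rw [Submodule.mem_comap, Module.End.mem_iInf_maxGenEigenspace_iff]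
  refine forall_congr' fun i => exists_congr fun K => ?_
  rw [show ((qEnd (G i) q - χ i • (1 : Module.End k (PS k d ⧸ ordSub k d q))) ^ K)
    ((ordSub k d q).mkQ f) = _ from qEnd_pow_mk (G i) (χ i) q K f]
  rw [← mem_ordSub]
  exact Submodule.Quotient.mk_eq_zero _

private theorem EE_anti (G : Fin r → PS k d ≃ₐ[k] PS k d) {q q' : ℕ} (h : q ≤ q')
    (χ : Fin r → k) : EE G q' χ ≤ EE G q χ := by
  intro f hf
  rw [mem_EE] at *
  intro i
  obtain ⟨K, hK⟩ := hf i
  exact ⟨K, le_trans (by exact_mod_cast h) hK⟩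

private theorem EE_exists [IsAlgClosed k] (G : Fin r → PS k d ≃ₐ[k] PS k d)
    (hG : ∀ i j, Commute (G i) (G j)) (q : ℕ) (f : PS k d) :
    ∃ (S : Finset (Fin r → k)) (F : (Fin r → k) → PS k d),
      (∀ χ, F χ ∈ EE G q χ) ∧ f - ∑ χ ∈ S, F χ ∈ ordSub k d q := by
  have := finite_quot (k := k) (d := d) q
  have htop : ⨆ χ : Fin r → k, ⨅ i, (qEnd (G i) q).maxGenEigenspace (χ i) = ⊤ :=
    Module.End.iSup_iInf_maxGenEigenspace_eq_top_of_iSup_maxGenEigenspace_eq_top_of_commute
      (fun i => qEnd (G i) q) (fun i j _ => qEnd_commute _ _ (hG i j) q)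
      (fun i => Module.End.iSup_maxGenEigenspace_eq_top _)
  have hmem : (ordSub k d q).mkQ f ∈
      ⨆ χ : Fin r → k, ⨅ i, (qEnd (G i) q).maxGenEigenspace (χ i) := by
    rw [htop]; trivial
  obtain ⟨w, hw, hsum⟩ := (Submodule.mem_iSup_iff_exists_finsupp _ _).mp hmem
  choose F hF using fun χ => (ordSub k d q).mkQ_surjective (w χ)
  refine ⟨w.support, F, fun χ => ?_, ?_⟩
  · unfold EE
    rw [Submodule.mem_comap, hF]
    exact hw χ
  · have h0 : (ordSub k d q).mkQ (f - ∑ χ ∈ w.support, F χ) = 0 := by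
      rw [map_sub, map_sum, ← hsum, Finsupp.sum, sub_eq_zero]
      exact Finset.sum_congr rfl fun χ _ => (hF χ).symm
    exact (Submodule.Quotient.mk_eq_zero _).mp h0

private theorem EE_indep (G : Fin r → PS k d ≃ₐ[k] PS k d)
    (hG : ∀ i j, Commute (G i) (G j)) (q : ℕ) (S : Finset (Fin r → k))
    (F : (Fin r → k) → PS k d) (hF : ∀ χ ∈ S, F χ ∈ EE G q χ)
    (h0 : ∑ χ ∈ S, F χ ∈ ordSub k d q) : ∀ χ ∈ S, F χ ∈ ordSub k d q := by
  have hind := Module.End.independent_iInf_maxGenEigenspace_of_forall_mapsTo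
    (fun i => qEnd (G i) q) (fun i j φ =>
      Module.End.mapsTo_maxGenEigenspace_of_comm (qEnd_commute _ _ (hG j i) q) φ)
  rw [iSupIndep_iff_finsetSum_eq_zero_imp_eq_zero] at hind
  intro χ hχ
  refine (Submodule.Quotient.mk_eq_zero _).mp ?_
  refine hind S (fun χ => (ordSub k d q).mkQ (F χ)) (fun χ hχ => hF χ hχ) ?_ χ hχ
  rw [← map_sum]
  exact (Submodule.Quotient.mk_eq_zero _).mpr h0

/-- step (a) -/
private theorem EE_lift [IsAlgClosed k] (G : Fin r → PS k d ≃ₐ[k] PS k d)
    (hG : ∀ i j, Commute (G i) (G j)) (q : ℕ) (χ : Fin r → k) (w : PS k d)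
    (hw : w ∈ EE G q χ) : ∃ w' ∈ EE G (q + 1) χ, w' - w ∈ ordSub k d q := by
  classical
  obtain ⟨S, F, hF, hsum⟩ := EE_exists G hG (q + 1) w
  have hsum' := ordSub_anti (Nat.le_succ q) hsum
  -- `Σ_S F - w` modulo order `q`
  set S' := insert χ S with hS'
  set F' : (Fin r → k) → PS k d := fun χ' =>
    (if χ' ∈ S then F χ' else 0) - (if χ' = χ then w else 0) with hF'
  have hF'mem : ∀ χ' ∈ S', F' χ' ∈ EE G q χ' := by
    intro χ' _
    refine Submodule.sub_mem _ ?_ ?_
    · split_ifs
      · exact EE_anti G (Nat.le_succ q) _ (hF χ')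
      · exact Submodule.zero_mem _
    · split_ifs with h
      · rw [h]; exact hw
      · exact Submodule.zero_mem _
  have hsum'' : ∑ χ' ∈ S', F' χ' ∈ ordSub k d q := by
    have h1 : ∑ χ' ∈ S', F' χ' = -(w - ∑ χ' ∈ S, F χ') := by
      rw [hF', Finset.sum_sub_distrib]
      have e1 : ∑ χ' ∈ S', (if χ' ∈ S then F χ' else 0) = ∑ χ' ∈ S, F χ' := by
        rw [← Finset.sum_filter]
        refine Finset.sum_congr ?_ fun _ _ => rfl
        ext x
        simp only [hS', Finset.mem_filter, Finset.mem_insert]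
        tauto
      have e2 : ∑ χ' ∈ S', (if χ' = χ then w else 0) = w := by
        rw [Finset.sum_ite_eq']
        simp [hS']
      rw [e1, e2]
      abel
    rw [h1]
    exact Submodule.neg_mem _ hsum'
  have hχ := EE_indep G hG q S' F' hF'mem hsum'' χ (by simp [hS'])
  by_cases hin : χ ∈ S
  · refine ⟨F χ, hF χ, ?_⟩
    simpa [hF', hin] using hχ
  · refine ⟨0, Submodule.zero_mem _, ?_⟩
    simpa [hF', hin] using hχ

/-- step (b) -/
private theorem EE_lift_GE [IsAlgClosed k] (G : Fin r → PS k d ≃ₐ[k] PS k d)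
    (hG : ∀ i j, Commute (G i) (G j)) (χ : Fin r → k) (w : PS k d)
    (hw : w ∈ EE G 2 χ) : ∃ F, IsGE G χ F ∧ F - w ∈ ordSub k d 2 := by
  choose nxt hnxt1 hnxt2 using fun (q : ℕ) (w : PS k d) (hw : w ∈ EE G q χ) =>
    EE_lift G hG q χ w hw
  let seq : (n : ℕ) → {w : PS k d // w ∈ EE G (n + 2) χ} := fun n =>
    Nat.rec ⟨w, hw⟩ (fun n x => ⟨nxt (n + 2) x.1 x.2, hnxt1 (n + 2) x.1 x.2⟩) n
  have hseq0 : (seq 0).1 = w := rfl
  have hseq : ∀ n, (seq (n + 1)).1 - (seq n).1 ∈ ordSub k d (n + 2) := fun n =>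
    hnxt2 (n + 2) (seq n).1 (seq n).2
  have hseq' : ∀ n m, (seq (n + m)).1 - (seq n).1 ∈ ordSub k d (n + 2) := by
    intro n m
    induction m with
    | zero => simp
    | succ m ih =>
      have h1 := ordSub_anti (k := k) (d := d) (show n + 2 ≤ (n + m) + 2 by omega) (hseq (n + m))
      have := Submodule.add_mem _ h1 ih
      rw [sub_add_sub_cancel] at this
      exact this
  let F : PS k d := fun a => coeff a (seq a.degree).1
  have hFc : ∀ a, coeff a F = coeff a (seq a.degree).1 := fun a => rfl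
  have hF : ∀ n, F - (seq n).1 ∈ ordSub k d (n + 2) := by
    intro n
    rw [mem_ordSub']
    intro a ha
    rw [map_sub, hFc, sub_eq_zero]
    rcases le_or_gt a.degree n with hle | hgt
    · obtain ⟨m, rfl⟩ := Nat.exists_eq_add_of_le hle
      have := hseq' a.degree m
      rw [mem_ordSub'] at this
      have h2 := this a (by omega)
      rw [map_sub, sub_eq_zero] at h2
      exact h2.symm
    · have hd : a.degree = n + 1 := by omega
      rw [hd]
      have := hseq n
      rw [mem_ordSub'] at this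
      have h2 := this a (by omega)
      rw [map_sub, sub_eq_zero] at h2
      exact h2
  refine ⟨F, ?_, ?_⟩
  · intro i q
    obtain ⟨K, hK⟩ := (mem_EE G (q + 2) χ _).mp (seq q).2 i
    refine ⟨K, ?_⟩
    have h1 : (shiftOp (G i) (χ i) ^ K) F =
        (shiftOp (G i) (χ i) ^ K) (seq q).1 + (shiftOp (G i) (χ i) ^ K) (F - (seq q).1) := by
      rw [← map_add, add_sub_cancel]
    rw [h1]
    have h2 : ((q + 2 : ℕ) : ℕ∞) ≤ ((shiftOp (G i) (χ i) ^ K) (F - (seq q).1)).order :=
      le_trans (hF q) (order_shiftOp_pow _ _ _ _)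
    refine le_trans ?_ (le_trans (le_min hK h2) min_order_le_add)
    exact_mod_cast (by omega : q ≤ q + 2)
  · exact hF 0

theorem exists_GE_decomp [IsAlgClosed k] (G : Fin r → PS k d ≃ₐ[k] PS k d)
    (hG : ∀ i j, Commute (G i) (G j)) (f : PS k d) (hf : constantCoeff f = 0) :
    ∃ (S : Finset (Fin r → k)) (F : (Fin r → k) → PS k d),
      (∀ χ ∈ S, IsGE G χ (F χ) ∧ constantCoeff (F χ) = 0) ∧
      (2 : ℕ∞) ≤ (f - ∑ χ ∈ S, F χ).order := by
  obtain ⟨S, w, hw, hsum⟩ := EE_exists G hG 2 f
  choose F hF1 hF2 using fun χ => EE_lift_GE G hG χ (w χ) (hw χ)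
  have hC : ∀ χ, IsGE G χ (C (-(constantCoeff (F χ)))) := by
    intro χ
    by_cases h0 : constantCoeff (F χ) = 0
    · rw [h0, neg_zero, map_zero]
      exact isGE_zero G χ
    · have : χ = fun _ => 1 := funext fun i => isGE_const G χ (F χ) (hF1 χ) h0 i
      have h1 := isGE_C (d := d) G (-(constantCoeff (F χ)))
      rw [← this] at h1
      exact h1
  refine ⟨S, fun χ => F χ + C (-(constantCoeff (F χ))), fun χ _ => ⟨?_, ?_⟩, ?_⟩
  · exact isGE_add G χ _ _ (hF1 χ) (hC χ)
  · rw [map_add, constantCoeff_C, add_neg_cancel]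
  · set c : k := ∑ χ ∈ S, constantCoeff (F χ) with hc
    set g : PS k d := f - ∑ χ ∈ S, F χ with hg
    have hg2 : g ∈ ordSub k d 2 := by
      have h1 : g = (f - ∑ χ ∈ S, w χ) - ∑ χ ∈ S, (F χ - w χ) := by
        rw [hg, Finset.sum_sub_distrib]; abel
      rw [h1]
      exact Submodule.sub_mem _ hsum (Submodule.sum_mem _ fun χ _ => hF2 χ)
    have hg0 : constantCoeff g = 0 := by
      have := (mem_ordSub'.mp hg2) 0 (by simp)
      simpa using this
    have hc0 : c = 0 := by
      rw [hg, map_sub, hf, map_sum, zero_sub, neg_eq_zero] at hg0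
      exact hg0
    have h3 : f - ∑ χ ∈ S, (F χ + C (-(constantCoeff (F χ)))) = g := by
      rw [Finset.sum_add_distrib, ← map_sum, Finset.sum_neg_distrib, ← hc, hc0, neg_zero,
        map_zero, add_zero]
    rw [h3]
    exact hg2

end Pool.Agent.SYZ71
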