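import Pool.Agent.SYZ71.LD
import Pool.Agent.SYZ71.LE3

/-!
# SYZ71/LF1 : linear parts and a triangular system of topological generalised eigenvectors
-/

set_option autoImplicit false

open MvPowerSeries

namespace Pool.Agent.SYZ71

variable {k : Type*} [Field k] {d r : ℕ}

/-- the linear part of a power series -/
noncomputable def lin (k : Type*) [Field k] (d : ℕ) : PS k d →ₗ[k] (Fin d → k) :=
  LinearMap.pi fun l => coeff (Finsupp.single l 1)

theorem lin_apply (f : PS k d) (l : Fin d) : lin k d f l = coeff (Finsupp.single l 1) f := rfl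

theorem lin_algHom (φ : PS k d →ₐ[k] PS k d) (f : PS k d) (hf : constantCoeff f = 0) :
    lin k d (φ f) = Matrix.vecMul (lin k d f) (linMat φ) := by
  funext l
  rw [lin_apply, coeff_single_algHom φ f hf l]
  rfl

theorem lin_algEquiv (g : PS k d ≃ₐ[k] PS k d) (f : PS k d) (hf : constantCoeff f = 0) :
    lin k d (g f) = Matrix.vecMul (lin k d f) (linMat (g : PS k d →ₐ[k] PS k d)) :=
  lin_algHom (g : PS k d →ₐ[k] PS k d) f hf

theorem lin_X (i : Fin d) : lin k d (X i) = Pi.single i 1 := by
  classical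
  funext l
  rw [lin_apply, MvPowerSeries.coeff_X, Pi.single_apply]
  by_cases h : l = i
  · subst h; simp
  · rw [if_neg h, if_neg]
    intro h2
    apply h
    have := Finsupp.single_eq_single_iff _ _ _ _ |>.1 h2
    rcases this with h3 | h3
    · exact h3.1
    · exact absurd h3.1 one_ne_zero

theorem lin_eq_zero_of_order (f : PS k d) (h : (2 : ℕ∞) ≤ f.order) : lin k d f = 0 := by
  funext l
  rw [lin_apply]
  change _ = (0 : k)
  apply coeff_of_lt_order
  rw [Finsupp.degree_single]
  refine lt_of_lt_of_le ?_ h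
  norm_num

theorem constantCoeff_algEquiv' (g : PS k d ≃ₐ[k] PS k d) (f : PS k d)
    (hf : constantCoeff f = 0) : constantCoeff (g f) = 0 :=
  constantCoeff_algHom (g : PS k d →ₐ[k] PS k d) f hf

theorem shiftOp_apply (G : PS k d ≃ₐ[k] PS k d) (c : k) (f : PS k d) :
    shiftOp G c f = G f - c • f := rfl

theorem constantCoeff_smul' (c : k) (f : PS k d) :
    constantCoeff (c • f) = c * constantCoeff f := by
  simp

theorem constantCoeff_shiftOp (G : PS k d ≃ₐ[k] PS k d) (c : k) (f : PS k d)
    (hf : constantCoeff f = 0) : constantCoeff (shiftOp G c f) = 0 := by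
  rw [shiftOp_apply, map_sub, constantCoeff_smul', constantCoeff_algEquiv' G f hf, hf]
  simp

theorem constantCoeff_shiftOp_pow (G : PS k d ≃ₐ[k] PS k d) (c : k) (K : ℕ) (f : PS k d)
    (hf : constantCoeff f = 0) : constantCoeff ((shiftOp G c ^ K) f) = 0 := by
  induction K with
  | zero => simpa using hf
  | succ K ih =>
    rw [pow_succ']
    exact constantCoeff_shiftOp G c _ ih

theorem isGE_sub (G : Fin r → PS k d ≃ₐ[k] PS k d) (χ : Fin r → k) (f h : PS k d)
    (hf : IsGE G χ f) (hh : IsGE G χ h) : IsGE G χ (f - h) := by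
  have h1 : f - h = f + (-1 : k) • h := by
    rw [neg_smul, one_smul, sub_eq_add_neg]
  rw [h1]
  exact isGE_add G χ f _ hf (isGE_smul G χ _ h hh)

theorem isGE_shiftOp (G : Fin r → PS k d ≃ₐ[k] PS k d) (hG : ∀ i j, Commute (G i) (G j))
    (χ : Fin r → k) (l : Fin r) (c : k) (f : PS k d) (hf : IsGE G χ f) :
    IsGE G χ (shiftOp (G l) c f) := by
  rw [shiftOp_apply]
  exact isGE_sub G χ _ _ (isGE_algEquiv G (G l) (fun i => hG l i) χ f hf) (isGE_smul G χ c f hf)

theorem isGE_shiftOp_pow (G : Fin r → PS k d ≃ₐ[k] PS k d) (hG : ∀ i j, Commute (G i) (G j))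
    (χ : Fin r → k) (l : Fin r) (c : k) (K : ℕ) (f : PS k d) (hf : IsGE G χ f) :
    IsGE G χ ((shiftOp (G l) c ^ K) f) := by
  induction K with
  | zero => simpa using hf
  | succ K ih =>
    rw [pow_succ']
    exact isGE_shiftOp G hG χ l c _ ih

theorem shiftOp_commute (G G' : PS k d ≃ₐ[k] PS k d) (h : Commute G G') (c c' : k) :
    Commute (shiftOp G c) (shiftOp G' c') := by
  apply LinearMap.ext
  intro f
  have h1 : G (G' f) = G' (G f) := by
    have := congrArg (fun φ : PS k d ≃ₐ[k] PS k d => φ f) h.eq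
    exact this
  change G (G' f - c' • f) - c • (G' f - c' • f) = G' (G f - c • f) - c' • (G f - c • f)
  rw [map_sub, map_sub, map_smul, map_smul, h1, smul_sub, smul_sub, smul_comm c c' f]
  abel

/-- invariance of a subspace of linear parts under `shiftOp` -/
theorem lin_shiftOp_mem (G : PS k d ≃ₐ[k] PS k d) (c : k) (U : Submodule k (Fin d → k))
    (hU : ∀ f : PS k d, constantCoeff f = 0 → lin k d f ∈ U → lin k d (G f) ∈ U)
    (f : PS k d) (hf : constantCoeff f = 0) (h : lin k d f ∈ U) :
    lin k d (shiftOp G c f) ∈ U := by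
  rw [shiftOp_apply, map_sub, map_smul]
  exact U.sub_mem (hU f hf h) (U.smul_mem c h)

theorem lin_shiftOp_pow_mem (G : PS k d ≃ₐ[k] PS k d) (c : k) (U : Submodule k (Fin d → k))
    (hU : ∀ f : PS k d, constantCoeff f = 0 → lin k d f ∈ U → lin k d (G f) ∈ U) (K : ℕ)
    (f : PS k d) (hf : constantCoeff f = 0) (h : lin k d f ∈ U) :
    lin k d ((shiftOp G c ^ K) f) ∈ U := by
  induction K with
  | zero => simpa using h
  | succ K ih =>
    rw [pow_succ']
    exact lin_shiftOp_mem G c U hU _ (constantCoeff_shiftOp_pow G c K f hf) ih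

/-- refine a generalised eigenvector with linear part outside the invariant subspace `U` to one
which is an eigenvector modulo `U` for the operators in `s` -/
theorem exists_refine (G : Fin r → PS k d ≃ₐ[k] PS k d) (hG : ∀ i j, Commute (G i) (G j))
    (U : Submodule k (Fin d → k))
    (hU : ∀ (l : Fin r) (f : PS k d), constantCoeff f = 0 → lin k d f ∈ U →
      lin k d (G l f) ∈ U)
    (χ : Fin r → k) (F : PS k d) (hF : IsGE G χ F) (hF0 : constantCoeff F = 0)
    (hFU : lin k d F ∉ U) (s : Finset (Fin r)) :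
    ∃ F' : PS k d, IsGE G χ F' ∧ constantCoeff F' = 0 ∧ lin k d F' ∉ U ∧
      ∀ l ∈ s, lin k d (shiftOp (G l) (χ l) F') ∈ U := by
  classical
  induction s using Finset.induction_on with
  | empty => exact ⟨F, hF, hF0, hFU, by simp⟩
  | insert l₀ s hl₀ ih =>
    obtain ⟨F', h1, h2, h3, h4⟩ := ih
    have hex : ∃ K : ℕ, lin k d ((shiftOp (G l₀) (χ l₀) ^ K) F') ∈ U := by
      obtain ⟨K, hK⟩ := h1 l₀ 2
      refine ⟨K, ?_⟩
      rw [lin_eq_zero_of_order _ (by exact_mod_cast hK)]
      exact U.zero_mem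
    have hspec := Nat.find_spec hex
    have hmin := fun m hm => Nat.find_min hex (m := m) hm
    set K := Nat.find hex with hK
    have hK0 : K ≠ 0 := by
      intro h0
      rw [h0] at hspec
      exact h3 (by simpa using hspec)
    obtain ⟨K', hK'⟩ := Nat.exists_eq_succ_of_ne_zero hK0
    refine ⟨(shiftOp (G l₀) (χ l₀) ^ K') F', isGE_shiftOp_pow G hG χ l₀ _ K' F' h1,
      constantCoeff_shiftOp_pow _ _ _ _ h2, hmin K' (by omega), ?_⟩
    intro l hl
    rw [Finset.mem_insert] at hl
    rcases hl with rfl | hl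
    · have h5 : shiftOp (G l) (χ l) ((shiftOp (G l) (χ l) ^ K') F') =
          (shiftOp (G l) (χ l) ^ K) F' := by
        rw [hK', Nat.succ_eq_add_one, pow_succ']
        rfl
      rw [h5]
      exact hspec
    · have hc : Commute (shiftOp (G l) (χ l)) (shiftOp (G l₀) (χ l₀) ^ K') :=
        (shiftOp_commute (G l) (G l₀) (hG l l₀) (χ l) (χ l₀)).pow_right K'
      have h5 : shiftOp (G l) (χ l) ((shiftOp (G l₀) (χ l₀) ^ K') F') =
          (shiftOp (G l₀) (χ l₀) ^ K') (shiftOp (G l) (χ l) F') := by
        have := congrArg (fun T : Module.End k (PS k d) => T F') hc.eq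
        exact this
      rw [h5]
      exact lin_shiftOp_pow_mem (G l₀) (χ l₀) U (hU l₀) K' _
        (constantCoeff_shiftOp _ _ _ h2) (h4 l hl)

theorem exists_GE_not_mem [IsAlgClosed k] (G : Fin r → PS k d ≃ₐ[k] PS k d)
    (hG : ∀ i j, Commute (G i) (G j)) (U : Submodule k (Fin d → k)) (hU : U ≠ ⊤) :
    ∃ (χ : Fin r → k) (F : PS k d), IsGE G χ F ∧ constantCoeff F = 0 ∧ lin k d F ∉ U := by
  classical
  by_contra hno
  push Not at hno
  apply hU
  rw [eq_top_iff]
  have hX : ∀ i : Fin d, (Pi.single i 1 : Fin d → k) ∈ U := by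
    intro i
    obtain ⟨S, F, h1, h2⟩ := exists_GE_decomp G hG (X i) (by simp)
    have h3 := lin_eq_zero_of_order _ h2
    rw [map_sub, sub_eq_zero, map_sum, lin_X] at h3
    rw [h3]
    exact U.sum_mem fun χ hχ => hno χ (F χ) (h1 χ hχ).1 (h1 χ hχ).2
  intro v _
  have hv : v = ∑ i, v i • (Pi.single i 1 : Fin d → k) := pi_eq_sum_univ' v
  rw [hv]
  exact U.sum_mem fun i _ => U.smul_mem _ (hX i)

/-- A triangular system of topological generalised eigenvectors. -/
theorem exists_triangular [IsAlgClosed k] (G : Fin r → PS k d ≃ₐ[k] PS k d)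
    (hG : ∀ i j, Commute (G i) (G j)) (m : ℕ) (hm : m ≤ d) :
    ∃ (a : Fin m → PS k d) (χ : Fin m → Fin r → k), (∀ i, constantCoeff (a i) = 0) ∧
      (∀ i, IsGE G (χ i) (a i)) ∧ LinearIndependent k (fun i => lin k d (a i)) ∧
      ∀ i l, lin k d (G l (a i)) - χ i l • lin k d (a i) ∈
        Submodule.span k ((fun j => lin k d (a j)) '' {j | i < j}) := by
  classical
  induction m with
  | zero =>
    exact ⟨Fin.elim0, Fin.elim0, fun i => i.elim0, fun i => i.elim0,
      linearIndependent_empty_type, fun i => i.elim0⟩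
  | succ m ih =>
    obtain ⟨a, χ, h1, h2, h3, h4⟩ := ih (by omega)
    set U : Submodule k (Fin d → k) := Submodule.span k (Set.range fun i => lin k d (a i))
      with hUdef
    have hUtop : U ≠ ⊤ := by
      intro htop
      have h5 := finrank_span_eq_card h3
      rw [← hUdef, htop, finrank_top, Module.finrank_fin_fun, Fintype.card_fin] at h5
      omega
    have hUG : ∀ (l : Fin r) (f : PS k d), constantCoeff f = 0 → lin k d f ∈ U →
        lin k d (G l f) ∈ U := by
      intro l f hf hfU
      rw [lin_algEquiv (G l) f hf]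
      have h5 : U ≤ U.comap (Matrix.vecMulLinear
          (linMat ((G l : PS k d ≃ₐ[k] PS k d) : PS k d →ₐ[k] PS k d))) := by
        rw [hUdef, Submodule.span_le]
        rintro _ ⟨i, rfl⟩
        rw [SetLike.mem_coe, Submodule.mem_comap]
        change Matrix.vecMul (lin k d (a i)) _ ∈ _
        rw [← lin_algEquiv (G l) (a i) (h1 i)]
        have h6 := h4 i l
        have h7 : lin k d (G l (a i)) =
            (lin k d (G l (a i)) - χ i l • lin k d (a i)) + χ i l • lin k d (a i) := by abel
        rw [h7]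
        refine Submodule.add_mem _ ?_ (Submodule.smul_mem _ _ (Submodule.subset_span ⟨i, rfl⟩))
        exact Submodule.span_mono (Set.image_subset_range _ _) h6
      exact h5 hfU
    obtain ⟨χ₀, F, hF, hF0, hFU⟩ := exists_GE_not_mem G hG U hUtop
    obtain ⟨F', g1, g2, g3, g4⟩ := exists_refine G hG U hUG χ₀ F hF hF0 hFU Finset.univ
    refine ⟨Fin.cons F' a, Fin.cons χ₀ χ, ?_, ?_, ?_, ?_⟩
    · intro i
      refine Fin.cases ?_ (fun j => ?_) i
      · simpa using g2
      · simpa using h1 j
    · intro i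
      refine Fin.cases ?_ (fun j => ?_) i
      · simpa using g1
      · simpa using h2 j
    · have h5 : (fun i => lin k d ((Fin.cons F' a : Fin (m + 1) → PS k d) i)) =
          (Fin.cons (lin k d F') (fun i => lin k d (a i)) : Fin (m + 1) → (Fin d → k)) := by
        funext i
        refine Fin.cases ?_ (fun j => ?_) i
        · simp
        · simp
      rw [h5, linearIndependent_finCons]
      exact ⟨h3, g3⟩
    · intro i l
      refine Fin.cases ?_ (fun j => ?_) i
      · have h5 := g4 l (Finset.mem_univ l)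
        rw [shiftOp_apply, map_sub, map_smul] at h5
        simp only [Fin.cons_zero]
        refine Submodule.span_mono ?_ h5
        rintro _ ⟨j, rfl⟩
        exact ⟨j.succ, Fin.succ_pos j, by simp⟩
      · simp only [Fin.cons_succ]
        refine Submodule.span_mono ?_ (h4 j l)
        rintro _ ⟨j', hj', rfl⟩
        exact ⟨j'.succ, Fin.succ_lt_succ_iff.2 hj', by simp⟩

end Pool.Agent.SYZ71
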