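import Mathlib

/-!
# SYZ71/LF2 : characters, torsion of a finitely generated group

Given finitely many elements `x i` of a commutative group there are `M ≥ 1`, independent elements
`ψ j` and integers `κ i j` with `x i ^ M = ∏ j, ψ j ^ κ i j`, the vectors `κ i` generating `ℤ^s`.
-/

set_option autoImplicit false

namespace Pool.Agent.SYZ71

theorem exists_power_basis_add {A : Type*} [AddCommGroup A] {d : ℕ} (x : Fin d → A) :
    ∃ (M s : ℕ) (ψ : Fin s → A) (κ : Fin d → Fin s → ℤ), 1 ≤ M ∧
      (∀ m : Fin s → ℤ, ∑ j, m j • ψ j = 0 → m = 0) ∧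
      (∀ i, (M : ℤ) • x i = ∑ j, κ i j • ψ j) ∧
      ∀ j, ∃ n : Fin d → ℤ, ∀ j', ∑ i, n i * κ i j' = if j = j' then 1 else 0 := by
  classical
  set N : Submodule ℤ A := Submodule.span ℤ (Set.range x) with hN
  have : Module.Finite ℤ N := Module.Finite.span_of_finite ℤ (Set.finite_range x)
  have : IsNoetherian ℤ N := inferInstance
  have : Module.Finite ℤ (Submodule.torsion ℤ N) := inferInstance
  have : Finite (Submodule.torsion ℤ N) :=
    Module.finite_of_fg_torsion _ (Submodule.torsion_isTorsion)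
  set M := Nat.card (Submodule.torsion ℤ N) with hM
  have hMpos : 1 ≤ M := Nat.card_pos
  have hMt : ∀ t : N, t ∈ Submodule.torsion ℤ N → (M : ℤ) • t = 0 := by
    intro t ht
    have h1 : M • (⟨t, ht⟩ : Submodule.torsion ℤ N) = 0 := card_nsmul_eq_zero'
    have h2 : (M : ℤ) • (⟨t, ht⟩ : Submodule.torsion ℤ N) = 0 := by
      rw [natCast_zsmul]; exact h1
    exact congrArg Subtype.val h2
  set y : Fin d → A := fun i => (M : ℤ) • x i with hy
  set N' : Submodule ℤ A := Submodule.span ℤ (Set.range y) with hN'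
  have : Module.Finite ℤ N' := Module.Finite.span_of_finite ℤ (Set.finite_range y)
  have hN'N : N' ≤ N.map (LinearMap.lsmul ℤ A (M : ℤ)) := by
    rw [hN', Submodule.span_le]
    rintro _ ⟨i, rfl⟩
    exact ⟨x i, Submodule.subset_span ⟨i, rfl⟩, rfl⟩
  have : Module.IsTorsionFree ℤ N' := by
    rw [Module.isTorsionFree_iff_smul_eq_zero]
    intro n z h0
    by_cases hn : n = 0
    · exact Or.inl hn
    · right
      obtain ⟨u, hu, hz⟩ := hN'N z.2
      have h1 : (n * M : ℤ) • (⟨u, hu⟩ : N) = 0 := by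
        apply Subtype.ext
        have h2 := congrArg Subtype.val h0
        change n • (z : A) = 0 at h2
        change (n * M : ℤ) • u = 0
        rw [mul_smul]
        rw [← hz] at h2
        exact h2
      have h3 : (⟨u, hu⟩ : N) ∈ Submodule.torsion ℤ N := by
        rw [Submodule.mem_torsion_iff]
        refine ⟨⟨n * M, ?_⟩, h1⟩
        apply mem_nonZeroDivisors_of_ne_zero
        exact mul_ne_zero hn (by exact_mod_cast (by omega : M ≠ 0))
      have h4 := congrArg Subtype.val (hMt _ h3)
      change (M : ℤ) • u = 0 at h4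
      apply Subtype.ext
      rw [← hz]
      exact h4
  have : Module.Free ℤ N' := inferInstance
  let b := Module.finBasis ℤ N'
  set s := Module.finrank ℤ N' with hs
  have hyN : ∀ i, y i ∈ N' := fun i => Submodule.subset_span ⟨i, rfl⟩
  set κ : Fin d → Fin s → ℤ := fun i j => b.repr ⟨y i, hyN i⟩ j with hκ
  refine ⟨M, s, fun j => (b j : A), κ, hMpos, ?_, ?_, ?_⟩
  · intro m hm
    have h1 : ∑ j, m j • b j = 0 := by
      apply Subtype.ext
      rw [Submodule.coe_sum]
      simpa using hm
    have h2 := Fintype.linearIndependent_iff.1 b.linearIndependent m h1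
    funext j
    exact h2 j
  · intro i
    have h1 := b.sum_repr ⟨y i, hyN i⟩
    have h2 := congrArg Subtype.val h1
    rw [Submodule.coe_sum] at h2
    change y i = _
    rw [← show ((⟨y i, hyN i⟩ : N') : A) = y i from rfl, ← h2]
    rfl
  · intro j
    have h1 : ((b j : N') : A) ∈ Submodule.span ℤ (Set.range y) := (b j).2
    obtain ⟨n, hn⟩ := (Submodule.mem_span_range_iff_exists_fun ℤ).1 h1
    refine ⟨n, fun j' => ?_⟩
    have h2 : b j = ∑ i, n i • (⟨y i, hyN i⟩ : N') := by
      apply Subtype.ext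
      rw [Submodule.coe_sum, ← hn]
      rfl
    have h3 := congrArg (fun z => b.repr z j') h2
    simp only [map_sum, map_smul, Module.Basis.repr_self] at h3
    rw [Finsupp.finsetSum_apply] at h3
    rw [Finsupp.single_apply] at h3
    rw [h3]
    apply Finset.sum_congr rfl
    intro i _
    rw [Finsupp.smul_apply, smul_eq_mul]

theorem exists_power_basis {A : Type*} [CommGroup A] {d : ℕ} (x : Fin d → A) :
    ∃ (M s : ℕ) (ψ : Fin s → A) (κ : Fin d → Fin s → ℤ), 1 ≤ M ∧
      (∀ m : Fin s → ℤ, ∏ j, ψ j ^ m j = 1 → m = 0) ∧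
      (∀ i, x i ^ (M : ℤ) = ∏ j, ψ j ^ κ i j) ∧
      ∀ j, ∃ n : Fin d → ℤ, ∀ j', ∑ i, n i * κ i j' = if j = j' then 1 else 0 := by
  obtain ⟨M, s, ψ, κ, h1, h2, h3, h4⟩ :=
    exists_power_basis_add (A := Additive A) (fun i => Additive.ofMul (x i))
  refine ⟨M, s, fun j => Additive.toMul (ψ j), κ, h1, ?_, ?_, h4⟩
  · intro m hm
    apply h2 m
    apply Additive.toMul.injective
    rw [toMul_sum]
    exact hm
  · intro i
    have h5 := congrArg Additive.toMul (h3 i)
    rw [toMul_sum] at h5
    exact h5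

end Pool.Agent.SYZ71
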