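import Pool.Agent.SYZ71.LF1
import Pool.Agent.SYZ71.LE2

/-!
# SYZ71/LF3 : transport and powers of generalised eigenvectors, homogeneity in eigen-coordinates
-/

set_option autoImplicit false

open MvPowerSeries

namespace Pool.Agent.SYZ71

variable {k : Type*} [Field k] {d r : ℕ}

theorem order_add_ge' {q : ℕ∞} {f h : PS k d} (hf : q ≤ f.order) (hh : q ≤ h.order) :
    q ≤ (f + h).order :=
  le_trans (le_min hf hh) min_order_le_add

theorem order_smul_ge' {q : ℕ∞} {f : PS k d} (c : k) (hf : q ≤ f.order) : q ≤ (c • f).order :=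
  le_trans hf le_order_smul

theorem order_neg' {q : ℕ∞} {f : PS k d} (hf : q ≤ f.order) : q ≤ (-f).order := by
  have h1 : -f = (-1 : k) • f := by rw [neg_smul, one_smul]
  rw [h1]
  exact order_smul_ge' _ hf

theorem order_sub_ge' {q : ℕ∞} {f h : PS k d} (hf : q ≤ f.order) (hh : q ≤ h.order) :
    q ≤ (f - h).order := by
  rw [sub_eq_add_neg]
  exact order_add_ge' hf (order_neg' hh)

theorem shiftOp_conj (θ G : PS k d ≃ₐ[k] PS k d) (c : k) (f : PS k d) :
    shiftOp (θ⁻¹ * G * θ) c f = θ⁻¹ (shiftOp G c (θ f)) := by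
  rw [shiftOp_apply, shiftOp_apply, map_sub, map_smul]
  have h1 : (θ⁻¹ : PS k d ≃ₐ[k] PS k d) (θ f) = f := θ.symm_apply_apply f
  rw [h1]
  rfl

theorem shiftOp_conj_pow (θ G : PS k d ≃ₐ[k] PS k d) (c : k) (K : ℕ) (f : PS k d) :
    (shiftOp (θ⁻¹ * G * θ) c ^ K) f = θ⁻¹ ((shiftOp G c ^ K) (θ f)) := by
  induction K with
  | zero =>
    have h1 : (θ⁻¹ : PS k d ≃ₐ[k] PS k d) (θ f) = f := θ.symm_apply_apply f
    simp [h1]
  | succ K ih =>
    rw [pow_succ', pow_succ']
    change shiftOp (θ⁻¹ * G * θ) c ((shiftOp (θ⁻¹ * G * θ) c ^ K) f) =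
      θ⁻¹ (shiftOp G c ((shiftOp G c ^ K) (θ f)))
    rw [ih, shiftOp_conj]
    have h1 : ∀ y : PS k d, θ ((θ⁻¹ : PS k d ≃ₐ[k] PS k d) y) = y := fun y => θ.apply_symm_apply y
    rw [h1]

theorem isGE_conj (θ : PS k d ≃ₐ[k] PS k d) (G : Fin r → PS k d ≃ₐ[k] PS k d) (χ : Fin r → k)
    (f : PS k d) (h : IsGE G χ (θ f)) : IsGE (fun l => θ⁻¹ * G l * θ) χ f := by
  intro i q
  obtain ⟨K, hK⟩ := h i q
  refine ⟨K, ?_⟩
  rw [shiftOp_conj_pow, order_algEquiv]
  exact hK

/-- the operator of an automorphism -/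
noncomputable def toEnd (G : PS k d ≃ₐ[k] PS k d) : Module.End k (PS k d) :=
  (G : PS k d →ₐ[k] PS k d).toLinearMap

theorem toEnd_apply (G : PS k d ≃ₐ[k] PS k d) (f : PS k d) : toEnd G f = G f := rfl

theorem toEnd_pow (G : PS k d ≃ₐ[k] PS k d) (M : ℕ) : toEnd (G ^ M) = toEnd G ^ M := by
  induction M with
  | zero => rfl
  | succ M ih =>
    rw [pow_succ, pow_succ, ← ih]
    rfl

theorem shiftOp_eq (G : PS k d ≃ₐ[k] PS k d) (c : k) :
    shiftOp G c = toEnd G - algebraMap k (Module.End k (PS k d)) c := by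
  apply LinearMap.ext
  intro f
  rw [shiftOp_apply, LinearMap.sub_apply, toEnd_apply, Module.algebraMap_end_apply]

/-- operators which do not decrease the order -/
def OrdGe (T : Module.End k (PS k d)) : Prop := ∀ f : PS k d, f.order ≤ (T f).order

theorem ordGe_one : OrdGe (1 : Module.End k (PS k d)) := fun _ => le_of_eq rfl

theorem ordGe_mul {T T' : Module.End k (PS k d)} (h : OrdGe T) (h' : OrdGe T') :
    OrdGe (T * T') := fun f => le_trans (h' f) (h (T' f))

theorem ordGe_pow {T : Module.End k (PS k d)} (h : OrdGe T) (K : ℕ) : OrdGe (T ^ K) := by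
  induction K with
  | zero => rw [pow_zero]; exact ordGe_one
  | succ K ih => rw [pow_succ]; exact ordGe_mul ih h

theorem ordGe_add {T T' : Module.End k (PS k d)} (h : OrdGe T) (h' : OrdGe T') :
    OrdGe (T + T') := fun f => order_add_ge' (h f) (h' f)

theorem ordGe_zero : OrdGe (0 : Module.End k (PS k d)) := fun f => by
  rw [LinearMap.zero_apply, order_zero]; exact le_top

theorem ordGe_sum {ι : Type*} (s : Finset ι) (T : ι → Module.End k (PS k d))
    (h : ∀ i ∈ s, OrdGe (T i)) : OrdGe (∑ i ∈ s, T i) := by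
  classical
  induction s using Finset.induction_on with
  | empty => rw [Finset.sum_empty]; exact ordGe_zero
  | insert i s hi ih =>
    rw [Finset.sum_insert hi]
    exact ordGe_add (h i (Finset.mem_insert_self _ _))
      (ih fun j hj => h j (Finset.mem_insert_of_mem hj))

theorem ordGe_algebraMap (c : k) : OrdGe (algebraMap k (Module.End k (PS k d)) c) := fun f => by
  rw [Module.algebraMap_end_apply]; exact le_order_smul

theorem ordGe_toEnd (G : PS k d ≃ₐ[k] PS k d) : OrdGe (toEnd G) := fun f => by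
  rw [toEnd_apply, order_algEquiv]

theorem isGE_pow (G : Fin r → PS k d ≃ₐ[k] PS k d) (χ : Fin r → k) (f : PS k d)
    (h : IsGE G χ f) (M : ℕ) : IsGE (fun l => G l ^ M) (fun l => χ l ^ M) f := by
  intro i q
  obtain ⟨K, hK⟩ := h i q
  refine ⟨K, ?_⟩
  set A : Module.End k (PS k d) := algebraMap k (Module.End k (PS k d)) (χ i) with hA
  have hc : Commute (toEnd (G i)) A := (Algebra.commutes (χ i) (toEnd (G i))).symm
  set Q : Module.End k (PS k d) :=
    ∑ j ∈ Finset.range M, toEnd (G i) ^ j * A ^ (M - 1 - j) with hQ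
  have h1 : shiftOp (G i ^ M) (χ i ^ M) = Q * shiftOp (G i) (χ i) := by
    rw [shiftOp_eq, shiftOp_eq, toEnd_pow, map_pow, ← hA, hQ, hc.geom_sum₂_mul]
  have h2 : Commute Q (shiftOp (G i) (χ i)) := by
    rw [shiftOp_eq, ← hA, hQ]
    apply Commute.sum_left
    intro j _
    apply Commute.mul_left
    · exact ((Commute.refl _).sub_right hc).pow_left j
    · exact (hc.symm.sub_right (Commute.refl _)).pow_left _
  have h3 : shiftOp (G i ^ M) (χ i ^ M) ^ K = Q ^ K * shiftOp (G i) (χ i) ^ K := by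
    rw [h1, h2.mul_pow]
  have h4 : OrdGe (Q ^ K) := by
    apply ordGe_pow
    rw [hQ]
    apply ordGe_sum
    intro j _
    exact ordGe_mul (ordGe_pow (ordGe_toEnd _) j) (ordGe_pow (ordGe_algebraMap _) _)
  change (q : ℕ∞) ≤ ((shiftOp (G i ^ M) (χ i ^ M) ^ K) f).order
  rw [h3]
  exact le_trans hK (h4 _)

/-- In coordinates which are generalised eigenvectors, the monomials occurring in a generalised
eigenvector have its eigenvalues. -/
theorem monomial_eigenvalue (G : Fin r → PS k d ≃ₐ[k] PS k d) (hG : ∀ i j, Commute (G i) (G j))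
    (χ : Fin d → Fin r → k) (hX : ∀ i, IsGE G (χ i) (X i)) (χ₀ : Fin r → k) (f : PS k d)
    (hf : IsGE G χ₀ f) (a : Fin d →₀ ℕ) (ha : coeff a f ≠ 0) :
    (fun l => ∏ j, χ j l ^ a j) = χ₀ := by
  classical
  by_contra hne
  apply ha
  -- the eigenvalues of the monomial `X^b`
  set ev : (Fin d →₀ ℕ) → Fin r → k := fun b l => ∏ j, χ j l ^ b j with hev
  set q : ℕ := Finsupp.degree a + 1 with hq
  have hfin : {b : Fin d →₀ ℕ | Finsupp.degree b < q}.Finite := by
    have h1 : {b : Fin d →₀ ℕ | Finsupp.degree b < q} ⊆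
        ((Finset.range q).biUnion fun n => Finset.univ.finsuppAntidiag n :
          Finset (Fin d →₀ ℕ)) := by
      intro b hb
      rw [Set.mem_ofPred_eq] at hb
      rw [Finset.mem_coe, Finset.mem_biUnion]
      refine ⟨Finsupp.degree b, Finset.mem_range.2 hb, ?_⟩
      rw [Finset.mem_finsuppAntidiag]
      exact ⟨(Finsupp.degree_eq_sum b).symm, Finset.subset_univ _⟩
    exact (Finset.finite_toSet _).subset h1
  set B : Finset (Fin d →₀ ℕ) := hfin.toFinset with hB
  have hmemB : ∀ b, b ∈ B ↔ Finsupp.degree b < q := by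
    intro b; rw [hB, Set.Finite.mem_toFinset]; rfl
  -- the monomials
  set mon : (Fin d →₀ ℕ) → PS k d := fun b => ∏ j, (X j : PS k d) ^ b j with hmon
  have hmoneq : ∀ b, mon b = monomial b (1 : k) := by
    intro b
    rw [hmon, MvPowerSeries.monomial_one_eq]
    rw [Finsupp.prod_fintype _ _ (by intro i; simp)]
  have hmonGE : ∀ b, IsGE G (ev b) (mon b) := fun b => isGE_prod_pow G (fun j => X j) χ hX b
  -- components
  set comp : (Fin r → k) → PS k d := fun ξ =>
    ∑ b ∈ B.filter (fun b => ev b = ξ), coeff b f • mon b with hcomp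
  have hcompGE : ∀ ξ, IsGE G ξ (comp ξ) := by
    intro ξ
    apply isGE_sum
    intro b hb
    rw [Finset.mem_filter] at hb
    rw [← hb.2]
    exact isGE_smul G _ _ _ (hmonGE b)
  have hcoeffmon : ∀ b c, coeff c (mon b) = if c = b then (1 : k) else 0 := by
    intro b c
    rw [hmoneq, MvPowerSeries.coeff_monomial]
  have hcoeffcomp : ∀ ξ c, coeff c (comp ξ) =
      if c ∈ B ∧ ev c = ξ then coeff c f else 0 := by
    intro ξ c
    rw [hcomp]
    rw [map_sum]
    have h1 : ∀ b ∈ B.filter (fun b => ev b = ξ), coeff c (coeff b f • mon b) =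
        if c = b then coeff c f else 0 := by
      intro b _
      rw [MvPowerSeries.coeff_smul, hcoeffmon]
      by_cases h : c = b
      · rw [if_pos h, if_pos h, h, mul_one]
      · rw [if_neg h, if_neg h, mul_zero]
    rw [Finset.sum_congr rfl h1, Finset.sum_ite_eq]
    simp only [Finset.mem_filter]
  set S : Finset (Fin r → k) := insert χ₀ (B.image ev) with hS
  set f' : (Fin r → k) → PS k d := fun ξ => if ξ = χ₀ then comp ξ - f else comp ξ with hf'
  have hf'GE : ∀ ξ ∈ S, IsGE G ξ (f' ξ) := by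
    intro ξ _
    rw [hf']
    by_cases h : ξ = χ₀
    · simp only [h, if_true]
      exact isGE_sub G χ₀ _ _ (hcompGE χ₀) hf
    · simp only [if_neg h]
      exact hcompGE ξ
  have hsum : ∑ ξ ∈ S, f' ξ = (∑ ξ ∈ S, comp ξ) - f := by
    have h1 : ∀ ξ ∈ S, f' ξ = comp ξ - (if ξ = χ₀ then f else 0) := by
      intro ξ _
      rw [hf']
      by_cases h : ξ = χ₀
      · simp only [h, if_true]
      · simp only [if_neg h, sub_zero]
    rw [Finset.sum_congr rfl h1, Finset.sum_sub_distrib, Finset.sum_ite_eq', if_pos]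
    rw [hS]; exact Finset.mem_insert_self _ _
  have horder : (q : ℕ∞) ≤ (∑ ξ ∈ S, f' ξ).order := by
    rw [hsum]
    apply nat_le_order
    intro c hc
    rw [map_sub, map_sum]
    have h1 : ∀ ξ ∈ S, coeff c (comp ξ) = if ev c = ξ then coeff c f else 0 := by
      intro ξ _
      rw [hcoeffcomp]
      by_cases h : ev c = ξ
      · rw [if_pos ⟨(hmemB c).2 hc, h⟩, if_pos h]
      · rw [if_neg (fun hh => h hh.2), if_neg h]
    rw [Finset.sum_congr rfl h1, Finset.sum_ite_eq, if_pos, sub_self]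
    rw [hS]
    exact Finset.mem_insert_of_mem (Finset.mem_image_of_mem _ ((hmemB c).2 hc))
  have haB : a ∈ B := (hmemB a).2 (by omega)
  have h2 := isGE_independent G hG S f' hf'GE q horder (ev a)
    (by rw [hS]; exact Finset.mem_insert_of_mem (Finset.mem_image_of_mem _ haB))
  have h3 : f' (ev a) = comp (ev a) := by
    rw [hf']
    exact if_neg hne
  rw [h3] at h2
  have h4 : coeff a (comp (ev a)) = 0 := by
    apply coeff_of_lt_order
    refine lt_of_lt_of_le ?_ h2
    rw [hq]
    exact_mod_cast Nat.lt_succ_self _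
  rw [hcoeffcomp, if_pos ⟨haB, rfl⟩] at h4
  exact h4

end Pool.Agent.SYZ71
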