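import Pool.Agent.SYZ71.NFDefs
import Pool.Agent.SYZ71.LA
import Pool.Agent.SYZ71.LB

/-!
# SYZ71/LM1 : torus weights, torus automorphisms, Euler derivations, weight components

* `wt`, `chi` are additive / multiplicative: unfold (`Finset.prod_mul_distrib`, `zpow_add`, …).
* `isHom_mul`: `coeff_mul`, `wt_add`.  `isHom_pderiv`: `coeff_pderiv`.
* `coeff_cont`: `S = {b | weight η b ≤ weight η a + c}` is finite as all `η i ≥ 1`
  (contained in the `b` with all `b i ≤ weight η a + c`, `Finsupp`/`Finset.finsupp`-type box, or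
  `Set.Finite` of a box); `h = f - ∑_{b ∈ S} coeff b f • monomial b 1` has weighted order
  `> weight η a + c`, so `coeff a (L h) = 0`.
* `torFun`: `f ↦ (a ↦ chi ψ v (wt κ a) * coeff a f)` is multiplicative by `coeff_mul`,
  `wt_add`, `chi_add_right`; its inverse is the one for `-v`.
* `algHom_isHom`: `coeff_cont` with `η = fun _ => 1`, `c = 0`, `order_algHom_ge`
  (`order` is the weighted order for `fun _ => 1`, `weightedOrder_one`-like, by `rfl`/`simp [order]`):
  `coeff a (φ f) = ∑_{b ∈ S} coeff b f * coeff a (φ (monomial b 1))`; if `coeff b f ≠ 0` then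
  `wt κ b = m`; `φ (monomial b 1) = ∏ φ (X i) ^ b i` is homogeneous of weight `wt κ b`.
* `commute_tor`: `algEquiv_ext`, both sides on `X i` are `chi ψ v (κ i) • φ (X i)`.
* `euler_apply`: coefficientwise, `coeff a (X i * pderiv i f) = a i * coeff a f`.
* `tpr`: weight component; `tpr_mul`: `coeff_mul`; `tpr_algHom`: `coeff_cont` as above
  (`coeff a (φ (monomial b 1)) = 0` unless `wt κ b = wt κ a`).
-/

set_option autoImplicit false

open MvPowerSeries

namespace Pool.Agent.SYZ71

variable {k : Type*} [Field k] {d r s : ℕ}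

theorem wt_zero (κ : Fin d → Fin s → ℤ) : wt κ 0 = 0 := by
  funext j
  simp [wt]

theorem wt_add (κ : Fin d → Fin s → ℤ) (a b : Fin d →₀ ℕ) :
    wt κ (a + b) = wt κ a + wt κ b := by
  funext j
  simp [wt, add_mul, Finset.sum_add_distrib]

theorem wt_single (κ : Fin d → Fin s → ℤ) (i : Fin d) : wt κ (Finsupp.single i 1) = κ i := by
  classical
  funext j
  simp only [wt]
  rw [Finset.sum_eq_single i]
  · simp
  · intro b _ hb
    rw [Finsupp.single_eq_of_ne hb]
    simp
  · intro h
    exact absurd (Finset.mem_univ i) h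

theorem chi_zero_left (ψ : Fin s → Fin r → kˣ) (m : Fin s → ℤ) : chi ψ 0 m = 1 := by
  simp [chi]

theorem chi_zero_right (ψ : Fin s → Fin r → kˣ) (v : Fin r → ℤ) : chi ψ v 0 = 1 := by
  simp [chi]

theorem chi_add_left (ψ : Fin s → Fin r → kˣ) (u v : Fin r → ℤ) (m : Fin s → ℤ) :
    chi ψ (u + v) m = chi ψ u m * chi ψ v m := by
  unfold chi
  rw [← Units.val_mul, ← Finset.prod_mul_distrib]
  congr 1
  refine Finset.prod_congr rfl fun j _ => ?_
  rw [← Finset.prod_mul_distrib]
  refine Finset.prod_congr rfl fun l _ => ?_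
  rw [← zpow_add, Pi.add_apply, add_mul]

theorem chi_add_right (ψ : Fin s → Fin r → kˣ) (v : Fin r → ℤ) (m m' : Fin s → ℤ) :
    chi ψ v (m + m') = chi ψ v m * chi ψ v m' := by
  unfold chi
  rw [← Units.val_mul, ← Finset.prod_mul_distrib]
  congr 1
  refine Finset.prod_congr rfl fun j _ => ?_
  rw [← Finset.prod_mul_distrib]
  refine Finset.prod_congr rfl fun l _ => ?_
  rw [← zpow_add, Pi.add_apply, mul_add]

theorem chi_ne_zero (ψ : Fin s → Fin r → kˣ) (v : Fin r → ℤ) (m : Fin s → ℤ) :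
    chi ψ v m ≠ 0 := by
  unfold chi
  exact Units.ne_zero _

/-- if all values of the character are `1` then the weight is zero (multiplicative independence) -/
theorem eq_zero_of_chi (ψ : Fin s → Fin r → kˣ)
    (hψ : ∀ m : Fin s → ℤ, (∀ l, ∏ j, ψ j l ^ m j = 1) → m = 0) (m : Fin s → ℤ)
    (h : ∀ v : Fin r → ℤ, chi ψ v m = 1) : m = 0 := by
  classical
  apply hψ
  intro l
  have h1 := h (Pi.single l 1)
  unfold chi at h1
  rw [Units.val_eq_one] at h1
  rw [← h1]
  refine Finset.prod_congr rfl fun j _ => ?_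
  rw [Finset.prod_eq_single l]
  · simp
  · intro b _ hb
    rw [Pi.single_eq_of_ne hb]
    simp
  · intro h
    exact absurd (Finset.mem_univ l) h

theorem isHom_zero (κ : Fin d → Fin s → ℤ) (m : Fin s → ℤ) : IsHom κ m (0 : PS k d) := by
  intro a h
  exact absurd (by simp) h

theorem isHom_one (κ : Fin d → Fin s → ℤ) : IsHom κ 0 (1 : PS k d) := by
  classical
  intro a h
  rw [coeff_one] at h
  by_cases ha : a = 0
  · rw [ha, wt_zero]
  · rw [if_neg ha] at h
    exact absurd rfl h

theorem isHom_X (κ : Fin d → Fin s → ℤ) (i : Fin d) : IsHom κ (κ i) (X i : PS k d) := by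
  classical
  intro a h
  rw [coeff_X] at h
  by_cases ha : a = Finsupp.single i 1
  · rw [ha, wt_single]
  · rw [if_neg ha] at h
    exact absurd rfl h

theorem isHom_add (κ : Fin d → Fin s → ℤ) (m : Fin s → ℤ) (f f' : PS k d) (h : IsHom κ m f)
    (h' : IsHom κ m f') : IsHom κ m (f + f') := by
  intro a ha
  by_cases h1 : coeff a f = 0
  · apply h' a
    intro h2
    rw [map_add, h1, h2, add_zero] at ha
    exact ha rfl
  · exact h a h1

theorem isHom_smul (κ : Fin d → Fin s → ℤ) (m : Fin s → ℤ) (c : k) (f : PS k d)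
    (h : IsHom κ m f) : IsHom κ m (c • f) := by
  intro a ha
  apply h a
  intro h2
  rw [coeff_smul, h2, mul_zero] at ha
  exact ha rfl

theorem isHom_sum (κ : Fin d → Fin s → ℤ) (m : Fin s → ℤ) {ι : Type*} (t : Finset ι)
    (f : ι → PS k d) (h : ∀ i ∈ t, IsHom κ m (f i)) : IsHom κ m (∑ i ∈ t, f i) := by
  intro a ha
  rw [map_sum] at ha
  obtain ⟨i, hi, hi2⟩ := Finset.exists_ne_zero_of_sum_ne_zero ha
  exact h i hi a hi2

theorem isHom_mul (κ : Fin d → Fin s → ℤ) (m m' : Fin s → ℤ) (f f' : PS k d)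
    (h : IsHom κ m f) (h' : IsHom κ m' f') : IsHom κ (m + m') (f * f') := by
  classical
  intro a ha
  rw [coeff_mul] at ha
  obtain ⟨p, hp, hp2⟩ := Finset.exists_ne_zero_of_sum_ne_zero ha
  rw [Finset.HasAntidiagonal.mem_antidiagonal] at hp
  rw [← hp, wt_add, h p.1 (left_ne_zero_of_mul hp2), h' p.2 (right_ne_zero_of_mul hp2)]

theorem isHom_pderiv (κ : Fin d → Fin s → ℤ) (m : Fin s → ℤ) (i : Fin d) (f : PS k d)
    (h : IsHom κ m f) : IsHom κ (m - κ i) (pderiv k i f) := by
  intro a ha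
  rw [coeff_pderiv] at ha
  have h1 := h _ (left_ne_zero_of_mul ha)
  rw [wt_add, wt_single] at h1
  rw [← h1, add_sub_cancel_right]

private theorem isHom_pow (κ : Fin d → Fin s → ℤ) (m : Fin s → ℤ) (f : PS k d)
    (h : IsHom κ m f) (n : ℕ) : IsHom κ (n • m) (f ^ n) := by
  induction n with
  | zero =>
    rw [pow_zero, zero_smul]
    exact isHom_one κ
  | succ n ih =>
    rw [pow_succ, succ_nsmul]
    exact isHom_mul κ _ _ _ _ ih h

private theorem isHom_prod (κ : Fin d → Fin s → ℤ) {ι : Type*} (t : Finset ι)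
    (m : ι → Fin s → ℤ) (f : ι → PS k d) (h : ∀ i ∈ t, IsHom κ (m i) (f i)) :
    IsHom κ (∑ i ∈ t, m i) (∏ i ∈ t, f i) := by
  classical
  induction t using Finset.induction_on with
  | empty =>
    rw [Finset.sum_empty, Finset.prod_empty]
    exact isHom_one κ
  | insert i t hi ih =>
    rw [Finset.sum_insert hi, Finset.prod_insert hi]
    exact isHom_mul κ _ _ _ _ (h i (Finset.mem_insert_self _ _))
      (ih fun j hj => h j (Finset.mem_insert_of_mem hj))

private theorem wt_eq_sum (κ : Fin d → Fin s → ℤ) (b : Fin d →₀ ℕ) :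
    wt κ b = ∑ i, b i • κ i := by
  funext j
  simp [wt, Finset.sum_apply]

private theorem single_le_weight (η : Fin d → ℕ) (b : Fin d →₀ ℕ) (i : Fin d) :
    b i * η i ≤ Finsupp.weight η b := by
  rw [Finsupp.weight_apply, Finsupp.sum_fintype _ _ (by simp)]
  have := Finset.single_le_sum (f := fun j => b j • η j) (s := Finset.univ)
    (fun j _ => Nat.zero_le _) (Finset.mem_univ i)
  simpa using this

/-- coefficients of `L f` for a (uniformly) continuous linear map `L` -/
theorem coeff_cont (η : Fin d → ℕ) (hη : ∀ i, 1 ≤ η i) (c : ℕ) (a : Fin d →₀ ℕ) :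
    ∃ S : Finset (Fin d →₀ ℕ), ∀ L : PS k d →ₗ[k] PS k d,
      (∀ f, f.weightedOrder η ≤ (L f).weightedOrder η + c) →
      ∀ f, coeff a (L f) = ∑ b ∈ S, coeff b f * coeff a (L (monomial b (1 : k))) := by
  classical
  set W : ℕ := Finsupp.weight η a + c with hW
  set B : Fin d →₀ ℕ := Finsupp.equivFunOnFinite.symm (fun _ => W) with hB
  refine ⟨(Finset.Iic B).filter (fun b => Finsupp.weight η b ≤ W), ?_⟩
  set S := (Finset.Iic B).filter (fun b => Finsupp.weight η b ≤ W) with hS
  have hmem : ∀ b : Fin d →₀ ℕ, b ∈ S ↔ Finsupp.weight η b ≤ W := by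
    intro b
    rw [hS, Finset.mem_filter, Finset.mem_Iic]
    constructor
    · exact fun h => h.2
    · intro h
      refine ⟨?_, h⟩
      intro i
      have h1 := single_le_weight η b i
      have h2 : b i * 1 ≤ b i * η i := Nat.mul_le_mul_left _ (hη i)
      have h3 : B i = W := rfl
      rw [h3]
      omega
  intro L hL f
  set p : PS k d := ∑ b ∈ S, coeff b f • monomial b (1 : k) with hp
  have hpc : ∀ b, coeff b p = if b ∈ S then coeff b f else 0 := by
    intro b
    rw [hp, map_sum]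
    by_cases hb : b ∈ S
    · rw [if_pos hb, Finset.sum_eq_single b]
      · rw [coeff_smul, coeff_monomial_same, mul_one]
      · intro b' _ hb'
        rw [coeff_smul, coeff_monomial_ne hb'.symm, mul_zero]
      · intro h
        exact absurd hb h
    · rw [if_neg hb]
      apply Finset.sum_eq_zero
      intro b' hb'
      have : b ≠ b' := fun h => hb (h ▸ hb')
      rw [coeff_smul, coeff_monomial_ne this, mul_zero]
  have h1 : ((W + 1 : ℕ) : ℕ∞) ≤ (f - p).weightedOrder η := by
    apply nat_le_weightedOrder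
    intro b hb
    rw [map_sub, hpc, if_pos ((hmem b).2 (by omega)), sub_self]
  have h2 : coeff a (L (f - p)) = 0 := by
    apply coeff_eq_zero_of_lt_weightedOrder (w := η)
    have h3 := h1.trans (hL (f - p))
    by_contra hcon
    rw [not_lt] at hcon
    have h4 : ((W + 1 : ℕ) : ℕ∞) ≤ (Finsupp.weight η a : ℕ∞) + c :=
      h3.trans (add_le_add hcon le_rfl)
    have h5 : W + 1 ≤ Finsupp.weight η a + c := by exact_mod_cast h4
    omega
  have h3 : coeff a (L f) = coeff a (L p) := by
    rw [map_sub, map_sub, sub_eq_zero] at h2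
    exact h2
  rw [h3, hp, map_sum, map_sum]
  refine Finset.sum_congr rfl fun b _ => ?_
  rw [map_smul, coeff_smul]

private noncomputable def torLin (ψ : Fin s → Fin r → kˣ) (κ : Fin d → Fin s → ℤ)
    (v : Fin r → ℤ) : PS k d →ₗ[k] PS k d where
  toFun f := fun a => chi ψ v (wt κ a) * coeff a f
  map_add' f g := by
    funext a
    change chi ψ v (wt κ a) * coeff a (f + g) =
      chi ψ v (wt κ a) * coeff a f + chi ψ v (wt κ a) * coeff a g
    rw [map_add, mul_add]
  map_smul' c f := by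
    funext a
    change chi ψ v (wt κ a) * coeff a (c • f) = c * (chi ψ v (wt κ a) * coeff a f)
    rw [coeff_smul]
    ring

private theorem coeff_torLin (ψ : Fin s → Fin r → kˣ) (κ : Fin d → Fin s → ℤ)
    (v : Fin r → ℤ) (a : Fin d →₀ ℕ) (f : PS k d) :
    coeff a (torLin ψ κ v f) = chi ψ v (wt κ a) * coeff a f := rfl

private noncomputable def torHom (ψ : Fin s → Fin r → kˣ) (κ : Fin d → Fin s → ℤ)
    (v : Fin r → ℤ) : PS k d →ₐ[k] PS k d :=
  AlgHom.ofLinearMap (torLin ψ κ v) (by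
    classical
    ext a
    rw [coeff_torLin, coeff_one]
    by_cases ha : a = 0
    · rw [if_pos ha, ha, wt_zero, chi_zero_right, mul_one]
    · rw [if_neg ha, mul_zero]) (by
    classical
    intro f g
    ext a
    rw [coeff_torLin, coeff_mul, coeff_mul, Finset.mul_sum]
    refine Finset.sum_congr rfl fun p hp => ?_
    rw [Finset.HasAntidiagonal.mem_antidiagonal] at hp
    rw [coeff_torLin, coeff_torLin, ← hp, wt_add, chi_add_right]
    ring)

private theorem coeff_torHom (ψ : Fin s → Fin r → kˣ) (κ : Fin d → Fin s → ℤ)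
    (v : Fin r → ℤ) (a : Fin d →₀ ℕ) (f : PS k d) :
    coeff a (torHom ψ κ v f) = chi ψ v (wt κ a) * coeff a f := rfl

theorem exists_tor (ψ : Fin s → Fin r → kˣ) (κ : Fin d → Fin s → ℤ) (v : Fin r → ℤ) :
    ∃ φ : PS k d ≃ₐ[k] PS k d, ∀ a f, coeff a (φ f) = chi ψ v (wt κ a) * coeff a f := by
  refine ⟨AlgEquiv.ofAlgHom (torHom ψ κ v) (torHom ψ κ (-v)) ?_ ?_, ?_⟩
  · apply AlgHom.ext
    intro f
    ext a
    change coeff a (torHom ψ κ v (torHom ψ κ (-v) f)) = coeff a f
    rw [coeff_torHom, coeff_torHom, ← mul_assoc, ← chi_add_left, add_neg_cancel, chi_zero_left,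
      one_mul]
  · apply AlgHom.ext
    intro f
    ext a
    change coeff a (torHom ψ κ (-v) (torHom ψ κ v f)) = coeff a f
    rw [coeff_torHom, coeff_torHom, ← mul_assoc, ← chi_add_left, neg_add_cancel, chi_zero_left,
      one_mul]
  · intro a f
    exact coeff_torHom ψ κ v a f

/-- the torus automorphism -/
noncomputable def tor (ψ : Fin s → Fin r → kˣ) (κ : Fin d → Fin s → ℤ) (v : Fin r → ℤ) :
    PS k d ≃ₐ[k] PS k d := (exists_tor ψ κ v).choose

theorem coeff_tor (ψ : Fin s → Fin r → kˣ) (κ : Fin d → Fin s → ℤ) (v : Fin r → ℤ)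
    (a : Fin d →₀ ℕ) (f : PS k d) :
    coeff a (tor ψ κ v f) = chi ψ v (wt κ a) * coeff a f :=
  (exists_tor ψ κ v).choose_spec a f

theorem tor_of_isHom (ψ : Fin s → Fin r → kˣ) (κ : Fin d → Fin s → ℤ) (v : Fin r → ℤ)
    (m : Fin s → ℤ) (f : PS k d) (h : IsHom κ m f) : tor ψ κ v f = chi ψ v m • f := by
  ext a
  rw [coeff_tor, coeff_smul]
  by_cases ha : coeff a f = 0
  · rw [ha, mul_zero, mul_zero]
  · rw [h a ha]

theorem tor_add (ψ : Fin s → Fin r → kˣ) (κ : Fin d → Fin s → ℤ) (u v : Fin r → ℤ) :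
    (tor ψ κ (u + v) : PS k d ≃ₐ[k] PS k d) = tor ψ κ u * tor ψ κ v := by
  apply AlgEquiv.ext
  intro f
  ext a
  rw [AlgEquiv.mul_apply, coeff_tor, coeff_tor, coeff_tor, chi_add_left, mul_assoc]

theorem weightedOrder_tor (η : Fin d → ℕ) (ψ : Fin s → Fin r → kˣ) (κ : Fin d → Fin s → ℤ)
    (v : Fin r → ℤ) (f : PS k d) : (tor ψ κ v f).weightedOrder η = f.weightedOrder η := by
  apply le_antisymm
  · apply le_weightedOrder
    intro a ha
    have h1 := coeff_eq_zero_of_lt_weightedOrder (w := η) ha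
    rw [coeff_tor] at h1
    exact (mul_eq_zero.1 h1).resolve_left (chi_ne_zero ψ v _)
  · apply le_weightedOrder
    intro a ha
    rw [coeff_tor, coeff_eq_zero_of_lt_weightedOrder (w := η) ha, mul_zero]

private theorem isHom_algHom_monomial (κ : Fin d → Fin s → ℤ) (φ : PS k d →ₐ[k] PS k d)
    (h : ∀ i, IsHom κ (κ i) (φ (X i))) (b : Fin d →₀ ℕ) :
    IsHom κ (wt κ b) (φ (monomial b (1 : k))) := by
  rw [monomial_one_eq, Finsupp.prod_fintype _ _ (by simp), map_prod, wt_eq_sum]
  apply isHom_prod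
  intro i _
  rw [map_pow]
  exact isHom_pow κ _ _ (h i) _

private theorem cont_algHom (φ : PS k d →ₐ[k] PS k d) (f : PS k d) :
    f.weightedOrder (fun _ => 1) ≤
      (φ.toLinearMap f).weightedOrder (fun _ => 1) + ((0 : ℕ) : ℕ∞) := by
  rw [Nat.cast_zero, add_zero]
  exact order_algHom_ge φ f

theorem algHom_isHom (κ : Fin d → Fin s → ℤ) (φ : PS k d →ₐ[k] PS k d)
    (h : ∀ i, IsHom κ (κ i) (φ (X i))) (m : Fin s → ℤ) (f : PS k d) (hf : IsHom κ m f) :
    IsHom κ m (φ f) := by
  intro a ha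
  obtain ⟨S, hS⟩ := coeff_cont (k := k) (fun _ : Fin d => 1) (fun _ => le_rfl) 0 a
  have h1 := hS φ.toLinearMap (cont_algHom φ) f
  rw [AlgHom.toLinearMap_apply] at h1
  rw [h1] at ha
  obtain ⟨b, _, hb⟩ := Finset.exists_ne_zero_of_sum_ne_zero ha
  have h2 := hf b (left_ne_zero_of_mul hb)
  have h3 := isHom_algHom_monomial κ φ h b a (right_ne_zero_of_mul hb)
  rw [h3, h2]

theorem tor_commute (ψ : Fin s → Fin r → kˣ) (κ : Fin d → Fin s → ℤ) (φ : PS k d ≃ₐ[k] PS k d)
    (h : ∀ i, IsHom κ (κ i) (φ (X i))) (v : Fin r → ℤ) : tor ψ κ v * φ = φ * tor ψ κ v := by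
  apply algEquiv_ext
  intro i
  rw [AlgEquiv.mul_apply, AlgEquiv.mul_apply, tor_of_isHom ψ κ v (κ i) _ (h i),
    tor_of_isHom ψ κ v (κ i) _ (isHom_X κ i), map_smul]

private theorem coeff_X_mul_pderiv (i : Fin d) (f : PS k d) (a : Fin d →₀ ℕ) :
    coeff a (X i * pderiv k i f) = (a i : k) * coeff a f := by
  classical
  rw [X_def, coeff_monomial_mul]
  by_cases ha : Finsupp.single i 1 ≤ a
  · rw [if_pos ha, one_mul, coeff_pderiv]
    obtain ⟨b, rfl⟩ := exists_add_of_le ha
    rw [add_tsub_cancel_left, add_comm b (Finsupp.single i 1)]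
    simp only [Finsupp.add_apply, Finsupp.single_eq_same]
    push_cast
    ring
  · rw [if_neg ha]
    have : a i = 0 := by
      by_contra h0
      apply ha
      rw [Finsupp.single_le_iff]
      omega
    rw [this]
    simp

theorem euler_of_isHom (κ : Fin d → Fin s → ℤ) (j : Fin s) (m : Fin s → ℤ) (f : PS k d)
    (h : IsHom κ m f) : euler k κ j f = (m j : k) • f := by
  have h1 : ∀ i, euler k κ j (X i) = (κ i j : k) • (X i : PS k d) := fun i =>
    mkDer_X (fun i => (κ i j : k) • (X i : PS k d)) i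
  rw [derivation_eq]
  ext a
  rw [map_sum, coeff_smul]
  have h2 : ∀ i, coeff a (euler k κ j (X i) * pderiv k i f) = (κ i j : k) * (a i : k) * coeff a f := by
    intro i
    rw [h1, smul_mul_assoc, coeff_smul, coeff_X_mul_pderiv, mul_assoc]
  simp only [h2]
  rw [← Finset.sum_mul]
  by_cases ha : coeff a f = 0
  · rw [ha, mul_zero, mul_zero]
  · have h3 := congrFun (h a ha) j
    rw [← h3]
    unfold wt
    push_cast
    congr 1
    exact Finset.sum_congr rfl fun i _ => mul_comm _ _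

/-- the component of torus weight `m` -/
noncomputable def tpr (κ : Fin d → Fin s → ℤ) (m : Fin s → ℤ) (f : PS k d) : PS k d :=
  fun a => open Classical in if wt κ a = m then coeff a f else 0

theorem coeff_tpr (κ : Fin d → Fin s → ℤ) (m : Fin s → ℤ) (f : PS k d) (a : Fin d →₀ ℕ) :
    coeff a (tpr κ m f) = open Classical in if wt κ a = m then coeff a f else 0 := rfl

theorem isHom_tpr (κ : Fin d → Fin s → ℤ) (m : Fin s → ℤ) (f : PS k d) :
    IsHom κ m (tpr κ m f) := by
  intro a ha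
  rw [coeff_tpr] at ha
  by_contra h
  rw [if_neg h] at ha
  exact ha rfl

theorem tpr_sum (κ : Fin d → Fin s → ℤ) (m : Fin s → ℤ) {ι : Type*} (t : Finset ι)
    (f : ι → PS k d) : tpr κ m (∑ i ∈ t, f i) = ∑ i ∈ t, tpr κ m (f i) := by
  ext a
  rw [coeff_tpr, map_sum, map_sum]
  simp only [coeff_tpr]
  by_cases h : wt κ a = m
  · simp [h]
  · simp [h]

theorem tpr_mul (κ : Fin d → Fin s → ℤ) (m m' : Fin s → ℤ) (h f : PS k d) (hh : IsHom κ m' h) :
    tpr κ (m' + m) (h * f) = h * tpr κ m f := by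
  classical
  ext a
  rw [coeff_tpr, coeff_mul, coeff_mul]
  have key : ∀ p ∈ Finset.HasAntidiagonal.antidiagonal a, coeff p.1 h * coeff p.2 (tpr κ m f) =
      if wt κ a = m' + m then coeff p.1 h * coeff p.2 f else 0 := by
    intro p hp
    rw [Finset.HasAntidiagonal.mem_antidiagonal] at hp
    by_cases h1 : coeff p.1 h = 0
    · rw [h1, zero_mul, zero_mul, ite_self]
    · have h2 := hh p.1 h1
      have h3 : wt κ a = m' + wt κ p.2 := by rw [← hp, wt_add, h2]
      rw [coeff_tpr, h3]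
      by_cases h4 : wt κ p.2 = m
      · rw [if_pos h4, if_pos (by rw [h4])]
      · rw [if_neg h4, if_neg (fun h5 => h4 (add_left_cancel h5)), mul_zero]
  rw [Finset.sum_congr rfl key]
  by_cases h1 : wt κ a = m' + m
  · simp [h1]
  · simp [h1]

theorem tpr_algHom (κ : Fin d → Fin s → ℤ) (φ : PS k d →ₐ[k] PS k d)
    (h : ∀ i, IsHom κ (κ i) (φ (X i))) (m : Fin s → ℤ) (f : PS k d) :
    tpr κ m (φ f) = φ (tpr κ m f) := by
  classical
  ext a
  obtain ⟨S, hS⟩ := coeff_cont (k := k) (fun _ : Fin d => 1) (fun _ => le_rfl) 0 a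
  have h1 := hS φ.toLinearMap (cont_algHom φ) f
  have h2 := hS φ.toLinearMap (cont_algHom φ) (tpr κ m f)
  simp only [AlgHom.toLinearMap_apply] at h1 h2
  rw [coeff_tpr, h1, h2]
  have key : ∀ b ∈ S, coeff b (tpr κ m f) * coeff a (φ (monomial b (1 : k))) =
      if wt κ a = m then coeff b f * coeff a (φ (monomial b (1 : k))) else 0 := by
    intro b _
    by_cases h3 : coeff a (φ (monomial b (1 : k))) = 0
    · rw [h3, mul_zero, mul_zero, ite_self]
    · have h4 := isHom_algHom_monomial κ φ h b a h3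
      rw [coeff_tpr, h4]
      by_cases h5 : wt κ b = m
      · rw [if_pos h5, if_pos h5]
      · rw [if_neg h5, if_neg h5, zero_mul]
  rw [Finset.sum_congr rfl key]
  by_cases h3 : wt κ a = m
  · simp [h3]
  · simp [h3]

end Pool.Agent.SYZ71
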