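import Pool.Agent.SYZ71.LM1

/-!
# SYZ71/LM3 : the coefficients of `U v f` are polynomials in `v`

`U v`, `v ∈ ℤ^r`, commuting automorphisms with `U v (X i) - X i` of weight `≥ η i + 1`.

Proof.  Fix `a` and `Θ > weight η a` (`η = eta d`).  For an automorphism `W` which is the identity up
to higher weight put `δ = W - 1` (linear); `weightedOrder (δ f) ≥ weightedOrder f + 1`
(`weightedOrder_sub_id`).  For `n : ℤ`:
`W ^ n f ≡ ∑_{j < Θ} (Ring.choose n j : ℤ) • δ^j f` modulo weight `≥ Θ` (`Int.induction_on`; from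
`n` to `n + 1` by applying `W = 1 + δ` and Pascal `Ring.choose_succ_succ`, the term `δ^Θ f` has weight
`≥ Θ`; from `n` to `n - 1`: `W` applied to `∑ choose (n-1) j • δ^j f` is `≡ W^n f`, apply `W⁻¹`, which
preserves the weighted order).
The function `n ↦ (Ring.choose n j : k)` is a polynomial in `n`
(`Ring.descPochhammer_eq_factorial_smul_choose`: `j! * choose n j = (descPochhammer ℤ j).eval n`).
Let `e l` be the `l`-th unit vector.  For `L : Finset (Fin r)` show by induction:
for all `f`, `v ↦ coeff a (U (∑_{l ∈ L} v l • e l) f)` is polynomial in `v`: for `l ∉ L`,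
`U (v l • e l + w) f = U w (U (e l) ^ (v l) f) ≡ ∑_{j<Θ} choose (v l) j • U w (δ_l^j f)`, where
`w = ∑_{L} …`, and `U w` does not decrease the weighted order.
-/

set_option autoImplicit false

open MvPowerSeries

namespace Pool.Agent.SYZ71

variable {k : Type*} [Field k] {d r s : ℕ}

private theorem LM3_eta_pos (i : Fin d) : 1 ≤ eta d i := by
  have := i.pos
  simp only [eta]
  omega

private theorem LM3_add {η : Fin d → ℕ} {Q : ℕ∞} {f g : PS k d}
    (hf : Q ≤ f.weightedOrder η) (hg : Q ≤ g.weightedOrder η) : Q ≤ (f + g).weightedOrder η :=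
  le_trans (le_min hf hg) (min_weightedOrder_le_add η)

private theorem LM3_smul {η : Fin d → ℕ} {Q : ℕ∞} {f : PS k d} (c : ℤ)
    (hf : Q ≤ f.weightedOrder η) : Q ≤ (c • f).weightedOrder η := by
  apply le_weightedOrder η
  intro b hb
  rw [map_zsmul, coeff_eq_zero_of_lt_weightedOrder η (lt_of_lt_of_le hb hf), smul_zero]

private theorem LM3_neg {η : Fin d → ℕ} {Q : ℕ∞} {f : PS k d}
    (hf : Q ≤ f.weightedOrder η) : Q ≤ (-f).weightedOrder η := by
  apply le_weightedOrder η
  intro b hb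
  rw [map_neg, coeff_eq_zero_of_lt_weightedOrder η (lt_of_lt_of_le hb hf), neg_zero]

/-- polynomial functions on `ℤ^r` -/
private def LM3_IsP (F : (Fin r → ℤ) → k) : Prop :=
  ∃ P : MvPolynomial (Fin r) k, ∀ v : Fin r → ℤ, F v = MvPolynomial.eval (fun i => (v i : k)) P

private theorem LM3_isP_const (c : k) : LM3_IsP (r := r) (fun _ => c) :=
  ⟨MvPolynomial.C c, fun v => by simp⟩

private theorem LM3_isP_mul {F G : (Fin r → ℤ) → k} (hF : LM3_IsP F) (hG : LM3_IsP G) :
    LM3_IsP (fun v => F v * G v) := by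
  obtain ⟨P, hP⟩ := hF
  obtain ⟨Q, hQ⟩ := hG
  exact ⟨P * Q, fun v => by rw [map_mul, ← hP, ← hQ]⟩

private theorem LM3_isP_sum {ι : Type*} (t : Finset ι) {F : ι → (Fin r → ℤ) → k}
    (hF : ∀ j ∈ t, LM3_IsP (F j)) : LM3_IsP (fun v => ∑ j ∈ t, F j v) := by
  classical
  choose! P hP using hF
  refine ⟨∑ j ∈ t, P j, fun v => ?_⟩
  rw [map_sum]
  exact Finset.sum_congr rfl fun j hj => hP j hj v

private theorem LM3_isP_choose [CharZero k] (l : Fin r) (j : ℕ) :
    LM3_IsP (fun v => ((Ring.choose (v l) j : ℤ) : k)) := by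
  refine ⟨MvPolynomial.C ((j.factorial : k)⁻¹) *
    Polynomial.aeval (MvPolynomial.X l : MvPolynomial (Fin r) k) (descPochhammer k j), fun v => ?_⟩
  have h1 : (descPochhammer ℤ j).eval (v l) = (j.factorial : ℤ) * Ring.choose (v l) j := by
    rw [Polynomial.eval_eq_smeval, Ring.descPochhammer_eq_factorial_smul_choose, nsmul_eq_mul]
  have h2 : ((j.factorial : k)) * ((Ring.choose (v l) j : ℤ) : k) =
      (descPochhammer k j).eval ((v l : ℤ) : k) := by
    rw [← descPochhammer_eval_cast, h1]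
    push_cast
    ring
  have hf : (j.factorial : k) ≠ 0 := Nat.cast_ne_zero.mpr j.factorial_ne_zero
  have h3 : MvPolynomial.eval (fun i => (v i : k))
      (Polynomial.aeval (MvPolynomial.X l : MvPolynomial (Fin r) k) (descPochhammer k j)) =
      (descPochhammer k j).eval ((v l : ℤ) : k) := by
    rw [Polynomial.aeval_def, Polynomial.hom_eval₂, MvPolynomial.eval_X]
    have : (MvPolynomial.eval (fun i => (v i : k))).comp
        (algebraMap k (MvPolynomial (Fin r) k)) = RingHom.id k := by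
      ext x
      simp [MvPolynomial.algebraMap_eq]
    rw [this, Polynomial.eval₂_id]
  rw [map_mul, MvPolynomial.eval_C, h3, ← h2]
  field_simp

/-- `δ = U v - 1` as a linear map -/
private noncomputable def LM3_del (φ : PS k d ≃ₐ[k] PS k d) : Module.End k (PS k d) :=
  φ.toLinearMap - 1

private theorem LM3_del_apply (φ : PS k d ≃ₐ[k] PS k d) (f : PS k d) :
    LM3_del φ f = φ f - f := rfl

private theorem LM3_wo_del (φ : PS k d ≃ₐ[k] PS k d)
    (hφ : ∀ i, ((eta d i + 1 : ℕ) : ℕ∞) ≤ (φ (X i) - X i).weightedOrder (eta d)) (f : PS k d) :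
    f.weightedOrder (eta d) + 1 ≤ (LM3_del φ f).weightedOrder (eta d) :=
  weightedOrder_sub_id (eta d) LM3_eta_pos (φ : PS k d →ₐ[k] PS k d) hφ f

private theorem LM3_wo_app (φ : PS k d ≃ₐ[k] PS k d)
    (hφ : ∀ i, ((eta d i + 1 : ℕ) : ℕ∞) ≤ (φ (X i) - X i).weightedOrder (eta d)) (f : PS k d) :
    f.weightedOrder (eta d) ≤ (φ f).weightedOrder (eta d) := by
  have h1 : φ f = LM3_del φ f + f := by rw [LM3_del_apply]; ring
  rw [h1]
  exact LM3_add (le_trans le_self_add (LM3_wo_del φ hφ f)) le_rfl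

private theorem LM3_wo_pow (φ : PS k d ≃ₐ[k] PS k d)
    (hφ : ∀ i, ((eta d i + 1 : ℕ) : ℕ∞) ≤ (φ (X i) - X i).weightedOrder (eta d)) (j : ℕ)
    (f : PS k d) : (j : ℕ∞) ≤ ((LM3_del φ ^ j) f).weightedOrder (eta d) := by
  induction j with
  | zero => simp
  | succ j ih =>
    rw [pow_succ', Module.End.mul_apply]
    refine le_trans ?_ (LM3_wo_del φ hφ _)
    push_cast
    gcongr

/-- truncated binomial series -/
private noncomputable def LM3_S (φ : PS k d ≃ₐ[k] PS k d) (Θ : ℕ) (n : ℤ) (f : PS k d) : PS k d :=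
  ∑ j ∈ Finset.range Θ, (Ring.choose n j : ℤ) • ((LM3_del φ ^ j) f)

private theorem LM3_S_succ (φ : PS k d ≃ₐ[k] PS k d) (Θ : ℕ) (n : ℤ) (f : PS k d) :
    φ (LM3_S φ (Θ + 1) n f) = LM3_S φ (Θ + 1) (n + 1) f +
      (Ring.choose n Θ : ℤ) • ((LM3_del φ ^ (Θ + 1)) f) := by
  have h1 : φ (LM3_S φ (Θ + 1) n f) = LM3_del φ (LM3_S φ (Θ + 1) n f) + LM3_S φ (Θ + 1) n f := by
    rw [LM3_del_apply]; ring
  have h2 : LM3_del φ (LM3_S φ (Θ + 1) n f) = ∑ j ∈ Finset.range (Θ + 1),
      (Ring.choose n j : ℤ) • ((LM3_del φ ^ (j + 1)) f) := by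
    rw [LM3_S, map_sum]
    refine Finset.sum_congr rfl fun j _ => ?_
    rw [map_zsmul, pow_succ', Module.End.mul_apply]
  rw [h1, h2, LM3_S, LM3_S, Finset.sum_range_succ, Finset.sum_range_succ' _ Θ,
    Finset.sum_range_succ' _ Θ]
  have h3 : ∀ j, (Ring.choose (n + 1) (j + 1) : ℤ) • ((LM3_del φ ^ (j + 1)) f) =
      (Ring.choose n j : ℤ) • ((LM3_del φ ^ (j + 1)) f) +
      (Ring.choose n (j + 1) : ℤ) • ((LM3_del φ ^ (j + 1)) f) := by
    intro j
    rw [Ring.choose_succ_succ, add_smul]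
  rw [Finset.sum_congr rfl fun j _ => h3 j, Finset.sum_add_distrib, Ring.choose_zero_right,
    Ring.choose_zero_right]
  abel

private theorem LM3_main (U : (Fin r → ℤ) → (PS k d ≃ₐ[k] PS k d))
    (hU : ∀ u v, U (u + v) = U u * U v)
    (hr : ∀ v i, ((eta d i + 1 : ℕ) : ℕ∞) ≤ (U v (X i) - X i).weightedOrder (eta d))
    (e : Fin r → ℤ) (Θ : ℕ) (f : PS k d) (n : ℤ) :
    (Θ : ℕ∞) ≤ (U (n • e) f - LM3_S (U e) Θ n f).weightedOrder (eta d) := by
  have h0 : ∀ g, U 0 g = g := by
    intro g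
    have h := hU 0 0
    rw [add_zero] at h
    have h' : U 0 = 1 := by
      have := mul_eq_left.mp h.symm
      exact this
    rw [h']
    rfl
  rcases Θ with _ | Θ
  · simp
  have key : ∀ m : ℤ, (((Θ + 1 : ℕ)) : ℕ∞) ≤
      (U e (LM3_S (U e) (Θ + 1) m f) - LM3_S (U e) (Θ + 1) (m + 1) f).weightedOrder (eta d) := by
    intro m
    rw [LM3_S_succ, add_sub_cancel_left]
    exact LM3_smul _ (LM3_wo_pow (U e) (hr e) (Θ + 1) f)
  have hstep : ∀ m : ℤ, ∀ g, U ((m + 1) • e) g = U e (U (m • e) g) := by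
    intro m g
    rw [add_smul, one_smul, add_comm, hU]
    rfl
  induction n using Int.induction_on with
  | zero =>
    have h1 : LM3_S (U e) (Θ + 1) 0 f = f := by
      rw [LM3_S, Finset.sum_range_succ']
      simp
    rw [h1, zero_smul, h0, sub_self]
    simp
  | succ m ih =>
    have h1 : U (((m : ℤ) + 1) • e) f - LM3_S (U e) (Θ + 1) ((m : ℤ) + 1) f =
        U e (U ((m : ℤ) • e) f - LM3_S (U e) (Θ + 1) (m : ℤ) f) +
        (U e (LM3_S (U e) (Θ + 1) (m : ℤ) f) - LM3_S (U e) (Θ + 1) ((m : ℤ) + 1) f) := by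
      rw [hstep, map_sub]
      ring
    rw [h1]
    exact LM3_add (le_trans ih (LM3_wo_app (U e) (hr e) _)) (key _)
  | pred m ih =>
    set m' : ℤ := -(m : ℤ) - 1 with hm'
    have hm'' : -(m : ℤ) = m' + 1 := by rw [hm']; ring
    rw [hm''] at ih
    have hinv : ∀ g, U (-e) (U e g) = g := by
      intro g
      have : U (-e) (U e g) = U (-e + e) g := by rw [hU]; rfl
      rw [this, neg_add_cancel, h0]
    have h1 : U (m' • e) f - LM3_S (U e) (Θ + 1) m' f =
        U (-e) ((U ((m' + 1) • e) f - LM3_S (U e) (Θ + 1) (m' + 1) f) +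
          -(U e (LM3_S (U e) (Θ + 1) m' f) - LM3_S (U e) (Θ + 1) (m' + 1) f)) := by
      rw [hstep]
      rw [show (U e (U (m' • e) f) - LM3_S (U e) (Θ + 1) (m' + 1) f) +
          -(U e (LM3_S (U e) (Θ + 1) m' f) - LM3_S (U e) (Θ + 1) (m' + 1) f) =
          U e (U (m' • e) f - LM3_S (U e) (Θ + 1) m' f) by rw [map_sub]; ring, hinv]
    rw [h1]
    exact le_trans (LM3_add ih (LM3_neg (key _))) (LM3_wo_app (U (-e)) (hr (-e)) _)

theorem isPoly_coeff [CharZero k] (U : (Fin r → ℤ) → (PS k d ≃ₐ[k] PS k d))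
    (hU : ∀ u v, U (u + v) = U u * U v)
    (hr : ∀ v i, ((eta d i + 1 : ℕ) : ℕ∞) ≤ (U v (X i) - X i).weightedOrder (eta d))
    (f : PS k d) (a : Fin d →₀ ℕ) :
    ∃ P : MvPolynomial (Fin r) k, ∀ v : Fin r → ℤ,
      coeff a (U v f) = MvPolynomial.eval (fun i => (v i : k)) P := by
  classical
  set Θ : ℕ := Finsupp.weight (eta d) a + 1 with hΘ
  have hvan : ∀ g : PS k d, (Θ : ℕ∞) ≤ g.weightedOrder (eta d) → coeff a g = 0 := by
    intro g hg
    apply coeff_eq_zero_of_lt_weightedOrder (eta d)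
    refine lt_of_lt_of_le ?_ hg
    rw [hΘ]
    exact_mod_cast Nat.lt_succ_self _
  have main : ∀ L : Finset (Fin r), ∀ f : PS k d,
      LM3_IsP (fun v => coeff a (U (fun i => if i ∈ L then v i else 0) f)) := by
    intro L
    induction L using Finset.induction_on with
    | empty =>
      intro f
      exact LM3_isP_const (coeff a (U 0 f))
    | insert l L hl ih =>
      intro f
      have hval : ∀ v : Fin r → ℤ, coeff a (U (fun i => if i ∈ insert l L then v i else 0) f) =
          ∑ j ∈ Finset.range Θ, ((Ring.choose (v l) j : ℤ) : k) *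
            coeff a (U (fun i => if i ∈ L then v i else 0)
              ((LM3_del (U (Pi.single l 1)) ^ j) f)) := by
        intro v
        set w : Fin r → ℤ := fun i => if i ∈ L then v i else 0 with hw
        have h1 : (fun i => if i ∈ insert l L then v i else 0) =
            w + v l • (Pi.single l 1 : Fin r → ℤ) := by
          funext i
          rw [hw]
          by_cases hil : i = l
          · subst hil
            simp [hl]
          · simp [Finset.mem_insert, hil]
        rw [h1, hU]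
        have h2 : (U w * U (v l • (Pi.single l 1 : Fin r → ℤ))) f =
            U w (U (v l • (Pi.single l 1 : Fin r → ℤ)) f) := rfl
        rw [h2]
        have h3 := LM3_main U hU hr (Pi.single l 1) Θ f (v l)
        have h4 : coeff a (U w (U (v l • (Pi.single l 1 : Fin r → ℤ)) f -
            LM3_S (U (Pi.single l 1)) Θ (v l) f)) = 0 :=
          hvan _ (le_trans h3 (LM3_wo_app (U w) (hr w) _))
        rw [map_sub, map_sub, sub_eq_zero] at h4
        rw [h4, LM3_S, map_sum, map_sum]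
        refine Finset.sum_congr rfl fun j _ => ?_
        rw [map_zsmul, map_zsmul, zsmul_eq_mul]
      simp only [hval]
      exact LM3_isP_sum _ fun j _ => LM3_isP_mul (LM3_isP_choose l j) (ih _)
  obtain ⟨P, hP⟩ := main Finset.univ f
  refine ⟨P, fun v => ?_⟩
  have := hP v
  simpa using this

end Pool.Agent.SYZ71
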