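import Pool.Agent.SYZ71.LM2
import Pool.Agent.SYZ71.LM3

/-!
# SYZ71/LM4 : the logarithms `Y l` and their properties

`exists_log`: for `f` and `l` let `Yfun l f` be the series with `coeff a = ∂_l P_{f,a} (0)`, `P_{f,a}`
from `isPoly_coeff`; so `HasD l (fun v => U v f) (Yfun l f)`.  By `hasD_unique`, `hasD_add`,
`hasD_smul`, `hasD_mul` (and `U 0 = 1`) `Yfun l` is a derivation (`Derivation.mk'`).

`log_weight`: for `weight η a < weightedOrder f + 1` the coefficient `coeff a (U v f)` is
`coeff a f`, independent of `v`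
(`weightedOrder_sub_id`: `weightedOrder (U v f - f) ≥ weightedOrder f + 1`), so `P` is constant
(`poly_unique` with `C`) and `coeff a (Y l f) = 0`.

`log_homog`: `U v f` is homogeneous of weight `m` (`algHom_isHom`), so `coeff a (U v f) = 0` for all
`v` if `wt κ a ≠ m`, `P = 0`.

`log_commute_U`: `HasD l (fun u => U u (U v f)) (Y l (U v f))`, and `U u (U v f) = U v (U u f)`;
`hasD_linear` for `L = U v` (`c = 0`, `weightedOrder_algHom_ge`), `hasD_unique`.

`log_comm`: `HasD m (fun v => U v (Y l f)) (Y m (Y l f))` and `U v (Y l f) = Y l (U v f)`;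
`hasD_linear` for `L = Y l` (`c = 0`, by `log_weight`): `Y l (Y m f)`.
-/

set_option autoImplicit false

open MvPowerSeries

namespace Pool.Agent.SYZ71

variable {k : Type*} [Field k] [CharZero k] {d r s : ℕ}

private theorem one_le_eta (i : Fin d) : 1 ≤ eta d i := by
  have h := i.2
  unfold eta
  omega

private theorem U_zero (U : (Fin r → ℤ) → (PS k d ≃ₐ[k] PS k d))
    (hU : ∀ u v, U (u + v) = U u * U v) : U 0 = 1 := by
  have h := hU 0 0
  rw [add_zero] at h
  have h2 : U 0 * 1 = U 0 * U 0 := by rw [mul_one]; exact h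
  exact (mul_left_cancel h2).symm

private theorem U_comm (U : (Fin r → ℤ) → (PS k d ≃ₐ[k] PS k d))
    (hU : ∀ u v, U (u + v) = U u * U v) (u v : Fin r → ℤ) (f : PS k d) :
    U u (U v f) = U v (U u f) := by
  have h : U u * U v = U v * U u := by rw [← hU, ← hU, add_comm]
  exact DFunLike.congr_fun h f

private theorem order_U (U : (Fin r → ℤ) → (PS k d ≃ₐ[k] PS k d))
    (hr : ∀ v i, ((eta d i + 1 : ℕ) : ℕ∞) ≤ (U v (X i) - X i).weightedOrder (eta d))
    (v : Fin r → ℤ) (f : PS k d) :
    f.weightedOrder (eta d) + 1 ≤ (U v f - f).weightedOrder (eta d) :=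
  weightedOrder_sub_id (eta d) one_le_eta (U v : PS k d →ₐ[k] PS k d) (fun i => hr v i) f

private theorem order_U' (U : (Fin r → ℤ) → (PS k d ≃ₐ[k] PS k d))
    (hr : ∀ v i, ((eta d i + 1 : ℕ) : ℕ∞) ≤ (U v (X i) - X i).weightedOrder (eta d))
    (v : Fin r → ℤ) (f : PS k d) :
    f.weightedOrder (eta d) ≤ (U v f).weightedOrder (eta d) := by
  apply le_weightedOrder
  intro a ha
  have h1 : coeff a (U v f - f) = 0 := by
    apply coeff_eq_zero_of_lt_weightedOrder (eta d)
    exact lt_of_lt_of_le ha (le_trans le_self_add (order_U U hr v f))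
  have h2 : coeff a f = 0 := coeff_eq_zero_of_lt_weightedOrder (eta d) ha
  rw [map_sub, h2, sub_zero] at h1
  exact h1

/-- a coefficient that does not depend on `v` has zero derivative -/
private theorem eq_zero_of_const (l : Fin r) (φ : (Fin r → ℤ) → PS k d) (f' : PS k d)
    (h : HasD l φ f') (a : Fin d →₀ ℕ) (c : k) (hc : ∀ v, coeff a (φ v) = c) :
    coeff a f' = 0 := by
  obtain ⟨P, h1, h2⟩ := h a
  have h3 : P = MvPolynomial.C c := by
    apply poly_unique
    intro v
    rw [← h1 v, hc v, MvPolynomial.eval_C]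
  rw [h2, h3, MvPolynomial.pderiv_C, map_zero]

theorem exists_log (U : (Fin r → ℤ) → (PS k d ≃ₐ[k] PS k d))
    (hU : ∀ u v, U (u + v) = U u * U v)
    (hr : ∀ v i, ((eta d i + 1 : ℕ) : ℕ∞) ≤ (U v (X i) - X i).weightedOrder (eta d)) :
    ∃ Y : Fin r → Derivation k (PS k d) (PS k d),
      ∀ l f, HasD l (fun v => U v f) (Y l f) := by
  choose P hP using fun f a => isPoly_coeff U hU hr f a
  have h0 := U_zero U hU
  let Yf : Fin r → PS k d → PS k d := fun l f a => MvPolynomial.eval 0 (MvPolynomial.pderiv l (P f a))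
  have hYf : ∀ l f, HasD l (fun v => U v f) (Yf l f) := by
    intro l f a
    exact ⟨P f a, hP f a, rfl⟩
  have hadd : ∀ l f g, Yf l (f + g) = Yf l f + Yf l g := by
    intro l f g
    apply hasD_unique l (fun v => U v (f + g)) _ _ (hYf l (f + g))
    have h1 := hasD_add l _ _ _ _ (hYf l f) (hYf l g)
    have h2 : (fun v => U v (f + g)) = fun v => U v f + U v g := by
      funext v
      exact map_add _ _ _
    rw [h2]
    exact h1
  have hsmul : ∀ l (c : k) f, Yf l (c • f) = c • Yf l f := by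
    intro l c f
    apply hasD_unique l (fun v => U v (c • f)) _ _ (hYf l (c • f))
    have h1 := hasD_smul l c _ _ (hYf l f)
    have h2 : (fun v => U v (c • f)) = fun v => c • U v f := by
      funext v
      exact map_smul _ _ _
    rw [h2]
    exact h1
  have hmul : ∀ l f g, Yf l (f * g) = f • Yf l g + g • Yf l f := by
    intro l f g
    apply hasD_unique l (fun v => U v (f * g)) _ _ (hYf l (f * g))
    have h1 := hasD_mul l _ _ _ _ (hYf l f) (hYf l g)
    have h2 : (fun v => U v (f * g)) = fun v => U v f * U v g := by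
      funext v
      exact map_mul _ _ _
    have h3 : Yf l f * (U 0) g + (U 0) f * Yf l g = f • Yf l g + g • Yf l f := by
      rw [h0, AlgEquiv.one_apply, AlgEquiv.one_apply, smul_eq_mul, smul_eq_mul]
      ring
    rw [h2, ← h3]
    exact h1
  let Yl : Fin r → (PS k d →ₗ[k] PS k d) := fun l =>
    { toFun := Yf l
      map_add' := hadd l
      map_smul' := hsmul l }
  refine ⟨fun l => Derivation.mk' (Yl l) (hmul l), ?_⟩
  intro l f
  exact hYf l f

theorem log_weight (U : (Fin r → ℤ) → (PS k d ≃ₐ[k] PS k d))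
    (hr : ∀ v i, ((eta d i + 1 : ℕ) : ℕ∞) ≤ (U v (X i) - X i).weightedOrder (eta d))
    (Y : Fin r → Derivation k (PS k d) (PS k d))
    (hY : ∀ l f, HasD l (fun v => U v f) (Y l f)) (l : Fin r) (f : PS k d) :
    f.weightedOrder (eta d) + 1 ≤ (Y l f).weightedOrder (eta d) := by
  apply le_weightedOrder
  intro a ha
  apply eq_zero_of_const l _ _ (hY l f) a (coeff a f)
  intro v
  have h1 : coeff a (U v f - f) = 0 := by
    apply coeff_eq_zero_of_lt_weightedOrder (eta d)
    exact lt_of_lt_of_le ha (order_U U hr v f)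
  rw [map_sub, sub_eq_zero] at h1
  exact h1

theorem log_homog (U : (Fin r → ℤ) → (PS k d ≃ₐ[k] PS k d)) (κ : Fin d → Fin s → ℤ)
    (hκ : ∀ v i, IsHom κ (κ i) (U v (X i)))
    (Y : Fin r → Derivation k (PS k d) (PS k d))
    (hY : ∀ l f, HasD l (fun v => U v f) (Y l f)) (l : Fin r) (m : Fin s → ℤ) (f : PS k d)
    (hf : IsHom κ m f) : IsHom κ m (Y l f) := by
  intro a ha
  by_contra hne
  apply ha
  apply eq_zero_of_const l _ _ (hY l f) a 0
  intro v
  by_contra hc
  exact hne (algHom_isHom κ (U v : PS k d →ₐ[k] PS k d) (fun i => hκ v i) m f hf a hc)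

theorem log_commute_U (U : (Fin r → ℤ) → (PS k d ≃ₐ[k] PS k d))
    (hU : ∀ u v, U (u + v) = U u * U v)
    (hr : ∀ v i, ((eta d i + 1 : ℕ) : ℕ∞) ≤ (U v (X i) - X i).weightedOrder (eta d))
    (Y : Fin r → Derivation k (PS k d) (PS k d))
    (hY : ∀ l f, HasD l (fun v => U v f) (Y l f)) (l : Fin r) (v : Fin r → ℤ) (f : PS k d) :
    Y l (U v f) = U v (Y l f) := by
  apply hasD_unique l (fun u => U u (U v f)) _ _ (hY l (U v f))
  have h1 := hasD_linear (eta d) one_le_eta 0 ((U v : PS k d →ₐ[k] PS k d).toLinearMap)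
    (fun g => by
      rw [Nat.cast_zero, add_zero]
      exact order_U' U hr v g) l _ _ (hY l f)
  have h2 : (fun u => U u (U v f)) = fun u => U v (U u f) := by
    funext u
    exact U_comm U hU u v f
  rw [h2]
  exact h1

theorem log_comm (U : (Fin r → ℤ) → (PS k d ≃ₐ[k] PS k d))
    (hU : ∀ u v, U (u + v) = U u * U v)
    (hr : ∀ v i, ((eta d i + 1 : ℕ) : ℕ∞) ≤ (U v (X i) - X i).weightedOrder (eta d))
    (Y : Fin r → Derivation k (PS k d) (PS k d))
    (hY : ∀ l f, HasD l (fun v => U v f) (Y l f)) (l m : Fin r) : ⁅Y l, Y m⁆ = 0 := by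
  ext1 f
  rw [Derivation.commutator_apply, Derivation.zero_apply, sub_eq_zero]
  symm
  apply hasD_unique m (fun v => U v (Y l f)) _ _ (hY m (Y l f))
  have h1 := hasD_linear (eta d) one_le_eta 0 (Y l : PS k d →ₗ[k] PS k d)
    (fun g => by
      rw [Nat.cast_zero, add_zero]
      exact le_trans le_self_add (log_weight U hr Y hY l g)) m _ _ (hY m f)
  have h2 : (fun v => U v (Y l f)) = fun v => Y l (U v f) := by
    funext v
    exact (log_commute_U U hU hr Y hY l v f).symm
  rw [h2]
  exact h1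

end Pool.Agent.SYZ71
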