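import Pool.Agent.SYZ71.LM4
import Pool.Agent.SYZ71.LND

/-!
# SYZ71/LM5 : Lie derivative of an invariant form along `Y l`

Let `ω` be `PS`-bilinear and preserved by all `U v`.  Then
`Y (ω X Z) = ω ⁅Y, X⁆ Z + ω X ⁅Y, Z⁆` for `Y = Y l`.
-/

set_option autoImplicit false

open MvPowerSeries

namespace Pool.Agent.SYZ71

variable {k : Type*} [Field k] {d r s : ℕ}

theorem omega_expand (ω : Derivation k (PS k d) (PS k d) →ₗ[PS k d]
      Derivation k (PS k d) (PS k d) →ₗ[PS k d] PS k d) (D D' : Derivation k (PS k d) (PS k d)) :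
    ω D D' = ∑ i, ∑ j, D (X i) * D' (X j) * ω (pderiv k i) (pderiv k j) :=
  LN.omega_eq ω D D'

private theorem wo_pderiv (η : Fin d → ℕ) (i : Fin d) (f : PS k d) :
    f.weightedOrder η ≤ (pderiv k i f).weightedOrder η + η i := by
  by_cases htop : (pderiv k i f).weightedOrder η = ⊤
  · rw [htop]; simp
  obtain ⟨N, hN⟩ := ENat.ne_top_iff_exists.mp htop
  obtain ⟨n, hn, hw⟩ := exists_coeff_ne_zero_and_weightedOrder (f := pderiv k i f) η (by
    rw [← hN]; simp)
  rw [← hw]
  rw [coeff_pderiv] at hn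
  have h1 := left_ne_zero_of_mul hn
  refine le_trans (weightedOrder_le η h1) ?_
  rw [map_add]
  have : (Finsupp.weight η) (Finsupp.single i 1) = η i := by
    rw [Finsupp.weight_single]; simp
  rw [this]
  push_cast
  exact le_rfl

theorem weightedOrder_der_lower (D : Derivation k (PS k d) (PS k d)) (f : PS k d) :
    f.weightedOrder (eta d) ≤ (D f).weightedOrder (eta d) + ((2 * d : ℕ) : ℕ∞) := by
  rw [derivation_eq D f]
  by_cases htop : (∑ i, D (X i) * pderiv k i f).weightedOrder (eta d) = ⊤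
  · rw [htop]; simp
  obtain ⟨N, hN⟩ := ENat.ne_top_iff_exists.mp htop
  obtain ⟨n, hn, hw⟩ := exists_coeff_ne_zero_and_weightedOrder
    (f := ∑ i, D (X i) * pderiv k i f) (eta d) (by rw [← hN]; simp)
  rw [← hw]
  rw [map_sum] at hn
  obtain ⟨i, -, hi⟩ := Finset.exists_ne_zero_of_sum_ne_zero hn
  have h1 : (D (X i) * pderiv k i f).weightedOrder (eta d) ≤
      ((Finsupp.weight (eta d) n : ℕ) : ℕ∞) := weightedOrder_le (eta d) hi
  have h2 : (pderiv k i f).weightedOrder (eta d) ≤
      (D (X i) * pderiv k i f).weightedOrder (eta d) :=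
    le_trans (le_add_self) (le_weightedOrder_mul (w := eta d) (f := D (X i)) (g := pderiv k i f))
  refine le_trans (wo_pderiv (eta d) i f) ?_
  refine add_le_add (le_trans h2 h1) ?_
  have h3 : eta d i ≤ 2 * d := by
    have := i.2
    unfold eta
    omega
  exact_mod_cast h3

theorem log_lie [CharZero k] (ω : Derivation k (PS k d) (PS k d) →ₗ[PS k d]
      Derivation k (PS k d) (PS k d) →ₗ[PS k d] PS k d)
    (U : (Fin r → ℤ) → (PS k d ≃ₐ[k] PS k d))
    (hU : ∀ u v, U (u + v) = U u * U v)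
    (hr : ∀ v i, ((eta d i + 1 : ℕ) : ℕ∞) ≤ (U v (X i) - X i).weightedOrder (eta d))
    (hω : ∀ v, Preserves ω (U v))
    (Y : Fin r → Derivation k (PS k d) (PS k d))
    (hY : ∀ l f, HasD l (fun v => U v f) (Y l f)) (l : Fin r)
    (A B : Derivation k (PS k d) (PS k d)) :
    Y l (ω A B) = ω ⁅Y l, A⁆ B + ω A ⁅Y l, B⁆ := by
  have he : ∀ i : Fin d, 1 ≤ eta d i := by
    intro i
    have h := i.2
    unfold eta
    omega
  have h0 : U 0 = 1 := by
    have h := hU 0 0
    rw [add_zero] at h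
    have h2 : U 0 * 1 = U 0 * U 0 := by rw [mul_one]; exact h
    exact (mul_left_cancel h2).symm
  have hinv : ∀ v, (U v).symm = U (-v) := by
    intro v
    have h := hU v (-v)
    rw [add_neg_cancel, h0] at h
    have h2 : U (-v) = (U v)⁻¹ := eq_inv_of_mul_eq_one_right h.symm
    rw [h2]
    rfl
  have hUo : ∀ v f, f.weightedOrder (eta d) ≤ (U v f).weightedOrder (eta d) := by
    intro v f
    have h1 := weightedOrder_sub_id (eta d) he (U v : PS k d →ₐ[k] PS k d) (fun i => hr v i) f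
    apply le_weightedOrder
    intro a ha
    have h3 : coeff a (U v f - f) = 0 := by
      apply coeff_eq_zero_of_lt_weightedOrder (eta d)
      exact lt_of_lt_of_le ha (le_trans le_self_add h1)
    have h2 : coeff a f = 0 := coeff_eq_zero_of_lt_weightedOrder (eta d) ha
    rw [map_sub, h2, sub_zero] at h3
    exact h3
  have hYo : ∀ f, f.weightedOrder (eta d) ≤ (Y l f).weightedOrder (eta d) := fun f =>
    le_trans le_self_add (log_weight U hr Y hY l f)
  -- the derivative of `conj (U v) D (X i)`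
  have key : ∀ (D : Derivation k (PS k d) (PS k d)) (i : Fin d),
      HasD l (fun v => conj (U v) D (X i)) (⁅Y l, D⁆ (X i)) := by
    intro D i
    have h1 := hasD_neg l _ _ (hY l (X i))
    have h2 := hasD_linear (eta d) he (2 * d) (D : PS k d →ₗ[k] PS k d)
      (fun f => weightedOrder_der_lower D f) l _ _ h1
    have h3 := hasD_app (eta d) he
      (fun v => ((U v : PS k d →ₐ[k] PS k d)).toLinearMap) (fun v f => hUo v f)
      (Y l : PS k d →ₗ[k] PS k d) hYo l (fun f => hY l f) _ _ h2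
    have h4 : (fun v => conj (U v) D (X i)) = fun v =>
        ((U v : PS k d →ₐ[k] PS k d)).toLinearMap ((D : PS k d →ₗ[k] PS k d) (U (-v) (X i))) := by
      funext v
      rw [conj_apply, hinv]
      rfl
    rw [h4]
    have h5 : (Y l : PS k d →ₗ[k] PS k d) ((D : PS k d →ₗ[k] PS k d) (U (-0) (X i))) +
        ((U 0 : PS k d →ₐ[k] PS k d)).toLinearMap ((D : PS k d →ₗ[k] PS k d) (-(Y l (X i)))) =
        ⁅Y l, D⁆ (X i) := by
      rw [neg_zero, h0, Derivation.commutator_apply]
      change Y l (D (X i)) + D (-(Y l (X i))) = _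
      rw [map_neg, ← sub_eq_add_neg]
    rw [← h5]
    exact h3
  have hc0 : ∀ (D : Derivation k (PS k d) (PS k d)) (i : Fin d), conj (U 0) D (X i) = D (X i) := by
    intro D i
    rw [conj_apply, hinv, neg_zero, h0]
    rfl
  apply hasD_unique l (fun v => U v (ω A B)) _ _ (hY l (ω A B))
  have h6 : (fun v => U v (ω A B)) = fun v => ∑ i, ∑ j,
      conj (U v) A (X i) * conj (U v) B (X j) * ω (pderiv k i) (pderiv k j) := by
    funext v
    rw [← hω v A B, omega_expand]
  have h7 : ω ⁅Y l, A⁆ B + ω A ⁅Y l, B⁆ = ∑ i, ∑ j,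
      ((⁅Y l, A⁆ (X i) * B (X j) + A (X i) * ⁅Y l, B⁆ (X j)) * ω (pderiv k i) (pderiv k j) +
        A (X i) * B (X j) * 0) := by
    rw [omega_expand ω ⁅Y l, A⁆ B, omega_expand ω A ⁅Y l, B⁆, ← Finset.sum_add_distrib]
    refine Finset.sum_congr rfl fun i _ => ?_
    rw [← Finset.sum_add_distrib]
    refine Finset.sum_congr rfl fun j _ => ?_
    ring
  rw [h6, h7]
  refine hasD_sum l _ _ _ fun i _ => hasD_sum l _ _ _ fun j _ => ?_
  have h8 := hasD_mul l _ _ _ _ (hasD_mul l _ _ _ _ (key A i) (key B j))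
    (hasD_const l (ω (pderiv k i) (pderiv k j)))
  simp only [hc0] at h8
  exact h8

end Pool.Agent.SYZ71
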