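import Pool.Agent.SYZ71.LM4

/-!
# SYZ71/LM6 : `U v = exp (∑ v_l Y_l)`

Proof.  Fix `v`, put `Y_v = ∑ l, (v l : k) • Y l` (endomorphism).  For `f` and `a` there is a
polynomial `p_{f,a} : Polynomial k` with `p_{f,a} (n) = coeff a (U (n • v) f)` for all `n : ℕ` (substitute
`X l ↦ v l * T` in the polynomial of `isPoly_coeff`), unique (infinitely many points), and
`p_{f,a}' (0) = coeff a (Y_v f)` (chain rule: derivative of the substitution is
`∑ v l * (∂_l P)`, e.g. by induction on `P`, or
`MvPolynomial`-`aeval` and `Derivation` uniqueness `MvPolynomial.derivation_ext`).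
For `m : ℕ`: `p_{f,a} (T + m) = p_{U(m v) f, a}`, so
`p_{f,a}' (m) = coeff a (Y_v (U (m v) f)) = coeff a (U (m v) (Y_v f)) = p_{Y_v f, a} (m)`
(`log_commute_U`), hence `p_{f,a}' = p_{Y_v f, a}`, and by induction the `j`-th derivative of
`p_{f,a}` is `p_{Y_v^j f, a}`, with value `coeff a (Y_v^j f)` at `0`; so
`coeff j p_{f,a} = (1/j!) coeff a (Y_v^j f)`
(`Polynomial.coeff_iterate_derivative`, or prove it by induction on `j`).
Evaluate at `1`: `coeff a (U v f) = ∑_j (1/j!) coeff a (Y_v^j f)`, and
`coeff a (Y_v^j f) = 0` for `j > weight η a` (`log_weight`), so for `weight η a < Θ` the sum may be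
taken over `j < Θ`.  This is the claim (`le_weightedOrder`/`nat_le_weightedOrder`).
-/

set_option autoImplicit false

open MvPowerSeries

namespace Pool.Agent.SYZ71

variable {k : Type*} [Field k] [CharZero k] {d r s : ℕ}

/-- evaluation of a substituted multivariate polynomial -/
private theorem lm6_eval (g : Fin r → Polynomial k) (x : k) (P : MvPolynomial (Fin r) k) :
    Polynomial.eval x (MvPolynomial.aeval g P) =
      MvPolynomial.eval (fun i => Polynomial.eval x (g i)) P := by
  induction P using MvPolynomial.induction_on with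
  | C c => simp [MvPolynomial.aeval_C]
  | add p q hp hq => rw [map_add, Polynomial.eval_add, hp, hq, map_add]
  | mul_X p i hp => rw [map_mul, Polynomial.eval_mul, hp, map_mul, MvPolynomial.aeval_X,
      MvPolynomial.eval_X]

/-- chain rule -/
private theorem lm6_chain (g : Fin r → Polynomial k) (P : MvPolynomial (Fin r) k) :
    Polynomial.derivative (MvPolynomial.aeval g P) =
      ∑ l, MvPolynomial.aeval g (MvPolynomial.pderiv l P) * Polynomial.derivative (g l) := by
  induction P using MvPolynomial.induction_on with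
  | C c => simp [MvPolynomial.aeval_C]
  | add p q hp hq =>
    rw [map_add, map_add, hp, hq, ← Finset.sum_add_distrib]
    refine Finset.sum_congr rfl fun l _ => ?_
    rw [map_add, map_add, add_mul]
  | mul_X p i hp =>
    rw [map_mul, Polynomial.derivative_mul, hp, MvPolynomial.aeval_X]
    have h1 : ∀ l, MvPolynomial.aeval g (MvPolynomial.pderiv l (p * MvPolynomial.X i)) *
        Polynomial.derivative (g l) =
        MvPolynomial.aeval g (MvPolynomial.pderiv l p) * Polynomial.derivative (g l) * g i +
          (if l = i then MvPolynomial.aeval g p * Polynomial.derivative (g i) else 0) := by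
      intro l
      rw [MvPolynomial.pderiv_mul, map_add, map_mul, map_mul, MvPolynomial.aeval_X,
        MvPolynomial.pderiv_X]
      by_cases hl : l = i
      · subst hl
        simp
        ring
      · rw [if_neg hl, Pi.single_eq_of_ne (Ne.symm hl)]
        simp
        ring
    rw [Finset.sum_congr rfl fun l _ => h1 l, Finset.sum_add_distrib, Finset.sum_mul]
    simp

private theorem lm6_poly_eq (p q : Polynomial k) (h : ∀ n : ℕ, p.eval (n : k) = q.eval (n : k)) :
    p = q := by
  refine Polynomial.eq_of_infinite_eval_eq p q ?_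
  refine Set.Infinite.mono (s := Set.range (fun n : ℕ => (n : k))) ?_
    (Set.infinite_range_of_injective Nat.cast_injective)
  rintro x ⟨n, rfl⟩
  exact h n

private theorem lm6_U0 (U : (Fin r → ℤ) → (PS k d ≃ₐ[k] PS k d))
    (hU : ∀ u v, U (u + v) = U u * U v) (g : PS k d) : U 0 g = g := by
  have h := hU 0 0
  rw [add_zero] at h
  have h1 : U 0 = 1 := by
    have h2 : U 0 * U 0 = U 0 * 1 := by rw [← h, mul_one]
    exact mul_left_cancel h2
  rw [h1]
  rfl

private theorem lm6_Yv_apply (Y : Fin r → Derivation k (PS k d) (PS k d)) (v : Fin r → ℤ)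
    (g : PS k d) :
    (∑ l, (v l : k) • (Y l : PS k d →ₗ[k] PS k d) : Module.End k (PS k d)) g
      = ∑ l, (v l : k) • Y l g := by
  rw [LinearMap.sum_apply]
  rfl

/-- the one variable polynomial on the line through `v` -/
private theorem lm6_line (U : (Fin r → ℤ) → (PS k d ≃ₐ[k] PS k d))
    (hU : ∀ u v, U (u + v) = U u * U v)
    (hr : ∀ v i, ((eta d i + 1 : ℕ) : ℕ∞) ≤ (U v (X i) - X i).weightedOrder (eta d))
    (Y : Fin r → Derivation k (PS k d) (PS k d))
    (hY : ∀ l f, HasD l (fun v => U v f) (Y l f)) (v : Fin r → ℤ) (g : PS k d)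
    (a : Fin d →₀ ℕ) :
    ∃ p : Polynomial k, (∀ n : ℕ, coeff a (U (n • v) g) = p.eval (n : k)) ∧
      (Polynomial.derivative p).eval 0 =
        coeff a ((∑ l, (v l : k) • (Y l : PS k d →ₗ[k] PS k d) : Module.End k (PS k d)) g) := by
  obtain ⟨P, hP⟩ := isPoly_coeff U hU hr g a
  refine ⟨MvPolynomial.aeval (fun l => Polynomial.C (v l : k) * Polynomial.X) P, ?_, ?_⟩
  · intro n
    rw [hP, lm6_eval]
    congr 1
    congr 1
    funext i
    simp
    ring
  · rw [lm6_chain, Polynomial.eval_finset_sum, lm6_Yv_apply, map_sum]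
    refine Finset.sum_congr rfl fun l _ => ?_
    obtain ⟨Q, hQ, hQ'⟩ := hY l g a
    have hQP : Q = P := poly_unique Q P fun w => by rw [← hQ w, ← hP w]
    rw [map_smul, hQ', hQP, Polynomial.eval_mul, lm6_eval]
    simp only [Polynomial.derivative_mul, Polynomial.derivative_C, zero_mul,
      Polynomial.derivative_X, mul_one, zero_add, Polynomial.eval_C, Polynomial.eval_mul,
      Polynomial.eval_X, mul_zero, smul_eq_mul]
    rw [mul_comm]
    rfl

theorem log_exp (U : (Fin r → ℤ) → (PS k d ≃ₐ[k] PS k d))
    (hU : ∀ u v, U (u + v) = U u * U v)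
    (hr : ∀ v i, ((eta d i + 1 : ℕ) : ℕ∞) ≤ (U v (X i) - X i).weightedOrder (eta d))
    (Y : Fin r → Derivation k (PS k d) (PS k d))
    (hY : ∀ l f, HasD l (fun v => U v f) (Y l f)) (v : Fin r → ℤ) (f : PS k d) (Θ : ℕ) :
    (Θ : ℕ∞) ≤ (U v f - ∑ j ∈ Finset.range Θ, ((j.factorial : k)⁻¹) •
      (((∑ l, (v l : k) • (Y l : PS k d →ₗ[k] PS k d)) : Module.End k (PS k d)) ^ j)
        f).weightedOrder (eta d) := by
  have hline := lm6_line U hU hr Y hY v
  have hcomm : ∀ (w : Fin r → ℤ) (g : PS k d),
      (∑ l, (v l : k) • (Y l : PS k d →ₗ[k] PS k d) : Module.End k (PS k d)) (U w g) =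
        U w ((∑ l, (v l : k) • (Y l : PS k d →ₗ[k] PS k d) : Module.End k (PS k d)) g) := by
    intro w g
    rw [lm6_Yv_apply, lm6_Yv_apply, map_sum]
    refine Finset.sum_congr rfl fun l _ => ?_
    rw [log_commute_U U hU hr Y hY l w g, map_smul]
  have hwt : ∀ g : PS k d, g.weightedOrder (eta d) + 1 ≤
      ((∑ l, (v l : k) • (Y l : PS k d →ₗ[k] PS k d) : Module.End k (PS k d)) g).weightedOrder
        (eta d) := by
    intro g
    apply le_weightedOrder
    intro b hb
    rw [lm6_Yv_apply, map_sum]
    refine Finset.sum_eq_zero fun l _ => ?_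
    rw [map_smul, coeff_eq_zero_of_lt_weightedOrder (eta d)
      (lt_of_lt_of_le hb (log_weight U hr Y hY l g)), smul_zero]
  set Yv : Module.End k (PS k d) := ∑ l, (v l : k) • (Y l : PS k d →ₗ[k] PS k d) with hYv
  choose p hp hp' using hline
  -- the derivative of `p g a` is `p (Yv g) a`
  have hder : ∀ g a, Polynomial.derivative (p g a) = p (Yv g) a := by
    intro g a
    refine lm6_poly_eq _ _ fun m => ?_
    have h1 : (p g a).comp (Polynomial.X + Polynomial.C (m : k)) = p (U (m • v) g) a := by
      refine lm6_poly_eq _ _ fun n => ?_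
      rw [Polynomial.eval_comp, ← hp (U (m • v) g) a n]
      have h2 : U (n • v) (U (m • v) g) = U ((n + m) • v) g := by
        rw [add_smul, hU]
        rfl
      rw [h2, hp g a (n + m)]
      simp
    have h3 := congrArg (fun q => (Polynomial.derivative q).eval 0) h1
    rw [Polynomial.derivative_comp, hp' (U (m • v) g) a, hcomm, hp (Yv g) a m] at h3
    rw [← h3]
    simp
  have hiter : ∀ j g a, (Polynomial.derivative^[j]) (p g a) = p ((Yv ^ j) g) a := by
    intro j
    induction j with
    | zero =>
      intro g a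
      simp
    | succ j ih =>
      intro g a
      rw [Function.iterate_succ_apply, hder, ih (Yv g) a, pow_succ]
      rfl
  have hcoef : ∀ j g a, (p g a).coeff j = ((j.factorial : k)⁻¹) * coeff a ((Yv ^ j) g) := by
    intro j g a
    have h1 : ((Polynomial.derivative^[j]) (p g a)).coeff 0 = coeff a ((Yv ^ j) g) := by
      rw [hiter j g a, Polynomial.coeff_zero_eq_eval_zero]
      have h2 := hp ((Yv ^ j) g) a 0
      rw [zero_smul, lm6_U0 U hU, Nat.cast_zero] at h2
      exact h2.symm
    rw [Polynomial.coeff_iterate_derivative, zero_add, Nat.descFactorial_self, nsmul_eq_mul] at h1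
    have h3 : (j.factorial : k) ≠ 0 := by
      exact_mod_cast Nat.factorial_ne_zero j
    rw [← h1]
    field_simp
  have hwj : ∀ (j : ℕ) (g : PS k d), (j : ℕ∞) ≤ ((Yv ^ j) g).weightedOrder (eta d) := by
    intro j
    induction j with
    | zero =>
      intro g
      simp
    | succ j ih =>
      intro g
      rw [pow_succ', Module.End.mul_apply]
      refine le_trans ?_ (hwt _)
      push_cast
      exact add_le_add (ih g) le_rfl
  apply nat_le_weightedOrder
  intro a ha
  have hz : ∀ j, Θ ≤ j → (p f a).coeff j = 0 := by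
    intro j hj
    rw [hcoef, coeff_eq_zero_of_lt_weightedOrder (eta d), mul_zero]
    refine lt_of_lt_of_le ?_ (hwj j f)
    exact_mod_cast lt_of_lt_of_le ha hj
  have hdeg : (p f a).natDegree < Θ := by
    by_contra hcon
    rw [not_lt] at hcon
    have h1 := hz _ hcon
    rw [Polynomial.coeff_natDegree, Polynomial.leadingCoeff_eq_zero] at h1
    rw [h1, Polynomial.natDegree_zero, Nat.le_zero] at hcon
    rw [hcon] at ha
    exact absurd ha (Nat.not_lt_zero _)
  have h1 := hp f a 1
  rw [one_smul, Nat.cast_one, Polynomial.eval_eq_sum_range' hdeg] at h1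
  rw [map_sub, map_sum, h1, ← Finset.sum_sub_distrib]
  refine Finset.sum_eq_zero fun j _ => ?_
  rw [hcoef, map_smul, smul_eq_mul, one_pow, mul_one, sub_self]

end Pool.Agent.SYZ71
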