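import Pool.Agent.SYZ71.NFDefs
import Pool.Agent.SYZ71.LF2
import Pool.Agent.SYZ71.LF3

/-!
# SYZ71/LNF : existence of adapted coordinates (Jordan normal form), target of part L-NF
-/

set_option autoImplicit false

open MvPowerSeries

namespace Pool.Agent.SYZ71

section aux

variable {k : Type*} [Field k] {d r : ℕ}

theorem prod_zpow_eq_zpow_sum' {A ι : Type*} [CommGroup A] (s : Finset ι) (x : A) (f : ι → ℤ) :
    ∏ i ∈ s, x ^ f i = x ^ ∑ i ∈ s, f i := by
  classical
  induction s using Finset.induction_on with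
  | empty => simp
  | insert i s hi ih => rw [Finset.prod_insert hi, Finset.sum_insert hi, zpow_add, ih]

theorem linMat_apply (g : PS k d ≃ₐ[k] PS k d) (i l : Fin d) :
    linMat (g : PS k d →ₐ[k] PS k d) i l = coeff (Finsupp.single l 1) (g (X i)) := rfl

theorem linMat_mul (g h : PS k d ≃ₐ[k] PS k d) :
    linMat ((g * h : PS k d ≃ₐ[k] PS k d) : PS k d →ₐ[k] PS k d) =
      linMat (h : PS k d →ₐ[k] PS k d) * linMat (g : PS k d →ₐ[k] PS k d) := by
  rw [← linMat_comp]
  rfl

theorem linMat_one : linMat ((1 : PS k d ≃ₐ[k] PS k d) : PS k d →ₐ[k] PS k d) = 1 :=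
  linMat_id

/-- triangular linear part with prescribed diagonal -/
def TriDiag (g : PS k d ≃ₐ[k] PS k d) (δ : Fin d → k) : Prop :=
  Matrix.BlockTriangular (linMat (g : PS k d →ₐ[k] PS k d)) id ∧
    ∀ i, linMat (g : PS k d →ₐ[k] PS k d) i i = δ i

theorem triDiag_one : TriDiag (1 : PS k d ≃ₐ[k] PS k d) (fun _ => 1) := by
  constructor
  · rw [linMat_one]; exact Matrix.blockTriangular_one
  · intro i; rw [linMat_one, Matrix.one_apply_eq]

theorem mul_diag_of_tri (A B : Matrix (Fin d) (Fin d) k) (hA : Matrix.BlockTriangular A id)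
    (hB : Matrix.BlockTriangular B id) (i : Fin d) : (A * B) i i = A i i * B i i := by
  classical
  rw [Matrix.mul_apply]
  apply Finset.sum_eq_single i
  · intro j _ hj
    rcases lt_or_gt_of_ne hj with h | h
    · rw [hA (show id j < id i from h), zero_mul]
    · rw [hB (show id i < id j from h), mul_zero]
  · intro h; exact absurd (Finset.mem_univ i) h

theorem triDiag_mul (g h : PS k d ≃ₐ[k] PS k d) (δ δ' : Fin d → k) (hg : TriDiag g δ)
    (hh : TriDiag h δ') : TriDiag (g * h) (fun i => δ i * δ' i) := by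
  constructor
  · rw [linMat_mul]; exact hh.1.mul hg.1
  · intro i
    rw [linMat_mul, mul_diag_of_tri _ _ hh.1 hg.1, hh.2, hg.2, mul_comm]

theorem triDiag_inv (g : PS k d ≃ₐ[k] PS k d) (δ : Fin d → k) (hg : TriDiag g δ) :
    TriDiag g⁻¹ (fun i => (δ i)⁻¹) := by
  classical
  have h1 : linMat ((g⁻¹ : PS k d ≃ₐ[k] PS k d) : PS k d →ₐ[k] PS k d) *
      linMat (g : PS k d →ₐ[k] PS k d) = 1 := by
    rw [← linMat_mul, mul_inv_cancel, linMat_one]
  have h1' : linMat (g : PS k d →ₐ[k] PS k d) *
      linMat ((g⁻¹ : PS k d ≃ₐ[k] PS k d) : PS k d →ₐ[k] PS k d) = 1 := by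
    rw [← linMat_mul, inv_mul_cancel, linMat_one]
  have h2 : (linMat (g : PS k d →ₐ[k] PS k d))⁻¹ =
      linMat ((g⁻¹ : PS k d ≃ₐ[k] PS k d) : PS k d →ₐ[k] PS k d) :=
    Matrix.inv_eq_left_inv h1
  let _ : Invertible (linMat (g : PS k d →ₐ[k] PS k d)) :=
    ⟨linMat ((g⁻¹ : PS k d ≃ₐ[k] PS k d) : PS k d →ₐ[k] PS k d), h1, h1'⟩
  have h3 : Matrix.BlockTriangular
      (linMat ((g⁻¹ : PS k d ≃ₐ[k] PS k d) : PS k d →ₐ[k] PS k d)) id := by
    rw [← h2]
    exact Matrix.blockTriangular_inv_of_blockTriangular hg.1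
  refine ⟨h3, fun i => ?_⟩
  have h4 := mul_diag_of_tri _ _ h3 hg.1 i
  rw [h1, Matrix.one_apply_eq, hg.2] at h4
  exact eq_inv_of_mul_eq_one_left h4.symm

/-- the coordinates of the linear part in a basis -/
theorem lin_inv_apply (θ : PS k d ≃ₐ[k] PS k d) (h : PS k d) (hh : constantCoeff h = 0)
    (c : Fin d → k) (hc : lin k d h = ∑ j, c j • lin k d (θ (X j)))
    (hli : LinearIndependent k (fun j => lin k d (θ (X j)))) :
    lin k d (θ⁻¹ h) = c := by
  classical
  have h0 : constantCoeff ((θ⁻¹ : PS k d ≃ₐ[k] PS k d) h) = 0 := constantCoeff_algEquiv' _ h hh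
  have h1 : θ ((θ⁻¹ : PS k d ≃ₐ[k] PS k d) h) = h := θ.apply_symm_apply h
  have h2 := lin_algEquiv θ ((θ⁻¹ : PS k d ≃ₐ[k] PS k d) h) h0
  rw [h1, hc] at h2
  have h3 : Matrix.vecMul (lin k d ((θ⁻¹ : PS k d ≃ₐ[k] PS k d) h))
      (linMat (θ : PS k d →ₐ[k] PS k d)) =
      ∑ j, (lin k d ((θ⁻¹ : PS k d ≃ₐ[k] PS k d) h)) j • lin k d (θ (X j)) := by
    rw [Matrix.vecMul_eq_sum]
    rfl
  rw [h3] at h2
  have h4 : ∑ j, ((lin k d ((θ⁻¹ : PS k d ≃ₐ[k] PS k d) h)) j - c j) • lin k d (θ (X j)) = 0 := by
    simp only [sub_smul]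
    rw [Finset.sum_sub_distrib, ← h2, sub_self]
  funext j
  exact sub_eq_zero.1 (Fintype.linearIndependent_iff.1 hli _ h4 j)

end aux

theorem exists_NF {k : Type*} [Field k] [CharZero k] [IsAlgClosed k] {d r : ℕ}
    (g : (Fin r → ℤ) → (PS k d ≃ₐ[k] PS k d)) (hg : ∀ u v, g (u + v) = g u * g v) :
    ∃ (θ : PS k d ≃ₐ[k] PS k d) (M : ℕ) (s : ℕ) (ψ : Fin s → Fin r → kˣ)
      (κ : Fin d → Fin s → ℤ), 1 ≤ M ∧ NF (fun v => θ⁻¹ * g (fun l => (M : ℤ) * v l) * θ) ψ κ := by
  classical
  set G : Fin r → PS k d ≃ₐ[k] PS k d := fun l => g (Pi.single l 1) with hGdef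
  have hcomm : ∀ u v, Commute (g u) (g v) := by
    intro u v
    change g u * g v = g v * g u
    rw [← hg, ← hg, add_comm]
  have hG : ∀ i j, Commute (G i) (G j) := fun i j => hcomm _ _
  obtain ⟨a, χ, ha0, haGE, hli, htri⟩ := exists_triangular G hG d le_rfl
  have hdet : (Matrix.of fun i l => coeff (Finsupp.single l 1) (a i)).det ≠ 0 := by
    have h1 : LinearIndependent k
        (Matrix.of fun i l => coeff (Finsupp.single l 1) (a i) : Matrix (Fin d) (Fin d) k).row :=
      hli
    rw [Matrix.linearIndependent_rows_iff_isUnit, Matrix.isUnit_iff_isUnit_det] at h1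
    exact h1.ne_zero
  obtain ⟨θ, hθ⟩ := exists_algEquiv a ha0 hdet
  have hχ0 : ∀ i l, χ i l ≠ 0 := by
    intro i l
    apply isGE_ne_zero G (χ i) (a i) (haGE i)
    intro h0
    apply hli.ne_zero i
    rw [h0, map_zero]
  set x : Fin d → Fin r → kˣ := fun i l => Units.mk0 (χ i l) (hχ0 i l) with hx
  obtain ⟨M, s, ψ, κ, hM, hψ, hxM, hn⟩ := exists_power_basis x
  have hg0 : g 0 = 1 := by
    have h1 := hg 0 0
    rw [add_zero] at h1
    exact (mul_eq_left.1 h1.symm)
  have hgneg : ∀ v, g (-v) = (g v)⁻¹ := by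
    intro v
    apply eq_inv_of_mul_eq_one_left
    rw [← hg, neg_add_cancel, hg0]
  have hgpow : ∀ (v : Fin r → ℤ) (K : ℕ), g (fun l => (K : ℤ) * v l) = g v ^ K := by
    intro v K
    induction K with
    | zero =>
      rw [pow_zero, ← hg0]
      congr 1
      funext l
      simp
    | succ K ih =>
      rw [pow_succ, ← ih, ← hg]
      congr 1
      funext l
      rw [Pi.add_apply]
      push_cast
      ring
  -- the conjugated action
  set g₁ : (Fin r → ℤ) → (PS k d ≃ₐ[k] PS k d) := fun v => θ⁻¹ * g v * θ with hg₁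
  have hg₁add : ∀ u v, g₁ (u + v) = g₁ u * g₁ v := by
    intro u v
    simp only [hg₁, hg]
    group
  have hg₁neg : ∀ v, g₁ (-v) = (g₁ v)⁻¹ := by
    intro v
    simp only [hg₁, hgneg]
    group
  have hg₁0 : g₁ 0 = 1 := by
    simp only [hg₁, hg0]
    group
  -- triangularity
  have hgen : ∀ l, TriDiag (g₁ (Pi.single l 1)) (fun i => χ i l) := by
    intro l
    have hrow : ∀ i, ∃ c : Fin d → k, lin k d (g₁ (Pi.single l 1) (X i)) = c ∧ c i = χ i l ∧
        ∀ j, j < i → c j = 0 := by
      intro i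
      have h1 := htri i l
      have h2 : ∃ c' : Fin d → k, (∀ j, ¬ i < j → c' j = 0) ∧
          lin k d (G l (a i)) - χ i l • lin k d (a i) = ∑ j, c' j • lin k d (a j) := by
        refine Submodule.span_induction (p := fun y _ => ∃ c' : Fin d → k,
          (∀ j, ¬ i < j → c' j = 0) ∧ y = ∑ j, c' j • lin k d (a j)) ?_ ?_ ?_ ?_ h1
        · rintro _ ⟨j, hj, rfl⟩
          refine ⟨Pi.single j 1, ?_, ?_⟩
          · intro j' hj'
            rw [Pi.single_apply, if_neg]
            rintro rfl
            exact hj' hj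
          · rw [Finset.sum_eq_single j]
            · rw [Pi.single_eq_same, one_smul]
            · intro b _ hb
              rw [Pi.single_eq_of_ne hb, zero_smul]
            · intro h; exact absurd (Finset.mem_univ j) h
        · exact ⟨0, by simp, by simp⟩
        · rintro y z _ _ ⟨c, hc, hy⟩ ⟨c', hc', hz⟩
          refine ⟨c + c', ?_, ?_⟩
          · intro j hj; rw [Pi.add_apply, hc j hj, hc' j hj, add_zero]
          · rw [hy, hz, ← Finset.sum_add_distrib]
            apply Finset.sum_congr rfl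
            intro j _
            rw [Pi.add_apply, add_smul]
        · rintro t y _ ⟨c, hc, hy⟩
          refine ⟨t • c, ?_, ?_⟩
          · intro j hj; rw [Pi.smul_apply, hc j hj, smul_zero]
          · rw [hy, Finset.smul_sum]
            apply Finset.sum_congr rfl
            intro j _
            rw [Pi.smul_apply, smul_eq_mul, mul_smul]
      obtain ⟨c', hc', hsum⟩ := h2
      refine ⟨fun j => c' j + (if j = i then χ i l else 0), ?_, ?_, ?_⟩
      · have h3 : (g₁ (Pi.single l 1) : PS k d ≃ₐ[k] PS k d) (X i) =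
            (θ⁻¹ : PS k d ≃ₐ[k] PS k d) (G l (a i)) := by
          rw [← hθ i]
          rfl
        rw [h3]
        apply lin_inv_apply θ _ (constantCoeff_algEquiv' _ _ (ha0 i))
        · rw [sub_eq_iff_eq_add] at hsum
          rw [hsum]
          simp only [hθ, add_smul, Finset.sum_add_distrib]
          congr 1
          rw [Finset.sum_eq_single i]
          · rw [if_pos rfl]
          · intro b _ hb; rw [if_neg hb, zero_smul]
          · intro h; exact absurd (Finset.mem_univ i) h
        · simpa only [hθ] using hli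
      · simp [hc' i (lt_irrefl i)]
      · intro j hj
        simp [hc' j (not_lt.2 hj.le), hj.ne]
    constructor
    · intro i j hij
      obtain ⟨c, h1, _, h3⟩ := hrow i
      have h4 := congrFun h1 j
      rw [lin_apply] at h4
      rw [linMat_apply, h4]
      exact h3 j hij
    · intro i
      obtain ⟨c, h1, h2, _⟩ := hrow i
      have h4 := congrFun h1 i
      rw [lin_apply] at h4
      rw [linMat_apply, h4, h2]
  have hall : ∀ v : Fin r → ℤ, TriDiag (g₁ v) (fun i => ((∏ l, x i l ^ v l : kˣ) : k)) := by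
    let H : AddSubgroup (Fin r → ℤ) :=
      { carrier := {v | TriDiag (g₁ v) (fun i => ((∏ l, x i l ^ v l : kˣ) : k))}
        add_mem' := by
          intro u v hu hv
          change TriDiag (g₁ (u + v)) _
          rw [hg₁add]
          have h1 := triDiag_mul _ _ _ _ hu hv
          have h2 : (fun i => ((∏ l, x i l ^ u l : kˣ) : k) * ((∏ l, x i l ^ v l : kˣ) : k)) =
              fun i => ((∏ l, x i l ^ (u + v) l : kˣ) : k) := by
            funext i
            rw [← Units.val_mul, ← Finset.prod_mul_distrib]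
            simp only [Pi.add_apply, zpow_add]
          rw [h2] at h1
          exact h1
        zero_mem' := by
          change TriDiag (g₁ 0) _
          rw [hg₁0]
          simpa using triDiag_one
        neg_mem' := by
          intro v hv
          change TriDiag (g₁ (-v)) _
          rw [hg₁neg]
          have h1 := triDiag_inv _ _ hv
          have h2 : (fun i => (((∏ l, x i l ^ v l : kˣ) : k))⁻¹) =
              fun i => ((∏ l, x i l ^ (-v) l : kˣ) : k) := by
            funext i
            rw [← Units.val_inv_eq_inv_val, ← Finset.prod_inv_distrib]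
            simp only [Pi.neg_apply, zpow_neg]
          rw [h2] at h1
          exact h1 }
    have hsingle : ∀ l, (Pi.single l 1 : Fin r → ℤ) ∈ H := by
      intro l
      change TriDiag (g₁ (Pi.single l 1)) _
      have h1 := hgen l
      have h2 : (fun i => ((∏ l', x i l' ^ (Pi.single l 1 : Fin r → ℤ) l' : kˣ) : k)) =
          fun i => χ i l := by
        funext i
        rw [Finset.prod_eq_single l]
        · rw [Pi.single_eq_same, zpow_one]; rfl
        · intro b _ hb
          rw [Pi.single_eq_of_ne hb, zpow_zero]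
        · intro h; exact absurd (Finset.mem_univ l) h
      rw [h2]
      exact h1
    intro v
    have hv : v = ∑ l, v l • (Pi.single l 1 : Fin r → ℤ) := pi_eq_sum_univ' v
    have h1 : v ∈ H := by
      rw [hv]
      exact H.sum_mem fun l _ => H.zsmul_mem (hsingle l) (v l)
    exact h1
  -- the values of the characters
  have hxM' : ∀ i l, x i l ^ (M : ℤ) = ∏ j, ψ j l ^ κ i j := by
    intro i l
    have h1 := congrFun (hxM i) l
    rw [Finset.prod_apply] at h1
    exact h1
  -- the new action
  set G₂ : Fin r → PS k d ≃ₐ[k] PS k d := fun l => (θ⁻¹ * G l * θ) ^ M with hG₂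
  have hG₂comm : ∀ i j, Commute (G₂ i) (G₂ j) := by
    intro i j
    apply Commute.pow_pow
    change g₁ _ * g₁ _ = g₁ _ * g₁ _
    rw [← hg₁add, ← hg₁add, add_comm]
  have hXGE : ∀ i, IsGE G₂ (fun l => χ i l ^ M) (X i) := by
    intro i
    apply isGE_pow
    apply isGE_conj
    rw [hθ]
    exact haGE i
  refine ⟨θ, M, s, ψ, κ, hM, ?_, ?_, ?_, ?_, ?_⟩
  · intro m hm
    apply hψ m
    funext l
    rw [Finset.prod_apply]
    exact hm l
  · intro c hc
    funext j
    obtain ⟨n, hnj⟩ := hn j
    have h1 : ∑ i, (n i : k) * ∑ j', c j' * (κ i j' : k) = 0 := by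
      apply Finset.sum_eq_zero
      intro i _
      rw [hc i, mul_zero]
    have h2 : ∑ i, (n i : k) * ∑ j', c j' * (κ i j' : k) =
        ∑ j', c j' * ((∑ i, n i * κ i j' : ℤ) : k) := by
      simp only [Finset.mul_sum]
      rw [Finset.sum_comm]
      apply Finset.sum_congr rfl
      intro j' _
      rw [Int.cast_sum, Finset.mul_sum]
      apply Finset.sum_congr rfl
      intro i _
      rw [Int.cast_mul]
      ring
    rw [h2] at h1
    simp only [hnj] at h1
    rw [Finset.sum_eq_single j] at h1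
    · simpa using h1
    · intro b _ hb
      rw [if_neg (fun e => hb e.symm), Int.cast_zero, mul_zero]
    · intro h; exact absurd (Finset.mem_univ j) h
  · intro v i b hb
    -- homogeneity
    have h1 : IsGE G₂ (fun l => χ i l ^ M)
        ((θ⁻¹ * g (fun l => (M : ℤ) * v l) * θ : PS k d ≃ₐ[k] PS k d) (X i)) := by
      apply isGE_algEquiv _ _ _ _ _ (hXGE i)
      intro j
      apply Commute.pow_right
      change g₁ _ * g₁ _ = g₁ _ * g₁ _
      rw [← hg₁add, ← hg₁add, add_comm]
    have h2 := monomial_eigenvalue G₂ hG₂comm (fun i l => χ i l ^ M) hXGE _ _ h1 b hb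
    have h3 : ∀ l, ∏ j', ψ j' l ^ (wt κ b - κ i) j' = 1 := by
      intro l
      have h4 := congrFun h2 l
      have h5 : (∏ j, (x j l ^ (M : ℤ)) ^ b j : kˣ) = x i l ^ (M : ℤ) := by
        apply Units.ext
        rw [Units.coe_prod]
        simp only [Units.val_pow_eq_pow_val, zpow_natCast]
        exact h4
      simp only [hxM'] at h5
      have h6 : ∏ j, (∏ j', ψ j' l ^ κ j j') ^ b j = ∏ j', ψ j' l ^ wt κ b j' := by
        simp only [← Finset.prod_pow]
        rw [Finset.prod_comm]
        apply Finset.prod_congr rfl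
        intro j' _
        rw [wt, ← prod_zpow_eq_zpow_sum']
        apply Finset.prod_congr rfl
        intro j _
        rw [← zpow_natCast, ← zpow_mul, mul_comm]
      rw [h6] at h5
      simp only [Pi.sub_apply, zpow_sub]
      rw [Finset.prod_mul_distrib, Finset.prod_inv_distrib, h5, mul_inv_cancel]
    have h7 := hψ (wt κ b - κ i) (by
      funext l
      rw [Finset.prod_apply]
      exact h3 l)
    exact sub_eq_zero.1 h7
  · intro v i l hl
    exact (hall (fun l => (M : ℤ) * v l)).1 (show id l < id i from hl)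
  · intro v i
    have h1 := (hall (fun l => (M : ℤ) * v l)).2 i
    rw [linMat_apply] at h1
    refine h1.trans ?_
    unfold chi
    rw [Finset.prod_comm]
    change ((∏ l, x i l ^ ((M : ℤ) * v l) : kˣ) : k) = _
    refine congrArg Units.val (Finset.prod_congr rfl ?_)
    intro l _
    rw [zpow_mul, hxM', ← Finset.prod_zpow]
    apply Finset.prod_congr rfl
    intro j _
    rw [← zpow_mul, mul_comm]

end Pool.Agent.SYZ71
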