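import Pool.Agent.SYZ71.Core

/-!
# SYZ71/Main : section families (the case `K = k` of `core` is in MainK1)
-/

set_option autoImplicit false

open MvPowerSeries Module

namespace Pool.Agent.SYZ71

variable {k : Type*} [Field k]

/-- A family `L D E` (sections of `D A + E α` on a symplectic variety of dimension `2n`,
trivialised at the fixed point): `dim L D E ~ (D E)^n` for `1 ≤ D ≤ E`. -/
structure SectionFamily (n : ℕ) (L : ℕ → ℕ → Submodule k (PS k (2 * n))) : Prop
    extends IsFamily L where
  upper : ∃ C : ℕ, ∀ D E, 1 ≤ D → D ≤ E → finrank k (L D E) ≤ C * (D * E) ^ n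
  lower : ∃ c : ℕ, ∀ D E, 1 ≤ D → D ≤ E → (D * E) ^ n ≤ c * finrank k (L D E)
  trdeg : Algebra.trdeg k (Fld L) = (2 * n : ℕ)

end Pool.Agent.SYZ71
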