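import Pool.Agent.SYZ71.Defs

/-!
# SYZ71/NFDefs : definitions for the local part L

`d` variables, weights `η i = d + i` (`d ≤ η i < 2 d`), `κ i ∈ ℤ^s` the torus weights of the
coordinates, `ψ j l ∈ k^×` the value of the `j`-th basic character on the `l`-th generator.
-/

set_option autoImplicit false

open MvPowerSeries

namespace Pool.Agent.SYZ71

variable {k : Type*} [Field k] {d r s : ℕ}

/-- the weights `d, d+1, …, 2d-1` of the coordinates -/
def eta (d : ℕ) : Fin d → ℕ := fun i => d + i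

/-- torus weight of the monomial `X^a` -/
def wt (κ : Fin d → Fin s → ℤ) (a : Fin d →₀ ℕ) : Fin s → ℤ := fun j => ∑ i, (a i : ℤ) * κ i j

/-- `f` is homogeneous of torus weight `m` -/
def IsHom (κ : Fin d → Fin s → ℤ) (m : Fin s → ℤ) (f : PS k d) : Prop :=
  ∀ a, coeff a f ≠ 0 → wt κ a = m

/-- the value at `v ∈ ℤ^r` of the character `∏_j ψ_j ^ m_j` -/
def chi (ψ : Fin s → Fin r → kˣ) (v : Fin r → ℤ) (m : Fin s → ℤ) : k :=
  ((∏ j, ∏ l, ψ j l ^ (v l * m j) : kˣ) : k)

/-- The Euler derivation `E_j`: multiplication by `m_j` on series of torus weight `m`. -/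
noncomputable def euler (k : Type*) [Field k] {d s : ℕ} (κ : Fin d → Fin s → ℤ) (j : Fin s) :
    Derivation k (PS k d) (PS k d) :=
  ∑ i, ((κ i j : k) • (X i : PS k d)) • pderiv k i

/-- The coordinates are adapted to the commuting automorphisms `g v` (Jordan normal form). -/
structure NF (g : (Fin r → ℤ) → (PS k d ≃ₐ[k] PS k d)) (ψ : Fin s → Fin r → kˣ)
    (κ : Fin d → Fin s → ℤ) : Prop where
  /-- the characters `ψ_j` are multiplicatively independent -/
  indep : ∀ m : Fin s → ℤ, (∀ l, ∏ j, ψ j l ^ m j = 1) → m = 0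
  /-- the weights of the coordinates span -/
  span : ∀ c : Fin s → k, (∀ i, ∑ j, c j * κ i j = 0) → c = 0
  /-- `g v (X i)` is homogeneous of torus weight `κ i` -/
  homog : ∀ v i, IsHom κ (κ i) (g v (X i))
  /-- the linear parts are triangular … -/
  tri : ∀ v i l, l < i → coeff (Finsupp.single l 1) (g v (X i)) = 0
  /-- … with the characters on the diagonal -/
  diag : ∀ v i, coeff (Finsupp.single i 1) (g v (X i)) = chi ψ v (κ i)

/-- The infinitesimal generators of the action: commuting derivations `Y l`, `l < r`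
(logarithms of the unipotent parts), beside the Euler derivations of the torus part. -/
structure LocalData (g : (Fin r → ℤ) → (PS k d ≃ₐ[k] PS k d)) (ψ : Fin s → Fin r → kˣ)
    (κ : Fin d → Fin s → ℤ) (Y : Fin r → Derivation k (PS k d) (PS k d)) : Prop where
  span : ∀ c : Fin s → k, (∀ i, ∑ j, c j * κ i j = 0) → c = 0
  /-- `Y l` raises the `eta`-weight -/
  raise : ∀ l i, ((eta d i + 1 : ℕ) : ℕ∞) ≤ (Y l (X i)).weightedOrder (eta d)
  /-- `Y l` preserves the torus weight -/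
  homog : ∀ l i, IsHom κ (κ i) (Y l (X i))
  comm : ∀ l m, ⁅Y l, Y m⁆ = 0
  /-- `g v = (torus part) ∘ exp (∑ v_l Y_l)` -/
  exp : ∀ (v : Fin r → ℤ) (m : Fin s → ℤ) (f : PS k d), IsHom κ m f → ∀ Θ : ℕ,
    (Θ : ℕ∞) ≤ (g v f - chi ψ v m • ∑ j ∈ Finset.range Θ, ((j.factorial : k)⁻¹) •
      (((∑ l, (v l : k) • (Y l : PS k d →ₗ[k] PS k d)) : Module.End k (PS k d)) ^ j) f).weightedOrder
        (eta d)

/-- the generic rank of the infinitesimal action (Euler derivations and the `Y l`) is `≤ m` -/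
def RankLE (m : ℕ) (κ : Fin d → Fin s → ℤ) (Y : Fin r → Derivation k (PS k d) (PS k d)) : Prop :=
  ∀ t : Fin (m + 1) → Derivation k (PS k d) (PS k d),
    (∀ i, t i ∈ Set.range Y ∪ Set.range (euler k κ)) → ¬ LinearIndependent (PS k d) t

/-- The local interpolation bound with exponent `1 + 1/m`: there are `M, C ≥ 1` such that for all
power series `f_i` and all `v_j ∈ ℕ^r` a nonzero determinant `det (g_(M v_j) f_i)` of size
`φ ≥ 2 C q^m` has order `≥ q φ / 2` (no loss in `v_j`). -/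
def LocalBound (m : ℕ) (g : (Fin r → ℤ) → (PS k d ≃ₐ[k] PS k d)) : Prop :=
  ∃ M C : ℕ, 1 ≤ M ∧ 1 ≤ C ∧ ∀ (φ q : ℕ) (f : Fin φ → PS k d) (v : Fin φ → Fin r → ℕ),
    1 ≤ q → 2 * C * q ^ m ≤ φ →
    (Matrix.of fun i j => g (fun l => ((M * v j l : ℕ) : ℤ)) (f i)).det ≠ 0 →
    ((q * φ : ℕ) : ℕ∞) ≤
      2 * (Matrix.of fun i j => g (fun l => ((M * v j l : ℕ) : ℤ)) (f i)).det.order

end Pool.Agent.SYZ71
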